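import Pool.Agent.Lib_helper80.Vu.Stmts

/-!
# Vu's conjecture: Lemma A (i), (ii)   (helper76)
-/

set_option autoImplicit false

open scoped Classical
open Finset

noncomputable section

namespace Vu80

namespace A12

section Pr

variable {I : Type} [Fintype I] {p : I → ℝ}

theorem wt_nonneg (hp : ∀ i, 0 ≤ p i ∧ p i ≤ 1) (ξ : I → Bool) : 0 ≤ wt p ξ := by
  refine Finset.prod_nonneg fun i _ => ?_
  split_ifs
  · exact (hp i).1
  · linarith [(hp i).2]

theorem Ex_mono (hp : ∀ i, 0 ≤ p i ∧ p i ≤ 1) {f g : (I → Bool) → ℝ} (h : ∀ ξ, f ξ ≤ g ξ) :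
    Ex p f ≤ Ex p g :=
  Finset.sum_le_sum fun ξ _ => mul_le_mul_of_nonneg_left (h ξ) (wt_nonneg hp ξ)

theorem Ex_sum {J : Type} (A : Finset J) (f : J → (I → Bool) → ℝ) :
    Ex p (fun ξ => ∑ j ∈ A, f j ξ) = ∑ j ∈ A, Ex p (f j) := by
  unfold Ex
  rw [Finset.sum_comm]
  exact Finset.sum_congr rfl fun ξ _ => Finset.mul_sum _ _ _

theorem Ex_mul (c : ℝ) (f : (I → Bool) → ℝ) : Ex p (fun ξ => c * f ξ) = c * Ex p f := by
  unfold Ex
  rw [Finset.mul_sum]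
  exact Finset.sum_congr rfl fun ξ _ => by ring

theorem markov (hp : ∀ i, 0 ≤ p i ∧ p i ≤ 1) {F : (I → Bool) → ℝ} (hF : ∀ ξ, 0 ≤ F ξ) {c : ℝ}
    (hc : 0 < c) : Pr p (fun ξ => c ≤ F ξ) ≤ c⁻¹ * Ex p F := by
  rw [← Ex_mul]
  refine Ex_mono hp fun ξ => ?_
  split_ifs with h
  · rw [inv_mul_eq_div, le_div_iff₀ hc, one_mul]
    exact h
  · exact mul_nonneg (inv_nonneg.2 hc.le) (hF ξ)

end Pr

section Graph

variable {V : Type} [Fintype V]

omit [Fintype V] in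
theorem phi_nonneg (G : SimpleGraph V) (Q : Finset V) (z : V) : 0 ≤ phi G Q z := by
  unfold phi
  positivity

theorem sum_phi_le (G : SimpleGraph V) {Q : Finset V} (hQ : 1 ≤ Q.card) {Δ : ℕ}
    (hd : ∀ v, (univ.filter (fun u => G.Adj v u)).card ≤ Δ) : ∑ z, phi G Q z ≤ Δ := by
  have h0 : (0 : ℝ) < Q.card := by exact_mod_cast hQ
  unfold phi
  rw [← Finset.sum_div, div_le_iff₀ h0]
  have h1 : ∑ z, ((Q.filter (fun u => G.Adj z u)).card : ℝ) =
      ∑ u ∈ Q, ((univ.filter (fun z => G.Adj u z)).card : ℝ) := by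
    simp only [Finset.card_filter, Nat.cast_sum]
    rw [Finset.sum_comm]
    refine Finset.sum_congr rfl fun u _ => Finset.sum_congr rfl fun z _ => ?_
    rw [G.adj_comm]
  rw [h1]
  refine (Finset.sum_le_card_nsmul Q _ (Δ : ℝ) fun u _ => by exact_mod_cast hd u).trans ?_
  rw [nsmul_eq_mul, mul_comm]

theorem sum_phi_sq_le (G : SimpleGraph V) {Q : Finset V} {M0 : ℕ} (hM : 1 ≤ M0)
    (hQ : M0 ≤ Q.card) {Δ : ℕ} {ζ : ℝ} (hζ : 0 ≤ ζ)
    (hd : ∀ v, (univ.filter (fun u => G.Adj v u)).card ≤ Δ)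
    (hc : ∀ u v, u ≠ v → (((univ.filter (fun z => G.Adj u z) ∩
      univ.filter (fun z => G.Adj v z)).card : ℕ) : ℝ) ≤ ζ * Δ) :
    ∑ z, phi G Q z ^ 2 ≤ (ζ + 1 / M0) * Δ := by
  have hQ1 : 1 ≤ Q.card := hM.trans hQ
  have h0 : (0 : ℝ) < Q.card := by exact_mod_cast hQ1
  have hM0 : (0 : ℝ) < M0 := by exact_mod_cast hM
  have hQM : (M0 : ℝ) ≤ Q.card := by exact_mod_cast hQ
  have h1 : ∑ z, ((Q.filter (fun u => G.Adj z u)).card : ℝ) ^ 2 =
      ∑ u ∈ Q, ∑ v ∈ Q, (((univ.filter (fun z => G.Adj u z) ∩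
        univ.filter (fun z => G.Adj v z)).card : ℕ) : ℝ) := by
    have e1 : ∀ z, ((Q.filter (fun u => G.Adj z u)).card : ℝ) ^ 2 =
        ∑ u ∈ Q, ∑ v ∈ Q, (if G.Adj z u then (1 : ℝ) else 0) * (if G.Adj z v then 1 else 0) := by
      intro z
      rw [← Finset.sum_mul_sum, sq, Finset.card_filter, Nat.cast_sum]
      congr 1 <;>
      · refine Finset.sum_congr rfl fun u _ => ?_
        split_ifs <;> simp
    simp only [e1]
    rw [Finset.sum_comm]
    refine Finset.sum_congr rfl fun u _ => ?_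
    rw [Finset.sum_comm]
    refine Finset.sum_congr rfl fun v _ => ?_
    rw [← Finset.filter_and, Finset.card_filter, Nat.cast_sum]
    refine Finset.sum_congr rfl fun z _ => ?_
    rw [G.adj_comm z u, G.adj_comm z v]
    by_cases hu : G.Adj u z <;> by_cases hv : G.Adj v z <;> simp [hu, hv]
  have h2 : ∑ u ∈ Q, ∑ v ∈ Q, (((univ.filter (fun z => G.Adj u z) ∩
        univ.filter (fun z => G.Adj v z)).card : ℕ) : ℝ) ≤
      Q.card * (Q.card * (ζ * Δ) + Δ) := by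
    have e1 : ∀ u ∈ Q, ∑ v ∈ Q, (((univ.filter (fun z => G.Adj u z) ∩
        univ.filter (fun z => G.Adj v z)).card : ℕ) : ℝ) ≤ Q.card * (ζ * Δ) + Δ := by
      intro u hu
      have e2 : ∀ v ∈ Q, (((univ.filter (fun z => G.Adj u z) ∩
          univ.filter (fun z => G.Adj v z)).card : ℕ) : ℝ) ≤
          ζ * Δ + (if v = u then (Δ : ℝ) else 0) := by
        intro v _
        have hpos : 0 ≤ ζ * Δ := by positivity
        split_ifs with h
        · subst h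
          rw [Finset.inter_self]
          have : ((univ.filter (fun z => G.Adj v z)).card : ℝ) ≤ Δ := by exact_mod_cast hd v
          linarith
        · rw [add_zero]
          exact hc u v (Ne.symm h)
      refine (Finset.sum_le_sum e2).trans ?_
      rw [Finset.sum_add_distrib, Finset.sum_const, nsmul_eq_mul, Finset.sum_ite_eq' Q u, if_pos hu]
    refine (Finset.sum_le_sum e1).trans ?_
    rw [Finset.sum_const, nsmul_eq_mul]
  have h3 : ∑ z, phi G Q z ^ 2 =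
      (∑ z, ((Q.filter (fun u => G.Adj z u)).card : ℝ) ^ 2) / (Q.card : ℝ) ^ 2 := by
    unfold phi
    simp only [div_pow]
    rw [Finset.sum_div]
  rw [h3, div_le_iff₀ (by positivity), h1]
  refine h2.trans ?_
  have h4 : (Q.card : ℝ) ≤ 1 / M0 * (Q.card : ℝ) ^ 2 := by
    rw [one_div, inv_mul_eq_div, le_div_iff₀ hM0]
    nlinarith
  have hΔ : (0 : ℝ) ≤ Δ := Nat.cast_nonneg _
  have h5 : (Q.card : ℝ) * Δ ≤ 1 / M0 * (Q.card : ℝ) ^ 2 * Δ := mul_le_mul_of_nonneg_right h4 hΔ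
  calc (Q.card : ℝ) * (Q.card * (ζ * Δ) + Δ) = ζ * Δ * (Q.card : ℝ) ^ 2 + Q.card * Δ := by ring
    _ ≤ ζ * Δ * (Q.card : ℝ) ^ 2 + 1 / M0 * (Q.card : ℝ) ^ 2 * Δ := by linarith
    _ = (ζ + 1 / M0) * Δ * (Q.card : ℝ) ^ 2 := by ring

end Graph

theorem rt_mem {P : Par} {V X : Type} [Fintype V] [Fintype X] {C : Cov V X} {p : ℕ → X → ℝ}
    (hp : Rates P C p) (i : Fin P.R × X) : 0 ≤ rt P.R p i ∧ rt P.R p i ≤ 1 :=
  ⟨hp.nonneg _ _, (hp.le _ _).trans P.hpm1⟩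

theorem sum_com_le {V X : Type} [Fintype V] [Fintype X] (C : Cov V X) {a : ℕ} {A : Finset X}
    (hA : ∀ h ∈ A, C.pc h = a) {f : V → ℝ} (hf : ∀ z, 0 ≤ f z) :
    ∑ h ∈ A, f (C.pv h) ≤ ∑ z, f z := by
  have hinj : Set.InjOn C.pv (A : Set X) := by
    intro x hx y hy hxy
    exact C.inj x y hxy ((hA x hx).trans (hA y hy).symm)
  rw [← Finset.sum_image (f := f) hinj]
  exact Finset.sum_le_sum_of_subset_of_nonneg (Finset.subset_univ _) fun z _ _ => hf z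

end A12

open A12

theorem a1 : S_A1 := by
  intro P V X _ _ C hC p hp s hs hflow a Q hQ ν
  set Hd := (com C a Q ν).filter (fun h => 1 - P.η ≤ phi C.G Q (C.pv h)) with hHd
  have hℓ : (0 : ℝ) < P.ℓ := by exact_mod_cast P.hℓ
  have h1 : Pr (rt P.R p) (fun ξ => ∃ t < s, ∃ h ∈ com C a Q ν, 1 - P.η ≤ phi C.G Q (C.pv h) ∧
      act C.nb ξ t h) ≤ ∑ h ∈ Hd, ∑ t ∈ range s, pact C.nb P.R p t h := by
    have e1 : ∑ h ∈ Hd, ∑ t ∈ range s, pact C.nb P.R p t h =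
        Ex (rt P.R p) (fun ξ => ∑ h ∈ Hd, ∑ t ∈ range s,
          (if act C.nb ξ t h then (1 : ℝ) else 0)) := by
      rw [Ex_sum]
      refine Finset.sum_congr rfl fun h _ => ?_
      rw [Ex_sum]
      rfl
    rw [e1]
    refine Ex_mono (rt_mem hp) fun ξ => ?_
    have hpos : ∀ h ∈ Hd, 0 ≤ ∑ t ∈ range s, (if act C.nb ξ t h then (1 : ℝ) else 0) :=
      fun h _ => Finset.sum_nonneg fun t _ => by split_ifs <;> norm_num
    split_ifs with h
    · obtain ⟨t, ht, h, hh, hη, hact⟩ := h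
      have h2 : h ∈ Hd := Finset.mem_filter.2 ⟨hh, hη⟩
      refine le_trans ?_ (Finset.single_le_sum hpos h2)
      refine le_trans ?_ (Finset.single_le_sum
        (f := fun t => (if act C.nb ξ t h then (1 : ℝ) else 0))
        (fun t _ => by split_ifs <;> norm_num) (Finset.mem_range.2 ht))
      rw [if_pos hact]
    · exact Finset.sum_nonneg hpos
  have h2 : ∑ h ∈ Hd, ∑ t ∈ range s, pact C.nb P.R p t h ≤ Hd.card * ((1 + P.γ) / P.ℓ) := by
    refine (Finset.sum_le_sum fun h _ => hflow h).trans ?_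
    rw [Finset.sum_const, nsmul_eq_mul]
  have hη : 0 < 1 - P.η := by linarith [P.hη']
  have h3 : (Hd.card : ℝ) * (1 - P.η) ^ 2 ≤ (P.ζ + 1 / P.M0) * P.Δ := by
    refine le_trans ?_ (sum_phi_sq_le C.G P.hM0 hQ P.hζ.le hC.deg hC.codeg)
    refine le_trans ?_ (sum_com_le C (a := a) (A := Hd) (f := fun z => phi C.G Q z ^ 2) ?_
      fun z => sq_nonneg _)
    · rw [← nsmul_eq_mul]
      refine Finset.card_nsmul_le_sum _ _ _ fun h hh => ?_
      exact pow_le_pow_left₀ hη.le (Finset.mem_filter.1 hh).2 2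
    · intro h hh
      exact (Finset.mem_filter.1 (Finset.mem_filter.1 hh).1).2.1
  refine (h1.trans h2).trans ?_
  have hγ : 0 ≤ 1 + P.γ := by linarith [P.hγ]
  have h4 : (Hd.card : ℝ) * (1 + P.γ) * (1 - P.η) ^ 2 ≤ (1 - P.κ) * P.ℓ * (1 - P.η) ^ 2 := by
    calc (Hd.card : ℝ) * (1 + P.γ) * (1 - P.η) ^ 2 =
        (1 + P.γ) * ((Hd.card : ℝ) * (1 - P.η) ^ 2) := by ring
      _ ≤ (1 + P.γ) * ((P.ζ + 1 / P.M0) * P.Δ) := mul_le_mul_of_nonneg_left h3 hγ
      _ = (1 + P.γ) * (P.ζ + 1 / P.M0) * P.Δ := by ring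
      _ ≤ (1 - P.κ) * (1 - P.η) ^ 2 * P.ℓ := P.hA1
      _ = _ := by ring
  have h5 := le_of_mul_le_mul_right h4 (by positivity)
  rw [← mul_div_assoc, div_le_iff₀ hℓ]
  exact h5

theorem a2 : S_A2 := by
  intro P V X _ _ C hC p hp s hs hflow a Q hQ ν
  have hℓ : (0 : ℝ) < P.ℓ := by exact_mod_cast P.hℓ
  have hκ := P.hκ
  have hζ := P.hζ
  have hγ : 0 ≤ 1 + P.γ := by linarith [P.hγ]
  have hc : 0 < 8 / (P.κ * P.ζ) := by positivity
  refine (markov (rt_mem hp) (fun ξ => ?_) hc).trans ?_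
  · exact Finset.sum_nonneg fun t _ => Finset.sum_nonneg fun h _ => phi_nonneg _ _ _
  have h1 : Ex (rt P.R p) (fun ξ => ∑ t ∈ range s,
      ∑ h ∈ (com C a Q ν).filter (fun h => act C.nb ξ t h), phi C.G Q (C.pv h)) =
      ∑ h ∈ com C a Q ν, phi C.G Q (C.pv h) * ∑ t ∈ range s, pact C.nb P.R p t h := by
    rw [Ex_sum]
    simp only [Finset.mul_sum]
    rw [Finset.sum_comm]
    refine Finset.sum_congr rfl fun t _ => ?_
    have e1 : ∀ ξ : Coins P.R X, ∑ h ∈ (com C a Q ν).filter (fun h => act C.nb ξ t h),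
        phi C.G Q (C.pv h) = ∑ h ∈ com C a Q ν,
          phi C.G Q (C.pv h) * (if act C.nb ξ t h then 1 else 0) := by
      intro ξ
      rw [Finset.sum_filter]
      refine Finset.sum_congr rfl fun h _ => ?_
      split_ifs <;> simp
    simp only [e1]
    rw [Ex_sum]
    exact Finset.sum_congr rfl fun h _ => Ex_mul _ _
  rw [h1]
  have h2 : ∑ h ∈ com C a Q ν, phi C.G Q (C.pv h) * ∑ t ∈ range s, pact C.nb P.R p t h ≤
      P.Δ * ((1 + P.γ) / P.ℓ) := by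
    calc ∑ h ∈ com C a Q ν, phi C.G Q (C.pv h) * ∑ t ∈ range s, pact C.nb P.R p t h ≤
        ∑ h ∈ com C a Q ν, phi C.G Q (C.pv h) * ((1 + P.γ) / P.ℓ) :=
          Finset.sum_le_sum fun h _ => mul_le_mul_of_nonneg_left (hflow h) (phi_nonneg _ _ _)
      _ = (∑ h ∈ com C a Q ν, phi C.G Q (C.pv h)) * ((1 + P.γ) / P.ℓ) :=
          (Finset.sum_mul _ _ _).symm
      _ ≤ _ := by
        refine mul_le_mul_of_nonneg_right ?_ (by positivity)
        refine (sum_com_le C (a := a) (A := com C a Q ν) (f := fun z => phi C.G Q z)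
          (fun h hh => (Finset.mem_filter.1 hh).2.1) (fun z => phi_nonneg C.G Q z)).trans ?_
        exact sum_phi_le C.G (P.hM0.trans hQ) hC.deg
  have h3 : P.Δ * ((1 + P.γ) / P.ℓ) ≤ 2 / P.ζ := by
    rw [← mul_div_assoc, div_le_iff₀ hℓ]
    exact (mul_comm _ _).trans_le P.hA2
  calc (8 / (P.κ * P.ζ))⁻¹ * ∑ h ∈ com C a Q ν, phi C.G Q (C.pv h) *
      ∑ t ∈ range s, pact C.nb P.R p t h ≤ (8 / (P.κ * P.ζ))⁻¹ * (2 / P.ζ) :=
        mul_le_mul_of_nonneg_left (h2.trans h3) (inv_nonneg.2 hc.le)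
    _ = P.κ / 4 := by
      field_simp
      norm_num

end Vu80
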