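import Pool.Agent.Lib_helper80.Vu.Stmts

/-!
# Vu's conjecture (list version): Lemma A (iii), (iv)
-/

set_option autoImplicit false

open scoped Classical
open Finset

noncomputable section

namespace Vu80

namespace A34

/-! ### Expectations -/

section Prob

variable {I : Type} [Fintype I] {p : I → ℝ}

theorem wt_nonneg (hp : ∀ i, 0 ≤ p i ∧ p i ≤ 1) (ξ : I → Bool) : 0 ≤ wt p ξ := by
  unfold wt
  apply Finset.prod_nonneg
  intro i _
  split_ifs
  · exact (hp i).1
  · linarith [(hp i).2]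

theorem sum_wt (p : I → ℝ) : ∑ ξ : I → Bool, wt p ξ = 1 := by
  have h1 : ∑ ξ : I → Bool, wt p ξ = ∏ i : I, ∑ b : Bool, (if b = true then p i else 1 - p i) := by
    rw [Finset.prod_univ_sum]
    apply Finset.sum_congr
    · ext ξ
      simp
    · intro ξ _
      rfl
  rw [h1]
  apply Finset.prod_eq_one
  intro i _
  simp

theorem Ex_mono (hp : ∀ i, 0 ≤ p i ∧ p i ≤ 1) {f g : (I → Bool) → ℝ} (h : ∀ ξ, f ξ ≤ g ξ) :
    Ex p f ≤ Ex p g := by
  unfold Ex
  apply Finset.sum_le_sum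
  intro ξ _
  exact mul_le_mul_of_nonneg_left (h ξ) (wt_nonneg hp ξ)

theorem Ex_const (p : I → ℝ) (c : ℝ) : Ex p (fun _ => c) = c := by
  unfold Ex
  rw [← Finset.sum_mul, sum_wt, one_mul]

theorem Ex_sum {J : Type} (A : Finset J) (f : J → (I → Bool) → ℝ) :
    Ex p (fun ξ => ∑ j ∈ A, f j ξ) = ∑ j ∈ A, Ex p (f j) := by
  unfold Ex
  rw [Finset.sum_comm]
  apply Finset.sum_congr rfl
  intro ξ _
  rw [Finset.mul_sum]

theorem Ex_mul_left (c : ℝ) (f : (I → Bool) → ℝ) : Ex p (fun ξ => c * f ξ) = c * Ex p f := by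
  unfold Ex
  rw [Finset.mul_sum]
  apply Finset.sum_congr rfl
  intro ξ _
  ring

/-- A coin and a function which does not depend on it. -/
theorem Ex_coin (i : I) (f : (I → Bool) → ℝ) (hf : Dep {j | j ≠ i} f) :
    Ex p (fun ξ => if ξ i = true then f ξ else 0) = p i * Ex p f := by
  -- weights without the coin `i`
  let W : (I → Bool) → ℝ := fun ξ => ∏ j ∈ Finset.univ.erase i, (if ξ j = true then p j else 1 - p j)
  have hW : ∀ ξ, wt p ξ = (if ξ i = true then p i else 1 - p i) * W ξ := by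
    intro ξ
    unfold wt
    exact (Finset.mul_prod_erase Finset.univ (fun j => if ξ j = true then p j else 1 - p j)
      (Finset.mem_univ i)).symm
  have hWu : ∀ (ξ : I → Bool) (b : Bool), W (Function.update ξ i b) = W ξ := by
    intro ξ b
    apply Finset.prod_congr rfl
    intro j hj
    rw [Function.update_of_ne (Finset.ne_of_mem_erase hj)]
  have hfu : ∀ (ξ : I → Bool) (b : Bool), f (Function.update ξ i b) = f ξ := by
    intro ξ b
    apply hf
    intro j hj
    exact Function.update_of_ne hj _ _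
  have hswap : ∑ ξ : I → Bool, (if ξ i = true then 0 else W ξ * f ξ) =
      ∑ ξ : I → Bool, (if ξ i = true then W ξ * f ξ else 0) := by
    let e : (I → Bool) ≃ (I → Bool) :=
      { toFun := fun ξ => Function.update ξ i (! ξ i)
        invFun := fun ξ => Function.update ξ i (! ξ i)
        left_inv := by
          intro ξ
          simp
        right_inv := by
          intro ξ
          simp }
    apply Fintype.sum_equiv e
    intro ξ
    change (if ξ i = true then 0 else W ξ * f ξ) =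
      if Function.update ξ i (! ξ i) i = true then W (Function.update ξ i (! ξ i)) *
        f (Function.update ξ i (! ξ i)) else 0
    rw [hWu, hfu, Function.update_self]
    cases ξ i <;> simp
  unfold Ex
  have h1 : ∀ ξ : I → Bool, wt p ξ * (if ξ i = true then f ξ else 0) =
      p i * (if ξ i = true then W ξ * f ξ else 0) := by
    intro ξ
    rw [hW]
    split_ifs
    · ring
    · ring
  have h2 : ∀ ξ : I → Bool, wt p ξ * f ξ = p i * (if ξ i = true then W ξ * f ξ else 0) +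
      (1 - p i) * (if ξ i = true then 0 else W ξ * f ξ) := by
    intro ξ
    rw [hW]
    split_ifs
    · ring
    · ring
  have e1 : ∑ ξ : I → Bool, wt p ξ * (if ξ i = true then f ξ else 0) =
      p i * ∑ ξ : I → Bool, (if ξ i = true then W ξ * f ξ else 0) := by
    rw [Finset.mul_sum]
    exact Finset.sum_congr rfl (fun ξ _ => h1 ξ)
  have e2 : ∑ ξ : I → Bool, wt p ξ * f ξ =
      p i * ∑ ξ : I → Bool, (if ξ i = true then W ξ * f ξ else 0) +
        (1 - p i) * ∑ ξ : I → Bool, (if ξ i = true then 0 else W ξ * f ξ) := by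
    rw [Finset.mul_sum, Finset.mul_sum, ← Finset.sum_add_distrib]
    exact Finset.sum_congr rfl (fun ξ _ => h2 ξ)
  rw [e1, e2, hswap]
  ring

theorem Pr_le_Ex (hp : ∀ i, 0 ≤ p i ∧ p i ≤ 1) {A : (I → Bool) → Prop} {f : (I → Bool) → ℝ}
    (h : ∀ ξ, A ξ → 1 ≤ f ξ) (h0 : ∀ ξ, 0 ≤ f ξ) : Pr p A ≤ Ex p f := by
  unfold Pr
  apply Ex_mono hp
  intro ξ
  split_ifs with hA
  · exact h ξ hA
  · exact h0 ξ

end Prob

/-! ### The process -/

section Process

variable {R : ℕ} {X : Type}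

theorem on_congr {ξ ξ' : Coins R X} {t : ℕ} (h : ∀ i : Fin R × X, (i.1 : ℕ) < t → ξ i = ξ' i)
    {t' : ℕ} (ht : t' < t) (x : X) : on ξ t' x ↔ on ξ' t' x := by
  unfold on
  constructor
  · rintro ⟨h1, h2⟩
    exact ⟨h1, by rw [← h _ (by simpa using ht)]; exact h2⟩
  · rintro ⟨h1, h2⟩
    exact ⟨h1, by rw [h _ (by simpa using ht)]; exact h2⟩

theorem blk_congr (nb : X → Finset X) {ξ ξ' : Coins R X} {t : ℕ}
    (h : ∀ i : Fin R × X, (i.1 : ℕ) < t → ξ i = ξ' i) :
    ∀ t' ≤ t, ∀ x, blk nb ξ t' x ↔ blk nb ξ' t' x := by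
  intro t'
  induction t' with
  | zero =>
    intro _ x
    exact Iff.rfl
  | succ t' ih =>
    intro ht x
    have h1 := ih (by omega)
    have h2 := fun y => on_congr h (show t' < t by omega) y
    change (blk nb ξ t' x ∨ ∃ y ∈ nb x, on ξ t' y ∧ ¬ blk nb ξ t' y) ↔
      (blk nb ξ' t' x ∨ ∃ y ∈ nb x, on ξ' t' y ∧ ¬ blk nb ξ' t' y)
    simp only [h1, h2]

theorem act_congr (nb : X → Finset X) {ξ ξ' : Coins R X} {t : ℕ}
    (h : ∀ i : Fin R × X, (i.1 : ℕ) < t → ξ i = ξ' i) {t' : ℕ} (ht : t' < t) (x : X) :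
    act nb ξ t' x ↔ act nb ξ' t' x := by
  unfold act
  rw [on_congr h ht, blk_congr nb h t' ht.le]

/-- the set `Ut` does not depend on the coins of round `t` -/
theorem Ut_congr {V X : Type} [Fintype V] [Fintype X] (C : Cov V X) {R : ℕ} (Q : Finset V)
    (W : Finset X) {ξ ξ' : Coins R X} {t : ℕ}
    (h : ∀ i : Fin R × X, (i.1 : ℕ) < t → ξ i = ξ' i) : Ut C Q W ξ t = Ut C Q W ξ' t := by
  unfold Ut
  apply Finset.filter_congr
  intro u _
  constructor
  · intro h1 t' ht' x hx hact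
    exact h1 t' ht' x hx ((act_congr C.nb h ht' x).2 hact)
  · intro h1 t' ht' x hx hact
    exact h1 t' ht' x hx ((act_congr C.nb h ht' x).1 hact)

end Process

/-! ### The deterministic part -/

section Det

variable {V X : Type} [Fintype V] [Fintype X]

omit [Fintype V] [Fintype X] in
theorem phi_nonneg (G : SimpleGraph V) (Q : Finset V) (z : V) : 0 ≤ phi G Q z := by
  unfold phi
  positivity

theorem sum_phi_le (G : SimpleGraph V) (Q : Finset V) (hQ : Q.Nonempty) (Δ : ℕ)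
    (hΔ : ∀ v, (univ.filter (fun u => G.Adj v u)).card ≤ Δ) : ∑ z, phi G Q z ≤ Δ := by
  have hQ' : (0 : ℝ) < Q.card := by exact_mod_cast hQ.card_pos
  have h1 : ∑ z, phi G Q z = (∑ z, ((Q.filter (fun u => G.Adj z u)).card : ℝ)) / Q.card := by
    unfold phi
    rw [Finset.sum_div]
  have h2 : ∑ z : V, ((Q.filter (fun u => G.Adj z u)).card : ℝ) =
      ∑ u ∈ Q, ((univ.filter (fun z => G.Adj u z)).card : ℝ) := by
    have e1 : ∀ z : V, ((Q.filter (fun u => G.Adj z u)).card : ℝ) =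
        ∑ u ∈ Q, (if G.Adj z u then (1 : ℝ) else 0) := by
      intro z
      rw [Finset.sum_boole]
    have e2 : ∀ u : V, ((univ.filter (fun z => G.Adj u z)).card : ℝ) =
        ∑ z : V, (if G.Adj z u then (1 : ℝ) else 0) := by
      intro u
      rw [Finset.sum_boole]
      simp only [SimpleGraph.adj_comm]
    rw [Finset.sum_congr rfl (fun z _ => e1 z), Finset.sum_congr rfl (fun u _ => e2 u),
      Finset.sum_comm]
  rw [h1, h2, div_le_iff₀ hQ']
  calc ∑ u ∈ Q, ((univ.filter (fun z => G.Adj u z)).card : ℝ) ≤ ∑ u ∈ Q, (Δ : ℝ) := by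
        apply Finset.sum_le_sum
        intro u _
        exact_mod_cast hΔ u
    _ = Δ * Q.card := by
        rw [Finset.sum_const, nsmul_eq_mul, mul_comm]

theorem sum_com_le (C : Cov V X) (a : ℕ) (Q : Finset V) (ν : ℝ) (f : V → ℝ) (hf : ∀ z, 0 ≤ f z) :
    ∑ h ∈ com C a Q ν, f (C.pv h) ≤ ∑ z, f z := by
  have hinj : Set.InjOn C.pv (com C a Q ν : Finset X) := by
    intro x hx y hy hxy
    have hx' := (Finset.mem_filter.1 (Finset.mem_coe.1 hx)).2.1
    have hy' := (Finset.mem_filter.1 (Finset.mem_coe.1 hy)).2.1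
    exact C.inj x y hxy (hx'.trans hy'.symm)
  rw [← Finset.sum_image (f := f) hinj]
  apply Finset.sum_le_univ_sum_of_nonneg
  exact hf

theorem card_com_le (C : Cov V X) (a : ℕ) (Q : Finset V) (hQ : Q.Nonempty) (Δ : ℕ)
    (hΔ : ∀ v, (C.N v).card ≤ Δ) {ν : ℝ} (hν : 0 < ν) :
    ((com C a Q ν).card : ℝ) ≤ Δ / ν := by
  rw [le_div_iff₀ hν]
  calc ((com C a Q ν).card : ℝ) * ν = ∑ h ∈ com C a Q ν, ν := by
        rw [Finset.sum_const, nsmul_eq_mul]
    _ ≤ ∑ h ∈ com C a Q ν, phi C.G Q (C.pv h) := by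
        apply Finset.sum_le_sum
        intro h hh
        exact (Finset.mem_filter.1 hh).2.2
    _ ≤ ∑ z, phi C.G Q z := sum_com_le C a Q ν _ (phi_nonneg C.G Q)
    _ ≤ Δ := sum_phi_le C.G Q hQ Δ hΔ

theorem sum_dev_le (C : Cov V X) (a : ℕ) (Q : Finset V) (hQ : Q.Nonempty) (Δ : ℕ)
    (hΔ : ∀ v, (C.N v).card ≤ Δ) {ν : ℝ} (hν : 0 < ν) {β e ρ : ℝ} (hβ : 0 < β)
    (hρ : 0 ≤ ρ) (heν : e ≤ ν * ρ ^ 2) (hst : Stable C.G Q β (e * Δ)) (U : Finset V)
    (hU : U ⊆ Q) :
    ∑ h ∈ com C a Q ν, (if β * Q.card ≤ U.card then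
      |phi C.G U (C.pv h) - phi C.G Q (C.pv h)| else 0) ≤ Δ * ρ := by
  have hQ' : (0 : ℝ) < Q.card := by exact_mod_cast hQ.card_pos
  by_cases hc : β * Q.card ≤ U.card
  · simp only [if_pos hc]
    have hUne : U.Nonempty := by
      rw [← Finset.card_pos]
      have : (0 : ℝ) < U.card := lt_of_lt_of_le (mul_pos hβ hQ') hc
      exact_mod_cast this
    have h1 := hst U hU hUne hc
    have h2 : ∑ h ∈ com C a Q ν, |phi C.G U (C.pv h) - phi C.G Q (C.pv h)| ^ 2 ≤ e * Δ := by
      refine le_trans (sum_com_le C a Q ν (fun z => |phi C.G U z - phi C.G Q z| ^ 2) ?_) ?_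
      · intro z
        positivity
      · simp only [sq_abs]
        exact h1
    have h3 := sq_sum_le_card_mul_sum_sq (s := com C a Q ν)
      (f := fun h => |phi C.G U (C.pv h) - phi C.G Q (C.pv h)|)
    have h4 := card_com_le C a Q hQ Δ hΔ hν
    have h5 : (∑ h ∈ com C a Q ν, |phi C.G U (C.pv h) - phi C.G Q (C.pv h)|) ^ 2 ≤
        (Δ * ρ) ^ 2 := by
      calc (∑ h ∈ com C a Q ν, |phi C.G U (C.pv h) - phi C.G Q (C.pv h)|) ^ 2
          ≤ (com C a Q ν).card * ∑ h ∈ com C a Q ν,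
              |phi C.G U (C.pv h) - phi C.G Q (C.pv h)| ^ 2 := h3
        _ ≤ (Δ / ν) * (e * Δ) := by
            apply mul_le_mul h4 h2
            · apply Finset.sum_nonneg
              intro h _
              positivity
            · positivity
        _ ≤ (Δ / ν) * (ν * ρ ^ 2 * Δ) := by
            apply mul_le_mul_of_nonneg_left _ (by positivity)
            exact mul_le_mul_of_nonneg_right heν (by positivity)
        _ = (Δ * ρ) ^ 2 := by
            field_simp
    exact le_of_sq_le_sq h5 (by positivity)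
  · simp only [if_neg hc, Finset.sum_const_zero]
    positivity

end Det

section Par

variable (P : Par)

theorem pm_pos : 0 < P.pm := by
  unfold Par.pm
  have h1 := P.hε0
  have h2 := P.hδ
  have h3 : (0 : ℝ) < P.ℓ := by exact_mod_cast P.hℓ
  positivity

theorem pm_le_one : P.pm ≤ 1 := P.hpm1

theorem pmRD : P.pm * P.R * P.Δ ≤ P.Θ := by
  have h1 := P.hpmΘ
  have h2 := pm_pos P
  have h3 : P.pm * P.R * P.Δ ≤ P.pm * P.R * (P.Δ + P.ℓ) := by
    apply mul_le_mul_of_nonneg_left _ (by positivity)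
    have : (0 : ℝ) ≤ P.ℓ := by positivity
    linarith
  exact h3.trans h1

theorem numin_pos : 0 < P.numin := by
  unfold Par.numin
  have := P.hr
  positivity

end Par

end A34

/-- Lemma A (iv) -/
theorem a4 : S_A4 := by
  intro P V X _ _ C hC p hp s hs a Q hQ ν hν
  have hpm0 := A34.pm_pos P
  have hpm1 := A34.pm_le_one P
  have hnu := A34.numin_pos P
  have hν0 : 0 < ν := lt_of_lt_of_le hnu hν
  have hQne : Q.Nonempty := by
    rw [← Finset.card_pos]
    have := P.hM0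
    omega
  have hrt : ∀ i, 0 ≤ rt P.R p i ∧ rt P.R p i ≤ 1 := fun i =>
    ⟨hp.nonneg _ _, (hp.le _ _).trans hpm1⟩
  have hcard := A34.card_com_le C a Q hQne P.Δ hC.deg hν0
  set W := com C a Q ν with hW
  have h1 : Pr (rt P.R p) (fun ξ => ∃ t < s, ∃ h ∈ W, ∃ y ∈ W, h ≠ y ∧ on ξ t h ∧ on ξ t y) ≤
      Ex (rt P.R p) (fun ξ => ∑ t ∈ range s, ∑ h ∈ W, ∑ y ∈ W,
        (if h ≠ y ∧ on ξ t h ∧ on ξ t y then (1 : ℝ) else 0)) := by
    apply A34.Pr_le_Ex hrt
    · rintro ξ ⟨t, ht, h, hh, y, hy, hA⟩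
      have hn : ∀ t ∈ range s, 0 ≤ ∑ h ∈ W, ∑ y ∈ W,
          (if h ≠ y ∧ on ξ t h ∧ on ξ t y then (1 : ℝ) else 0) := by
        intro t _
        apply Finset.sum_nonneg
        intro h _
        apply Finset.sum_nonneg
        intro y _
        split_ifs <;> norm_num
      refine le_trans ?_ (Finset.single_le_sum hn (Finset.mem_range.2 ht))
      have hn' : ∀ h ∈ W, 0 ≤ ∑ y ∈ W,
          (if h ≠ y ∧ on ξ t h ∧ on ξ t y then (1 : ℝ) else 0) := by
        intro h _
        apply Finset.sum_nonneg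
        intro y _
        split_ifs <;> norm_num
      refine le_trans ?_ (Finset.single_le_sum hn' hh)
      have hn'' : ∀ y ∈ W, 0 ≤
          (if h ≠ y ∧ on ξ t h ∧ on ξ t y then (1 : ℝ) else 0) := by
        intro y _
        split_ifs <;> norm_num
      refine le_trans ?_ (Finset.single_le_sum hn'' hy)
      rw [if_pos hA]
    · intro ξ
      apply Finset.sum_nonneg
      intro t _
      apply Finset.sum_nonneg
      intro h _
      apply Finset.sum_nonneg
      intro y _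
      split_ifs <;> norm_num
  have h2 : ∀ t ∈ range s, ∀ h ∈ W, ∀ y ∈ W, Ex (rt P.R p) (fun ξ =>
      (if h ≠ y ∧ on ξ t h ∧ on ξ t y then (1 : ℝ) else 0)) ≤ P.pm ^ 2 := by
    intro t ht h _ y _
    have htR : t < P.R := lt_of_lt_of_le (Finset.mem_range.1 ht) hs
    by_cases hhy : h = y
    · have e : (fun ξ : Coins P.R X =>
          (if h ≠ y ∧ on ξ t h ∧ on ξ t y then (1 : ℝ) else 0)) = fun _ => 0 := by
        funext ξ
        rw [if_neg]
        intro h'
        exact h'.1 hhy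
      rw [e, A34.Ex_const]
      positivity
    · have e : (fun ξ : Coins P.R X =>
          (if h ≠ y ∧ on ξ t h ∧ on ξ t y then (1 : ℝ) else 0)) =
          fun ξ => if ξ (⟨t, htR⟩, h) = true then
            (if ξ (⟨t, htR⟩, y) = true then (1 : ℝ) else 0) else 0 := by
        funext ξ
        have e1 : ∀ z, on ξ t z ↔ ξ (⟨t, htR⟩, z) = true := by
          intro z
          unfold on
          exact ⟨fun ⟨_, h⟩ => h, fun h => ⟨htR, h⟩⟩
        rw [e1, e1]
        by_cases c1 : ξ (⟨t, htR⟩, h) = true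
        · by_cases c2 : ξ (⟨t, htR⟩, y) = true
          · rw [if_pos ⟨hhy, c1, c2⟩, if_pos c1, if_pos c2]
          · rw [if_neg (fun h' => c2 h'.2.2), if_pos c1, if_neg c2]
        · rw [if_neg (fun h' => c1 h'.2.1), if_neg c1]
      rw [e, A34.Ex_coin ((⟨t, htR⟩ : Fin P.R), h) (fun ξ : Coins P.R X =>
          if ξ (⟨t, htR⟩, y) = true then (1 : ℝ) else 0),
        A34.Ex_coin ((⟨t, htR⟩ : Fin P.R), y) (fun _ => (1 : ℝ)), A34.Ex_const, mul_one, sq]
      · exact mul_le_mul (hp.le _ _) (hp.le _ _) (hp.nonneg _ _) hpm0.le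
      · intro ξ ξ' _
        rfl
      · intro ξ ξ' hξ
        have : ξ (⟨t, htR⟩, y) = ξ' (⟨t, htR⟩, y) := by
          apply hξ
          intro h'
          exact hhy (congrArg Prod.snd h').symm
        change (if ξ (⟨t, htR⟩, y) = true then (1 : ℝ) else 0) =
          (if ξ' (⟨t, htR⟩, y) = true then (1 : ℝ) else 0)
        rw [this]
  have h3 : Ex (rt P.R p) (fun ξ => ∑ t ∈ range s, ∑ h ∈ W, ∑ y ∈ W,
      (if h ≠ y ∧ on ξ t h ∧ on ξ t y then (1 : ℝ) else 0)) ≤
      s * (W.card * (W.card * P.pm ^ 2)) := by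
    rw [A34.Ex_sum]
    have e1 : ∀ t ∈ range s, Ex (rt P.R p) (fun ξ => ∑ h ∈ W, ∑ y ∈ W,
        (if h ≠ y ∧ on ξ t h ∧ on ξ t y then (1 : ℝ) else 0)) ≤
        W.card * (W.card * P.pm ^ 2) := by
      intro t ht
      rw [A34.Ex_sum]
      have e2 : ∀ h ∈ W, Ex (rt P.R p) (fun ξ => ∑ y ∈ W,
          (if h ≠ y ∧ on ξ t h ∧ on ξ t y then (1 : ℝ) else 0)) ≤ W.card * P.pm ^ 2 := by
        intro h hh
        rw [A34.Ex_sum]
        refine le_trans (Finset.sum_le_sum (fun y hy => h2 t ht h hh y hy)) ?_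
        rw [Finset.sum_const, nsmul_eq_mul]
      refine le_trans (Finset.sum_le_sum e2) ?_
      rw [Finset.sum_const, nsmul_eq_mul]
    refine le_trans (Finset.sum_le_sum e1) ?_
    rw [Finset.sum_const, nsmul_eq_mul, Finset.card_range]
  refine h1.trans (h3.trans ?_)
  have hsR : (s : ℝ) ≤ P.R := by exact_mod_cast hs
  have hA4 : P.Θ * P.pm * P.Δ ≤ P.κ * P.numin ^ 2 / 8 := P.hA4
  have hRD := A34.pmRD P
  have hκ := P.hκ
  have hΘ := P.hΘ
  calc (s : ℝ) * (W.card * (W.card * P.pm ^ 2)) ≤ P.R * ((P.Δ / ν) * ((P.Δ / ν) * P.pm ^ 2)) := by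
        gcongr
    _ = (P.pm * P.R * P.Δ) * (P.pm * P.Δ) / ν ^ 2 := by
        field_simp
    _ ≤ P.Θ * (P.pm * P.Δ) / ν ^ 2 := by
        gcongr
    _ ≤ (P.κ * P.numin ^ 2 / 8) / ν ^ 2 := by
        gcongr
        linarith
    _ ≤ (P.κ * ν ^ 2 / 8) / ν ^ 2 := by
        gcongr
    _ = P.κ / 8 := by
        field_simp

/-- Lemma A (iii) -/
theorem a3 : S_A3 := by
  intro P V X _ _ C hC p hp s hs a Q hQ hst ν hν
  have hpm0 := A34.pm_pos P
  have hpm1 := A34.pm_le_one P
  have hnu := A34.numin_pos P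
  have hν0 : 0 < ν := lt_of_lt_of_le hnu hν
  have hQne : Q.Nonempty := by
    rw [← Finset.card_pos]
    have := P.hM0
    omega
  have hrt : ∀ i, 0 ≤ rt P.R p i ∧ rt P.R p i ≤ 1 := fun i =>
    ⟨hp.nonneg _ _, (hp.le _ _).trans hpm1⟩
  have hη := P.hη
  have hκ := P.hκ
  have hΘ : 0 < P.Θ := lt_of_lt_of_le one_pos P.hΘ
  set W := com C a Q ν with hW
  set ρ : ℝ := P.η * P.κ / (16 * P.Θ) with hρ
  have hρ0 : 0 ≤ ρ := by positivity
  -- the summand
  let g : Finset V → X → ℝ := fun U h => if P.β2 * Q.card ≤ U.card then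
    |phi C.G U (C.pv h) - phi C.G Q (C.pv h)| else 0
  have hg0 : ∀ U h, 0 ≤ g U h := by
    intro U h
    change 0 ≤ (if P.β2 * Q.card ≤ U.card then
      |phi C.G U (C.pv h) - phi C.G Q (C.pv h)| else 0)
    split_ifs
    · positivity
    · exact le_rfl
  have hgs : ∀ U ⊆ Q, ∑ h ∈ W, g U h ≤ P.Δ * ρ := by
    intro U hU
    apply A34.sum_dev_le C a Q hQne P.Δ hC.deg hν0 P.hβ2 hρ0 _ hst U hU
    refine P.hA3.trans ?_
    exact mul_le_mul_of_nonneg_right hν (by positivity)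
  have hUQ : ∀ (ξ : Coins P.R X) (t : ℕ), Ut C Q W ξ t ⊆ Q := fun ξ t => Finset.filter_subset _ _
  have h1 : Pr (rt P.R p) (fun ξ => P.η / 2 <
      ∑ t ∈ range s, ∑ h ∈ W.filter (fun h => act C.nb ξ t h), g (Ut C Q W ξ t) h) ≤
      Ex (rt P.R p) (fun ξ => 2 / P.η * ∑ t ∈ range s, ∑ h ∈ W,
        (if on ξ t h then g (Ut C Q W ξ t) h else 0)) := by
    have hle : ∀ ξ : Coins P.R X,
        ∑ t ∈ range s, ∑ h ∈ W.filter (fun h => act C.nb ξ t h), g (Ut C Q W ξ t) h ≤
        ∑ t ∈ range s, ∑ h ∈ W, (if on ξ t h then g (Ut C Q W ξ t) h else 0) := by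
      intro ξ
      apply Finset.sum_le_sum
      intro t _
      rw [Finset.sum_filter]
      apply Finset.sum_le_sum
      intro h _
      by_cases c : act C.nb ξ t h
      · rw [if_pos c, if_pos c.1]
      · rw [if_neg c]
        split_ifs
        · exact hg0 _ _
        · exact le_rfl
    apply A34.Pr_le_Ex hrt
    · intro ξ hξ
      have h2 := hle ξ
      rw [div_mul_eq_mul_div, le_div_iff₀ hη]
      linarith
    · intro ξ
      apply mul_nonneg (by positivity)
      apply Finset.sum_nonneg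
      intro t _
      apply Finset.sum_nonneg
      intro h _
      split_ifs
      · exact hg0 _ _
      · exact le_rfl
  have h2 : ∀ t ∈ range s, Ex (rt P.R p) (fun ξ => ∑ h ∈ W,
      (if on ξ t h then g (Ut C Q W ξ t) h else 0)) ≤ P.pm * (P.Δ * ρ) := by
    intro t ht
    have htR : t < P.R := lt_of_lt_of_le (Finset.mem_range.1 ht) hs
    rw [A34.Ex_sum]
    have e1 : ∀ h ∈ W, Ex (rt P.R p) (fun ξ => if on ξ t h then g (Ut C Q W ξ t) h else 0) ≤
        P.pm * Ex (rt P.R p) (fun ξ => g (Ut C Q W ξ t) h) := by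
      intro h _
      have e : (fun ξ : Coins P.R X => if on ξ t h then g (Ut C Q W ξ t) h else 0) =
          fun ξ => if ξ (⟨t, htR⟩, h) = true then g (Ut C Q W ξ t) h else 0 := by
        funext ξ
        have e1 : on ξ t h ↔ ξ (⟨t, htR⟩, h) = true := by
          unfold on
          exact ⟨fun ⟨_, h⟩ => h, fun h => ⟨htR, h⟩⟩
        simp only [e1]
      rw [e, A34.Ex_coin ((⟨t, htR⟩ : Fin P.R), h) (fun ξ : Coins P.R X => g (Ut C Q W ξ t) h)]
      · apply mul_le_mul_of_nonneg_right (hp.le _ _)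
        have := A34.Ex_mono hrt (f := fun _ => (0 : ℝ))
          (g := fun ξ : Coins P.R X => g (Ut C Q W ξ t) h) (fun ξ => hg0 _ _)
        rwa [A34.Ex_const] at this
      · intro ξ ξ' hξ
        change g (Ut C Q W ξ t) h = g (Ut C Q W ξ' t) h
        rw [A34.Ut_congr C Q W (ξ := ξ) (ξ' := ξ')]
        intro i hi
        apply hξ
        intro h'
        rw [h'] at hi
        exact lt_irrefl _ hi
    refine le_trans (Finset.sum_le_sum e1) ?_
    rw [← Finset.mul_sum, ← A34.Ex_sum]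
    apply mul_le_mul_of_nonneg_left _ hpm0.le
    have := A34.Ex_mono hrt (f := fun ξ : Coins P.R X => ∑ h ∈ W, g (Ut C Q W ξ t) h)
      (g := fun _ => P.Δ * ρ) (fun ξ => hgs _ (hUQ ξ t))
    rwa [A34.Ex_const] at this
  have h3 : Ex (rt P.R p) (fun ξ => 2 / P.η * ∑ t ∈ range s, ∑ h ∈ W,
        (if on ξ t h then g (Ut C Q W ξ t) h else 0)) ≤ 2 / P.η * (s * (P.pm * (P.Δ * ρ))) := by
    rw [A34.Ex_mul_left, A34.Ex_sum]
    apply mul_le_mul_of_nonneg_left _ (by positivity)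
    refine le_trans (Finset.sum_le_sum h2) ?_
    rw [Finset.sum_const, nsmul_eq_mul, Finset.card_range]
  refine h1.trans (h3.trans ?_)
  have hsR : (s : ℝ) ≤ P.R := by exact_mod_cast hs
  have hRD := A34.pmRD P
  calc 2 / P.η * (s * (P.pm * (P.Δ * ρ))) ≤ 2 / P.η * (P.R * (P.pm * (P.Δ * ρ))) := by
        gcongr
    _ = 2 / P.η * ((P.pm * P.R * P.Δ) * ρ) := by ring
    _ ≤ 2 / P.η * (P.Θ * ρ) := by
        gcongr
    _ = P.κ / 8 := by
        rw [hρ]
        field_simp
        norm_num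

end Vu80
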