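import Pool.Agent.Lib_helper80.Vu.Stmts

/-!
# Vu's conjecture: deterministic part of Lemma A and the choice of the threshold in Lemma K
-/

set_option autoImplicit false

open scoped Classical
open Finset

noncomputable section

namespace Vu80

namespace ADET

theorem one_sub_ge_exp {η y : ℝ} (hη : 0 < η) (hy0 : 0 ≤ y) (hy : y ≤ 1 - η / 2) :
    Real.exp (-(2 / η * y)) ≤ 1 - y := by
  have h1 : 0 < 1 - y := by linarith
  have h2 : 1 - (1 - y)⁻¹ ≤ Real.log (1 - y) := Real.one_sub_inv_le_log_of_pos h1
  have h3 : -(2 / η * y) ≤ 1 - (1 - y)⁻¹ := by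
    have h4 : 1 - (1 - y)⁻¹ = -(y / (1 - y)) := by
      field_simp
      ring
    rw [h4]
    apply neg_le_neg
    rw [div_mul_eq_mul_div, div_le_div_iff₀ h1 hη]
    nlinarith
  have h5 : -(2 / η * y) ≤ Real.log (1 - y) := h3.trans h2
  calc Real.exp (-(2 / η * y)) ≤ Real.exp (Real.log (1 - y)) := Real.exp_le_exp.2 h5
    _ = 1 - y := Real.exp_log h1

theorem phi_nonneg {V : Type} [Fintype V] (G : SimpleGraph V) (P : Finset V) (z : V) :
    0 ≤ phi G P z := by
  unfold phi
  positivity

end ADET

open ADET in
/-- deterministic part of Lemma A -/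
theorem adet : S_ADET := by
  intro V X _ G pv Q Z U s η β Λ hQ hη hη' hβ hΛ hβe hU hZ hphi hsum hdev
  set dv : ℕ → X → ℝ := fun t h =>
    (if β * Q.card ≤ (U t).card then |phi G (U t) (pv h) - phi G Q (pv h)| else 0) with hdv
  have hdv0 : ∀ t h, 0 ≤ dv t h := by
    intro t h
    simp only [hdv]
    split_ifs
    · exact abs_nonneg _
    · exact le_rfl
  set a : ℕ → ℝ := fun t => ∑ h ∈ Z t, (phi G Q (pv h) + dv t h) with ha
  have ha0 : ∀ t, 0 ≤ a t := fun t =>
    Finset.sum_nonneg fun h _ => add_nonneg (phi_nonneg _ _ _) (hdv0 t h)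
  have hasum : ∑ t ∈ range s, a t ≤ Λ + 1 := by
    have : ∑ t ∈ range s, a t =
        ∑ t ∈ range s, ∑ h ∈ Z t, phi G Q (pv h) + ∑ t ∈ range s, ∑ h ∈ Z t, dv t h := by
      rw [← Finset.sum_add_distrib]
      refine Finset.sum_congr rfl fun t _ => ?_
      simp only [ha]
      rw [Finset.sum_add_distrib]
    rw [this]
    have : ∑ t ∈ range s, ∑ h ∈ Z t, dv t h ≤ η / 2 := hdev
    linarith
  have hQc : (0 : ℝ) < Q.card := by exact_mod_cast hQ.card_pos
  have hpart : ∀ t ≤ s, ∑ t' ∈ range t, a t' ≤ Λ + 1 := by
    intro t ht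
    refine le_trans ?_ hasum
    exact Finset.sum_le_sum_of_subset_of_nonneg (by
      intro x hx; rw [Finset.mem_range] at *; omega) fun t _ _ => ha0 t
  have hge : ∀ t ≤ s, β ≤ Real.exp (-(2 / η * ∑ t' ∈ range t, a t')) := by
    intro t ht
    refine hβe.trans (Real.exp_le_exp.2 ?_)
    apply neg_le_neg
    exact mul_le_mul_of_nonneg_left (hpart t ht) (by positivity)
  have key : ∀ t ≤ s, (Q.card : ℝ) * Real.exp (-(2 / η * ∑ t' ∈ range t, a t')) ≤
      (U t).card := by
    intro t
    induction t with
    | zero =>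
      intro _
      rw [hU 0]
      simp
    | succ t ih =>
      intro ht
      have iht := ih (by omega)
      have htl : t < s := by omega
      have hbt : β * Q.card ≤ (U t).card := by
        refine le_trans ?_ iht
        rw [mul_comm]
        exact mul_le_mul_of_nonneg_left (hge t (by omega)) hQc.le
      have hUpos : (0 : ℝ) < (U t).card := lt_of_lt_of_le (by positivity) hbt
      have hUs : U (t + 1) = (U t).filter (fun u => ∀ h ∈ Z t, ¬ G.Adj (pv h) u) := by
        rw [hU (t + 1), hU t, Finset.filter_filter]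
        refine Finset.filter_congr fun u _ => ?_
        constructor
        · intro h
          exact ⟨fun t' ht' => h t' (by omega), h t (by omega)⟩
        · rintro ⟨h1, h2⟩ t' ht' y hy
          rcases Nat.lt_succ_iff_lt_or_eq.1 ht' with h | h
          · exact h1 t' h y hy
          · subst h; exact h2 y hy
      rw [Finset.sum_range_succ]
      rcases Nat.eq_zero_or_pos (Z t).card with h0 | h0
      · have hZ0 : Z t = ∅ := Finset.card_eq_zero.1 h0
        have : U (t + 1) = U t := by
          rw [hUs, hZ0]; simp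
        rw [this]
        have ha_0 : a t = 0 := by simp only [ha, hZ0]; simp
        rw [ha_0, add_zero]
        exact iht
      · have h1 : (Z t).card = 1 := le_antisymm (hZ t htl) h0
        obtain ⟨h, hh⟩ := Finset.card_eq_one.1 h1
        have hmem : h ∈ Z t := by rw [hh]; simp
        set y : ℝ := phi G (U t) (pv h) with hy
        have hy0 : 0 ≤ y := phi_nonneg _ _ _
        have hdvt : dv t h = |y - phi G Q (pv h)| := by
          simp only [hdv]; rw [if_pos hbt]
        have hdvle : dv t h ≤ η / 2 := by
          refine le_trans ?_ hdev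
          refine le_trans ?_ (Finset.single_le_sum (f := fun t => ∑ h ∈ Z t, dv t h)
            (fun t _ => Finset.sum_nonneg fun h _ => hdv0 t h) (Finset.mem_range.2 htl))
          exact Finset.single_le_sum (f := fun h => dv t h) (fun h _ => hdv0 t h) hmem
        have hyle : y ≤ phi G Q (pv h) + dv t h := by
          rw [hdvt]; linarith [le_abs_self (y - phi G Q (pv h))]
        have hyle' : y ≤ 1 - η / 2 := by
          have := hphi t htl h hmem
          linarith
        have hat : a t = phi G Q (pv h) + dv t h := by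
          simp only [ha, hh, Finset.sum_singleton]
        have hcard : ((U (t + 1)).card : ℝ) = (U t).card * (1 - y) := by
          have e1 : U (t + 1) = (U t).filter (fun u => ¬ G.Adj (pv h) u) := by
            rw [hUs, hh]; simp
          have e2 := Finset.card_filter_add_card_filter_not (s := U t)
            (fun u => G.Adj (pv h) u)
          have e3 : (((U t).filter (fun u => G.Adj (pv h) u)).card : ℝ) +
              ((U t).filter (fun u => ¬ G.Adj (pv h) u)).card = (U t).card := by
            exact_mod_cast e2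
          have e4 : (((U t).filter (fun u => G.Adj (pv h) u)).card : ℝ) = (U t).card * y := by
            rw [hy]; unfold phi; field_simp
          rw [e1]; linarith
        rw [hcard]
        have hexp : Real.exp (-(2 / η * a t)) ≤ 1 - y := by
          refine le_trans (Real.exp_le_exp.2 ?_) (one_sub_ge_exp hη hy0 hyle')
          apply neg_le_neg
          rw [hat]
          exact mul_le_mul_of_nonneg_left hyle (by positivity)
        have hsplit : Real.exp (-(2 / η * (∑ t' ∈ range t, a t' + a t))) =
            Real.exp (-(2 / η * ∑ t' ∈ range t, a t')) * Real.exp (-(2 / η * a t)) := by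
          rw [← Real.exp_add]; congr 1; ring
        rw [hsplit, ← mul_assoc]
        exact mul_le_mul iht hexp (Real.exp_pos _).le hUpos.le
  refine le_trans ?_ (key s le_rfl)
  rw [mul_comm]
  exact mul_le_mul_of_nonneg_left (hge s le_rfl) hQc.le

open ADET in
/-- `∑_z φ_Q(z) ≤ Δ` -/
theorem ADET.sum_phi_le {V : Type} [Fintype V] (G : SimpleGraph V) (Q : Finset V) (Δ : ℕ)
    (hQ : Q.Nonempty) (hΔ : ∀ v, (univ.filter (fun u => G.Adj v u)).card ≤ Δ) :
    ∑ z, phi G Q z ≤ Δ := by
  have hQc : (0 : ℝ) < Q.card := by exact_mod_cast hQ.card_pos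
  unfold phi
  rw [← Finset.sum_div, div_le_iff₀ hQc]
  have h1 : ∑ z : V, (Q.filter (fun u => G.Adj z u)).card ≤ Δ * Q.card := by
    have : ∑ z : V, (Q.filter (fun u => G.Adj z u)).card =
        ∑ u ∈ Q, (univ.filter (fun z => G.Adj z u)).card := by
      simp only [Finset.card_filter]
      rw [Finset.sum_comm]
    rw [this]
    calc ∑ u ∈ Q, (univ.filter (fun z => G.Adj z u)).card ≤ ∑ u ∈ Q, Δ := by
          refine Finset.sum_le_sum fun u _ => ?_
          have := hΔ u
          simpa only [G.adj_comm] using this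
      _ = Δ * Q.card := by rw [Finset.sum_const, smul_eq_mul, mul_comm]
  exact_mod_cast h1

open ADET in
/-- choice of the threshold in Lemma K -/
theorem thr : S_THR := by
  intro V _ G Q Δ N r k hQ hΔ hr hr' hN hkN
  by_contra hcon
  push Not at hcon
  set S : ℕ → Finset V := fun i =>
    univ.filter (fun z => r ^ (i + 1) / 2 ≤ phi G Q z ∧ phi G Q z < r ^ i / 2) with hS
  have hdisj : ∀ i j, i < j → Disjoint (S i) (S j) := by
    intro i j hij
    rw [Finset.disjoint_left]
    intro z hz hz'
    simp only [hS, Finset.mem_filter, Finset.mem_univ, true_and] at hz hz'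
    have h1 : r ^ j ≤ r ^ (i + 1) := pow_le_pow_of_le_one hr.le hr' (by omega)
    linarith [hz.1, hz'.2]
  have hpd : Set.PairwiseDisjoint (↑(range N)) S := by
    intro i _ j _ hij
    rcases lt_or_gt_of_ne hij with h | h
    · exact hdisj i j h
    · exact (hdisj j i h).symm
  have h1 : ∑ i ∈ range N, ∑ z ∈ S i, phi G Q z ≤ Δ := by
    rw [← Finset.sum_biUnion hpd]
    refine le_trans ?_ (sum_phi_le G Q Δ hQ hΔ)
    exact Finset.sum_le_sum_of_subset_of_nonneg (Finset.subset_univ _)
      fun z _ _ => phi_nonneg _ _ _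
  have h2 : ∑ i ∈ range N, k * (Δ : ℝ) < ∑ i ∈ range N, ∑ z ∈ S i, phi G Q z := by
    refine Finset.sum_lt_sum_of_nonempty ⟨0, Finset.mem_range.2 hN⟩ fun i hi => ?_
    exact hcon i (Finset.mem_range.1 hi)
  rw [Finset.sum_const, Finset.card_range, nsmul_eq_mul] at h2
  have h3 : (Δ : ℝ) ≤ N * (k * Δ) := by
    have : (0 : ℝ) ≤ Δ := by positivity
    nlinarith
  linarith

end Vu80
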