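import Pool.Agent.Lib_helper80.Vu.Defs

/-!
# Basic facts on the finite product Bernoulli space
-/

set_option autoImplicit false

open scoped Classical
open Finset

noncomputable section

namespace Vu80

section Prob

variable {I : Type} [Fintype I]

/-! ### weights -/

theorem wt_nonneg {p : I → ℝ} (h0 : ∀ i, 0 ≤ p i ∧ p i ≤ 1) (ξ : I → Bool) : 0 ≤ wt p ξ := by
  unfold wt
  refine Finset.prod_nonneg fun i _ => ?_
  split_ifs
  · exact (h0 i).1
  · linarith [(h0 i).2]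

theorem sum_wt (p : I → ℝ) : ∑ ξ : I → Bool, wt p ξ = 1 := by
  have h := Finset.prod_univ_sum (fun _ : I => (univ : Finset Bool))
    (fun i b => if b = true then p i else 1 - p i)
  rw [Fintype.piFinset_univ] at h
  unfold wt
  rw [← h]
  simp

/-! ### linearity and order of `Ex` -/

theorem Ex_const (p : I → ℝ) (c : ℝ) : Ex p (fun _ => c) = c := by
  unfold Ex
  rw [← Finset.sum_mul, sum_wt, one_mul]

theorem Ex_add (p : I → ℝ) (f g : (I → Bool) → ℝ) : Ex p (fun ξ => f ξ + g ξ) = Ex p f + Ex p g := by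
  unfold Ex
  rw [← Finset.sum_add_distrib]
  exact Finset.sum_congr rfl fun ξ _ => by ring

theorem Ex_sub (p : I → ℝ) (f g : (I → Bool) → ℝ) : Ex p (fun ξ => f ξ - g ξ) = Ex p f - Ex p g := by
  unfold Ex
  rw [← Finset.sum_sub_distrib]
  exact Finset.sum_congr rfl fun ξ _ => by ring

theorem Ex_mul_left (p : I → ℝ) (c : ℝ) (f : (I → Bool) → ℝ) : Ex p (fun ξ => c * f ξ) = c * Ex p f := by
  unfold Ex
  rw [Finset.mul_sum]
  exact Finset.sum_congr rfl fun ξ _ => by ring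

theorem Ex_mul_right (p : I → ℝ) (c : ℝ) (f : (I → Bool) → ℝ) : Ex p (fun ξ => f ξ * c) = Ex p f * c := by
  unfold Ex
  rw [Finset.sum_mul]
  exact Finset.sum_congr rfl fun ξ _ => by ring

theorem Ex_neg (p : I → ℝ) (f : (I → Bool) → ℝ) : Ex p (fun ξ => - f ξ) = - Ex p f := by
  unfold Ex
  rw [← Finset.sum_neg_distrib]
  exact Finset.sum_congr rfl fun ξ _ => by ring

theorem Ex_sum {J : Type*} (p : I → ℝ) (A : Finset J) (f : J → (I → Bool) → ℝ) :
    Ex p (fun ξ => ∑ j ∈ A, f j ξ) = ∑ j ∈ A, Ex p (f j) := by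
  unfold Ex
  rw [Finset.sum_comm]
  exact Finset.sum_congr rfl fun ξ _ => by rw [Finset.mul_sum]

theorem Ex_congr {p : I → ℝ} {f g : (I → Bool) → ℝ} (h : ∀ ξ, f ξ = g ξ) : Ex p f = Ex p g := by
  rw [show f = g from funext h]

theorem Ex_mono {p : I → ℝ} (h0 : ∀ i, 0 ≤ p i ∧ p i ≤ 1) {f g : (I → Bool) → ℝ} (h : ∀ ξ, f ξ ≤ g ξ) :
    Ex p f ≤ Ex p g :=
  Finset.sum_le_sum fun ξ _ => mul_le_mul_of_nonneg_left (h ξ) (wt_nonneg h0 ξ)

theorem Ex_nonneg {p : I → ℝ} (h0 : ∀ i, 0 ≤ p i ∧ p i ≤ 1) {f : (I → Bool) → ℝ} (h : ∀ ξ, 0 ≤ f ξ) :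
    0 ≤ Ex p f :=
  Finset.sum_nonneg fun ξ _ => mul_nonneg (wt_nonneg h0 ξ) (h ξ)

theorem Ex_le_of_le {p : I → ℝ} (h0 : ∀ i, 0 ≤ p i ∧ p i ≤ 1) {f : (I → Bool) → ℝ} {c : ℝ}
    (h : ∀ ξ, f ξ ≤ c) : Ex p f ≤ c := by
  calc Ex p f ≤ Ex p (fun _ => c) := Ex_mono h0 h
    _ = c := Ex_const p c

theorem le_Ex_of_le {p : I → ℝ} (h0 : ∀ i, 0 ≤ p i ∧ p i ≤ 1) {f : (I → Bool) → ℝ} {c : ℝ}
    (h : ∀ ξ, c ≤ f ξ) : c ≤ Ex p f := by
  calc c = Ex p (fun _ => c) := (Ex_const p c).symm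
    _ ≤ Ex p f := Ex_mono h0 h

theorem abs_Ex_le {p : I → ℝ} (h0 : ∀ i, 0 ≤ p i ∧ p i ≤ 1) (f : (I → Bool) → ℝ) :
    |Ex p f| ≤ Ex p (fun ξ => |f ξ|) := by
  rw [abs_le]
  constructor
  · rw [← Ex_neg]
    exact Ex_mono h0 fun ξ => neg_abs_le _
  · exact Ex_mono h0 fun ξ => le_abs_self _

/-! ### probabilities -/

theorem Pr_nonneg {p : I → ℝ} (h0 : ∀ i, 0 ≤ p i ∧ p i ≤ 1) (A : (I → Bool) → Prop) : 0 ≤ Pr p A :=
  Ex_nonneg h0 fun ξ => by split_ifs <;> norm_num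

theorem Pr_le_one {p : I → ℝ} (h0 : ∀ i, 0 ≤ p i ∧ p i ≤ 1) (A : (I → Bool) → Prop) : Pr p A ≤ 1 :=
  Ex_le_of_le h0 fun ξ => by split_ifs <;> norm_num

theorem Pr_congr {p : I → ℝ} {A B : (I → Bool) → Prop} (h : ∀ ξ, A ξ ↔ B ξ) : Pr p A = Pr p B := by
  rw [show A = B from funext fun ξ => propext (h ξ)]

theorem Pr_mono {p : I → ℝ} (h0 : ∀ i, 0 ≤ p i ∧ p i ≤ 1) {A B : (I → Bool) → Prop} (h : ∀ ξ, A ξ → B ξ) :
    Pr p A ≤ Pr p B := by
  refine Ex_mono h0 fun ξ => ?_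
  by_cases hA : A ξ
  · simp [hA, h ξ hA]
  · simp only [hA, if_false]
    split_ifs <;> norm_num

theorem Pr_true (p : I → ℝ) : Pr p (fun _ => True) = 1 := by
  unfold Pr
  simp only [if_true]
  exact Ex_const p 1

theorem Pr_false (p : I → ℝ) : Pr p (fun _ => False) = 0 := by
  unfold Pr
  simp only [if_false]
  exact Ex_const p 0

theorem Pr_not (p : I → ℝ) (A : (I → Bool) → Prop) : Pr p (fun ξ => ¬ A ξ) = 1 - Pr p A := by
  have h := Ex_sub p (fun _ => 1) (fun ξ => if A ξ then 1 else 0)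
  rw [Ex_const] at h
  unfold Pr
  rw [← h]
  refine Ex_congr fun ξ => ?_
  by_cases hA : A ξ <;> simp [hA]

theorem Pr_add_not (p : I → ℝ) (A B : (I → Bool) → Prop) :
    Pr p A = Pr p (fun ξ => A ξ ∧ B ξ) + Pr p (fun ξ => A ξ ∧ ¬ B ξ) := by
  unfold Pr
  rw [← Ex_add]
  refine Ex_congr fun ξ => ?_
  by_cases hA : A ξ <;> by_cases hB : B ξ <;> simp [hA, hB]

theorem Pr_or_le {p : I → ℝ} (h0 : ∀ i, 0 ≤ p i ∧ p i ≤ 1) (A B : (I → Bool) → Prop) :
    Pr p (fun ξ => A ξ ∨ B ξ) ≤ Pr p A + Pr p B := by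
  unfold Pr
  rw [← Ex_add]
  refine Ex_mono h0 fun ξ => ?_
  by_cases hA : A ξ <;> by_cases hB : B ξ <;> simp [hA, hB]

theorem Pr_exists_le {J : Type*} {p : I → ℝ} (h0 : ∀ i, 0 ≤ p i ∧ p i ≤ 1) (s : Finset J)
    (A : J → (I → Bool) → Prop) :
    Pr p (fun ξ => ∃ j ∈ s, A j ξ) ≤ ∑ j ∈ s, Pr p (A j) := by
  unfold Pr
  rw [← Ex_sum]
  refine Ex_mono h0 fun ξ => ?_
  by_cases h : ∃ j ∈ s, A j ξ
  · obtain ⟨j, hj, hA⟩ := h
    rw [if_pos ⟨j, hj, hA⟩]
    calc (1 : ℝ) = (if A j ξ then (1 : ℝ) else 0) := by rw [if_pos hA]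
      _ ≤ ∑ j ∈ s, (if A j ξ then (1 : ℝ) else 0) :=
        Finset.single_le_sum (f := fun j => if A j ξ then (1 : ℝ) else 0)
          (fun i _ => by split_ifs <;> norm_num) hj
  · rw [if_neg h]
    exact Finset.sum_nonneg fun i _ => by split_ifs <;> norm_num

/-- union bound over rounds `< s` and a finset -/
theorem Pr_exists_lt_le {J : Type*} {p : I → ℝ} (h0 : ∀ i, 0 ≤ p i ∧ p i ≤ 1) (s : ℕ) (W : Finset J)
    (A : ℕ → J → (I → Bool) → Prop) :
    Pr p (fun ξ => ∃ t < s, ∃ j ∈ W, A t j ξ) ≤ ∑ t ∈ range s, ∑ j ∈ W, Pr p (A t j) := by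
  calc Pr p (fun ξ => ∃ t < s, ∃ j ∈ W, A t j ξ)
      = Pr p (fun ξ => ∃ t ∈ range s, ∃ j ∈ W, A t j ξ) := Pr_congr fun ξ => by simp
    _ ≤ ∑ t ∈ range s, Pr p (fun ξ => ∃ j ∈ W, A t j ξ) := Pr_exists_le h0 _ _
    _ ≤ _ := Finset.sum_le_sum fun t _ => Pr_exists_le h0 _ _

/-- Markov's inequality -/
theorem markov {p : I → ℝ} (h0 : ∀ i, 0 ≤ p i ∧ p i ≤ 1) {f : (I → Bool) → ℝ} (hf : ∀ ξ, 0 ≤ f ξ)
    {a : ℝ} (ha : 0 < a) : Pr p (fun ξ => a ≤ f ξ) ≤ Ex p f / a := by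
  rw [le_div_iff₀ ha, Pr, ← Ex_mul_right]
  refine Ex_mono h0 fun ξ => ?_
  by_cases h : a ≤ f ξ
  · simp [h]
  · simpa [h] using hf ξ

/-- expectation of a product with an indicator is at most the expectation -/
theorem Ex_ind_mul_le {p : I → ℝ} (h0 : ∀ i, 0 ≤ p i ∧ p i ≤ 1) {f : (I → Bool) → ℝ} (hf : ∀ ξ, 0 ≤ f ξ)
    (A : (I → Bool) → Prop) : Ex p (fun ξ => (if A ξ then 1 else 0) * f ξ) ≤ Ex p f := by
  refine Ex_mono h0 fun ξ => ?_
  split_ifs
  · simp
  · simpa using hf ξ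

/-- if the probability of a bad event is `< 1`, some outcome is good -/
theorem exists_of_Pr_lt_one {p : I → ℝ} {A : (I → Bool) → Prop} (h : Pr p A < 1) : ∃ ξ, ¬ A ξ := by
  by_contra hcon
  push Not at hcon
  have : Pr p A = 1 := by
    rw [← Pr_true p]
    exact Pr_congr fun ξ => by simp [hcon ξ]
  linarith

/-! ### dependence on coordinates -/

omit [Fintype I] in
theorem Dep.mono {α : Type} {S T : Set I} {f : (I → Bool) → α} (h : Dep S f) (hST : S ⊆ T) : Dep T f :=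
  fun ξ ξ' hh => h ξ ξ' fun i hi => hh i (hST hi)

omit [Fintype I] in
theorem Dep.comp {α β : Type} {S : Set I} {f : (I → Bool) → α} (h : Dep S f) (g : α → β) :
    Dep S (fun ξ => g (f ξ)) :=
  fun ξ ξ' hh => by
    show g (f ξ) = g (f ξ')
    rw [h ξ ξ' hh]

omit [Fintype I] in
theorem Dep.comp₂ {α β γ : Type} {S : Set I} {f : (I → Bool) → α} {g : (I → Bool) → β} (hf : Dep S f)
    (hg : Dep S g) (F : α → β → γ) : Dep S (fun ξ => F (f ξ) (g ξ)) :=
  fun ξ ξ' hh => by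
    show F (f ξ) (g ξ) = F (f ξ') (g ξ')
    rw [hf ξ ξ' hh, hg ξ ξ' hh]

omit [Fintype I] in
theorem Dep.const {α : Type} (S : Set I) (c : α) : Dep S (fun _ : I → Bool => c) := fun _ _ _ => rfl

omit [Fintype I] in
theorem Dep.ind {S : Set I} {A : (I → Bool) → Prop} (h : Dep S A) :
    Dep S (fun ξ => if A ξ then (1 : ℝ) else 0) := by
  intro ξ ξ' hh
  have := h ξ ξ' hh
  simp only [this]

omit [Fintype I] in
theorem Dep.coord (i : I) : Dep {i} (fun ξ : I → Bool => ξ i) := fun _ _ hh => hh i rfl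

omit [Fintype I] in
theorem Dep.finset_prod {J : Type*} {S : Set I} (A : Finset J) (f : J → (I → Bool) → ℝ)
    (h : ∀ j ∈ A, Dep S (f j)) : Dep S (fun ξ => ∏ j ∈ A, f j ξ) :=
  fun ξ ξ' hh => Finset.prod_congr rfl fun j hj => h j hj ξ ξ' hh

omit [Fintype I] in
theorem Dep.finset_sum {J : Type*} {S : Set I} (A : Finset J) (f : J → (I → Bool) → ℝ)
    (h : ∀ j ∈ A, Dep S (f j)) : Dep S (fun ξ => ∑ j ∈ A, f j ξ) :=
  fun ξ ξ' hh => Finset.sum_congr rfl fun j hj => h j hj ξ ξ' hh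

/-! ### swapping coordinates of two independent copies -/

/-- expectation over two independent copies (with possibly different probabilities) -/
theorem sum_swap (p q : I → ℝ) (S : Set I) (h : ∀ i ∈ S, p i = q i)
    (F : (I → Bool) → (I → Bool) → ℝ) :
    Ex p (fun ξ => Ex q (fun ξ' => F (mix S ξ' ξ) (mix S ξ ξ'))) = Ex p (fun ξ => Ex q (fun ξ' => F ξ ξ')) := by
  let φ : (I → Bool) × (I → Bool) → (I → Bool) × (I → Bool) := fun x => (mix S x.2 x.1, mix S x.1 x.2)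
  have hφ : Function.Involutive φ := by
    rintro ⟨ξ, ξ'⟩
    simp only [φ]
    ext i <;> by_cases hi : i ∈ S <;> simp [mix, hi]
  have hw : ∀ x : (I → Bool) × (I → Bool), wt p (φ x).1 * wt q (φ x).2 = wt p x.1 * wt q x.2 := by
    rintro ⟨ξ, ξ'⟩
    simp only [φ, wt]
    rw [← Finset.prod_mul_distrib, ← Finset.prod_mul_distrib]
    refine Finset.prod_congr rfl fun i _ => ?_
    by_cases hi : i ∈ S
    · simp only [mix, hi, if_true, h i hi]
      ring
    · simp only [mix, hi, if_false]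
  have key : ∀ G : (I → Bool) → (I → Bool) → ℝ,
      Ex p (fun ξ => Ex q (fun ξ' => G ξ ξ')) =
        ∑ x : (I → Bool) × (I → Bool), wt p x.1 * wt q x.2 * G x.1 x.2 := by
    intro G
    unfold Ex
    rw [Fintype.sum_prod_type]
    refine Finset.sum_congr rfl fun ξ _ => ?_
    rw [Finset.mul_sum]
    exact Finset.sum_congr rfl fun ξ' _ => by ring
  rw [key, key]
  calc ∑ x : (I → Bool) × (I → Bool), wt p x.1 * wt q x.2 * F (mix S x.2 x.1) (mix S x.1 x.2)
      = ∑ x : (I → Bool) × (I → Bool), wt p (φ x).1 * wt q (φ x).2 * F (φ x).1 (φ x).2 := by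
        refine Finset.sum_congr rfl fun x _ => ?_
        rw [hw x]
    _ = ∑ x : (I → Bool) × (I → Bool), wt p x.1 * wt q x.2 * F x.1 x.2 :=
        Equiv.sum_comp hφ.toPerm (fun x => wt p x.1 * wt q x.2 * F x.1 x.2)

/-- swap outside a set `S ξ` that is determined by the coordinates in it -/
theorem sum_swap_stop (p : I → ℝ) (S : (I → Bool) → Set I)
    (hS : ∀ ξ ξ', (∀ i ∈ S ξ, ξ i = ξ' i) → S ξ' = S ξ) (F : (I → Bool) → (I → Bool) → ℝ) :
    Ex p (fun ξ => Ex p (fun ξ' => F (mix (S ξ) ξ ξ') (mix (S ξ) ξ' ξ))) =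
      Ex p (fun ξ => Ex p (fun ξ' => F ξ ξ')) := by
  let φ : (I → Bool) × (I → Bool) → (I → Bool) × (I → Bool) :=
    fun x => (mix (S x.1) x.1 x.2, mix (S x.1) x.2 x.1)
  have hSm : ∀ ξ ξ', S (mix (S ξ) ξ ξ') = S ξ := by
    intro ξ ξ'
    apply hS
    intro i hi
    simp [mix, hi]
  have hφ : Function.Involutive φ := by
    rintro ⟨ξ, ξ'⟩
    simp only [φ]
    rw [hSm]
    ext i <;> by_cases hi : i ∈ S ξ <;> simp [mix, hi]
  have hw : ∀ x : (I → Bool) × (I → Bool), wt p (φ x).1 * wt p (φ x).2 = wt p x.1 * wt p x.2 := by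
    rintro ⟨ξ, ξ'⟩
    simp only [φ, wt]
    rw [← Finset.prod_mul_distrib, ← Finset.prod_mul_distrib]
    refine Finset.prod_congr rfl fun i _ => ?_
    by_cases hi : i ∈ S ξ
    · simp only [mix, hi, if_true]
    · simp only [mix, hi, if_false]
      ring
  have key : ∀ G : (I → Bool) → (I → Bool) → ℝ,
      Ex p (fun ξ => Ex p (fun ξ' => G ξ ξ')) =
        ∑ x : (I → Bool) × (I → Bool), wt p x.1 * wt p x.2 * G x.1 x.2 := by
    intro G
    unfold Ex
    rw [Fintype.sum_prod_type]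
    refine Finset.sum_congr rfl fun ξ _ => ?_
    rw [Finset.mul_sum]
    exact Finset.sum_congr rfl fun ξ' _ => by ring
  rw [key, key]
  calc ∑ x : (I → Bool) × (I → Bool), wt p x.1 * wt p x.2 * F (mix (S x.1) x.1 x.2) (mix (S x.1) x.2 x.1)
      = ∑ x : (I → Bool) × (I → Bool), wt p (φ x).1 * wt p (φ x).2 * F (φ x).1 (φ x).2 := by
        refine Finset.sum_congr rfl fun x _ => ?_
        rw [hw x]
    _ = ∑ x : (I → Bool) × (I → Bool), wt p x.1 * wt p x.2 * F x.1 x.2 :=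
        Equiv.sum_comp hφ.toPerm (fun x => wt p x.1 * wt p x.2 * F x.1 x.2)

/-- Fubini: exchange two independent copies -/
theorem Ex_comm {J : Type} [Fintype J] (p : I → ℝ) (q : J → ℝ) (F : (I → Bool) → (J → Bool) → ℝ) :
    Ex p (fun ξ => Ex q (fun ξ' => F ξ ξ')) = Ex q (fun ξ' => Ex p (fun ξ => F ξ ξ')) := by
  unfold Ex
  simp_rw [Finset.mul_sum]
  rw [Finset.sum_comm]
  exact Finset.sum_congr rfl fun ξ _ => Finset.sum_congr rfl fun ξ' _ => by ring

/-- the expectation of a mixture of two independent copies -/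
theorem Ex_mix (p : I → ℝ) (S : Set I) (f : (I → Bool) → ℝ) :
    Ex p (fun ξ => Ex p (fun η => f (mix S η ξ))) = Ex p f := by
  rw [sum_swap p p S (fun _ _ => rfl) (fun ξ _ => f ξ)]
  refine Ex_congr fun ξ => ?_
  exact Ex_const p _

/-- functions of disjoint sets of coordinates are independent -/
theorem Ex_mul_indep (p : I → ℝ) {S T : Set I} {f g : (I → Bool) → ℝ} (hf : Dep S f) (hg : Dep T g)
    (hST : Disjoint S T) : Ex p (fun ξ => f ξ * g ξ) = Ex p f * Ex p g := by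
  have h1 : Ex p (fun ξ => f ξ * g ξ) = Ex p (fun ξ => Ex p (fun η => f (mix S η ξ) * g (mix S η ξ))) :=
    (Ex_mix p S (fun ξ => f ξ * g ξ)).symm
  rw [h1]
  have h2 : ∀ ξ η : I → Bool, f (mix S η ξ) * g (mix S η ξ) = f η * g ξ := by
    intro ξ η
    rw [hf (mix S η ξ) η (fun i hi => by simp [mix, hi]),
      hg (mix S η ξ) ξ (fun i hi => by
        have : i ∉ S := fun h => Set.disjoint_left.mp hST h hi
        simp [mix, this])]
  simp_rw [h2]
  rw [show (fun ξ => Ex p (fun η => f η * g ξ)) = fun ξ => Ex p f * g ξ from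
    funext fun ξ => Ex_mul_right p (g ξ) f]
  exact Ex_mul_left p _ _

/-- probability of the conjunction of independent events -/
theorem Pr_and_indep (p : I → ℝ) {S T : Set I} {A B : (I → Bool) → Prop} (hA : Dep S A) (hB : Dep T B)
    (hST : Disjoint S T) : Pr p (fun ξ => A ξ ∧ B ξ) = Pr p A * Pr p B := by
  unfold Pr
  rw [← Ex_mul_indep p hA.ind hB.ind hST]
  refine Ex_congr fun ξ => ?_
  by_cases h1 : A ξ <;> by_cases h2 : B ξ <;> simp [h1, h2]

/-- products of functions of pairwise disjoint sets of coordinates -/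
theorem Ex_prod_indep {J : Type*} (p : I → ℝ) (A : Finset J) (S : J → Set I)
    (f : J → (I → Bool) → ℝ) (hf : ∀ j ∈ A, Dep (S j) (f j))
    (hS : ∀ j ∈ A, ∀ j' ∈ A, j ≠ j' → Disjoint (S j) (S j')) :
    Ex p (fun ξ => ∏ j ∈ A, f j ξ) = ∏ j ∈ A, Ex p (f j) := by
  induction A using Finset.induction_on with
  | empty => simpa using Ex_const p 1
  | insert a A ha ih =>
    rw [Finset.prod_insert ha]
    simp_rw [Finset.prod_insert ha]
    rw [Ex_mul_indep p (hf a (Finset.mem_insert_self a A))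
      (T := ⋃ j ∈ A, S j)
      (Dep.finset_prod A f fun j hj =>
        (hf j (Finset.mem_insert_of_mem hj)).mono (Set.subset_biUnion_of_mem (u := fun j => S j) hj))]
    · rw [ih (fun j hj => hf j (Finset.mem_insert_of_mem hj))
        (fun j hj j' hj' => hS j (Finset.mem_insert_of_mem hj) j' (Finset.mem_insert_of_mem hj'))]
    · rw [Set.disjoint_iUnion₂_right]
      intro j hj
      refine hS a (Finset.mem_insert_self a A) j (Finset.mem_insert_of_mem hj) ?_
      rintro rfl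
      exact ha hj

/-- the expectation does not change if the probabilities are changed outside the relevant coordinates -/
theorem Ex_congr_p {p q : I → ℝ} {S : Set I} {f : (I → Bool) → ℝ} (hf : Dep S f)
    (h : ∀ i ∈ S, p i = q i) : Ex p f = Ex q f := by
  have h1 := sum_swap p q S h (fun ξ _ => f ξ)
  have h2 : Ex p (fun ξ => Ex q (fun _ => f ξ)) = Ex p f := Ex_congr fun ξ => Ex_const q _
  rw [h2] at h1
  rw [← h1]
  have h3 : ∀ ξ ξ' : I → Bool, f (mix S ξ' ξ) = f ξ' := fun ξ ξ' =>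
    hf _ _ fun i hi => by simp [mix, hi]
  simp_rw [h3]
  exact Ex_const p _

theorem Pr_congr_p {p q : I → ℝ} {S : Set I} {A : (I → Bool) → Prop} (hA : Dep S A)
    (h : ∀ i ∈ S, p i = q i) : Pr p A = Pr q A := Ex_congr_p hA.ind h

/-! ### single coordinates -/

/-- integrating out one coordinate -/
theorem Ex_coord (p : I → ℝ) (i : I) (f : (I → Bool) → ℝ) :
    Ex p f = Ex p (fun ξ => p i * f (Function.update ξ i true) + (1 - p i) * f (Function.update ξ i false)) := by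
  have hbool : ∀ (ξ : I → Bool), ξ = Function.update ξ i (ξ i) := fun ξ => (Function.update_eq_self i ξ).symm
  -- split off the coordinate `i`
  let e : (I → Bool) ≃ Bool × ({j // j ≠ i} → Bool) := Equiv.funSplitAt i Bool
  have hwt : ∀ (b : Bool) (y : {j // j ≠ i} → Bool), wt p (e.symm (b, y)) =
      (if b = true then p i else 1 - p i) * ∏ j : {j // j ≠ i}, (if y j = true then p j else 1 - p j) := by
    intro b y
    unfold wt
    rw [Fintype.prod_eq_mul_prod_subtype_ne _ i]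
    congr 1
    · simp [e, Equiv.funSplitAt, Equiv.piSplitAt]
    · refine Finset.prod_congr rfl fun j _ => ?_
      simp [e, Equiv.funSplitAt, Equiv.piSplitAt, j.2]
  have hupd : ∀ (b c : Bool) (y : {j // j ≠ i} → Bool), Function.update (e.symm (b, y)) i c = e.symm (c, y) := by
    intro b c y
    funext j
    by_cases hj : j = i
    · subst hj
      simp [e, Equiv.funSplitAt, Equiv.piSplitAt]
    · simp [e, Equiv.funSplitAt, Equiv.piSplitAt, hj]
  have hsum : ∀ g : (I → Bool) → ℝ, ∑ ξ, g ξ = ∑ y : {j // j ≠ i} → Bool, (g (e.symm (true, y)) + g (e.symm (false, y))) := by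
    intro g
    rw [← Equiv.sum_comp e.symm g, Fintype.sum_prod_type]
    rw [Fintype.sum_bool, ← Finset.sum_add_distrib]
  unfold Ex
  rw [hsum, hsum]
  refine Finset.sum_congr rfl fun y _ => ?_
  simp only [hupd]
  rw [hwt, hwt]
  simp
  ring

/-- the coin `i` is independent of functions not depending on the coordinate `i` -/
theorem Ex_coin_mul (p : I → ℝ) (i : I) {g : (I → Bool) → ℝ} (hg : Dep {i}ᶜ g) :
    Ex p (fun ξ => (if ξ i = true then 1 else 0) * g ξ) = p i * Ex p g := by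
  rw [Ex_coord p i]
  have h : ∀ (ξ : I → Bool) (b : Bool), g (Function.update ξ i b) = g ξ := fun ξ b =>
    hg _ _ fun j hj => by
      rw [Function.update_of_ne]
      exact hj
  simp only [Function.update_self, h]
  rw [← Ex_mul_left]
  exact Ex_congr fun ξ => by simp

theorem Pr_coin (p : I → ℝ) (i : I) : Pr p (fun ξ => ξ i = true) = p i := by
  have h := Ex_coin_mul p i (g := fun _ => 1) (Dep.const _ _)
  simp only [mul_one] at h
  rw [Ex_const, mul_one] at h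
  rw [← h]
  unfold Pr
  refine Ex_congr fun ξ => ?_
  by_cases h1 : ξ i = true <;> simp [h1]

theorem Pr_coin_and (p : I → ℝ) (i : I) {A : (I → Bool) → Prop} (hA : Dep {i}ᶜ A) :
    Pr p (fun ξ => ξ i = true ∧ A ξ) = p i * Pr p A := by
  unfold Pr
  rw [← Ex_coin_mul p i hA.ind]
  refine Ex_congr fun ξ => ?_
  by_cases h1 : ξ i = true <;> by_cases h2 : A ξ <;> simp [h1, h2]

/-- expectation of a product of functions of single coordinates -/
theorem Ex_prod_coord (p : I → ℝ) (A : Finset I) (g : I → Bool → ℝ) :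
    Ex p (fun ξ => ∏ i ∈ A, g i (ξ i)) = ∏ i ∈ A, (p i * g i true + (1 - p i) * g i false) := by
  rw [Ex_prod_indep p A (fun i => {i}) (fun i ξ => g i (ξ i)) (fun i _ => (Dep.coord i).comp (g i))
    (fun i _ j _ hij => by simpa using hij)]
  refine Finset.prod_congr rfl fun i _ => ?_
  rw [Ex_coord p i]
  simp only [Function.update_self]
  exact Ex_const p _

/-! ### partial expectations -/

theorem ExS_empty (p : I → ℝ) (f : (I → Bool) → ℝ) : ExS p ∅ f = f := by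
  funext ξ
  unfold ExS
  have : ∀ η : I → Bool, mix ∅ η ξ = ξ := fun η => by funext i; simp [mix]
  simp_rw [this]
  exact Ex_const p _

theorem ExS_univ (p : I → ℝ) (f : (I → Bool) → ℝ) (ξ : I → Bool) : ExS p Set.univ f ξ = Ex p f := by
  unfold ExS
  have : ∀ η : I → Bool, mix Set.univ η ξ = η := fun η => by funext i; simp [mix]
  simp_rw [this]

theorem Ex_ExS (p : I → ℝ) (S : Set I) (f : (I → Bool) → ℝ) : Ex p (ExS p S f) = Ex p f :=
  Ex_mix p S f

theorem ExS_union (p : I → ℝ) (S T : Set I) (f : (I → Bool) → ℝ) :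
    ExS p (S ∪ T) f = ExS p S (ExS p T f) := by
  funext ξ
  show Ex p (fun η => f (mix (S ∪ T) η ξ)) = Ex p (fun η => Ex p (fun η' => f (mix T η' (mix S η ξ))))
  rw [← Ex_mix p T (fun η => f (mix (S ∪ T) η ξ))]
  refine Ex_congr fun η => Ex_congr fun η' => ?_
  congr 1
  funext i
  by_cases h1 : i ∈ T <;> by_cases h2 : i ∈ S <;> simp [mix, h1, h2]

theorem ExS_singleton (p : I → ℝ) (i : I) (f : (I → Bool) → ℝ) (ξ : I → Bool) :
    ExS p {i} f ξ = p i * f (Function.update ξ i true) + (1 - p i) * f (Function.update ξ i false) := by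
  show Ex p (fun η => f (mix {i} η ξ)) = _
  rw [Ex_coord p i]
  have : ∀ (η : I → Bool) (b : Bool), mix {i} (Function.update η i b) ξ = Function.update ξ i b := by
    intro η b
    funext j
    by_cases hj : j = i
    · subst hj; simp [mix]
    · simp [mix, hj]
  simp_rw [this]
  exact Ex_const p _

theorem ExS_mono {p : I → ℝ} (h0 : ∀ i, 0 ≤ p i ∧ p i ≤ 1) (S : Set I) {f g : (I → Bool) → ℝ}
    (h : ∀ ξ, f ξ ≤ g ξ) (ξ : I → Bool) : ExS p S f ξ ≤ ExS p S g ξ :=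
  Ex_mono h0 fun _ => h _

theorem ExS_nonneg {p : I → ℝ} (h0 : ∀ i, 0 ≤ p i ∧ p i ≤ 1) (S : Set I) {f : (I → Bool) → ℝ}
    (h : ∀ ξ, 0 ≤ f ξ) (ξ : I → Bool) : 0 ≤ ExS p S f ξ :=
  Ex_nonneg h0 fun _ => h _

theorem ExS_const (p : I → ℝ) (S : Set I) (c : ℝ) (ξ : I → Bool) : ExS p S (fun _ => c) ξ = c :=
  Ex_const p c

theorem ExS_add (p : I → ℝ) (S : Set I) (f g : (I → Bool) → ℝ) (ξ : I → Bool) :
    ExS p S (fun ξ => f ξ + g ξ) ξ = ExS p S f ξ + ExS p S g ξ :=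
  Ex_add p _ _

theorem ExS_sub (p : I → ℝ) (S : Set I) (f g : (I → Bool) → ℝ) (ξ : I → Bool) :
    ExS p S (fun ξ => f ξ - g ξ) ξ = ExS p S f ξ - ExS p S g ξ :=
  Ex_sub p _ _

theorem ExS_mul_left (p : I → ℝ) (S : Set I) (c : ℝ) (f : (I → Bool) → ℝ) (ξ : I → Bool) :
    ExS p S (fun ξ => c * f ξ) ξ = c * ExS p S f ξ :=
  Ex_mul_left p _ _

theorem ExS_sum {J : Type*} (p : I → ℝ) (S : Set I) (A : Finset J) (f : J → (I → Bool) → ℝ) (ξ : I → Bool) :
    ExS p S (fun ξ => ∑ j ∈ A, f j ξ) ξ = ∑ j ∈ A, ExS p S (f j) ξ :=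
  Ex_sum p A (fun j η => f j (mix S η ξ))

theorem abs_ExS_le {p : I → ℝ} (h0 : ∀ i, 0 ≤ p i ∧ p i ≤ 1) (S : Set I) (f : (I → Bool) → ℝ) (ξ : I → Bool) :
    |ExS p S f ξ| ≤ ExS p S (fun ξ => |f ξ|) ξ :=
  abs_Ex_le h0 _

/-- a function not depending on the integrated coordinates can be pulled out -/
theorem ExS_mul_of_dep (p : I → ℝ) (S : Set I) {f : (I → Bool) → ℝ} (hf : Dep Sᶜ f) (g : (I → Bool) → ℝ)
    (ξ : I → Bool) : ExS p S (fun ξ => f ξ * g ξ) ξ = f ξ * ExS p S g ξ := by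
  show Ex p (fun η => f (mix S η ξ) * g (mix S η ξ)) = f ξ * Ex p (fun η => g (mix S η ξ))
  rw [← Ex_mul_left]
  refine Ex_congr fun η => ?_
  rw [hf (mix S η ξ) ξ (fun i hi => by
    have : i ∉ S := hi
    simp [mix, this])]

theorem ExS_of_dep (p : I → ℝ) (S : Set I) {f : (I → Bool) → ℝ} (hf : Dep Sᶜ f)
    (ξ : I → Bool) : ExS p S f ξ = f ξ := by
  have := ExS_mul_of_dep p S hf (fun _ => 1) ξ
  simp only [mul_one, ExS_const] at this
  exact this

theorem dep_ExS (p : I → ℝ) (S : Set I) (f : (I → Bool) → ℝ) : Dep Sᶜ (ExS p S f) := by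
  intro ξ ξ' hh
  show Ex p (fun η => f (mix S η ξ)) = Ex p (fun η => f (mix S η ξ'))
  refine Ex_congr fun η => ?_
  congr 1
  funext i
  by_cases hi : i ∈ S
  · simp [mix, hi]
  · simp [mix, hi, hh i hi]

omit [Fintype I] in
theorem mix_update {S : Set I} {i : I} (hi : i ∉ S) (η ξ : I → Bool) (b : Bool) :
    mix S η (Function.update ξ i b) = Function.update (mix S η ξ) i b := by
  funext j
  by_cases hj : j = i
  · subst hj; simp [mix, hi]
  · simp [mix, hj]

theorem ExS_update (p : I → ℝ) {S : Set I} {i : I} (hi : i ∉ S) (f : (I → Bool) → ℝ) (ξ : I → Bool) (b : Bool) :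
    ExS p S f (Function.update ξ i b) = ExS p S (fun η => f (Function.update η i b)) ξ := by
  show Ex p (fun η => f (mix S η (Function.update ξ i b))) = Ex p (fun η => f (Function.update (mix S η ξ) i b))
  refine Ex_congr fun η => ?_
  rw [mix_update hi]

/-- an integrated coin is independent of functions not depending on it -/
theorem ExS_coin_mul (p : I → ℝ) {S : Set I} {i : I} (hi : i ∈ S) {g : (I → Bool) → ℝ} (hg : Dep {i}ᶜ g)
    (ξ : I → Bool) : ExS p S (fun ξ => (if ξ i = true then 1 else 0) * g ξ) ξ = p i * ExS p S g ξ := by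
  show Ex p (fun η => (if mix S η ξ i = true then 1 else 0) * g (mix S η ξ)) = p i * Ex p (fun η => g (mix S η ξ))
  rw [← Ex_coin_mul p i (g := fun η => g (mix S η ξ))]
  · refine Ex_congr fun η => ?_
    simp [mix, hi]
  · intro η η' hh
    apply hg
    intro j hj
    by_cases hjS : j ∈ S
    · simp [mix, hjS, hh j hj]
    · simp [mix, hjS]

end Prob

end Vu80
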