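import Pool.Agent.Lib_helper80.Vu.Stmts
import Pool.Agent.Lib_helper80.Vu.Prob

/-!
# Vu's conjecture (list version): assembly from the modules
-/

set_option autoImplicit false

open scoped Classical
open Finset

noncomputable section

namespace Vu80

theorem rates_range {P : Par} {V X : Type} [Fintype V] [Fintype X] {C : Cov V X} {p : ℕ → X → ℝ}
    (hp : Rates P C p) : ∀ i, 0 ≤ rt P.R p i ∧ rt P.R p i ≤ 1 :=
  fun _ => ⟨hp.nonneg _ _, (hp.le _ _).trans P.hpm1⟩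

/-- the colouring in the setting of covers -/
theorem cover_colouring (hrates : S_RATES) (hrec : S_REC) (h14 : S_TAIL14) (h2 : S_TAIL2) (h3 : S_TAIL3)
    (hlll : S_LLL) (hloc : S_LOC) (hfin : S_FIN)
    (P : Par) (V X : Type) [Fintype V] [Fintype X] (C : Cov V X) (hC : COk P C) :
    ∃ f : V → X, (∀ v, C.pv (f v) = v) ∧ ∀ u v, C.G.Adj u v → C.pc (f u) ≠ C.pc (f v) := by
  obtain ⟨p, hp⟩ := hrates P V X C
  have hr := rates_range hp
  obtain ⟨hcc, hun⟩ := hrec P V X C hC p hp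
  obtain ⟨l1, l2, l3, l4, l5⟩ := hloc V X C P.R P.Δ hC.deg
  set q : ℝ := Real.exp (-(P.c1 * P.Δ)) with hq
  -- the bad events
  let B : V → Coins P.R X → Prop := fun v ξ =>
    ((P.κ1 + P.κ3) * P.Δ ≤ C.F1 ξ v ∨ P.κ3 * P.Δ ≤ C.F2 ξ v) ∨
      (P.κ3 * P.Δ ≤ C.F3 ξ v ∨ (1 - P.δ) * P.ℓ + P.κ3 * P.Δ ≤ C.F4 ξ v)
  let S : V → Set (Fin P.R × X) := fun v => {i | C.pv i.2 ∈ C.ball v (P.R + 2)}
  have hdep : ∀ v, Dep (S v) (B v) := by
    intro v ξ ξ' hh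
    have e1 := l1 v ξ ξ' hh
    have e2 := l2 v ξ ξ' hh
    have e3 := l3 v ξ ξ' hh
    have e4 := l4 v ξ ξ' hh
    simp only at e1 e2 e3 e4
    show _ = _
    simp only [B, e1, e2, e3, e4]
  have hPr : ∀ v, Pr (rt P.R p) (B v) ≤ 4 * q := by
    intro v
    obtain ⟨t1, t4⟩ := h14 P V X C hC p hp hcc hun v
    have t2 := h2 P V X C hC p hp v
    have t3 := h3 P V X C hC p hp v
    have hk : Real.exp (-(P.κ3 / 2 * P.Δ)) ≤ q := by
      rw [hq]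
      apply Real.exp_le_exp.mpr
      have : P.c1 * P.Δ ≤ P.κ3 / 2 * P.Δ := mul_le_mul_of_nonneg_right P.hC4 (Nat.cast_nonneg _)
      linarith
    have o1 := Pr_or_le hr (fun ξ : Coins P.R X => (P.κ1 + P.κ3) * P.Δ ≤ C.F1 ξ v ∨ P.κ3 * P.Δ ≤ C.F2 ξ v)
      (fun ξ => P.κ3 * P.Δ ≤ C.F3 ξ v ∨ (1 - P.δ) * P.ℓ + P.κ3 * P.Δ ≤ C.F4 ξ v)
    have o2 := Pr_or_le hr (fun ξ : Coins P.R X => (P.κ1 + P.κ3) * P.Δ ≤ C.F1 ξ v)
      (fun ξ => P.κ3 * P.Δ ≤ C.F2 ξ v)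
    have o3 := Pr_or_le hr (fun ξ : Coins P.R X => P.κ3 * P.Δ ≤ C.F3 ξ v)
      (fun ξ => (1 - P.δ) * P.ℓ + P.κ3 * P.Δ ≤ C.F4 ξ v)
    show Pr (rt P.R p) (fun ξ => ((P.κ1 + P.κ3) * P.Δ ≤ C.F1 ξ v ∨ P.κ3 * P.Δ ≤ C.F2 ξ v) ∨
      (P.κ3 * P.Δ ≤ C.F3 ξ v ∨ (1 - P.δ) * P.ℓ + P.κ3 * P.Δ ≤ C.F4 ξ v)) ≤ 4 * q
    linarith
  have hd : 4 * (4 * q) * (((P.Δ + 1) ^ (2 * P.R + 4) : ℕ) : ℝ) ≤ 1 := by
    have := P.hC5
    push_cast
    rw [hq]
    linarith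
  obtain ⟨ξ, hξ⟩ := hlll (Fin P.R × X) (rt P.R p) hr V B S hdep (4 * q) ((P.Δ + 1) ^ (2 * P.R + 4))
    (by positivity) (Nat.one_le_pow _ _ (Nat.succ_pos _)) hPr l5 hd
  refine hfin V X C P.R ξ fun v => ?_
  have hb := hξ v
  simp only [B, not_or, not_le] at hb
  obtain ⟨⟨b1, b2⟩, b3, b4⟩ := hb
  rw [hC.fib v]
  have h6 := P.hC6
  have : ((C.F1 ξ v + C.F2 ξ v + C.F3 ξ v + C.F4 ξ v : ℕ) : ℝ) < P.ℓ := by
    push_cast
    nlinarith
  exact_mod_cast this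

/-- Vu's conjecture, list version -/
theorem vu_of (hrates : S_RATES) (hrec : S_REC) (h14 : S_TAIL14) (h2 : S_TAIL2) (h3 : S_TAIL3)
    (hlll : S_LLL) (hloc : S_LOC) (hfin : S_FIN) (hpar : S_PAR) :
    ∀ ζ ε : ℝ, 0 < ζ → 0 < ε → ∃ Δ₀ : ℕ, ∀ Δ : ℕ, Δ₀ ≤ Δ →
      ∀ (n : ℕ) (G : SimpleGraph (Fin n)) [DecidableRel G.Adj],
        (∀ v, G.degree v ≤ Δ) →
        (∀ u v, u ≠ v →
          (((G.neighborFinset u ∩ G.neighborFinset v).card : ℕ) : ℝ) ≤ ζ * (Δ : ℝ)) →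
        ∀ L : Fin n → Finset ℕ, (∀ v, ⌊(ζ + ε) * (Δ : ℝ)⌋₊ ≤ (L v).card) →
          ∃ f : Fin n → ℕ, (∀ v, f v ∈ L v) ∧ ∀ u v, G.Adj u v → f u ≠ f v := by
  intro ζ ε hζ hε
  set ζ' : ℝ := min ζ 1 with hζ'
  set ε' : ℝ := min ε 1 with hε'
  have hζ'0 : 0 < ζ' := lt_min hζ one_pos
  have hε'0 : 0 < ε' := lt_min hε one_pos
  obtain ⟨Δ₁, hΔ₁⟩ := hpar ζ' ε' hζ'0 (min_le_right _ _) hε'0 (min_le_right _ _)
  refine ⟨max Δ₁ ⌈2 / ε'⌉₊, ?_⟩
  intro Δ hΔ n G _ hdeg hcod L hL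
  have hΔ1 : Δ₁ ≤ Δ := (le_max_left _ _).trans hΔ
  have hΔ2 : 2 / ε' ≤ Δ := (Nat.le_ceil _).trans (by exact_mod_cast (le_max_right _ _).trans hΔ)
  have hΔ2' : 1 ≤ ε' / 2 * Δ := by
    rw [div_le_iff₀ hε'0] at hΔ2
    linarith
  have hΔ0 : (0 : ℝ) ≤ Δ := Nat.cast_nonneg _
  set ℓ : ℕ := ⌊(ζ' + ε') * (Δ : ℝ)⌋₊ with hℓ
  have hℓ1 : (ζ' + ε' / 2) * Δ ≤ ℓ := by
    have := Nat.lt_floor_add_one ((ζ' + ε') * (Δ : ℝ))
    rw [← hℓ] at this
    nlinarith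
  have hℓL : ∀ v, ℓ ≤ (L v).card := by
    intro v
    refine le_trans (Nat.floor_le_floor ?_) (hL v)
    exact mul_le_mul_of_nonneg_right (add_le_add (min_le_left _ _) (min_le_left _ _)) hΔ0
  obtain ⟨P, hPζ, hPΔ, hPℓ⟩ := hΔ₁ Δ hΔ1 ℓ hℓ1
  -- lists of size exactly `ℓ`
  choose L' hL's hL'c using fun v => Finset.exists_subset_card_eq (hℓL v)
  let X : Type := Σ v : Fin n, {a // a ∈ L' v}
  let C : Cov (Fin n) X :=
    { G := G
      pv := fun x => x.1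
      pc := fun x => x.2.1
      inj := by
        rintro ⟨v, a, ha⟩ ⟨w, b, hb⟩ h1 h2
        simp only at h1 h2
        subst h1
        subst h2
        rfl }
  have hN : ∀ v, C.N v = G.neighborFinset v := by
    intro v
    ext u
    simp [Cov.N, C, SimpleGraph.mem_neighborFinset]
  have hC : COk P C := by
    refine ⟨fun v => ?_, fun u v huv => ?_, fun v => ?_⟩
    · rw [hN, G.card_neighborFinset_eq_degree, hPΔ]
      exact hdeg v
    · rw [hN, hN, hPζ, hPΔ]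
      have key : ((G.neighborFinset u ∩ G.neighborFinset v).card : ℝ) ≤ ζ' * Δ := by
        rw [hζ']
        rcases min_choice ζ 1 with h | h
        · rw [h]
          exact hcod u v huv
        · rw [h, one_mul]
          have h1 : (G.neighborFinset u ∩ G.neighborFinset v).card ≤ Δ :=
            (Finset.card_le_card Finset.inter_subset_left).trans
              (by rw [G.card_neighborFinset_eq_degree]; exact hdeg u)
          exact_mod_cast h1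
      refine le_trans (le_of_eq ?_) key
      congr 2
      ext w
      simp
    · rw [hPℓ]
      have h1 : C.fib v = (univ : Finset {a // a ∈ L' v}).image (fun a => (⟨v, a⟩ : X)) := by
        ext ⟨w, a⟩
        simp only [Cov.fib, C, mem_filter, mem_univ, true_and, mem_image]
        constructor
        · intro h
          subst h
          exact ⟨a, rfl⟩
        · rintro ⟨b, hb⟩
          rw [Sigma.mk.injEq] at hb
          exact hb.1.symm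
      rw [h1, Finset.card_image_of_injective _ sigma_mk_injective, Finset.card_univ,
        Fintype.card_coe]
      exact hL'c v
  obtain ⟨f, hf1, hf2⟩ := cover_colouring hrates hrec h14 h2 h3 hlll hloc hfin P (Fin n) X C hC
  refine ⟨fun v => (f v).2.1, fun v => ?_, fun u v huv => hf2 u v huv⟩
  have h1 : ∀ x : X, x.1 = v → (x.2.1 : ℕ) ∈ L v := by
    rintro ⟨w, a⟩ h
    simp only at h
    subst h
    exact hL's _ a.2
  exact h1 (f v) (hf1 v)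

end Vu80
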