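import Pool.Agent.Lib_helper80.Vu.Stmts

/-!
# Vu: concentration (`S_CONC`) and the tails of `F1`, `F4` (`S_TAIL14`)
-/

set_option autoImplicit false
set_option linter.unusedSectionVars false

open scoped Classical
open Finset

noncomputable section

namespace Vu80

namespace ConcAux

section

variable {I : Type} [Fintype I] {p : I → ℝ}

theorem wt_nonneg (hp : ∀ i, 0 ≤ p i ∧ p i ≤ 1) (ξ : I → Bool) : 0 ≤ wt p ξ := by
  unfold wt
  refine Finset.prod_nonneg fun i _ => ?_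
  split_ifs
  · exact (hp i).1
  · linarith [(hp i).2]

theorem sum_wt (p : I → ℝ) : ∑ ξ : I → Bool, wt p ξ = 1 := by
  unfold wt
  have h := Finset.prod_univ_sum (fun _ : I => (Finset.univ : Finset Bool))
    (fun i b => if b = true then p i else 1 - p i)
  simp only [Fintype.piFinset_univ] at h
  rw [← h]
  refine Finset.prod_eq_one fun i _ => ?_
  simp

theorem Ex_const (c : ℝ) : Ex p (fun _ => c) = c := by
  unfold Ex
  rw [← Finset.sum_mul, sum_wt, one_mul]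

theorem Ex_mono (hp : ∀ i, 0 ≤ p i ∧ p i ≤ 1) {f g : (I → Bool) → ℝ} (h : ∀ ξ, f ξ ≤ g ξ) :
    Ex p f ≤ Ex p g :=
  Finset.sum_le_sum fun ξ _ => mul_le_mul_of_nonneg_left (h ξ) (wt_nonneg hp ξ)

theorem Ex_sum {J : Type} (A : Finset J) (f : J → (I → Bool) → ℝ) :
    Ex p (fun ξ => ∑ j ∈ A, f j ξ) = ∑ j ∈ A, Ex p (f j) := by
  unfold Ex
  rw [Finset.sum_comm]
  refine Finset.sum_congr rfl fun ξ _ => ?_
  rw [Finset.mul_sum]

theorem Ex_sub (f g : (I → Bool) → ℝ) : Ex p (fun ξ => f ξ - g ξ) = Ex p f - Ex p g := by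
  unfold Ex
  rw [← Finset.sum_sub_distrib]
  refine Finset.sum_congr rfl fun ξ _ => ?_
  ring

theorem Ex_cmul (c : ℝ) (f : (I → Bool) → ℝ) : Ex p (fun ξ => c * f ξ) = c * Ex p f := by
  unfold Ex
  rw [Finset.mul_sum]
  refine Finset.sum_congr rfl fun ξ _ => ?_
  ring

theorem Ex_abs (hp : ∀ i, 0 ≤ p i ∧ p i ≤ 1) (f : (I → Bool) → ℝ) :
    |Ex p f| ≤ Ex p (fun ξ => |f ξ|) := by
  unfold Ex
  refine (Finset.abs_sum_le_sum_abs _ _).trans (Finset.sum_le_sum fun ξ _ => ?_)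
  rw [abs_mul, abs_of_nonneg (wt_nonneg hp ξ)]

theorem Ex_congr {f g : (I → Bool) → ℝ} (h : ∀ ξ, f ξ = g ξ) : Ex p f = Ex p g := by
  have : f = g := funext h
  rw [this]

theorem chernoff (hp : ∀ i, 0 ≤ p i ∧ p i ≤ 1) (F : (I → Bool) → ℝ) (m c θ : ℝ) (hθ : 0 ≤ θ) :
    Pr p (fun ξ => m + c ≤ F ξ) ≤
      Real.exp (-(θ * c)) * Ex p (fun ξ => Real.exp (θ * (F ξ - m))) := by
  unfold Pr
  rw [← Ex_cmul]
  refine Ex_mono hp fun ξ => ?_
  rw [← Real.exp_add]
  split_ifs with h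
  · rw [← Real.exp_zero]
    apply Real.exp_le_exp.2
    nlinarith
  · exact (Real.exp_pos _).le

theorem mix_update (d1 d2 : DecidableEq I) {S : Set I} {i : I} (hi : i ∉ S) (η ξ : I → Bool)
    (b : Bool) :
    mix S η (@Function.update I _ d1 ξ i b) = @Function.update I _ d2 (mix S η ξ) i b := by
  funext j
  unfold mix
  by_cases hj : j = i
  · subst hj
    rw [@Function.update_self _ _ d1, @Function.update_self _ _ d2, if_neg hi]
  · rw [@Function.update_of_ne _ _ d1 _ _ hj, @Function.update_of_ne _ _ d2 _ _ hj]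

end

section

variable {V X : Type} [Fintype V] [Fintype X] (C : Cov V X)

theorem mem_fib {v : V} {y : X} : y ∈ C.fib v ↔ C.pv y = v := by
  simp [Cov.fib]

theorem mem_col {h y : X} : y ∈ C.col h ↔ C.pc y = C.pc h ∧ C.G.Adj (C.pv h) (C.pv y) := by
  simp [Cov.col]

theorem mem_N {u v : V} : u ∈ C.N v ↔ C.G.Adj v u := by
  simp [Cov.N]

theorem mem_nb {h y : X} : y ∈ C.nb h ↔
    C.pv y = C.pv h ∨ (C.pc y = C.pc h ∧ C.G.Adj (C.pv h) (C.pv y)) := by
  simp [Cov.nb, mem_fib, mem_col]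

theorem nb_symm (x y : X) : y ∈ C.nb x ↔ x ∈ C.nb y := by
  rw [mem_nb, mem_nb]
  constructor
  · rintro (h | ⟨h1, h2⟩)
    · exact Or.inl h.symm
    · exact Or.inr ⟨h1.symm, h2.symm⟩
  · rintro (h | ⟨h1, h2⟩)
    · exact Or.inl h.symm
    · exact Or.inr ⟨h1.symm, h2.symm⟩

theorem card_col (h : X) : (C.col h).card ≤ (C.N (C.pv h)).card := by
  refine Finset.card_le_card_of_injOn C.pv ?_ ?_
  · intro y hy
    rw [Finset.mem_coe, mem_N]
    exact ((mem_col C).1 hy).2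
  · intro y hy y' hy' he
    have h1 := (mem_col C).1 hy
    have h2 := (mem_col C).1 hy'
    exact C.inj y y' he (h1.1.trans h2.1.symm)

theorem card_nb {P : Par} (hC : COk P C) (x : X) : (C.nb x).card ≤ P.Δ + P.ℓ := by
  unfold Cov.nb
  refine (Finset.card_union_le _ _).trans ?_
  have h1 := hC.fib (C.pv x)
  have h2 := (card_col C x).trans (hC.deg (C.pv x))
  omega

theorem pm_nonneg (P : Par) : 0 ≤ P.pm := by
  unfold Par.pm
  have := P.hδ
  have := P.hε0
  positivity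

theorem pm_le_one (P : Par) : P.pm ≤ 1 := P.hpm1

theorem rt_mem {P : Par} {p : ℕ → X → ℝ} (hr : Rates P C p) (i : Fin P.R × X) :
    0 ≤ rt P.R p i ∧ rt P.R p i ≤ 1 :=
  ⟨hr.nonneg _ _, (hr.le _ _).trans (pm_le_one P)⟩

theorem pow_le_exp (P : Par) : (1 + P.pm * ((P.Δ + P.ℓ : ℕ) : ℝ)) ^ P.R ≤ Real.exp P.Θ := by
  have h0 := pm_nonneg P
  have h1 : 1 + P.pm * ((P.Δ + P.ℓ : ℕ) : ℝ) ≤ Real.exp (P.pm * ((P.Δ + P.ℓ : ℕ) : ℝ)) := by
    have := Real.add_one_le_exp (P.pm * ((P.Δ + P.ℓ : ℕ) : ℝ))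
    linarith
  have h2 : (0 : ℝ) ≤ 1 + P.pm * ((P.Δ + P.ℓ : ℕ) : ℝ) := by positivity
  refine (pow_le_pow_left₀ h2 h1 _).trans ?_
  rw [← Real.exp_nat_mul]
  apply Real.exp_le_exp.2
  have h3 := P.hpmΘ
  have e : (P.R : ℝ) * (P.pm * ((P.Δ + P.ℓ : ℕ) : ℝ)) = P.ε0 / (P.ℓ * P.δ) * P.R * (P.Δ + P.ℓ) := by
    unfold Par.pm
    push_cast
    ring
  rw [e]
  exact h3

theorem Rpml (P : Par) : P.R * P.pm * P.ℓ ≤ P.Θ := by
  have h3 := P.hpmΘ
  have h0 := pm_nonneg P
  have e : P.ε0 / (P.ℓ * P.δ) * P.R * (P.Δ + P.ℓ) = P.R * P.pm * P.ℓ + P.R * P.pm * P.Δ := by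
    unfold Par.pm
    ring
  have : 0 ≤ P.R * P.pm * (P.Δ : ℝ) := by positivity
  linarith

end

end ConcAux

open ConcAux in
theorem conc (hm : S_MGF) (hi : S_INF) (ht : S_TOP) : S_CONC := by
  intro P V X _ _ C hC p hr Q hQ F hF
  have hp := rt_mem C hr
  have hpm := pm_nonneg P
  have hS := nb_symm C
  obtain ⟨t1, t2, t3, t4, t5, t6, t7⟩ := ht X C.nb hS (P.Δ + P.ℓ) (card_nb C hC) P.pm hpm P.R
  -- the influences
  set b : Fin P.R × X → ℝ := fun i => ∑ y ∈ Q, ((Top P.pm C.nb)^[P.R] (ind {i.2})) y with hb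
  set g : X → ℝ := (Top P.pm C.nb)^[P.R] (ind Q) with hg
  have hbg : ∀ i, b i = g i.2 := by
    intro i
    have h1 := t5 (ind {i.2}) (ind Q)
    have h2 : ∑ h, ((Top P.pm C.nb)^[P.R] (ind {i.2})) h * ind Q h = b i := by
      rw [hb]
      simp only
      rw [← Finset.sum_filter_add_sum_filter_not Finset.univ (fun y => y ∈ Q)]
      have e1 : ∑ x ∈ Finset.univ.filter (fun y => y ∈ Q),
          ((Top P.pm C.nb)^[P.R] (ind {i.2})) x * ind Q x =
          ∑ y ∈ Q, ((Top P.pm C.nb)^[P.R] (ind {i.2})) y := by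
        rw [Finset.filter_univ_mem]
        refine Finset.sum_congr rfl fun y hy => ?_
        simp [ind, hy]
      have e2 : ∑ x ∈ Finset.univ.filter (fun y => ¬ y ∈ Q),
          ((Top P.pm C.nb)^[P.R] (ind {i.2})) x * ind Q x = 0 := by
        refine Finset.sum_eq_zero fun y hy => ?_
        simp [ind, (Finset.mem_filter.1 hy).2]
      rw [e1, e2, add_zero]
    have h3 : ∑ h, ind {i.2} h * ((Top P.pm C.nb)^[P.R] (ind Q)) h = g i.2 := by
      rw [hg]
      rw [Finset.sum_eq_single i.2]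
      · simp [ind]
      · intro y _ hy
        simp [ind, hy]
      · intro h
        exact absurd (Finset.mem_univ _) h
    rw [← h2, h1, h3]
  have hind0 : ∀ h, 0 ≤ (ind Q : X → ℝ) h := by
    intro h
    unfold ind
    split_ifs <;> norm_num
  have hind1 : ∀ h, (ind Q : X → ℝ) h ≤ 1 := by
    intro h
    unfold ind
    split_ifs <;> norm_num
  have hg0 : ∀ h, 0 ≤ g h := t1 (ind Q) hind0
  have hE : 0 < Real.exp P.Θ := Real.exp_pos _
  have hg1 : ∀ h, g h ≤ Real.exp P.Θ := by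
    intro h
    have := t7 (ind Q) 1 zero_le_one hind1 h
    have h2 := pow_le_exp P
    calc g h ≤ (1 + P.pm * ((P.Δ + P.ℓ : ℕ) : ℝ)) ^ P.R * 1 := this
      _ ≤ Real.exp P.Θ := by rw [mul_one]; exact h2
  have hgs : ∑ h, g h ≤ Real.exp P.Θ * (P.Δ * P.ℓ) := by
    have h1 := t6 (ind Q) hind0
    have h2 : ∑ h, (ind Q : X → ℝ) h = (Q.card : ℝ) := by
      unfold ind
      rw [Finset.sum_ite_mem, Finset.univ_inter, Finset.sum_const, nsmul_eq_mul, mul_one]
    rw [h2] at h1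
    refine h1.trans ?_
    have h3 : (Q.card : ℝ) ≤ (P.Δ : ℝ) * P.ℓ := by exact_mod_cast hQ
    exact mul_le_mul (pow_le_exp P) h3 (by positivity) hE.le
  have hb0 : ∀ i, 0 ≤ b i := fun i => by rw [hbg]; exact hg0 _
  -- influence bound
  have hM := hm (Fin P.R × X) (rt P.R p) hp (fun j => (j.1 : ℕ)) F b hb0 (by
    intro i ξ
    refine le_trans ?_ (hi X C.nb P.R p P.pm hr.nonneg hr.le (pm_le_one P) Q i ξ)
    unfold ExS
    rw [← Ex_sub]
    refine (Ex_abs hp _).trans (Ex_mono hp fun η => ?_)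
    have hi' : i ∉ {j : Fin P.R × X | (i.1 : ℕ) < (j.1 : ℕ)} := by simp
    have e1 := mix_update (fun a b => Classical.propDecidable (a = b)) inferInstance hi' η ξ true
    have e2 := mix_update (fun a b => Classical.propDecidable (a = b)) inferInstance hi' η ξ false
    simp only at e1 e2 ⊢
    rw [e1, e2]
    exact hF _ _) P.θ P.hθ.le
  -- the exponent
  have hexp : ∑ i, rt P.R p i * (P.θ ^ 2 * b i ^ 2 / 2 * Real.exp (P.θ * b i)) ≤
      P.θ ^ 2 / 2 * Real.exp (P.θ * Real.exp P.Θ) * (P.Θ * Real.exp (2 * P.Θ)) * P.Δ := by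
    have hθ := P.hθ
    have h1 : ∀ i : Fin P.R × X, rt P.R p i * (P.θ ^ 2 * b i ^ 2 / 2 * Real.exp (P.θ * b i)) ≤
        P.pm * (P.θ ^ 2 / 2 * Real.exp (P.θ * Real.exp P.Θ) * Real.exp P.Θ) * g i.2 := by
      intro i
      have a1 : rt P.R p i ≤ P.pm := hr.le _ _
      have a2 : 0 ≤ rt P.R p i := hr.nonneg _ _
      rw [hbg i]
      have a3 := hg0 i.2
      have a4 := hg1 i.2
      have a5 : Real.exp (P.θ * g i.2) ≤ Real.exp (P.θ * Real.exp P.Θ) := by
        apply Real.exp_le_exp.2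
        exact mul_le_mul_of_nonneg_left a4 hθ.le
      have a6 : g i.2 ^ 2 ≤ Real.exp P.Θ * g i.2 := by
        rw [sq]; exact mul_le_mul_of_nonneg_right a4 a3
      calc rt P.R p i * (P.θ ^ 2 * g i.2 ^ 2 / 2 * Real.exp (P.θ * g i.2))
          ≤ P.pm * (P.θ ^ 2 * (Real.exp P.Θ * g i.2) / 2 * Real.exp (P.θ * Real.exp P.Θ)) := by
            gcongr
        _ = _ := by ring
    refine (Finset.sum_le_sum fun i _ => h1 i).trans ?_
    rw [← Finset.mul_sum]
    have h2 : ∑ i : Fin P.R × X, g i.2 = P.R * ∑ h, g h := by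
      rw [Fintype.sum_prod_type]
      simp
    rw [h2]
    have h3 := Rpml P
    have h4 : 0 ≤ P.θ ^ 2 / 2 * Real.exp (P.θ * Real.exp P.Θ) * Real.exp P.Θ := by positivity
    calc P.pm * (P.θ ^ 2 / 2 * Real.exp (P.θ * Real.exp P.Θ) * Real.exp P.Θ) * (P.R * ∑ h, g h)
        ≤ P.pm * (P.θ ^ 2 / 2 * Real.exp (P.θ * Real.exp P.Θ) * Real.exp P.Θ) *
          (P.R * (Real.exp P.Θ * (P.Δ * P.ℓ))) := by gcongr
      _ = (P.θ ^ 2 / 2 * Real.exp (P.θ * Real.exp P.Θ) * Real.exp P.Θ) * Real.exp P.Θ *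
          (P.R * P.pm * P.ℓ) * P.Δ := by ring
      _ ≤ (P.θ ^ 2 / 2 * Real.exp (P.θ * Real.exp P.Θ) * Real.exp P.Θ) * Real.exp P.Θ *
          P.Θ * P.Δ := by gcongr
      _ = _ := by
        have : Real.exp (2 * P.Θ) = Real.exp P.Θ * Real.exp P.Θ := by
          rw [← Real.exp_add]; ring_nf
        rw [this]; ring
  refine (chernoff hp F (Ex (rt P.R p) F) (P.κ3 * P.Δ) P.θ P.hθ.le).trans ?_
  calc Real.exp (-(P.θ * (P.κ3 * P.Δ))) * Ex (rt P.R p) (fun ξ => Real.exp (P.θ * (F ξ - Ex (rt P.R p) F)))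
      ≤ Real.exp (-(P.θ * (P.κ3 * P.Δ))) *
        Real.exp (P.θ ^ 2 / 2 * Real.exp (P.θ * Real.exp P.Θ) * (P.Θ * Real.exp (2 * P.Θ)) * P.Δ) := by
        refine mul_le_mul_of_nonneg_left (hM.trans (Real.exp_le_exp.2 hexp)) (Real.exp_pos _).le
    _ ≤ Real.exp (-(P.c1 * P.Δ)) := by
        rw [← Real.exp_add]
        apply Real.exp_le_exp.2
        have h3 := P.hC3
        have h4 : (0 : ℝ) ≤ P.Δ := by positivity
        nlinarith [mul_le_mul_of_nonneg_right h3 h4]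

namespace ConcAux

section

variable {V X : Type} [Fintype V] [Fintype X] (C : Cov V X)

/-- number of rounds in which the acts of `y` differ -/
def dd (nb : X → Finset X) {R : ℕ} (ξ ξ' : Coins R X) (y : X) : ℝ :=
  ∑ t ∈ range R, (if (act nb ξ t y ↔ act nb ξ' t y) then (0 : ℝ) else 1)

theorem dd_nonneg (nb : X → Finset X) {R : ℕ} (ξ ξ' : Coins R X) (y : X) : 0 ≤ dd nb ξ ξ' y := by
  unfold dd
  refine Finset.sum_nonneg fun t _ => ?_
  split_ifs <;> norm_num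

theorem dd_ge_one {nb : X → Finset X} {R : ℕ} {ξ ξ' : Coins R X} {y : X} {t : ℕ} (ht : t < R)
    (h : ¬ (act nb ξ t y ↔ act nb ξ' t y)) : 1 ≤ dd nb ξ ξ' y := by
  unfold dd
  have h1 := Finset.single_le_sum
    (f := fun t => (if (act nb ξ t y ↔ act nb ξ' t y) then (0 : ℝ) else 1))
    (fun t _ => by split_ifs <;> norm_num) (Finset.mem_range.2 ht)
  simp only [if_neg h] at h1
  exact h1

theorem count_lip (nb : X → Finset X) {R : ℕ} {J : Type} (A : Finset J) (E : J → Coins R X → Prop)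
    (B : J → Finset X) (Q : Finset X) (hB : ∀ u ∈ A, B u ⊆ Q)
    (hdisj : ∀ u ∈ A, ∀ w ∈ A, u ≠ w → Disjoint (B u) (B w))
    (hE : ∀ u ∈ A, ∀ ξ ξ' : Coins R X,
      (∀ y ∈ B u, ∀ t < R, (act nb ξ t y ↔ act nb ξ' t y)) → (E u ξ ↔ E u ξ')) (ξ ξ' : Coins R X) :
    |((A.filter (fun u => E u ξ)).card : ℝ) - ((A.filter (fun u => E u ξ')).card : ℝ)| ≤
      ∑ t ∈ range R, ∑ y ∈ Q, (if (act nb ξ t y ↔ act nb ξ' t y) then (0 : ℝ) else 1) := by
  have e : ∀ ζ : Coins R X, ((A.filter (fun u => E u ζ)).card : ℝ) =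
      ∑ u ∈ A, (if E u ζ then (1 : ℝ) else 0) := by
    intro ζ
    rw [Finset.card_filter]
    push_cast
    rfl
  rw [e, e, ← Finset.sum_sub_distrib, Finset.sum_comm]
  have h1 : ∀ u ∈ A, |(if E u ξ then (1 : ℝ) else 0) - (if E u ξ' then (1 : ℝ) else 0)| ≤
      ∑ y ∈ B u, dd nb ξ ξ' y := by
    intro u hu
    have hnn : 0 ≤ ∑ y ∈ B u, dd nb ξ ξ' y := Finset.sum_nonneg fun y _ => dd_nonneg nb ξ ξ' y
    by_cases h : ∀ y ∈ B u, ∀ t < R, (act nb ξ t y ↔ act nb ξ' t y)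
    · have := hE u hu ξ ξ' h
      by_cases h2 : E u ξ
      · have h3 := this.1 h2
        rw [if_pos h2, if_pos h3]
        simpa using hnn
      · have h3 : ¬ E u ξ' := fun h4 => h2 (this.2 h4)
        rw [if_neg h2, if_neg h3]
        simpa using hnn
    · push Not at h
      obtain ⟨y, hy, t, ht, h⟩ := h
      have hne : ¬ (act nb ξ t y ↔ act nb ξ' t y) := by tauto
      have h2 := dd_ge_one ht hne
      have h3 := Finset.single_le_sum (f := fun y => dd nb ξ ξ' y)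
        (fun y _ => dd_nonneg nb ξ ξ' y) hy
      have h4 : |(if E u ξ then (1 : ℝ) else 0) - (if E u ξ' then (1 : ℝ) else 0)| ≤ 1 := by
        split_ifs <;> norm_num
      linarith
  refine (Finset.abs_sum_le_sum_abs _ _).trans ((Finset.sum_le_sum h1).trans ?_)
  have h2 : ∑ u ∈ A, ∑ y ∈ B u, dd nb ξ ξ' y = ∑ y ∈ A.biUnion B, dd nb ξ ξ' y := by
    rw [Finset.sum_biUnion]
    intro u hu w hw hne
    exact hdisj u hu w hw hne
  rw [h2]
  refine Finset.sum_le_sum_of_subset_of_nonneg ?_ fun y _ _ => dd_nonneg nb ξ ξ' y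
  intro y hy
  rw [Finset.mem_biUnion] at hy
  obtain ⟨u, hu, hy⟩ := hy
  exact hB u hu hy

theorem F1_eq {R : ℕ} (ξ : Coins R X) (v : V) (E : V → Coins R X → Prop)
    (hE : ∀ u ξ, E u ξ ↔ ∀ h ∈ C.fib u, ¬ acted C.nb ξ h) :
    C.F1 ξ v = ((C.N v).filter (fun u => E u ξ)).card := by
  unfold Cov.F1
  congr 1
  ext u
  rw [Finset.mem_filter, Finset.mem_filter, hE]

theorem F4_eq {R : ℕ} (ξ : Coins R X) (v : V) (E : X → Coins R X → Prop)
    (hE : ∀ u ξ, E u ξ ↔ ∃ y ∈ C.col u, acted C.nb ξ y) :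
    C.F4 ξ v = ((C.fib v).filter (fun u => E u ξ)).card := by
  unfold Cov.F4
  congr 1
  ext u
  rw [Finset.mem_filter, Finset.mem_filter, hE]

theorem Ex_card {I J : Type} [Fintype I] {p : I → ℝ} (A : Finset J) (E : J → (I → Bool) → Prop) :
    Ex p (fun ξ => ((A.filter (fun u => E u ξ)).card : ℝ)) = ∑ u ∈ A, Pr p (E u) := by
  have : (fun ξ => ((A.filter (fun u => E u ξ)).card : ℝ)) =
      fun ξ => ∑ u ∈ A, (if E u ξ then (1 : ℝ) else 0) := by
    funext ξ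
    rw [Finset.card_filter]
    push_cast
    rfl
  rw [this, Ex_sum]
  rfl

theorem Pr_not {I : Type} [Fintype I] {p : I → ℝ} (A : (I → Bool) → Prop) :
    Pr p (fun ξ => ¬ A ξ) = 1 - Pr p A := by
  unfold Pr
  rw [← Ex_const (p := p) 1, ← Ex_sub]
  refine Ex_congr fun ξ => ?_
  rw [Ex_const]
  by_cases h : A ξ
  · rw [if_neg (not_not.2 h), if_pos h]; norm_num
  · rw [if_pos h, if_neg h]; norm_num

theorem Pr_mono {I : Type} [Fintype I] {p : I → ℝ} (hp : ∀ i, 0 ≤ p i ∧ p i ≤ 1)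
    {A B : (I → Bool) → Prop} (h : ∀ ξ, A ξ → B ξ) : Pr p A ≤ Pr p B := by
  unfold Pr
  refine Ex_mono hp fun ξ => ?_
  by_cases h1 : A ξ
  · rw [if_pos h1, if_pos (h ξ h1)]
  · rw [if_neg h1]
    split_ifs <;> norm_num

theorem Pr_congr {I : Type} [Fintype I] {p : I → ℝ}
    {A B : (I → Bool) → Prop} (h : ∀ ξ, A ξ ↔ B ξ) : Pr p A = Pr p B := by
  have : A = B := funext fun ξ => propext (h ξ)
  rw [this]

end

end ConcAux

open ConcAux in
theorem tail14 (hc : S_CONC) : S_TAIL14 := by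
  intro P V X _ _ C hC p hr hcc hun v
  have hp := rt_mem C hr
  set Q : Finset X := (C.N v).biUnion C.fib with hQ
  have hfd : ∀ u ∈ C.N v, ∀ w ∈ C.N v, u ≠ w → Disjoint (C.fib u) (C.fib w) := by
    intro u _ w _ hne
    rw [Finset.disjoint_left]
    intro y hy hy'
    exact hne (((mem_fib C).1 hy).symm.trans ((mem_fib C).1 hy'))
  have hQc : Q.card ≤ P.Δ * P.ℓ := by
    rw [hQ, Finset.card_biUnion hfd]
    calc ∑ u ∈ C.N v, (C.fib u).card = ∑ u ∈ C.N v, P.ℓ :=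
          Finset.sum_congr rfl fun u _ => hC.fib u
      _ = (C.N v).card * P.ℓ := by rw [Finset.sum_const, smul_eq_mul]
      _ ≤ P.Δ * P.ℓ := Nat.mul_le_mul_right _ (hC.deg v)
  constructor
  · have h1 := hc P V X C hC p hr Q hQc (fun ξ => (C.F1 ξ v : ℝ)) (by
      intro ξ ξ'
      rw [F1_eq C ξ v _ (fun u ξ => Iff.rfl), F1_eq C ξ' v _ (fun u ξ => Iff.rfl)]
      exact count_lip C.nb (C.N v) (fun u ξ => ∀ h ∈ C.fib u, ¬ acted C.nb ξ h) C.fib Q
        (fun u hu => Finset.subset_biUnion_of_mem C.fib hu) hfd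
        (by
          intro u _ ξ ξ' h
          constructor
          · rintro h1 y hy ⟨t, ht, ha⟩
            exact h1 y hy ⟨t, ht, (h y hy t ht).2 ha⟩
          · rintro h1 y hy ⟨t, ht, ha⟩
            exact h1 y hy ⟨t, ht, (h y hy t ht).1 ha⟩) ξ ξ')
    have h2 : Ex (rt P.R p) (fun ξ => (C.F1 (R := P.R) ξ v : ℝ)) ≤ P.κ1 * P.Δ := by
      have e1 : Ex (rt P.R p) (fun ξ => (C.F1 (R := P.R) ξ v : ℝ)) =
          ∑ u ∈ C.N v, Pr (rt P.R p) (fun ξ => ∀ h ∈ C.fib u, ¬ acted C.nb ξ h) := by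
        rw [← Ex_card (C.N v) (fun u ξ => ∀ h ∈ C.fib u, ¬ acted C.nb ξ h)]
        refine Ex_congr fun ξ => ?_
        rw [F1_eq C ξ v _ (fun u ξ => Iff.rfl)]
      rw [e1]
      calc ∑ u ∈ C.N v, Pr (rt P.R p) (fun ξ => ∀ h ∈ C.fib u, ¬ acted C.nb ξ h)
          ≤ ∑ u ∈ C.N v, P.κ1 := by
            refine Finset.sum_le_sum fun u _ => ?_
            refine le_trans (le_of_eq ?_) (hun u)
            unfold Cov.un av
            refine Pr_congr fun ξ => ?_
            unfold avd acted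
            constructor
            · intro h t ht y hy ha
              exact h y hy ⟨t, ht, ha⟩
            · rintro h y hy ⟨t, ht, ha⟩
              exact h t ht y hy ha
        _ = (C.N v).card * P.κ1 := by rw [Finset.sum_const, nsmul_eq_mul]
        _ ≤ P.Δ * P.κ1 := by
            have : ((C.N v).card : ℝ) ≤ P.Δ := by exact_mod_cast hC.deg v
            exact mul_le_mul_of_nonneg_right this P.hκ1.le
        _ = P.κ1 * P.Δ := mul_comm _ _
    refine le_trans (Pr_mono hp fun ξ h => ?_) h1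
    have : (P.κ1 + P.κ3) * P.Δ = P.κ1 * P.Δ + P.κ3 * P.Δ := by ring
    linarith
  · have hcd : ∀ h ∈ C.fib v, ∀ w ∈ C.fib v, h ≠ w → Disjoint (C.col h) (C.col w) := by
      intro h hh w hw hne
      rw [Finset.disjoint_left]
      intro y hy hy'
      apply hne
      refine C.inj h w (((mem_fib C).1 hh).trans ((mem_fib C).1 hw).symm) ?_
      exact ((mem_col C).1 hy).1.symm.trans ((mem_col C).1 hy').1
    have hcQ : ∀ h ∈ C.fib v, C.col h ⊆ Q := by
      intro h hh y hy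
      rw [hQ, Finset.mem_biUnion]
      have h1 := (mem_col C).1 hy
      rw [(mem_fib C).1 hh] at h1
      exact ⟨C.pv y, (mem_N C).2 h1.2, (mem_fib C).2 rfl⟩
    have h1 := hc P V X C hC p hr Q hQc (fun ξ => (C.F4 ξ v : ℝ)) (by
      intro ξ ξ'
      rw [F4_eq C ξ v _ (fun u ξ => Iff.rfl), F4_eq C ξ' v _ (fun u ξ => Iff.rfl)]
      exact count_lip C.nb (C.fib v) (fun h ξ => ∃ y ∈ C.col h, acted C.nb ξ y) C.col Q
        hcQ hcd
        (by
          intro u _ ξ ξ' h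
          constructor
          · rintro ⟨y, hy, t, ht, ha⟩
            exact ⟨y, hy, t, ht, (h y hy t ht).1 ha⟩
          · rintro ⟨y, hy, t, ht, ha⟩
            exact ⟨y, hy, t, ht, (h y hy t ht).2 ha⟩) ξ ξ')
    have h2 : Ex (rt P.R p) (fun ξ => (C.F4 (R := P.R) ξ v : ℝ)) ≤ (1 - P.δ) * P.ℓ := by
      have e1 : Ex (rt P.R p) (fun ξ => (C.F4 (R := P.R) ξ v : ℝ)) =
          ∑ h ∈ C.fib v, Pr (rt P.R p) (fun ξ => ∃ y ∈ C.col h, acted C.nb ξ y) := by
        rw [← Ex_card (C.fib v) (fun h ξ => ∃ y ∈ C.col h, acted C.nb ξ y)]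
        refine Ex_congr fun ξ => ?_
        rw [F4_eq C ξ v _ (fun u ξ => Iff.rfl)]
      rw [e1]
      calc ∑ h ∈ C.fib v, Pr (rt P.R p) (fun ξ => ∃ y ∈ C.col h, acted C.nb ξ y)
          ≤ ∑ h ∈ C.fib v, (1 - P.δ) := by
            refine Finset.sum_le_sum fun h _ => ?_
            have e2 : Pr (rt P.R p) (fun ξ => ∃ y ∈ C.col h, acted C.nb ξ y) =
                1 - C.cc P.R p P.R h := by
              unfold Cov.cc av
              rw [← Pr_not]
              refine Pr_congr fun ξ => ?_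
              unfold avd acted
              constructor
              · rintro ⟨y, hy, t, ht, ha⟩ hn
                exact hn t ht y hy ha
              · intro hn
                by_contra hc
                apply hn
                intro t ht y hy ha
                exact hc ⟨y, hy, t, ht, ha⟩
            rw [e2]
            linarith [hcc h]
        _ = (C.fib v).card * (1 - P.δ) := by rw [Finset.sum_const, nsmul_eq_mul]
        _ = (1 - P.δ) * P.ℓ := by rw [hC.fib v]; ring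
    refine le_trans (Pr_mono hp fun ξ h => ?_) h1
    linarith

end Vu80
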