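import Pool.Agent.Lib_helper80.Vu.Stmts

/-!
# Vu's conjecture (list version): Lemma DC (decoupling)   (helper7)
-/

set_option autoImplicit false

open scoped Classical
open Finset

noncomputable section

namespace Vu80

namespace DCx

/-! ## finite product space: the few facts needed -/

section Prob

variable {I : Type} [Fintype I] {p : I → ℝ}

lemma wt_nonneg (hp : ∀ i, 0 ≤ p i ∧ p i ≤ 1) (ξ : I → Bool) : 0 ≤ wt p ξ := by
  refine Finset.prod_nonneg fun i _ => ?_
  split_ifs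
  · exact (hp i).1
  · linarith [(hp i).2]

lemma sum_wt (p : I → ℝ) : ∑ ξ : I → Bool, wt p ξ = 1 := by
  unfold wt
  have h := (Finset.prod_univ_sum (fun _ : I => (Finset.univ : Finset Bool))
    (fun i b => if b = true then p i else 1 - p i)).symm
  rw [Fintype.piFinset_univ] at h
  rw [h]
  refine Finset.prod_eq_one fun i _ => ?_
  simp

lemma Ex_mono (hp : ∀ i, 0 ≤ p i ∧ p i ≤ 1) {f g : (I → Bool) → ℝ} (h : ∀ ξ, f ξ ≤ g ξ) :
    Ex p f ≤ Ex p g :=
  Finset.sum_le_sum fun ξ _ => mul_le_mul_of_nonneg_left (h ξ) (wt_nonneg hp ξ)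

lemma Ex_nonneg (hp : ∀ i, 0 ≤ p i ∧ p i ≤ 1) {f : (I → Bool) → ℝ} (h : ∀ ξ, 0 ≤ f ξ) :
    0 ≤ Ex p f := Finset.sum_nonneg fun ξ _ => mul_nonneg (wt_nonneg hp ξ) (h ξ)

lemma Ex_add (f g : (I → Bool) → ℝ) : Ex p (fun ξ => f ξ + g ξ) = Ex p f + Ex p g := by
  unfold Ex
  rw [← Finset.sum_add_distrib]
  exact Finset.sum_congr rfl fun ξ _ => by ring

lemma Ex_const (c : ℝ) : Ex p (fun _ => c) = c := by
  unfold Ex
  rw [← Finset.sum_mul, sum_wt, one_mul]

lemma Ex_sum {J : Type} (s : Finset J) (f : J → (I → Bool) → ℝ) :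
    Ex p (fun ξ => ∑ j ∈ s, f j ξ) = ∑ j ∈ s, Ex p (f j) := by
  unfold Ex
  rw [Finset.sum_comm]
  exact Finset.sum_congr rfl fun ξ _ => by rw [Finset.mul_sum]

/-- flip one coin -/
def flip (i : I) (ξ : I → Bool) : I → Bool := Function.update ξ i (!(ξ i))

omit [Fintype I] in
lemma flip_flip (i : I) : Function.Involutive (flip i : (I → Bool) → (I → Bool)) := by
  intro ξ
  funext j
  unfold flip
  by_cases h : j = i
  · subst h; simp
  · simp [h]

lemma wt_flip (i : I) {ξ : I → Bool} (h : ξ i = true) :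
    (1 - p i) * wt p ξ = p i * wt p (flip i ξ) := by
  unfold wt
  rw [← Finset.mul_prod_erase _ _ (Finset.mem_univ i),
    ← Finset.mul_prod_erase _ (fun j => if flip i ξ j = true then p j else 1 - p j)
      (Finset.mem_univ i)]
  have h1 : ∏ j ∈ Finset.univ.erase i, (if flip i ξ j = true then p j else 1 - p j) =
      ∏ j ∈ Finset.univ.erase i, (if ξ j = true then p j else 1 - p j) := by
    refine Finset.prod_congr rfl fun j hj => ?_
    have : j ≠ i := Finset.ne_of_mem_erase hj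
    simp [flip, this]
  have h2 : flip i ξ i = false := by simp [flip, h]
  rw [h1, h, h2]
  simp
  ring

/-- a coin is independent of an event not depending on it -/
lemma Ex_coin (i : I) (f : (I → Bool) → ℝ) (hf : ∀ ξ, f (flip i ξ) = f ξ) :
    Ex p (fun ξ => if ξ i = true then f ξ else 0) = p i * Ex p f := by
  unfold Ex
  have e1 : ∑ ξ : I → Bool, wt p ξ * f ξ =
      ∑ ξ : I → Bool, (if ξ i = true then (wt p ξ + wt p (flip i ξ)) * f ξ else 0) := by
    have h1 : ∑ ξ : I → Bool, wt p ξ * f ξ = ∑ ξ : I → Bool,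
        ((if ξ i = true then wt p ξ * f ξ else 0) + (if ξ i = true then 0 else wt p ξ * f ξ)) :=
      Finset.sum_congr rfl fun ξ _ => by split_ifs <;> simp
    rw [h1, Finset.sum_add_distrib]
    have h2 : ∑ ξ : I → Bool, (if ξ i = true then 0 else wt p ξ * f ξ) =
        ∑ ξ : I → Bool, (if ξ i = true then wt p (flip i ξ) * f ξ else 0) := by
      rw [← Equiv.sum_comp (Function.Involutive.toPerm (flip i) (flip_flip i))]
      refine Finset.sum_congr rfl fun ξ _ => ?_
      have h3 : (Function.Involutive.toPerm (flip i) (flip_flip i)) ξ = flip i ξ := rfl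
      rw [h3, hf]
      have h4 : (flip i ξ) i = !(ξ i) := by simp [flip]
      rw [h4]
      by_cases h5 : ξ i = true <;> simp [h5]
    rw [h2, ← Finset.sum_add_distrib]
    exact Finset.sum_congr rfl fun ξ _ => by split_ifs <;> ring
  rw [e1, Finset.mul_sum]
  refine Finset.sum_congr rfl fun ξ _ => ?_
  by_cases h : ξ i = true
  · have h1 := wt_flip (p := p) i h
    simp only [if_pos h]
    linear_combination f ξ * h1
  · simp [h]

lemma wt_mix (S : Set I) (ξ ξ' : I → Bool) :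
    wt p (mix S ξ ξ') * wt p (mix S ξ' ξ) = wt p ξ * wt p ξ' := by
  unfold wt mix
  rw [← Finset.prod_mul_distrib, ← Finset.prod_mul_distrib]
  refine Finset.prod_congr rfl fun i _ => ?_
  by_cases h : i ∈ S
  · simp [h]
  · simp only [h, if_false]
    ring

/-- abstract decoupling by re-randomising the coins not explored -/
lemma decouple (hp : ∀ i, 0 ≤ p i ∧ p i ≤ 1) (SA SB : (I → Bool) → Set I)
    (fA fB : (I → Bool) → ℝ) (hA1 : ∀ ξ, |fA ξ| ≤ 1) (hB1 : ∀ ξ ξ', |fB ξ - fB ξ'| ≤ 1)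
    (hSA : ∀ ξ ξ', (∀ i ∈ SA ξ, ξ i = ξ' i) → SA ξ' = SA ξ ∧ fA ξ' = fA ξ)
    (hSB : ∀ ξ ξ', (∀ i ∈ SB ξ, ξ i = ξ' i) → fB ξ' = fB ξ)
    (hfA : ∀ i ξ, i ∈ SA (flip i ξ) ↔ i ∈ SA ξ) (hfB : ∀ i ξ, i ∈ SB (flip i ξ) ↔ i ∈ SB ξ) :
    |Ex p (fun ξ => fA ξ * fB ξ) - Ex p fA * Ex p fB| ≤
      ∑ i, 2 * p i * (Pr p (fun ξ => i ∈ SA ξ) * Pr p (fun ξ => i ∈ SB ξ)) := by
  obtain ⟨Φ, hΦ⟩ : ∃ Φ : (I → Bool) × (I → Bool) → (I → Bool) × (I → Bool),
    ∀ q, Φ q = (mix (SA q.1) q.1 q.2, mix (SA q.1) q.2 q.1) := ⟨_, fun _ => rfl⟩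
  have hS : ∀ q, SA (Φ q).1 = SA q.1 := fun q =>
    (hSA q.1 (Φ q).1 (fun i hi => by simp [hΦ, mix, hi])).1
  have hfA' : ∀ q, fA (Φ q).1 = fA q.1 := fun q =>
    (hSA q.1 (Φ q).1 (fun i hi => by simp [hΦ, mix, hi])).2
  have hinv : Function.Involutive Φ := by
    intro q
    have h := hS q
    rw [hΦ (Φ q), h, hΦ q]
    refine Prod.ext ?_ ?_
    · funext i
      by_cases hi : i ∈ SA q.1 <;> simp [mix, hi]
    · funext i
      by_cases hi : i ∈ SA q.1 <;> simp [mix, hi]
  have e1 : Ex p (fun ξ => fA ξ * fB ξ) =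
      ∑ q : (I → Bool) × (I → Bool), wt p q.1 * wt p q.2 * (fA q.1 * fB (Φ q).1) := by
    have h1 : Ex p (fun ξ => fA ξ * fB ξ) =
        ∑ q : (I → Bool) × (I → Bool), wt p q.1 * wt p q.2 * (fA q.1 * fB q.1) := by
      rw [Fintype.sum_prod_type]
      unfold Ex
      refine Finset.sum_congr rfl fun ξ _ => ?_
      have : ∑ y : I → Bool, wt p ξ * wt p y * (fA ξ * fB ξ) =
          (wt p ξ * (fA ξ * fB ξ)) * ∑ y : I → Bool, wt p y := by
        rw [Finset.mul_sum]
        exact Finset.sum_congr rfl fun y _ => by ring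
      rw [this, sum_wt, mul_one]
    rw [h1, ← Equiv.sum_comp (Function.Involutive.toPerm Φ hinv)]
    refine Finset.sum_congr rfl fun q _ => ?_
    have h2 : (Function.Involutive.toPerm Φ hinv) q = Φ q := rfl
    rw [h2, hfA' q]
    have h3 : wt p (Φ q).1 * wt p (Φ q).2 = wt p q.1 * wt p q.2 := by
      rw [hΦ q]
      exact wt_mix _ _ _
    rw [h3]
  have e2 : Ex p fA * Ex p fB =
      ∑ q : (I → Bool) × (I → Bool), wt p q.1 * wt p q.2 * (fA q.1 * fB q.2) := by
    rw [Fintype.sum_prod_type]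
    unfold Ex
    rw [Finset.sum_mul_sum]
    exact Finset.sum_congr rfl fun ξ _ => Finset.sum_congr rfl fun ξ' _ => by ring
  obtain ⟨G, hG⟩ : ∃ G : I → (I → Bool) × (I → Bool) → ℝ, ∀ i q, G i q =
      (if q.1 i = true then (if i ∈ SA q.1 then 1 else 0) else 0) * (if i ∈ SB q.2 then 1 else 0) +
      (if i ∈ SA q.1 then 1 else 0) * (if q.2 i = true then (if i ∈ SB q.2 then 1 else 0) else 0) :=
    ⟨_, fun _ _ => rfl⟩
  have e3 : ∀ i, 2 * p i * (Pr p (fun ξ => i ∈ SA ξ) * Pr p (fun ξ => i ∈ SB ξ)) =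
      ∑ q : (I → Bool) × (I → Bool), wt p q.1 * wt p q.2 * G i q := by
    intro i
    have h1 := Ex_coin (p := p) i (fun ξ => if i ∈ SA ξ then (1 : ℝ) else 0)
      (fun ξ => by simp only [hfA i ξ])
    have h2 := Ex_coin (p := p) i (fun ξ => if i ∈ SB ξ then (1 : ℝ) else 0)
      (fun ξ => by simp only [hfB i ξ])
    have h3 : 2 * p i * (Pr p (fun ξ => i ∈ SA ξ) * Pr p (fun ξ => i ∈ SB ξ)) =
       (p i * Ex p (fun ξ => if i ∈ SA ξ then (1 : ℝ) else 0)) * Pr p (fun ξ => i ∈ SB ξ) +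
        Pr p (fun ξ => i ∈ SA ξ) * (p i * Ex p (fun ξ => if i ∈ SB ξ then (1 : ℝ) else 0)) := by
      unfold Pr
      ring
    rw [h3, ← h1, ← h2, Fintype.sum_prod_type]
    unfold Pr Ex
    rw [Finset.sum_mul_sum, Finset.sum_mul_sum, ← Finset.sum_add_distrib]
    refine Finset.sum_congr rfl fun ξ _ => ?_
    rw [← Finset.sum_add_distrib]
    exact Finset.sum_congr rfl fun ξ' _ => by rw [hG]; ring
  rw [e1, e2, ← Finset.sum_sub_distrib]
  simp only [e3]
  rw [Finset.sum_comm]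
  refine (Finset.abs_sum_le_sum_abs _ _).trans (Finset.sum_le_sum fun q _ => ?_)
  rw [← Finset.mul_sum]
  have hw : 0 ≤ wt p q.1 * wt p q.2 := mul_nonneg (wt_nonneg hp _) (wt_nonneg hp _)
  rw [← mul_sub, abs_mul, abs_of_nonneg hw]
  refine mul_le_mul_of_nonneg_left ?_ hw
  rw [← mul_sub, abs_mul]
  have hG0 : ∀ i, 0 ≤ G i q := by
    intro i
    rw [hG]
    have t1 : (0 : ℝ) ≤ (if q.1 i = true then (if i ∈ SA q.1 then 1 else 0) else 0) := by
      split_ifs <;> norm_num
    have t2 : (0 : ℝ) ≤ (if i ∈ SB q.2 then 1 else 0) := by split_ifs <;> norm_num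
    have t3 : (0 : ℝ) ≤ (if i ∈ SA q.1 then 1 else 0) := by split_ifs <;> norm_num
    have t4 : (0 : ℝ) ≤ (if q.2 i = true then (if i ∈ SB q.2 then 1 else 0) else 0) := by
      split_ifs <;> norm_num
    exact add_nonneg (mul_nonneg t1 t2) (mul_nonneg t3 t4)
  by_cases hc : ∀ i ∈ SB q.2, q.2 i = (Φ q).1 i
  · rw [hSB q.2 (Φ q).1 hc, sub_self, abs_zero, mul_zero]
    exact Finset.sum_nonneg fun i _ => hG0 i
  · push Not at hc
    obtain ⟨i, hi, hne⟩ := hc
    have hiA : i ∈ SA q.1 := by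
      by_contra hn
      exact hne (by simp [hΦ, mix, hn])
    have hne' : q.2 i ≠ q.1 i := by simpa [hΦ, mix, hiA] using hne
    have hG1 : 1 ≤ G i q := by
      rw [hG]
      simp only [hiA, hi, if_true]
      cases h1 : q.1 i <;> cases h2 : q.2 i
      · exact absurd (h2.trans h1.symm) hne'
      · norm_num
      · norm_num
      · exact absurd (h2.trans h1.symm) hne'
    calc |fA q.1| * |fB (Φ q).1 - fB q.2| ≤ 1 * 1 :=
          mul_le_mul (hA1 _) (hB1 _ _) (abs_nonneg _) zero_le_one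
      _ ≤ G i q := by linarith
      _ ≤ ∑ i, G i q := Finset.single_le_sum (fun j _ => hG0 j) (Finset.mem_univ i)

end Prob

/-! ## the process -/

section Process

variable {R : ℕ} {X : Type} {nb : X → Finset X} {ξ ξ' : Coins R X} {s : ℕ} {A : Finset X}

/-- the pairs whose coins can influence the acts on `A` before time `s` -/
inductive Rch (nb : X → Finset X) (ξ : Coins R X) (s : ℕ) (A : Finset X) : ℕ → X → Prop
  | base {t : ℕ} {h : X} : t < s → h ∈ A → Rch nb ξ s A t h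
  | step {t : ℕ} {h : X} {t' : ℕ} {h' : X} : Rch nb ξ s A t' h' → on ξ t' h' → t < t' →
      h ∈ nb h' → Rch nb ξ s A t h

lemma Rch.lt {t : ℕ} {h : X} (H : Rch nb ξ s A t h) : t < s := by
  induction H with
  | base h1 _ => exact h1
  | step _ _ h3 _ ih => exact h3.trans ih

lemma blk_iff (nb : X → Finset X) (ξ : Coins R X) (t : ℕ) (h : X) :
    blk nb ξ t h ↔ ∃ t' < t, ∃ y ∈ nb h, act nb ξ t' y := by
  induction t with
  | zero => simp [blk]
  | succ t ih =>
    rw [blk, ih]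
    constructor
    · rintro (⟨t', h1, h2⟩ | h1)
      · exact ⟨t', by omega, h2⟩
      · exact ⟨t, by omega, h1⟩
    · rintro ⟨t', h1, h2⟩
      rcases Nat.lt_succ_iff_lt_or_eq.1 h1 with h3 | rfl
      · exact Or.inl ⟨t', h3, h2⟩
      · exact Or.inr h2

lemma Rch_of_agree (hag : ∀ t h, Rch nb ξ s A t h → (on ξ t h ↔ on ξ' t h)) (t : ℕ) (h : X) :
    Rch nb ξ s A t h ↔ Rch nb ξ' s A t h := by
  constructor
  · intro H
    induction H with
    | base h1 h2 => exact Rch.base h1 h2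
    | step h1 h2 h3 h4 ih => exact Rch.step ih ((hag _ _ h1).1 h2) h3 h4
  · intro H
    induction H with
    | base h1 h2 => exact Rch.base h1 h2
    | step _ h2 h3 h4 ih => exact Rch.step ih ((hag _ _ ih).2 h2) h3 h4

lemma act_of_agree (hag : ∀ t h, Rch nb ξ s A t h → (on ξ t h ↔ on ξ' t h)) (t : ℕ) :
    ∀ h, Rch nb ξ s A t h → (act nb ξ t h ↔ act nb ξ' t h) := by
  induction t using Nat.strong_induction_on with
  | _ t ih =>
    intro h H
    unfold act
    by_cases ho : on ξ t h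
    · have ho' := (hag t h H).1 ho
      have hb : blk nb ξ t h ↔ blk nb ξ' t h := by
        rw [blk_iff, blk_iff]
        constructor
        · rintro ⟨t', h1, y, h2, h3⟩
          exact ⟨t', h1, y, h2, (ih t' h1 y (Rch.step H ho h1 h2)).1 h3⟩
        · rintro ⟨t', h1, y, h2, h3⟩
          exact ⟨t', h1, y, h2, (ih t' h1 y (Rch.step H ho h1 h2)).2 h3⟩
      simp only [ho, ho', true_and, hb]
    · have ho' : ¬ on ξ' t h := fun h' => ho ((hag t h H).2 h')
      simp [ho, ho']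

lemma avd_of_agree (hag : ∀ t h, Rch nb ξ s A t h → (on ξ t h ↔ on ξ' t h)) :
    avd nb ξ s A ↔ avd nb ξ' s A := by
  unfold avd
  constructor
  · intro H t ht h hh ha
    exact H t ht h hh ((act_of_agree hag t h (Rch.base ht hh)).2 ha)
  · intro H t ht h hh ha
    exact H t ht h hh ((act_of_agree hag t h (Rch.base ht hh)).1 ha)

/-- reachability depends only on the coins of the later rounds -/
lemma Rch_later {t₀ : ℕ} (hag : ∀ t, t₀ < t → ∀ h, (on ξ t h → on ξ' t h)) {t : ℕ} {h : X}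
    (H : Rch nb ξ s A t h) (ht : t₀ ≤ t) : Rch nb ξ' s A t h := by
  induction H with
  | base h1 h2 => exact Rch.base h1 h2
  | step _ h2 h3 h4 ih => exact Rch.step (ih (by omega)) (hag _ (by omega) _ h2) h3 h4

lemma on_iff {ξ : Coins R X} {t : ℕ} (ht : t < R) (h : X) : on ξ t h ↔ ξ (⟨t, ht⟩, h) = true :=
  ⟨fun ⟨_, h1⟩ => h1, fun h1 => ⟨ht, h1⟩⟩

lemma Rch_flip (i : Fin R × X) (ξ : Coins R X) :
    Rch nb (flip i ξ) s A i.1 i.2 ↔ Rch nb ξ s A i.1 i.2 := by
  have h1 : ∀ ξ : Coins R X, ∀ t, (i.1 : ℕ) < t → ∀ h, (on ξ t h → on (flip i ξ) t h) := by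
    rintro ξ t ht h ⟨h2, h3⟩
    refine ⟨h2, ?_⟩
    have : ((⟨t, h2⟩, h) : Fin R × X) ≠ i := by
      intro he
      rw [← he] at ht
      simp at ht
    simpa [flip, Function.update, this] using h3
  constructor
  · intro H
    have := Rch_later (h1 (flip i ξ)) H le_rfl
    rwa [flip_flip i ξ] at this
  · intro H
    exact Rch_later (h1 ξ) H le_rfl

/-- the set of coins reached -/
def SR (nb : X → Finset X) (s : ℕ) (A : Finset X) (ξ : Coins R X) : Set (Fin R × X) :=
  {i | Rch nb ξ s A i.1 i.2}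

lemma agree_of_SR (hs : s ≤ R) (hS : ∀ i ∈ SR nb s A ξ, ξ i = ξ' i) :
    ∀ t h, Rch nb ξ s A t h → (on ξ t h ↔ on ξ' t h) := by
  intro t h H
  have ht : t < R := H.lt.trans_le hs
  rw [on_iff ht, on_iff ht, hS (⟨t, ht⟩, h) H]

lemma SR_congr (hs : s ≤ R) (hS : ∀ i ∈ SR nb s A ξ, ξ i = ξ' i) :
    SR nb s A ξ' = SR nb s A ξ := by
  ext i
  exact (Rch_of_agree (agree_of_SR hs hS) _ _).symm

/-! ## the operator -/

lemma Top_expand (pm : ℝ) (nb : X → Finset X) (w : X → ℝ) (m : ℕ) (h : X) :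
    ((Top pm nb)^[m] w) h = w h + ∑ j ∈ range m, pm * ∑ y ∈ nb h, ((Top pm nb)^[j] w) y := by
  induction m with
  | zero => simp
  | succ m ih =>
    rw [Function.iterate_succ_apply', Top, ih, Finset.sum_range_succ]
    ring

variable [Fintype X]

/-- bound for the probability of being reached -/
lemma rho_le {p : ℕ → X → ℝ} {pm : ℝ} (hsym : ∀ x y, y ∈ nb x ↔ x ∈ nb y)
    (hp0 : ∀ t h, 0 ≤ p t h) (hpm : ∀ t h, p t h ≤ pm) (hpm1 : pm ≤ 1) (hs : s ≤ R)
    (A : Finset X) (m : ℕ) : ∀ t h, s = t + 1 + m →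
      Pr (rt R p) (fun ξ : Coins R X => Rch nb ξ s A t h) ≤ ((Top pm nb)^[m] (ind A)) h := by
  have hp : ∀ i : Fin R × X, 0 ≤ rt R p i ∧ rt R p i ≤ 1 := fun i =>
    ⟨hp0 _ _, (hpm _ _).trans hpm1⟩
  induction m using Nat.strong_induction_on with
  | _ m ih =>
    intro t h hst
    rw [Top_expand]
    have h1 : ∀ ξ : Coins R X, (if Rch nb ξ s A t h then (1 : ℝ) else 0) ≤
        ind A h + ∑ j ∈ range m, ∑ y ∈ nb h,
          (if on ξ (s - 1 - j) y ∧ Rch nb ξ s A (s - 1 - j) y then (1 : ℝ) else 0) := by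
      intro ξ
      have hn : 0 ≤ ∑ j ∈ range m, ∑ y ∈ nb h,
          (if on ξ (s - 1 - j) y ∧ Rch nb ξ s A (s - 1 - j) y then (1 : ℝ) else 0) :=
        Finset.sum_nonneg fun j _ => Finset.sum_nonneg fun y _ => by split_ifs <;> norm_num
      by_cases H : Rch nb ξ s A t h
      · rw [if_pos H]
        cases H with
        | base k1 k2 =>
          have : ind A h = 1 := by simp [ind, k2]
          linarith
        | step k1 k2 k3 k4 =>
          rename_i t' h'
          have hA : 0 ≤ ind A h := by unfold ind; split_ifs <;> norm_num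
          have k5 := k1.lt
          have k6 : s - 1 - (s - 1 - t') = t' := by omega
          have k7 : s - 1 - t' ∈ range m := by
            rw [mem_range]
            omega
          have k8 : h' ∈ nb h := (hsym h h').2 k4
          have k9 : (1 : ℝ) ≤ ∑ y ∈ nb h, (if on ξ (s - 1 - (s - 1 - t')) y ∧
              Rch nb ξ s A (s - 1 - (s - 1 - t')) y then (1 : ℝ) else 0) := by
            rw [k6]
            refine le_trans ?_ (Finset.single_le_sum (f := fun y => if on ξ t' y ∧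
              Rch nb ξ s A t' y then (1 : ℝ) else 0) (fun y _ => by
                split_ifs <;> norm_num) k8)
            rw [if_pos ⟨k2, k1⟩]
          have k10 := Finset.single_le_sum (f := fun j => ∑ y ∈ nb h,
            (if on ξ (s - 1 - j) y ∧ Rch nb ξ s A (s - 1 - j) y then (1 : ℝ) else 0))
            (fun j _ => Finset.sum_nonneg fun y _ => by split_ifs <;> norm_num) k7
          linarith
      · rw [if_neg H]
        have hA : 0 ≤ ind A h := by unfold ind; split_ifs <;> norm_num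
        linarith
    have h2 := Ex_mono hp h1
    rw [Ex_add, Ex_const, Ex_sum] at h2
    refine h2.trans (add_le_add le_rfl (Finset.sum_le_sum fun j hj => ?_))
    rw [Ex_sum, Finset.mul_sum]
    refine Finset.sum_le_sum fun y _ => ?_
    have hj' := mem_range.1 hj
    have ht' : s - 1 - j < R := by omega
    have h3 : (fun ξ : Coins R X => if on ξ (s - 1 - j) y ∧ Rch nb ξ s A (s - 1 - j) y
        then (1 : ℝ) else 0) = fun ξ => if ξ (⟨s - 1 - j, ht'⟩, y) = true then
          (if Rch nb ξ s A (s - 1 - j) y then (1 : ℝ) else 0) else 0 := by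
      funext ξ
      rw [on_iff ht']
      by_cases k1 : ξ (⟨s - 1 - j, ht'⟩, y) = true <;> simp [k1]
    have h6 := Ex_coin (p := rt R p) ((⟨s - 1 - j, ht'⟩, y) : Fin R × X)
      (fun ξ : Coins R X => if Rch nb ξ s A (s - 1 - j) y then (1 : ℝ) else 0) (fun ξ => by
        have := Rch_flip (nb := nb) (s := s) (A := A) ((⟨s - 1 - j, ht'⟩, y) : Fin R × X) ξ
        exact if_congr this rfl rfl)
    rw [h3, h6]
    have h4 := ih j hj' (s - 1 - j) y (by omega)
    have h5 : 0 ≤ Pr (rt R p) (fun ξ : Coins R X => Rch nb ξ s A (s - 1 - j) y) :=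
      Ex_nonneg hp fun ξ => by split_ifs <;> norm_num
    exact mul_le_mul (hpm _ _) h4 h5 ((hp0 0 y).trans (hpm 0 y))

omit [Fintype X] in
lemma avd_union (ξ : Coins R X) (s : ℕ) (A B : Finset X) :
    avd nb ξ s (A ∪ B) ↔ avd nb ξ s A ∧ avd nb ξ s B := by
  unfold avd
  constructor
  · intro H
    exact ⟨fun t ht h hh => H t ht h (Finset.mem_union_left _ hh),
      fun t ht h hh => H t ht h (Finset.mem_union_right _ hh)⟩
  · rintro ⟨H1, H2⟩ t ht h hh
    rcases Finset.mem_union.1 hh with h1 | h1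
    · exact H1 t ht h h1
    · exact H2 t ht h h1

end Process

end DCx

open DCx in
/-- Lemma DC (decoupling) -/
theorem dc (htop : S_TOP) : S_DC := by
  intro X _ nb hsym R p pm hp0 hpm hpm1 s hs A B
  by_cases hX : Nonempty X
  swap
  · have hX' : IsEmpty X := not_nonempty_iff.1 hX
    have h1 : ∀ C : Finset X, av nb R p s C = 1 := by
      intro C
      unfold av Pr
      have : (fun ξ : Coins R X => if avd nb ξ s C then (1 : ℝ) else 0) = fun _ => 1 := by
        funext ξ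
        rw [if_pos]
        intro t _ h
        exact (hX'.false h).elim
      rw [this, Ex_const]
    rw [h1, h1, h1]
    have : Gam pm R nb A B = 0 := by
      unfold Gam
      simp
    rw [this]
    norm_num
  obtain ⟨x0⟩ := hX
  have hpm0 : 0 ≤ pm := (hp0 0 x0).trans (hpm 0 x0)
  have hp : ∀ i : Fin R × X, 0 ≤ rt R p i ∧ rt R p i ≤ 1 := fun i =>
    ⟨hp0 _ _, (hpm _ _).trans hpm1⟩
  have hT := htop X nb hsym (Fintype.card X) (fun x => Finset.card_le_univ _) pm hpm0 R
  have hind : ∀ (C : Finset X) (h : X), 0 ≤ ind C h := by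
    intro C h
    unfold ind
    split_ifs <;> norm_num
  have hrho : ∀ (C : Finset X) (i : Fin R × X),
      Pr (rt R p) (fun ξ : Coins R X => i ∈ SR nb s C ξ) ≤ ((Top pm nb)^[R] (ind C)) i.2 := by
    intro C i
    by_cases hi : (i.1 : ℕ) < s
    · have h1 := rho_le (R := R) (s := s) hsym hp0 hpm hpm1 hs C (s - 1 - i.1) i.1 i.2 (by omega)
      exact h1.trans (hT.2.2.2.1 (ind C) (hind C) _ (by omega) i.2)
    · have h1 : (fun ξ : Coins R X => if i ∈ SR nb s C ξ then (1 : ℝ) else 0) = fun _ => 0 := by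
        funext ξ
        rw [if_neg]
        intro H
        exact hi (Rch.lt H)
      unfold Pr
      rw [h1, Ex_const]
      exact hT.1 (ind C) (hind C) i.2
  have hpr0 : ∀ (C : Finset X) (i : Fin R × X),
      0 ≤ Pr (rt R p) (fun ξ : Coins R X => i ∈ SR nb s C ξ) := fun C i =>
    Ex_nonneg hp fun ξ => by split_ifs <;> norm_num
  have hSR : ∀ (C : Finset X) (ξ ξ' : Coins R X), (∀ i ∈ SR nb s C ξ, ξ i = ξ' i) →
      SR nb s C ξ' = SR nb s C ξ ∧ (if avd nb ξ' s C then (1 : ℝ) else 0) =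
        (if avd nb ξ s C then (1 : ℝ) else 0) := by
    intro C ξ ξ' h
    refine ⟨SR_congr hs h, ?_⟩
    have := avd_of_agree (agree_of_SR hs h)
    simp only [this]
  have hfl : ∀ (C : Finset X) (i : Fin R × X) (ξ : Coins R X),
      i ∈ SR nb s C (flip i ξ) ↔ i ∈ SR nb s C ξ := fun C i ξ => Rch_flip i ξ
  have key := decouple hp (SR nb s A) (SR nb s B)
    (fun ξ => if avd nb ξ s A then (1 : ℝ) else 0) (fun ξ => if avd nb ξ s B then (1 : ℝ) else 0)
    (fun ξ => by split_ifs <;> norm_num) (fun ξ ξ' => by split_ifs <;> norm_num)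
    (hSR A) (fun ξ ξ' h => (hSR B ξ ξ' h).2) (hfl A) (hfl B)
  have h1 : av nb R p s (A ∪ B) = Ex (rt R p) (fun ξ : Coins R X =>
      (if avd nb ξ s A then (1 : ℝ) else 0) * (if avd nb ξ s B then (1 : ℝ) else 0)) := by
    unfold av Pr
    congr 1
    funext ξ
    by_cases k1 : avd nb ξ s A <;> by_cases k2 : avd nb ξ s B <;> simp [avd_union, k1, k2]
  rw [h1]
  refine key.trans ?_
  have h2 : ∀ i : Fin R × X, 2 * rt R p i * (Pr (rt R p) (fun ξ => i ∈ SR nb s A ξ) *
      Pr (rt R p) (fun ξ => i ∈ SR nb s B ξ)) ≤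
      2 * pm * (((Top pm nb)^[R] (ind A)) i.2 * ((Top pm nb)^[R] (ind B)) i.2) := by
    intro i
    have k1 := mul_le_mul (hrho A i) (hrho B i) (hpr0 B i) (hT.1 (ind A) (hind A) i.2)
    have k2 := hpm i.1 i.2
    have k3 : 0 ≤ Pr (rt R p) (fun ξ => i ∈ SR nb s A ξ) *
      Pr (rt R p) (fun ξ => i ∈ SR nb s B ξ) := mul_nonneg (hpr0 A i) (hpr0 B i)
    exact mul_le_mul (by unfold rt; linarith) k1 k3 (by linarith)
  refine (Finset.sum_le_sum fun i _ => h2 i).trans (le_of_eq ?_)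
  unfold Gam
  rw [Fintype.sum_prod_type]
  simp only [Finset.sum_const, Finset.card_univ, Fintype.card_fin, nsmul_eq_mul]
  rw [← Finset.mul_sum]
  ring

end Vu80
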