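import Mathlib

/-!
# Vu's conjecture (list version): definitions for the proof

Paper: `/team-store/MP_aa8d53_vu80.md`.  No `DecidableEq` arguments anywhere: all decidability is classical
(`open scoped Classical` in every file).
-/

set_option autoImplicit false

open scoped Classical
open Finset

noncomputable section

namespace Vu80

/-! ## 1. Finite product Bernoulli space (independent coins `ξ i`, `P(ξ i = true) = p i`) -/

section Prob

variable {I : Type} [Fintype I]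

/-- weight of an outcome -/
def wt (p : I → ℝ) (ξ : I → Bool) : ℝ := ∏ i, (if ξ i = true then p i else 1 - p i)

/-- expectation -/
def Ex (p : I → ℝ) (f : (I → Bool) → ℝ) : ℝ := ∑ ξ : I → Bool, wt p ξ * f ξ

/-- probability of an event -/
def Pr (p : I → ℝ) (A : (I → Bool) → Prop) : ℝ := Ex p (fun ξ => if A ξ then 1 else 0)

/-- `f` (real valued or `Prop` valued) depends only on the coordinates in `S` -/
def Dep {I α : Type} (S : Set I) (f : (I → Bool) → α) : Prop :=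
  ∀ ξ ξ' : I → Bool, (∀ i ∈ S, ξ i = ξ' i) → f ξ = f ξ'

/-- coin vector equal to `ξ` on `S` and to `ξ'` off `S` -/
def mix {I : Type} (S : Set I) (ξ ξ' : I → Bool) : I → Bool := fun i => if i ∈ S then ξ i else ξ' i

/-- partial expectation: integrate out the coordinates in `S` -/
def ExS (p : I → ℝ) (S : Set I) (f : (I → Bool) → ℝ) (ξ : I → Bool) : ℝ :=
  Ex p (fun η => f (mix S η ξ))

end Prob

/-! ## 2. The random greedy process on a graph given by closed neighbourhoods `nb` -/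

section Process

variable {R : ℕ} {X : Type}

/-- coins: one for each round `t < R` and each `h : X` -/
abbrev Coins (R : ℕ) (X : Type) := Fin R × X → Bool

/-- the coin of `h` in round `t` is on (never for `t ≥ R`) -/
def on (ξ : Coins R X) (t : ℕ) (h : X) : Prop := ∃ ht : t < R, ξ (⟨t, ht⟩, h) = true

/-- the coin probabilities as a function on the index type -/
def rt (R : ℕ) (p : ℕ → X → ℝ) : Fin R × X → ℝ := fun i => p i.1 i.2

/-- `blk nb ξ t h`: some `y ∈ nb h` acts in a round `< t` -/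
def blk (nb : X → Finset X) (ξ : Coins R X) : ℕ → X → Prop
  | 0, _ => False
  | t + 1, h => blk nb ξ t h ∨ ∃ y ∈ nb h, on ξ t y ∧ ¬ blk nb ξ t y

/-- `h` acts in round `t`: coin on and no `y ∈ nb h` acts in an earlier round -/
def act (nb : X → Finset X) (ξ : Coins R X) (t : ℕ) (h : X) : Prop := on ξ t h ∧ ¬ blk nb ξ t h

/-- no element of `A` acts in a round `< s` -/
def avd (nb : X → Finset X) (ξ : Coins R X) (s : ℕ) (A : Finset X) : Prop :=
  ∀ t < s, ∀ h ∈ A, ¬ act nb ξ t h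

/-- `h` acts in some round -/
def acted (nb : X → Finset X) (ξ : Coins R X) (h : X) : Prop := ∃ t < R, act nb ξ t h

variable [Fintype X]

/-- `av nb R p s A` = P(no element of `A` acts in a round `< s`) -/
def av (nb : X → Finset X) (R : ℕ) (p : ℕ → X → ℝ) (s : ℕ) (A : Finset X) : ℝ :=
  Pr (rt R p) (fun ξ : Coins R X => avd nb ξ s A)

/-- probability that `h` acts in round `t` -/
def pact (nb : X → Finset X) (R : ℕ) (p : ℕ → X → ℝ) (t : ℕ) (h : X) : ℝ :=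
  Pr (rt R p) (fun ξ : Coins R X => act nb ξ t h)

/-- the operator `T` (section 1 of the paper) -/
def Top (pm : ℝ) (nb : X → Finset X) (w : X → ℝ) : X → ℝ := fun h => w h + pm * ∑ y ∈ nb h, w y

/-- indicator of a finset -/
def ind (A : Finset X) : X → ℝ := fun h => if h ∈ A then 1 else 0

/-- the error term in the decoupling lemma -/
def Gam (pm : ℝ) (R : ℕ) (nb : X → Finset X) (A B : Finset X) : ℝ :=
  2 * pm * R * ∑ h, ((Top pm nb)^[R] (ind A)) h * ((Top pm nb)^[R] (ind B)) h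

end Process

/-! ## 3. Covers: `X` = set of pairs (vertex, colour of its list) -/

/-- A cover: a graph `G` on `V`, and a set `X` of pairs (vertex `pv x`, colour `pc x`). -/
structure Cov (V X : Type) where
  G : SimpleGraph V
  pv : X → V
  pc : X → ℕ
  inj : ∀ x y, pv x = pv y → pc x = pc y → x = y

namespace Cov

variable {V X : Type} [Fintype V] [Fintype X] (C : Cov V X)

/-- neighbours of `v` in `G` -/
def N (v : V) : Finset V := univ.filter (fun u => C.G.Adj v u)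

/-- all pairs over the vertex `v` -/
def fib (v : V) : Finset X := univ.filter (fun y => C.pv y = v)

/-- the pairs `(u, a)` with `u` adjacent to the vertex of `h` and `a` the colour of `h` -/
def col (h : X) : Finset X := univ.filter (fun y => C.pc y = C.pc h ∧ C.G.Adj (C.pv h) (C.pv y))

/-- closed neighbourhood in the cover graph -/
def nb (h : X) : Finset X := C.fib (C.pv h) ∪ C.col h

/-- `un R p s v` = P(`v` uncoloured before round `s`) -/
def un (R : ℕ) (p : ℕ → X → ℝ) (s : ℕ) (v : V) : ℝ := av C.nb R p s (C.fib v)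

/-- `cc R p s h` = P(no neighbour of the vertex of `h` acts with the colour of `h` before round `s`) -/
def cc (R : ℕ) (p : ℕ → X → ℝ) (s : ℕ) (h : X) : ℝ := av C.nb R p s (C.col h)

/-- number of neighbours of `v` over which nothing acts -/
def F1 {R : ℕ} (ξ : Coins R X) (v : V) : ℕ :=
  ((C.N v).filter (fun u => ∀ h ∈ C.fib u, ¬ acted C.nb ξ h)).card

/-- number of neighbours `u` of `v` with two coins on in the same round over `u` -/
def F2 {R : ℕ} (ξ : Coins R X) (v : V) : ℕ :=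
  ((C.N v).filter (fun u => ∃ t, ∃ h ∈ C.fib u, ∃ y ∈ C.fib u, h ≠ y ∧ on ξ t h ∧ on ξ t y)).card

/-- number of neighbours `u` of `v` such that in some round the coins of some `(u,a)` and `(w,a)`, `w` adjacent
to `u`, are both on -/
def F3 {R : ℕ} (ξ : Coins R X) (v : V) : ℕ :=
  ((C.N v).filter (fun u => ∃ t, ∃ h ∈ C.fib u, ∃ y ∈ C.col h, on ξ t h ∧ on ξ t y)).card

/-- number of pairs over `v` whose colour acts at some neighbour of `v` -/
def F4 {R : ℕ} (ξ : Coins R X) (v : V) : ℕ :=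
  ((C.fib v).filter (fun h => ∃ y ∈ C.col h, acted C.nb ξ y)).card

/-- vertices at distance at most `k` from `v` -/
def ball (v : V) : ℕ → Finset V
  | 0 => {v}
  | k + 1 => ball v k ∪ (ball v k).biUnion C.N

end Cov

/-! ## 4. Neighbourhood densities and stable sets -/

section Stable

variable {V : Type} [Fintype V]

/-- `phi G P z = |N(z) ∩ P| / |P|` -/
def phi (G : SimpleGraph V) (P : Finset V) (z : V) : ℝ :=
  ((P.filter (fun u => G.Adj z u)).card : ℝ) / P.card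

/-- `P` is stable: large subsets have almost the same density function -/
def Stable (G : SimpleGraph V) (P : Finset V) (β e : ℝ) : Prop :=
  ∀ U ⊆ P, U.Nonempty → β * P.card ≤ U.card → ∑ z, (phi G U z - phi G P z) ^ 2 ≤ e

end Stable

/-- every set of at least `M` vertices contains a stable set with at least `M0` elements -/
def HasStable (β e : ℝ) (M0 M : ℕ) : Prop :=
  ∀ (V : Type) [Fintype V] (G : SimpleGraph V) (Δ : ℕ), 1 ≤ Δ →
    (∀ v, (univ.filter (fun u => G.Adj v u)).card ≤ Δ) →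
    ∀ Q : Finset V, M ≤ Q.card → ∃ P ⊆ Q, M0 ≤ P.card ∧ Stable G P β (e * Δ)

/-! ## 5. Parameters -/

/-- All constants together with all inequalities used in the proof.
Derived quantities: `pm`, `Ca`, `numin`. -/
structure Par where
  Δ : ℕ
  ℓ : ℕ
  R : ℕ
  M0 : ℕ
  M : ℕ
  Nth : ℕ
  ζ : ℝ
  κ : ℝ
  γ : ℝ
  η : ℝ
  β2 : ℝ
  β1 : ℝ
  K : ℝ
  δ : ℝ
  κ1 : ℝ
  κ3 : ℝ
  Θ : ℝ
  kk : ℝ
  r : ℝ
  eps2 : ℝ
  ε0 : ℝ
  θ : ℝ
  c1 : ℝ
  -- signs and ranges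
  hΔ : 1 ≤ Δ
  hℓ : 1 ≤ ℓ
  hR : 1 ≤ R
  hM0 : 1 ≤ M0
  hNth : 1 ≤ Nth
  hζ : 0 < ζ
  hζ1 : ζ ≤ 1
  hκ : 0 < κ
  hκ' : κ ≤ 1
  hγ : 0 < γ
  hγ' : γ ≤ 1
  hη : 0 < η
  hη' : η ≤ 1 / 2
  hβ2 : 0 < β2
  hβ2' : β2 ≤ 1
  hβ1 : β1 = κ * β2 / 2
  hK : K = 8 / β1
  hδ : 0 < δ
  hδ' : δ ≤ 1
  hκ1 : 0 < κ1
  hκ3 : 0 < κ3
  hΘ : 1 ≤ Θ
  hkk : 0 < kk
  hr : 0 < r
  hr' : r ≤ 1
  heps2 : 0 < eps2
  hε0 : 0 < ε0
  hε0' : ε0 ≤ 1
  hθ : 0 < θ
  hc1 : 0 < c1
  -- density of the graph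
  hζℓ : ζ * Δ ≤ ℓ
  -- the rate bound `pm = ε0 / (ℓ δ)`
  hpm1 : ε0 / (ℓ * δ) ≤ 1
  hpmΘ : ε0 / (ℓ * δ) * R * (Δ + ℓ) ≤ Θ
  -- Lemma A
  hA1 : (1 + γ) * (ζ + 1 / M0) * Δ ≤ (1 - κ) * (1 - η) ^ 2 * ℓ
  hA2 : (1 + γ) * Δ ≤ 2 / ζ * ℓ
  hA3 : eps2 ≤ (r ^ Nth / 2) * (η * κ / (16 * Θ)) ^ 2
  hA4 : Θ * (ε0 / (ℓ * δ)) * Δ ≤ κ * (r ^ Nth / 2) ^ 2 / 8
  hA5 : β2 ≤ Real.exp (-(2 / η * (8 / (κ * ζ) + 1)))
  hstab : HasStable β2 eps2 M0 M
  -- Lemma K
  hK1 : 2 * Θ * Real.exp (2 * Θ) * r ≤ β1 ^ 2 * δ / 64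
  hK2 : Θ * Real.exp (2 * Θ) * r ≤ β1 * δ ^ 2 / 8
  hK3 : kk ≤ ζ * β1 ^ 2 * δ / 128
  hK4 : 1 ≤ kk * Nth
  -- recursions
  hR1 : ε0 ≤ γ * δ ^ 2 / 2
  hR2 : ε0 ≤ ζ / (8 * K)
  hR3 : 3 * (R * ε0) * (2 * Θ * (4 * Θ + 1) * Real.exp (2 * Θ)) ≤ γ / 2 * (δ * Δ)
  hR4 : 2 * (2 * Θ * (4 * Θ + 1) * Real.exp (2 * Θ)) ≤ (min 1 (κ1 / 2)) * (δ * Δ)
  hR5 : R * (ε0 / (ℓ * δ)) * ((2 * Θ * (4 * Θ + 1) * Real.exp (2 * Θ)) + M) ≤ δ
  hR6 : 2 * δ ≤ Real.exp (-(4 * K / ζ))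
  hR7 : Real.exp (-(ε0 / 2 * R)) ≤ κ1 / 2
  -- concentration
  hC1 : R * (ℓ * (ε0 / (ℓ * δ))) ^ 2 ≤ κ3 / 4
  hC2 : R * ((ε0 / (ℓ * δ)) * ℓ) * ((ε0 / (ℓ * δ)) * Δ) * Real.exp (2 + 2 * ((ε0 / (ℓ * δ)) * Δ)) ≤ κ3 / 2
  hC3 : θ ^ 2 / 2 * Real.exp (θ * Real.exp Θ) * (Θ * Real.exp (2 * Θ)) + c1 ≤ θ * κ3
  hC4 : c1 ≤ κ3 / 2
  hC5 : 16 * Real.exp (-(c1 * Δ)) * ((Δ : ℝ) + 1) ^ (2 * R + 4) ≤ 1
  hC6 : (κ1 + 4 * κ3) * Δ ≤ δ * ℓ

namespace Par

variable (P : Par)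

/-- the maximal coin probability -/
def pm : ℝ := P.ε0 / (P.ℓ * P.δ)

/-- `Gam ≤ Ca / Δ` in Corollary 2.3 -/
def Ca : ℝ := 2 * P.Θ * (4 * P.Θ + 1) * Real.exp (2 * P.Θ)

/-- smallest threshold -/
def numin : ℝ := P.r ^ P.Nth / 2

end Par

/-- `C` satisfies the hypotheses of the theorem (exact list sizes) -/
structure COk (P : Par) {V X : Type} [Fintype V] [Fintype X] (C : Cov V X) : Prop where
  deg : ∀ v, (C.N v).card ≤ P.Δ
  codeg : ∀ u v, u ≠ v → (((C.N u ∩ C.N v).card : ℕ) : ℝ) ≤ P.ζ * P.Δ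
  fib : ∀ v, (C.fib v).card = P.ℓ

/-- `p` are self consistent rates -/
structure Rates (P : Par) {V X : Type} [Fintype V] [Fintype X] (C : Cov V X) (p : ℕ → X → ℝ) : Prop where
  nonneg : ∀ t h, 0 ≤ p t h
  le : ∀ t h, p t h ≤ P.pm
  mul_le : ∀ t < P.R, ∀ h, p t h * C.cc P.R p t h ≤ P.ε0 / P.ℓ
  mul_eq : ∀ t < P.R, ∀ h, P.δ ≤ C.cc P.R p t h → p t h * C.cc P.R p t h = P.ε0 / P.ℓ

/-- the flow bound at time `s` -/
def Flow (P : Par) {V X : Type} [Fintype V] [Fintype X] (C : Cov V X) (p : ℕ → X → ℝ) (s : ℕ) : Prop :=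
  ∀ h, ∑ t ∈ range s, pact C.nb P.R p t h ≤ (1 + P.γ) / P.ℓ

/-- the pairs of colour `a` over vertices of density at least `ν` -/
def com {V X : Type} [Fintype V] [Fintype X] (C : Cov V X) (a : ℕ) (Q : Finset V) (ν : ℝ) : Finset X :=
  univ.filter (fun h => C.pc h = a ∧ ν ≤ phi C.G Q (C.pv h))

end Vu80
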