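import Pool.Agent.Lib_helper80.Vu.Stmts

/-!
# Module VU_FIN: completion of the colouring (section 8 of the paper)
-/

set_option autoImplicit false

open scoped Classical
open Finset

noncomputable section

namespace Vu80

namespace FIN

section General

variable {X : Type} {R : ℕ}

/-- blocking is monotone in time -/
lemma blk_mono (nb : X → Finset X) (ξ : Coins R X) {s t : ℕ} (hst : s ≤ t) (h : X) :
    blk nb ξ s h → blk nb ξ t h := by
  induction hst with
  | refl => exact id
  | step _ ih => intro hb; exact Or.inl (ih hb)

/-- two acting neighbours act in the same round -/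
lemma act_eq (nb : X → Finset X) (ξ : Coins R X) {s t : ℕ} {h y : X} (hy : y ∈ nb h) (hh : h ∈ nb y)
    (h1 : act nb ξ s h) (h2 : act nb ξ t y) : s = t := by
  rcases lt_trichotomy s t with hlt | heq | hgt
  · exfalso
    exact h2.2 (blk_mono nb ξ (Nat.succ_le_of_lt hlt) y (Or.inr ⟨h, hh, h1.1, h1.2⟩))
  · exact heq
  · exfalso
    exact h1.2 (blk_mono nb ξ (Nat.succ_le_of_lt hgt) h (Or.inr ⟨y, hy, h2.1, h2.2⟩))

end General

variable {V X : Type} [Fintype V] [Fintype X] (C : Cov V X) {R : ℕ} (ξ : Coins R X)

lemma mem_fib (v : V) (y : X) : y ∈ C.fib v ↔ C.pv y = v := by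
  simp [Cov.fib]

lemma mem_col (h y : X) : y ∈ C.col h ↔ C.pc y = C.pc h ∧ C.G.Adj (C.pv h) (C.pv y) := by
  simp [Cov.col]

lemma mem_nb (h y : X) :
    y ∈ C.nb h ↔ C.pv y = C.pv h ∨ (C.pc y = C.pc h ∧ C.G.Adj (C.pv h) (C.pv y)) := by
  simp [Cov.nb, mem_fib, mem_col]

lemma mem_N (v u : V) : u ∈ C.N v ↔ C.G.Adj v u := by
  simp [Cov.N]

/-- `h` is the good pair of `u` -/
def GoodAt (u : V) (h : X) : Prop :=
  h ∈ C.fib u ∧ acted C.nb ξ h ∧ ∀ y ∈ C.col h, ¬ acted C.nb ξ y

/-- three kinds of vertices that are not good -/
def K1 (u : V) : Prop := ∀ h ∈ C.fib u, ¬ acted C.nb ξ h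

def K2 (u : V) : Prop := ∃ t, ∃ h ∈ C.fib u, ∃ y ∈ C.fib u, h ≠ y ∧ on ξ t h ∧ on ξ t y

def K3 (u : V) : Prop := ∃ t, ∃ h ∈ C.fib u, ∃ y ∈ C.col h, on ξ t h ∧ on ξ t y

/-- a vertex of none of the three kinds has a good pair -/
lemma good_of (u : V) (h1 : ¬ K1 C ξ u) (h3 : ¬ K3 C ξ u) : ∃ h, GoodAt C ξ u h := by
  unfold K1 at h1
  push Not at h1
  obtain ⟨h, hh, hact⟩ := h1
  refine ⟨h, hh, hact, ?_⟩
  intro y hy hay
  apply h3
  obtain ⟨s, hs, has⟩ := hact
  obtain ⟨t, ht, hat⟩ := hay
  have hy' := (mem_col C h y).1 hy
  have e1 : y ∈ C.nb h := (mem_nb C h y).2 (Or.inr hy')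
  have e2 : h ∈ C.nb y := (mem_nb C y h).2 (Or.inr ⟨hy'.1.symm, hy'.2.symm⟩)
  have e := act_eq C.nb ξ e1 e2 has hat
  subst e
  exact ⟨s, h, hh, y, hy, has.1, hat.1⟩

/-- the pair `h` is available: no neighbour acts with its colour -/
def Avail (h : X) : Prop := ∀ y ∈ C.col h, ¬ acted C.nb ξ y

lemma card_avail (v : V) :
    ((C.fib v).filter (fun h => Avail C ξ h)).card + C.F4 ξ v = (C.fib v).card := by
  have h := Finset.card_filter_add_card_filter_not (s := C.fib v) (fun h => Avail C ξ h)
  have e : C.F4 ξ v = ((C.fib v).filter (fun h => ¬ Avail C ξ h)).card := by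
    unfold Cov.F4
    congr 1
    apply Finset.filter_congr
    intro h _
    unfold Avail
    push Not
    rfl
  rw [e]
  exact h

lemma card_bad (v : V) :
    ((C.N v).filter (fun u => ¬ ∃ h, GoodAt C ξ u h)).card ≤ C.F1 ξ v + C.F2 ξ v + C.F3 ξ v := by
  have h1 : ((C.N v).filter (fun u => ¬ ∃ h, GoodAt C ξ u h)) ⊆
      ((C.N v).filter (fun u => K1 C ξ u)) ∪ ((C.N v).filter (fun u => K3 C ξ u)) := by
    intro u hu
    rw [Finset.mem_filter] at hu
    rw [Finset.mem_union, Finset.mem_filter, Finset.mem_filter]
    by_cases a1 : K1 C ξ u
    · exact Or.inl ⟨hu.1, a1⟩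
    · by_cases a3 : K3 C ξ u
      · exact Or.inr ⟨hu.1, a3⟩
      · exact absurd (good_of C ξ u a1 a3) hu.2
  have h2 := (Finset.card_le_card h1).trans (Finset.card_union_le _ _)
  have e1 : C.F1 ξ v = ((C.N v).filter (fun u => K1 C ξ u)).card := by
    unfold Cov.F1 K1
    congr
  have e3 : C.F3 ξ v = ((C.N v).filter (fun u => K3 C ξ u)).card := by
    unfold Cov.F3 K3
    congr
  omega

end FIN

open FIN

/-- completion of the colouring -/
theorem finc : S_FIN := by
  intro V X _ _ C R ξ hlt
  -- a chosen pair for each vertex
  have hne : ∀ v, (C.fib v).Nonempty := by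
    intro v
    rw [← Finset.card_pos]
    exact lt_of_le_of_lt (Nat.zero_le _) (hlt v)
  -- start: good vertices get their good pair
  have hstart : ∃ f : V → X, (∀ v, C.pv (f v) = v) ∧
      (∀ v, (∃ h, GoodAt C ξ v h) → GoodAt C ξ v (f v)) := by
    refine ⟨fun v => if hg : ∃ h, GoodAt C ξ v h then hg.choose else (hne v).choose, ?_, ?_⟩
    · intro v
      by_cases hg : ∃ h, GoodAt C ξ v h
      · simp only [hg, dite_true]
        exact (mem_fib C v _).1 hg.choose_spec.1
      · simp only [hg, dite_false]
        exact (mem_fib C v _).1 (hne v).choose_spec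
    · intro v hg
      simp only [hg, dite_true]
      exact hg.choose_spec
  -- greedy
  have key : ∀ S : Finset V, ∃ f : V → X, (∀ v, C.pv (f v) = v) ∧
      (∀ v, (∃ h, GoodAt C ξ v h) → GoodAt C ξ v (f v)) ∧
      (∀ v ∈ S, Avail C ξ (f v)) ∧
      (∀ u ∈ S, ∀ v ∈ S, C.G.Adj u v → C.pc (f u) ≠ C.pc (f v)) := by
    intro S
    induction S using Finset.induction_on with
    | empty =>
      obtain ⟨f, h1, h2⟩ := hstart
      exact ⟨f, h1, h2, by simp, by simp⟩
    | insert v S hv ih =>
      obtain ⟨f, h1, h2, h3, h4⟩ := ih
      by_cases hg : ∃ h, GoodAt C ξ v h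
      · refine ⟨f, h1, h2, ?_, ?_⟩
        · intro u hu
          rcases Finset.mem_insert.1 hu with rfl | hu
          · exact (h2 _ hg).2.2
          · exact h3 u hu
        · have hvv : ∀ u ∈ S, C.G.Adj u v → C.pc (f u) ≠ C.pc (f v) := by
            intro u hu huv hc
            have hm : f v ∈ C.col (f u) := by
              rw [mem_col, h1, h1]
              exact ⟨hc.symm, huv⟩
            exact h3 u hu (f v) hm (h2 v hg).2.1
          intro a ha b hb hab
          rcases Finset.mem_insert.1 ha with ea | ha'
          · rcases Finset.mem_insert.1 hb with eb | hb'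
            · rw [ea, eb] at hab
              exact absurd hab (C.G.irrefl)
            · rw [ea] at hab ⊢
              exact (hvv b hb' hab.symm).symm
          · rcases Finset.mem_insert.1 hb with eb | hb'
            · rw [eb] at hab ⊢
              exact hvv a ha' hab
            · exact h4 a ha' b hb' hab
      · -- choose an available pair whose colour is not used by a bad neighbour
        set Av := (C.fib v).filter (fun h => Avail C ξ h) with hAv
        set B := (C.N v).filter (fun u => ¬ ∃ h, GoodAt C ξ u h) with hB
        have hcard : B.card < Av.card := by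
          have a1 := card_avail C ξ v
          have a2 := card_bad C ξ v
          have a3 := hlt v
          rw [← hAv] at a1
          rw [← hB] at a2
          omega
        have hex : ∃ h ∈ Av, ∀ u ∈ B, C.pc (f u) ≠ C.pc h := by
          by_contra hcon
          push Not at hcon
          have hle : Av.card ≤ B.card := by
            have hch : ∀ h ∈ Av, ∃ u ∈ B, C.pc (f u) = C.pc h := hcon
            have : Nonempty V := ⟨v⟩
            choose! g hgB hgc using hch
            apply Finset.card_le_card_of_injOn g hgB
            intro x hx y hy hxy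
            have hx' : x ∈ Av := hx
            have hy' : y ∈ Av := hy
            have cx := hgc x hx'
            have cy := hgc y hy'
            have hxy' : g x = g y := hxy
            rw [hxy'] at cx
            have vx := (mem_fib C v x).1 (Finset.mem_filter.1 hx').1
            have vy := (mem_fib C v y).1 (Finset.mem_filter.1 hy').1
            exact C.inj x y (vx.trans vy.symm) (cx.symm.trans cy)
          omega
        obtain ⟨h, hh, hBh⟩ := hex
        have hhf : C.pv h = v := (mem_fib C v h).1 (Finset.mem_filter.1 hh).1
        have hha : Avail C ξ h := (Finset.mem_filter.1 hh).2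
        have hup : ∀ u, u ≠ v → Function.update f v h u = f u := fun u hu =>
          Function.update_of_ne hu _ _
        have hupv : Function.update f v h v = h := Function.update_self _ _ _
        have hadj : ∀ u ∈ S, C.G.Adj u v → C.pc (f u) ≠ C.pc h := by
          intro u hu huv hc
          by_cases hgu : ∃ h, GoodAt C ξ u h
          · have hm : f u ∈ C.col h := by
              rw [mem_col, h1, hhf]
              exact ⟨hc, huv.symm⟩
            exact hha (f u) hm (h2 u hgu).2.1
          · exact hBh u (Finset.mem_filter.2 ⟨(mem_N C v u).2 huv.symm, hgu⟩) hc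
        refine ⟨Function.update f v h, ?_, ?_, ?_, ?_⟩
        · intro u
          by_cases hu : u = v
          · subst hu
            rw [hupv]
            exact hhf
          · rw [hup u hu]
            exact h1 u
        · intro u hgu
          have hu : u ≠ v := by
            rintro rfl
            exact hg hgu
          rw [hup u hu]
          exact h2 u hgu
        · intro u hu
          rcases Finset.mem_insert.1 hu with rfl | hu
          · rw [hupv]
            exact hha
          · have hne' : u ≠ v := fun e => hv (e ▸ hu)
            rw [hup u hne']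
            exact h3 u hu
        · intro a ha b hb hab
          by_cases hav : a = v
          · by_cases hbv : b = v
            · rw [hav, hbv] at hab
              exact absurd hab (C.G.irrefl)
            · have hbS : b ∈ S := by
                rcases Finset.mem_insert.1 hb with e | e
                · exact absurd e hbv
                · exact e
              rw [hav, hupv, hup b hbv]
              rw [hav] at hab
              exact (hadj b hbS hab.symm).symm
          · have haS : a ∈ S := by
              rcases Finset.mem_insert.1 ha with e | e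
              · exact absurd e hav
              · exact e
            by_cases hbv : b = v
            · rw [hbv, hupv, hup a hav]
              rw [hbv] at hab
              exact hadj a haS hab
            · have hbS : b ∈ S := by
                rcases Finset.mem_insert.1 hb with e | e
                · exact absurd e hbv
                · exact e
              rw [hup a hav, hup b hbv]
              exact h4 a haS b hbS hab
  obtain ⟨f, h1, _, _, h4⟩ := key Finset.univ
  exact ⟨f, h1, fun u v huv => h4 u (Finset.mem_univ _) v (Finset.mem_univ _) huv⟩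

end Vu80
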