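import Pool.Agent.Lib_helper80.Vu.Stmts
import Pool.Agent.Vu.Prob

/-!
# Vu's conjecture: influence of one coin (`S_INF`)
-/

set_option autoImplicit false

open scoped Classical
open Finset

noncomputable section

namespace Vu80

section InfAux

variable {X : Type} {R : ℕ}

lemma inf_blk_iff (nb : X → Finset X) (ξ : Coins R X) (t : ℕ) (h : X) :
    blk nb ξ t h ↔ ∃ t' < t, ∃ y ∈ nb h, act nb ξ t' y := by
  induction t with
  | zero => simp [blk]
  | succ t ih =>
    rw [blk, ih]
    constructor
    · rintro (⟨t', ht', y, hy, ha⟩ | ⟨y, hy, ha⟩)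
      · exact ⟨t', by omega, y, hy, ha⟩
      · exact ⟨t, by omega, y, hy, ha⟩
    · rintro ⟨t', ht', y, hy, ha⟩
      rcases Nat.lt_succ_iff_lt_or_eq.1 ht' with h1 | h1
      · exact Or.inl ⟨t', h1, y, hy, ha⟩
      · subst h1
        exact Or.inr ⟨y, hy, ha⟩

lemma inf_act_iff (nb : X → Finset X) (ξ : Coins R X) (t : ℕ) (h : X) :
    act nb ξ t h ↔ on ξ t h ∧ ∀ t' < t, ∀ y ∈ nb h, ¬ act nb ξ t' y := by
  unfold act
  rw [inf_blk_iff]
  constructor
  · rintro ⟨h1, h2⟩
    exact ⟨h1, fun t' ht' y hy ha => h2 ⟨t', ht', y, hy, ha⟩⟩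
  · rintro ⟨h1, h2⟩
    refine ⟨h1, ?_⟩
    rintro ⟨t', ht', y, hy, ha⟩
    exact h2 t' ht' y hy ha

lemma inf_act_early (nb : X → Finset X) (ξ ξ' : Coins R X) (t : ℕ) :
    (∀ j : Fin R × X, (j.1 : ℕ) ≤ t → ξ j = ξ' j) → ∀ h, act nb ξ t h ↔ act nb ξ' t h := by
  induction t using Nat.strong_induction_on with
  | _ t ih =>
    intro heq h
    rw [inf_act_iff, inf_act_iff]
    have hon : on ξ t h ↔ on ξ' t h := by
      unfold on
      refine exists_congr fun ht => ?_
      rw [heq (⟨t, ht⟩, h) le_rfl]
    rw [hon]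
    refine and_congr_right fun _ => ?_
    refine forall_congr' fun t' => forall_congr' fun ht' => forall_congr' fun y =>
      forall_congr' fun _ => not_congr ?_
    exact ih t' ht' (fun j hj => heq j (by omega)) y

lemma inf_on_update (ξ : Coins R X) (i : Fin R × X) (b : Bool) (t : ℕ) (y : X)
    (h : ¬ (t = (i.1 : ℕ) ∧ y = i.2)) : on (Function.update ξ i b) t y ↔ on ξ t y := by
  unfold on
  refine exists_congr fun ht => ?_
  rw [Function.update_of_ne]
  intro hEq
  apply h
  rw [← hEq]
  exact ⟨rfl, rfl⟩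

/-- the act of `y` in round `t` changes when coin `i` is flipped -/
def chg (nb : X → Finset X) (η : Coins R X) (i : Fin R × X) (t : ℕ) (y : X) : Prop :=
  ¬ (act nb (Function.update η i true) t y ↔ act nb (Function.update η i false) t y)

lemma chg_early (nb : X → Finset X) (η : Coins R X) (i : Fin R × X) {t : ℕ}
    (ht : t < (i.1 : ℕ)) (y : X) : ¬ chg nb η i t y := by
  unfold chg
  rw [not_not]
  refine inf_act_early nb _ _ t (fun j hj => ?_) y
  have hne : j ≠ i := by rintro rfl; omega
  rw [Function.update_of_ne hne, Function.update_of_ne hne]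

lemma chg_same (nb : X → Finset X) (η : Coins R X) (i : Fin R × X) (y : X)
    (h : chg nb η i (i.1 : ℕ) y) : y = i.2 := by
  by_contra hne
  apply h
  rw [inf_act_iff, inf_act_iff, inf_on_update η i true _ _ (fun h => hne h.2),
    inf_on_update η i false _ _ (fun h => hne h.2)]
  refine and_congr_right fun _ => ?_
  refine forall_congr' fun t' => forall_congr' fun ht' => forall_congr' fun z =>
    forall_congr' fun _ => not_congr ?_
  have := chg_early nb η i ht' z
  unfold chg at this
  exact not_not.1 this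

lemma chg_late (nb : X → Finset X) (η : Coins R X) (i : Fin R × X) {t : ℕ}
    (ht : (i.1 : ℕ) < t) (y : X) (h : chg nb η i t y) :
    on η t y ∧ ∃ t' < t, ∃ z ∈ nb y, chg nb η i t' z := by
  have hon : ∀ b : Bool, on (Function.update η i b) t y ↔ on η t y := fun b =>
    inf_on_update η i b t y (fun h => by omega)
  by_cases hO : on η t y
  · refine ⟨hO, ?_⟩
    by_contra hcon
    push_neg at hcon
    apply h
    rw [inf_act_iff, inf_act_iff, hon, hon]
    refine and_congr_right fun _ => ?_
    refine forall_congr' fun t' => forall_congr' fun ht' => forall_congr' fun z =>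
      forall_congr' fun hz => not_congr ?_
    have := hcon t' ht' z hz
    unfold chg at this
    exact not_not.1 this
  · exfalso
    apply h
    rw [inf_act_iff, inf_act_iff, hon, hon]
    simp [hO]

lemma chg_large (nb : X → Finset X) (η : Coins R X) (i : Fin R × X) {t : ℕ}
    (ht : R ≤ t) (y : X) : ¬ chg nb η i t y := by
  intro h
  obtain ⟨⟨h1, -⟩, -⟩ := chg_late nb η i (lt_of_lt_of_le i.1.2 ht) y h
  omega

lemma chg_congr (nb : X → Finset X) (η η' : Coins R X) (i : Fin R × X) {t : ℕ} (y : X)
    (h : ∀ j : Fin R × X, (j.1 : ℕ) ≤ t → η j = η' j) : chg nb η i t y ↔ chg nb η' i t y := by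
  unfold chg
  have e : ∀ b : Bool, (act nb (Function.update η i b) t y ↔
      act nb (Function.update η' i b) t y) := by
    intro b
    refine inf_act_early nb _ _ t (fun j hj => ?_) y
    by_cases hji : j = i
    · subst hji; simp
    · rw [Function.update_of_ne hji, Function.update_of_ne hji]
      exact h j hj
  rw [e true, e false]

end InfAux

open Pool.Agent.Vu in
theorem inf : S_INF := by
  intro X _ nb R p pm hp0 hpm hpm1 Q i ξ
  have hpm0 : 0 ≤ pm := (hp0 0 i.2).trans (hpm 0 i.2)
  set S : Set (Fin R × X) := {j | (i.1 : ℕ) < (j.1 : ℕ)} with hS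
  have hP : IsProb (rt R p) := fun j => ⟨hp0 _ _, (hpm _ _).trans hpm1⟩
  -- expected change
  let m : ℕ → X → ℝ := fun t y =>
    Pool.Agent.Vu.Ex (rt R p) (fun η => if chg nb (Vu80.mix S η ξ) i t y then 1 else 0)
  have hm0 : ∀ t y, 0 ≤ m t y := fun t y =>
    Ex_nonneg hP fun η => by split_ifs <;> norm_num
  have hmearly : ∀ t, t < (i.1 : ℕ) → ∀ y, m t y = 0 := by
    intro t ht y
    have : ∀ η, (if chg nb (Vu80.mix S η ξ) i t y then (1:ℝ) else 0) = 0 := fun η => by
      rw [if_neg (chg_early nb _ i ht y)]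
    show Pool.Agent.Vu.Ex (rt R p) (fun η => if chg nb (Vu80.mix S η ξ) i t y then (1:ℝ) else 0) = 0
    simp only [this]
    exact Ex_const _ 0
  have hmsame : ∀ y, m (i.1 : ℕ) y ≤ Vu80.ind {i.2} y := by
    intro y
    unfold Vu80.ind
    by_cases hy : y = i.2
    · rw [if_pos (by simp [hy])]
      exact Ex_le hP fun η => by split_ifs <;> norm_num
    · rw [if_neg (by simp [hy])]
      refine Ex_le hP fun η => ?_
      rw [if_neg fun h => hy (chg_same nb _ i y h)]
  have hmlate : ∀ t, (i.1 : ℕ) < t → ∀ y, m t y ≤ pm * ∑ z ∈ nb y, ∑ t' ∈ range t, m t' z := by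
    intro t ht y
    have hRHS : 0 ≤ pm * ∑ z ∈ nb y, ∑ t' ∈ range t, m t' z :=
      mul_nonneg hpm0 (Finset.sum_nonneg fun z _ => Finset.sum_nonneg fun t' _ => hm0 t' z)
    by_cases htR : R ≤ t
    · refine le_trans (Ex_le hP fun η => ?_) hRHS
      rw [if_neg (chg_large nb _ i htR y)]
    · push_neg at htR
      -- the indicator is at most coin times the number of earlier changes
      have h1 : ∀ η : Coins R X, (if chg nb (Vu80.mix S η ξ) i t y then (1:ℝ) else 0) ≤
          (if η (⟨t, htR⟩, y) = true then 1 else 0) *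
            ∑ z ∈ nb y, ∑ t' ∈ range t, (if chg nb (Vu80.mix S η ξ) i t' z then (1:ℝ) else 0) := by
        intro η
        have hnn : ∀ z ∈ nb y, 0 ≤ ∑ t' ∈ range t,
            (if chg nb (Vu80.mix S η ξ) i t' z then (1:ℝ) else 0) := fun z _ =>
          Finset.sum_nonneg fun t' _ => by split_ifs <;> norm_num
        by_cases hc : chg nb (Vu80.mix S η ξ) i t y
        · obtain ⟨⟨ht2, hon⟩, t', ht', z, hz, hch⟩ := chg_late nb _ i ht y hc
          have hmem : ((⟨t, htR⟩, y) : Fin R × X) ∈ S := ht
          have hon' : η (⟨t, htR⟩, y) = true := by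
            have : Vu80.mix S η ξ (⟨t, htR⟩, y) = η (⟨t, htR⟩, y) := by
              unfold Vu80.mix
              rw [if_pos hmem]
            rw [← this]
            exact hon
          rw [if_pos hc, if_pos hon', one_mul]
          have h2 : (1:ℝ) ≤ ∑ t' ∈ range t,
              (if chg nb (Vu80.mix S η ξ) i t' z then (1:ℝ) else 0) := by
            have := Finset.single_le_sum (f := fun t' =>
              if chg nb (Vu80.mix S η ξ) i t' z then (1:ℝ) else 0)
              (fun t' _ => by split_ifs <;> norm_num) (Finset.mem_range.2 ht')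
            simpa only [if_pos hch] using this
          exact h2.trans (Finset.single_le_sum (f := fun z => ∑ t' ∈ range t,
              (if chg nb (Vu80.mix S η ξ) i t' z then (1:ℝ) else 0)) hnn hz)
        · rw [if_neg hc]
          refine mul_nonneg (by split_ifs <;> norm_num) (Finset.sum_nonneg hnn)
      have h2 : m t y ≤ Pool.Agent.Vu.Ex (rt R p) (fun η =>
          (if η (⟨t, htR⟩, y) = true then 1 else 0) *
            ∑ z ∈ nb y, ∑ t' ∈ range t, (if chg nb (Vu80.mix S η ξ) i t' z then (1:ℝ) else 0)) :=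
        Ex_mono hP h1
      have hdep : Pool.Agent.Vu.Dep ({(⟨t, htR⟩, y)}ᶜ : Set (Fin R × X)) (fun η : Coins R X =>
          ∑ z ∈ nb y, ∑ t' ∈ range t, (if chg nb (Vu80.mix S η ξ) i t' z then (1:ℝ) else 0)) := by
        intro η η' hη
        refine Finset.sum_congr rfl fun z _ => Finset.sum_congr rfl fun t' ht' => ?_
        have ht'' := Finset.mem_range.1 ht'
        have : chg nb (Vu80.mix S η ξ) i t' z ↔ chg nb (Vu80.mix S η' ξ) i t' z := by
          refine chg_congr nb _ _ i z fun j hj => ?_
          unfold Vu80.mix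
          by_cases hjS : j ∈ S
          · rw [if_pos hjS, if_pos hjS]
            refine hη j ?_
            simp only [Set.mem_compl_iff, Set.mem_singleton_iff]
            rintro rfl
            simp at hj
            omega
          · rw [if_neg hjS, if_neg hjS]
        simp only [this]
      have h3 := Ex_coin_mul (rt R p) ((⟨t, htR⟩, y) : Fin R × X)
        (S := ({(⟨t, htR⟩, y)}ᶜ : Set (Fin R × X))) (by simp) hdep
      rw [h3] at h2
      have h4 : Pool.Agent.Vu.Ex (rt R p) (fun η : Coins R X => ∑ z ∈ nb y, ∑ t' ∈ range t,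
          (if chg nb (Vu80.mix S η ξ) i t' z then (1:ℝ) else 0)) =
          ∑ z ∈ nb y, ∑ t' ∈ range t, m t' z := by
        rw [Ex_sum]
        refine Finset.sum_congr rfl fun z _ => ?_
        rw [Ex_sum]
      rw [h4] at h2
      refine h2.trans (mul_le_mul_of_nonneg_right (hpm _ _)
        (Finset.sum_nonneg fun z _ => Finset.sum_nonneg fun t' _ => hm0 t' z))
  -- the accumulated sums
  let W : ℕ → X → ℝ := fun k y => ∑ t ∈ range ((i.1 : ℕ) + k + 1), m t y
  have hW : ∀ k y, W k y ≤ ((Top pm nb)^[k] (Vu80.ind {i.2})) y := by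
    intro k
    induction k with
    | zero =>
      intro y
      have : W 0 y = m (i.1 : ℕ) y := by
        show ∑ t ∈ range ((i.1 : ℕ) + 0 + 1), m t y = _
        rw [Nat.add_zero, Finset.sum_range_succ]
        rw [Finset.sum_eq_zero fun t ht => hmearly t (Finset.mem_range.1 ht) y, zero_add]
      rw [this]
      exact hmsame y
    | succ k ih =>
      intro y
      rw [Function.iterate_succ_apply']
      have h1 : W (k + 1) y = W k y + m ((i.1 : ℕ) + k + 1) y := by
        show ∑ t ∈ range ((i.1 : ℕ) + (k + 1) + 1), m t y = _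
        rw [show (i.1 : ℕ) + (k + 1) + 1 = ((i.1 : ℕ) + k + 1) + 1 by ring, Finset.sum_range_succ]
      have h2 := hmlate ((i.1 : ℕ) + k + 1) (by omega) y
      have h3 : pm * ∑ z ∈ nb y, ∑ t' ∈ range ((i.1 : ℕ) + k + 1), m t' z ≤
          pm * ∑ z ∈ nb y, ((Top pm nb)^[k] (Vu80.ind {i.2})) z :=
        mul_le_mul_of_nonneg_left (Finset.sum_le_sum fun z _ => ih z) hpm0
      have h4 := ih y
      rw [h1]
      show _ ≤ ((Top pm nb)^[k] (Vu80.ind {i.2})) y +
        pm * ∑ z ∈ nb y, ((Top pm nb)^[k] (Vu80.ind {i.2})) z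
      linarith
  have hfin : ExS (rt R p) S (fun η => ∑ t ∈ range R, ∑ y ∈ Q,
        (if (act nb (Function.update η i true) t y ↔ act nb (Function.update η i false) t y)
          then 0 else 1)) ξ = ∑ y ∈ Q, ∑ t ∈ range R, m t y := by
    have e1 : ∀ η : Coins R X, (∑ t ∈ range R, ∑ y ∈ Q,
        (if (act nb (Function.update (Vu80.mix S η ξ) i true) t y ↔
          act nb (Function.update (Vu80.mix S η ξ) i false) t y) then (0:ℝ) else 1)) =
        ∑ y ∈ Q, ∑ t ∈ range R, (if chg nb (Vu80.mix S η ξ) i t y then (1:ℝ) else 0) := by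
      intro η
      rw [Finset.sum_comm]
      refine Finset.sum_congr rfl fun y _ => Finset.sum_congr rfl fun t _ => ?_
      unfold chg
      by_cases hh : (act nb (Function.update (Vu80.mix S η ξ) i true) t y ↔
          act nb (Function.update (Vu80.mix S η ξ) i false) t y)
      · rw [if_pos hh, if_neg (not_not.2 hh)]
      · rw [if_neg hh, if_pos hh]
    show Pool.Agent.Vu.Ex (rt R p) _ = _
    rw [Ex_congr e1, Ex_sum]
    refine Finset.sum_congr rfl fun y _ => ?_
    rw [Ex_sum]
  rw [hfin]
  refine Finset.sum_le_sum fun y _ => le_trans ?_ (hW R y)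
  refine Finset.sum_le_sum_of_subset_of_nonneg ?_ (fun t _ _ => hm0 t y)
  intro t ht
  rw [Finset.mem_range] at ht ⊢
  omega

end Vu80
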