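import Pool.Agent.Lib_helper80.Vu.Stmts

/-!
# Vu's conjecture (list version): module KAVG (averages of the errors in Lemma K)
-/

set_option autoImplicit false
set_option linter.unusedSectionVars false

open scoped Classical
open Finset

noncomputable section

namespace Vu80

namespace KAVG

variable {V X : Type} [Fintype V] [Fintype X] (C : Cov V X)

lemma nb_symm (x y : X) : y ∈ C.nb x ↔ x ∈ C.nb y := by
  simp only [Cov.nb, Cov.fib, Cov.col, mem_union, mem_filter, mem_univ, true_and]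
  constructor
  · rintro (h | ⟨h1, h2⟩)
    · exact Or.inl h.symm
    · exact Or.inr ⟨h1.symm, h2.symm⟩
  · rintro (h | ⟨h1, h2⟩)
    · exact Or.inl h.symm
    · exact Or.inr ⟨h1.symm, h2.symm⟩

lemma col_card_le (P : Par) (hC : COk P C) (x : X) : (C.col x).card ≤ P.Δ := by
  refine le_trans ?_ (hC.deg (C.pv x))
  refine Finset.card_le_card_of_injOn C.pv ?_ ?_
  · intro y hy
    simp only [Cov.col, coe_filter, mem_univ, true_and, Set.mem_ofPred_eq] at hy
    simp only [Cov.N, coe_filter, mem_univ, true_and, Set.mem_ofPred_eq]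
    exact hy.2
  · intro y hy z hz h
    simp only [Cov.col, coe_filter, mem_univ, true_and, Set.mem_ofPred_eq] at hy hz
    exact C.inj y z h (hy.1.trans hz.1.symm)

lemma nb_card_le (P : Par) (hC : COk P C) (x : X) : (C.nb x).card ≤ P.Δ + P.ℓ := by
  unfold Cov.nb
  refine le_trans (card_union_le _ _) ?_
  have h1 := hC.fib (C.pv x)
  have h2 := col_card_le C P hC x
  omega

lemma phi_nonneg (G : SimpleGraph V) (Q : Finset V) (z : V) : 0 ≤ phi G Q z := by
  unfold phi
  positivity

lemma card_mul_phi (G : SimpleGraph V) (Q : Finset V) (hQ : Q.Nonempty) (z : V) :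
    (Q.card : ℝ) * phi G Q z = ((Q.filter (fun u => G.Adj z u)).card : ℝ) := by
  unfold phi
  have h : (Q.card : ℝ) ≠ 0 := by
    have := hQ.card_pos
    positivity
  field_simp

lemma sum_phi_le (P : Par) (hC : COk P C) (Q : Finset V) (hQ : Q.Nonempty) :
    ∑ z, phi C.G Q z ≤ P.Δ := by
  have h : (0 : ℝ) < Q.card := by exact_mod_cast hQ.card_pos
  have key : (Q.card : ℝ) * ∑ z, phi C.G Q z ≤ Q.card * P.Δ := by
    rw [mul_sum]
    simp_rw [card_mul_phi C.G Q hQ]
    have e : ∀ z, ((Q.filter (fun u => C.G.Adj z u)).card : ℝ) =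
        ∑ u ∈ Q, (if C.G.Adj z u then (1 : ℝ) else 0) := by
      intro z
      rw [← Finset.sum_filter, Finset.sum_const, nsmul_eq_mul, mul_one]
    simp_rw [e]
    rw [Finset.sum_comm]
    have h2 : ∀ u ∈ Q, ∑ z, (if C.G.Adj z u then (1 : ℝ) else 0) ≤ P.Δ := by
      intro u _
      rw [← Finset.sum_filter, Finset.sum_const, nsmul_eq_mul, mul_one]
      have h3 := hC.deg u
      have h4 : (univ.filter (fun z => C.G.Adj z u)) = C.N u := by
        ext z
        simp [Cov.N, C.G.adj_comm]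
      rw [h4]
      exact_mod_cast h3
    calc ∑ u ∈ Q, ∑ z, (if C.G.Adj z u then (1 : ℝ) else 0) ≤ ∑ _u ∈ Q, (P.Δ : ℝ) :=
          Finset.sum_le_sum h2
      _ = Q.card * P.Δ := by rw [Finset.sum_const, nsmul_eq_mul]
  exact le_of_mul_le_mul_left key h

/-- sum over pairs of one colour of a nonnegative function of the vertex -/
lemma sum_pairs_le (a : ℕ) (W : Finset X) (hW : ∀ h ∈ W, C.pc h = a) (f : V → ℝ) (S : Finset V)
    (hf : ∀ z ∈ S, 0 ≤ f z) (hS : ∀ h ∈ W, C.pv h ∈ S) :
    ∑ h ∈ W, f (C.pv h) ≤ ∑ z ∈ S, f z := by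
  have hinj : Set.InjOn C.pv (W : Set X) := by
    intro x hx y hy hxy
    exact C.inj x y hxy ((hW x hx).trans (hW y hy).symm)
  have h1 : ∑ h ∈ W, f (C.pv h) = ∑ z ∈ W.image C.pv, f z := by
    rw [Finset.sum_image]
    intro x hx y hy hxy
    exact hinj hx hy hxy
  rw [h1]
  refine Finset.sum_le_sum_of_subset_of_nonneg ?_ ?_
  · intro z hz
    rw [Finset.mem_image] at hz
    obtain ⟨h, hh, rfl⟩ := hz
    exact hS h hh
  · intro z hz _
    exact hf z hz

/-- double counting: pairs of `W` adjacent to the vertices of `Q` -/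
lemma sum_ind_filter (Q : Finset V) (hQ : Q.Nonempty) (W : Finset X) (h : X) :
    ∑ v ∈ Q, (1 : ℝ) * ind (W.filter (fun h => C.G.Adj v (C.pv h))) h =
      if h ∈ W then (Q.card : ℝ) * phi C.G Q (C.pv h) else 0 := by
  rw [card_mul_phi C.G Q hQ]
  by_cases hW : h ∈ W
  · simp only [ind, mem_filter, hW, true_and, if_true, one_mul]
    rw [← Finset.sum_filter, Finset.sum_const, nsmul_eq_mul, mul_one]
    congr 2
    ext v
    simp [C.G.adj_comm]
  · simp [ind, mem_filter, hW]

lemma pm_nonneg (P : Par) : 0 ≤ P.pm := by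
  unfold Par.pm
  have h1 := P.hε0
  have h2 := P.hδ
  positivity

lemma pow_le_exp (P : Par) : (1 + P.pm * ((P.Δ + P.ℓ : ℕ) : ℝ)) ^ P.R ≤ Real.exp P.Θ := by
  have h0 := pm_nonneg P
  have hx : 0 ≤ P.pm * ((P.Δ + P.ℓ : ℕ) : ℝ) := by positivity
  calc (1 + P.pm * ((P.Δ + P.ℓ : ℕ) : ℝ)) ^ P.R
      ≤ (Real.exp (P.pm * ((P.Δ + P.ℓ : ℕ) : ℝ))) ^ P.R := by
        refine pow_le_pow_left₀ (by positivity) ?_ _
        have := Real.add_one_le_exp (P.pm * ((P.Δ + P.ℓ : ℕ) : ℝ))
        linarith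
    _ = Real.exp (P.R * (P.pm * ((P.Δ + P.ℓ : ℕ) : ℝ))) := by
        rw [← Real.exp_nat_mul]
    _ ≤ Real.exp P.Θ := by
        apply Real.exp_le_exp.mpr
        have := P.hpmΘ
        have e : (P.R : ℝ) * (P.pm * ((P.Δ + P.ℓ : ℕ) : ℝ)) = P.ε0 / (P.ℓ * P.δ) * P.R * (P.Δ + P.ℓ) := by
          unfold Par.pm
          push_cast
          ring
        rw [e]
        exact this

lemma pmRΔ_le (P : Par) : P.pm * P.R * P.Δ ≤ P.Θ := by
  have := P.hpmΘ
  have h0 := pm_nonneg P
  have h1 : P.pm * P.R * P.Δ ≤ P.pm * P.R * (P.Δ + P.ℓ) := by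
    have h2 : (0 : ℝ) ≤ P.pm * P.R * P.ℓ := by positivity
    nlinarith
  refine le_trans h1 ?_
  exact this

/-- the main estimate: sum over `v ∈ Q` of the exchange terms with `B_v ⊆ B` -/
lemma gam_sum_le (htop : S_TOP) (P : Par) (hC : COk P C) (Q : Finset V) (hQ : Q.Nonempty) (ν2 : ℝ)
    (hν2 : 0 < ν2) (A : V → Finset X) (B : Finset X) (hA : ∀ v ∈ Q, A v ⊆ B) (Wp : Finset X)
    (hWp : ∀ h ∈ Wp, phi C.G Q (C.pv h) ≤ ν2) :
    ∑ v ∈ Q, Gam P.pm P.R C.nb (A v) (Wp.filter (fun h => C.G.Adj v (C.pv h))) ≤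
      2 * (P.pm * P.R * B.card) * Real.exp (2 * P.Θ) * ν2 * Q.card := by
  have hsymm := nb_symm C
  obtain ⟨tnn, tmono, tlin, _, _, tsum, tsup⟩ :=
    htop X C.nb hsymm (P.Δ + P.ℓ) (nb_card_le C P hC) P.pm (pm_nonneg P) P.R
  have h0 := pm_nonneg P
  have hexp := pow_le_exp P
  have hpow0 : (0 : ℝ) ≤ (1 + P.pm * ((P.Δ + P.ℓ : ℕ) : ℝ)) ^ P.R := by positivity
  set E : ℝ := Real.exp P.Θ with hE
  have hE0 : 0 < E := Real.exp_pos _
  -- abbreviations
  set T : (X → ℝ) → X → ℝ := fun w => (Top P.pm C.nb)^[P.R] w with hT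
  have indnn : ∀ (S : Finset X) (h : X), 0 ≤ ind S h := by
    intro S h
    unfold ind
    split_ifs <;> norm_num
  set Bv : V → Finset X := fun v => Wp.filter (fun h => C.G.Adj v (C.pv h)) with hBv
  -- pointwise bound of the sum of the private parts
  have hsumB : ∀ h, ∑ v ∈ Q, T (ind (Bv v)) h ≤ E * (Q.card * ν2) := by
    intro h
    have e1 := tlin V Q (fun _ => (1 : ℝ)) (fun v => ind (Bv v)) h
    simp only [one_mul] at e1
    have e2 : ∑ v ∈ Q, T (ind (Bv v)) h =
        ((Top P.pm C.nb)^[P.R] (fun x => ∑ i ∈ Q, ind (Bv i) x)) h := by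
      rw [e1]
    rw [e2]
    refine le_trans (tsup (fun x => ∑ i ∈ Q, ind (Bv i) x) (Q.card * ν2) (by positivity) ?_ h) ?_
    · intro x
      have := sum_ind_filter C Q hQ Wp x
      simp only [one_mul] at this
      rw [this]
      split_ifs with hx
      · have := hWp x hx
        have hq : (0 : ℝ) ≤ Q.card := by positivity
        exact mul_le_mul_of_nonneg_left this hq
      · positivity
    · exact mul_le_mul_of_nonneg_right hexp (by positivity)
  -- the sum of the other factor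
  have hsumA : ∑ h, T (ind B) h ≤ E * B.card := by
    refine le_trans (tsum (ind B) (indnn B)) ?_
    have e1 : ∑ h, ind B h = (B.card : ℝ) := by
      unfold ind
      rw [← Finset.sum_filter, Finset.sum_const, nsmul_eq_mul, mul_one]
      congr 1
      congr 1
      ext h
      simp
    rw [e1]
    exact mul_le_mul_of_nonneg_right hexp (by positivity)
  -- assembly
  have hmain : ∑ v ∈ Q, ∑ h, T (ind (A v)) h * T (ind (Bv v)) h ≤ (E * B.card) * (E * (Q.card * ν2)) := by
    calc ∑ v ∈ Q, ∑ h, T (ind (A v)) h * T (ind (Bv v)) h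
        ≤ ∑ v ∈ Q, ∑ h, T (ind B) h * T (ind (Bv v)) h := by
          refine Finset.sum_le_sum ?_
          intro v hv
          refine Finset.sum_le_sum ?_
          intro h _
          refine mul_le_mul_of_nonneg_right ?_ (tnn _ (indnn _) h)
          refine tmono _ _ ?_ h
          intro x
          unfold ind
          by_cases hx : x ∈ A v
          · rw [if_pos hx, if_pos (hA v hv hx)]
          · rw [if_neg hx]
            split_ifs <;> norm_num
      _ = ∑ h, T (ind B) h * ∑ v ∈ Q, T (ind (Bv v)) h := by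
          rw [Finset.sum_comm]
          refine Finset.sum_congr rfl ?_
          intro h _
          rw [mul_sum]
      _ ≤ ∑ h, T (ind B) h * (E * (Q.card * ν2)) := by
          refine Finset.sum_le_sum ?_
          intro h _
          exact mul_le_mul_of_nonneg_left (hsumB h) (tnn _ (indnn _) h)
      _ = (∑ h, T (ind B) h) * (E * (Q.card * ν2)) := by rw [sum_mul]
      _ ≤ (E * B.card) * (E * (Q.card * ν2)) :=
          mul_le_mul_of_nonneg_right hsumA (by positivity)
  have hE2 : Real.exp (2 * P.Θ) = E * E := by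
    rw [hE, ← Real.exp_add]
    congr 1
    ring
  calc ∑ v ∈ Q, Gam P.pm P.R C.nb (A v) (Wp.filter (fun h => C.G.Adj v (C.pv h)))
      = 2 * P.pm * P.R * ∑ v ∈ Q, ∑ h, T (ind (A v)) h * T (ind (Bv v)) h := by
        rw [mul_sum]
        rfl
    _ ≤ 2 * P.pm * P.R * ((E * B.card) * (E * (Q.card * ν2))) :=
        mul_le_mul_of_nonneg_left hmain (by positivity)
    _ = 2 * (P.pm * P.R * B.card) * Real.exp (2 * P.Θ) * ν2 * Q.card := by
        rw [hE2]
        ring

end KAVG

open KAVG in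
theorem kavg (htop : S_TOP) : S_KAVG := by
  intro P V X _ _ C hC p hp s hs hflow a Q hQ ν1 ν2 hν2 hν12 Wc Wm Wp hWc hWm hWp
  have h0 := pm_nonneg P
  have hν1 : 0 < ν1 := lt_of_lt_of_le hν2 hν12
  have hWp' : ∀ h ∈ Wp, phi C.G Q (C.pv h) ≤ ν2 := by
    intro h hh
    rw [hWp, mem_filter] at hh
    exact hh.2.2.le
  have hΘ := P.hΘ
  have hpmR := pmRΔ_le P
  refine ⟨?_, ?_, ?_⟩
  · -- common and private
    refine le_trans (gam_sum_le C htop P hC Q hQ ν2 hν2
      (fun v => Wc.filter (fun h => C.G.Adj v (C.pv h))) Wc (fun v _ => filter_subset _ _) Wp hWp') ?_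
    have hcard : (Wc.card : ℝ) * ν1 ≤ P.Δ := by
      calc (Wc.card : ℝ) * ν1 = ∑ _h ∈ Wc, ν1 := by rw [sum_const, nsmul_eq_mul]
        _ ≤ ∑ h ∈ Wc, phi C.G Q (C.pv h) := by
            refine Finset.sum_le_sum ?_
            intro h hh
            rw [hWc, mem_filter] at hh
            exact hh.2.2
        _ ≤ ∑ z ∈ (univ : Finset V), phi C.G Q z := by
            refine sum_pairs_le C a Wc ?_ _ _ ?_ ?_
            · intro h hh
              rw [hWc, mem_filter] at hh
              exact hh.2.1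
            · intro z _
              exact phi_nonneg _ _ _
            · intro h _
              exact mem_univ _
        _ ≤ P.Δ := sum_phi_le C P hC Q hQ
    have hcard' : (Wc.card : ℝ) ≤ P.Δ / ν1 := by
      rw [le_div_iff₀ hν1]
      exact hcard
    have h3 : P.pm * P.R * Wc.card ≤ P.Θ / ν1 := by
      calc P.pm * P.R * Wc.card ≤ P.pm * P.R * (P.Δ / ν1) :=
            mul_le_mul_of_nonneg_left hcard' (by positivity)
        _ = (P.pm * P.R * P.Δ) / ν1 := by ring
        _ ≤ P.Θ / ν1 := (by gcongr)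
    calc 2 * (P.pm * P.R * Wc.card) * Real.exp (2 * P.Θ) * ν2 * Q.card
        ≤ 2 * (P.Θ / ν1) * Real.exp (2 * P.Θ) * ν2 * Q.card := (by gcongr)
      _ = 2 * P.Θ * Real.exp (2 * P.Θ) * (ν2 / ν1) * Q.card := by ring
  · -- the neighbourhood of `x` and private
    intro x
    refine le_trans (gam_sum_le C htop P hC Q hQ ν2 hν2
      (fun _ => C.col x) (C.col x) (fun v _ => Finset.Subset.refl _) Wp hWp') ?_
    have hc : ((C.col x).card : ℝ) ≤ P.Δ := by exact_mod_cast col_card_le C P hC x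
    have h3 : P.pm * P.R * (C.col x).card ≤ P.Θ := by
      calc P.pm * P.R * (C.col x).card ≤ P.pm * P.R * P.Δ :=
            mul_le_mul_of_nonneg_left hc (by positivity)
        _ ≤ P.Θ := hpmR
    have h4 : 2 * (P.pm * P.R * (C.col x).card) * Real.exp (2 * P.Θ) * ν2 * Q.card
        ≤ 2 * P.Θ * Real.exp (2 * P.Θ) * ν2 * Q.card := (by gcongr)
    exact h4
  · -- the middle part
    intro m hm
    have hℓ : (0 : ℝ) < P.ℓ := by exact_mod_cast P.hℓ
    have hΔ : (0 : ℝ) < P.Δ := by exact_mod_cast P.hΔ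
    have hm0 : 0 ≤ m := by
      have h1 : 0 ≤ ∑ z ∈ univ.filter (fun z => ν2 ≤ phi C.G Q z ∧ phi C.G Q z < ν1), phi C.G Q z :=
        Finset.sum_nonneg (fun z _ => phi_nonneg _ _ _)
      have h2 : 0 ≤ m * P.Δ := le_trans h1 hm
      exact nonneg_of_mul_nonneg_left h2 hΔ
    have hγ := P.hγ
    have hW : ∑ h ∈ Wm, phi C.G Q (C.pv h) ≤ m * P.Δ := by
      refine le_trans ?_ hm
      refine sum_pairs_le C a Wm ?_ _ _ ?_ ?_
      · intro h hh
        rw [hWm, mem_filter] at hh
        exact hh.2.1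
      · intro z _
        exact phi_nonneg _ _ _
      · intro h hh
        rw [hWm, mem_filter] at hh
        rw [mem_filter]
        exact ⟨mem_univ _, hh.2.2⟩
    have hA2' : ((1 + P.γ) * P.Δ) / P.ℓ ≤ 2 / P.ζ := by
      rw [div_le_iff₀ hℓ]
      exact P.hA2
    calc ∑ v ∈ Q, ∑ h ∈ Wm.filter (fun h => C.G.Adj v (C.pv h)), ∑ t ∈ range s, pact C.nb P.R p t h
        ≤ ∑ v ∈ Q, ∑ _h ∈ Wm.filter (fun h => C.G.Adj v (C.pv h)), (1 + P.γ) / P.ℓ := by
          refine Finset.sum_le_sum ?_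
          intro v _
          refine Finset.sum_le_sum ?_
          intro h _
          exact hflow h
      _ = (1 + P.γ) / P.ℓ * (∑ v ∈ Q, ∑ h ∈ Wm, ind (Wm.filter (fun h => C.G.Adj v (C.pv h))) h) := by
          rw [mul_sum]
          refine Finset.sum_congr rfl ?_
          intro v _
          rw [sum_const, nsmul_eq_mul, mul_comm]
          congr 1
          unfold ind
          rw [← Finset.sum_filter, sum_const, nsmul_eq_mul, mul_one]
          congr 2
          ext h
          simp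
      _ = (1 + P.γ) / P.ℓ * (∑ h ∈ Wm, (Q.card : ℝ) * phi C.G Q (C.pv h)) := by
          congr 1
          rw [Finset.sum_comm]
          refine Finset.sum_congr rfl ?_
          intro h hh
          have := sum_ind_filter C Q hQ Wm h
          simp only [one_mul] at this
          rw [this, if_pos hh]
      _ = (1 + P.γ) / P.ℓ * Q.card * (∑ h ∈ Wm, phi C.G Q (C.pv h)) := by
          rw [← mul_sum]
          ring
      _ ≤ (1 + P.γ) / P.ℓ * Q.card * (m * P.Δ) := (by gcongr)
      _ = ((1 + P.γ) * P.Δ) / P.ℓ * m * Q.card := by ring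
      _ ≤ (2 / P.ζ) * m * Q.card :=
          mul_le_mul_of_nonneg_right (mul_le_mul_of_nonneg_right hA2' hm0) (Nat.cast_nonneg _)
      _ = 2 * m / P.ζ * Q.card := by ring

end Vu80
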