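import Pool.Agent.Lib_helper80.Vu.Stmts

/-!
# Vu's conjecture: Lemma K (key lemma)
-/

set_option autoImplicit false

open scoped Classical
open Finset

noncomputable section

namespace Vu80

namespace KEYaux

section Basic

variable {I : Type} [Fintype I]

theorem wt_nonneg (p : I → ℝ) (hp : ∀ i, 0 ≤ p i ∧ p i ≤ 1) (ξ : I → Bool) : 0 ≤ wt p ξ := by
  unfold wt
  apply Finset.prod_nonneg
  intro i _
  split_ifs
  · exact (hp i).1
  · linarith [(hp i).2]

theorem sum_wt (p : I → ℝ) : ∑ ξ : I → Bool, wt p ξ = 1 := by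
  have h := Finset.prod_univ_sum (fun _ : I => (univ : Finset Bool))
    (fun (i : I) (b : Bool) => if b = true then p i else 1 - p i)
  rw [Fintype.piFinset_univ] at h
  unfold wt
  rw [← h]
  apply Finset.prod_eq_one
  intro i _
  simp

theorem Ex_mono (p : I → ℝ) (hp : ∀ i, 0 ≤ p i ∧ p i ≤ 1) (f g : (I → Bool) → ℝ)
    (h : ∀ ξ, f ξ ≤ g ξ) : Ex p f ≤ Ex p g := by
  unfold Ex
  exact Finset.sum_le_sum fun ξ _ => mul_le_mul_of_nonneg_left (h ξ) (wt_nonneg p hp ξ)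

theorem Ex_add (p : I → ℝ) (f g : (I → Bool) → ℝ) :
    Ex p (fun ξ => f ξ + g ξ) = Ex p f + Ex p g := by
  unfold Ex
  rw [← Finset.sum_add_distrib]
  exact Finset.sum_congr rfl fun ξ _ => by ring

theorem Ex_sum {J : Type} (p : I → ℝ) (A : Finset J) (f : J → (I → Bool) → ℝ) :
    Ex p (fun ξ => ∑ j ∈ A, f j ξ) = ∑ j ∈ A, Ex p (f j) := by
  unfold Ex
  rw [Finset.sum_comm]
  exact Finset.sum_congr rfl fun ξ _ => by rw [Finset.mul_sum]

theorem Pr_nonneg (p : I → ℝ) (hp : ∀ i, 0 ≤ p i ∧ p i ≤ 1) (A : (I → Bool) → Prop) : 0 ≤ Pr p A := by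
  unfold Pr Ex
  apply Finset.sum_nonneg
  intro ξ _
  apply mul_nonneg (wt_nonneg p hp ξ)
  show (0 : ℝ) ≤ if A ξ then 1 else 0
  split_ifs <;> norm_num

theorem Pr_le_one (p : I → ℝ) (hp : ∀ i, 0 ≤ p i ∧ p i ≤ 1) (A : (I → Bool) → Prop) : Pr p A ≤ 1 := by
  have h : Pr p A ≤ Ex p (fun _ => 1) := by
    unfold Pr
    apply Ex_mono p hp
    intro ξ
    split_ifs <;> norm_num
  have h2 : Ex p (fun _ : I → Bool => (1 : ℝ)) = 1 := by
    unfold Ex
    simp only [mul_one]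
    exact sum_wt p
  linarith

theorem Pr_mono (p : I → ℝ) (hp : ∀ i, 0 ≤ p i ∧ p i ≤ 1) (A B : (I → Bool) → Prop)
    (h : ∀ ξ, A ξ → B ξ) : Pr p A ≤ Pr p B := by
  unfold Pr
  apply Ex_mono p hp
  intro ξ
  by_cases hA : A ξ
  · rw [if_pos hA, if_pos (h ξ hA)]
  · rw [if_neg hA]
    split_ifs <;> norm_num

end Basic

section Av

variable {X : Type} [Fintype X] (nb : X → Finset X) (R : ℕ) (p : ℕ → X → ℝ)

theorem av_anti (hp : ∀ i, 0 ≤ rt R p i ∧ rt R p i ≤ 1) (s : ℕ) (A B : Finset X) (h : A ⊆ B) :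
    av nb R p s B ≤ av nb R p s A :=
  Pr_mono (rt R p) hp _ _ (fun _ hB t ht x hx => hB t ht x (h hx))

theorem av_union_ge (hp : ∀ i, 0 ≤ rt R p i ∧ rt R p i ≤ 1) (s : ℕ) (A B : Finset X) :
    av nb R p s A - ∑ h ∈ B, ∑ t ∈ range s, pact nb R p t h ≤ av nb R p s (A ∪ B) := by
  have key : av nb R p s A ≤ Ex (rt R p) (fun ξ : Coins R X =>
      (if avd nb ξ s (A ∪ B) then (1 : ℝ) else 0) +
        ∑ h ∈ B, ∑ t ∈ range s, (if act nb ξ t h then (1 : ℝ) else 0)) := by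
    unfold av Pr
    apply Ex_mono (rt R p) hp
    intro ξ
    have hnn : ∀ h ∈ B, 0 ≤ ∑ t ∈ range s, (if act nb ξ t h then (1 : ℝ) else 0) := by
      intro h _
      apply Finset.sum_nonneg
      intro t _
      split_ifs <;> norm_num
    by_cases hAB : avd nb ξ s (A ∪ B)
    · rw [if_pos hAB]
      have := Finset.sum_nonneg hnn
      split_ifs <;> linarith
    · rw [if_neg hAB, zero_add]
      by_cases hA : avd nb ξ s A
      · rw [if_pos hA]
        unfold avd at hAB hA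
        push Not at hAB
        obtain ⟨t, ht, h, hh, hact⟩ := hAB
        have hB : h ∈ B := by
          rcases Finset.mem_union.1 hh with h1 | h1
          · exact absurd hact (hA t ht h h1)
          · exact h1
        have h1 : (1 : ℝ) ≤ ∑ t ∈ range s, (if act nb ξ t h then (1 : ℝ) else 0) := by
          have := Finset.single_le_sum (f := fun t => (if act nb ξ t h then (1 : ℝ) else 0))
            (s := range s) (fun t _ => by split_ifs <;> norm_num) (Finset.mem_range.2 ht)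
          simp only [if_pos hact] at this
          exact this
        exact h1.trans (Finset.single_le_sum hnn hB)
      · rw [if_neg hA]
        exact Finset.sum_nonneg hnn
  rw [Ex_add, Ex_sum] at key
  have h2 : ∑ h ∈ B, Ex (rt R p) (fun ξ : Coins R X => ∑ t ∈ range s, (if act nb ξ t h then (1 : ℝ) else 0))
      = ∑ h ∈ B, ∑ t ∈ range s, pact nb R p t h := by
    apply Finset.sum_congr rfl
    intro h _
    rw [Ex_sum]
    rfl
  rw [h2] at key
  have h3 : Ex (rt R p) (fun ξ : Coins R X => (if avd nb ξ s (A ∪ B) then (1 : ℝ) else 0)) =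
    av nb R p s (A ∪ B) := rfl
  rw [h3] at key
  linarith

end Av

theorem nb_symm {V X : Type} [Fintype V] [Fintype X] (C : Cov V X) (x y : X) :
    y ∈ C.nb x ↔ x ∈ C.nb y := by
  unfold Cov.nb Cov.fib Cov.col
  simp only [Finset.mem_union, Finset.mem_filter, Finset.mem_univ, true_and]
  constructor
  · rintro (h | ⟨h1, h2⟩)
    · exact Or.inl h.symm
    · exact Or.inr ⟨h1.symm, h2.symm⟩
  · rintro (h | ⟨h1, h2⟩)
    · exact Or.inl h.symm
    · exact Or.inr ⟨h1.symm, h2.symm⟩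

end KEYaux

open KEYaux

theorem key (hA : S_A) (hthr : S_THR) (hk : S_KAVG) (hdc : S_DC) : S_KEY := by
  intro P V X _ _ C hC p hp s hs hflow hδ x
  by_contra hcon
  push Not at hcon
  set Y : Finset X := (C.col x).filter (fun y =>
        P.K * C.cc P.R p s x * C.cc P.R p s y < av C.nb P.R p s (C.col x ∪ C.col y)) with hY
  -- members of `Y`
  have hYm : ∀ y ∈ Y, C.pc y = C.pc x ∧ C.G.Adj (C.pv x) (C.pv y) ∧
      P.K * C.cc P.R p s x * C.cc P.R p s y < av C.nb P.R p s (C.col x ∪ C.col y) := by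
    intro y hy
    rw [hY, Finset.mem_filter] at hy
    have h1 := hy.1
    unfold Cov.col at h1
    rw [Finset.mem_filter] at h1
    exact ⟨h1.2.1, h1.2.2, hy.2⟩
  have hcard : (Y.image C.pv).card = Y.card := by
    apply Finset.card_image_of_injOn
    intro y hy z hz hyz
    exact C.inj y z hyz ((hYm y hy).1.trans (hYm z hz).1.symm)
  have hdeg : ∀ v, (univ.filter (fun u => C.G.Adj v u)).card ≤ P.Δ := fun v => hC.deg v
  obtain ⟨Q, hQY, hQM, hQst⟩ := P.hstab V C.G P.Δ P.hΔ hdeg (Y.image C.pv) (hcard ▸ hcon)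
  have hQne : Q.Nonempty := Finset.card_pos.1 (lt_of_lt_of_le P.hM0 hQM)
  have hQpos : (0 : ℝ) < Q.card := by exact_mod_cast Finset.card_pos.2 hQne
  -- the threshold
  obtain ⟨k, hkN, hksum⟩ := hthr V C.G Q P.Δ P.Nth P.r P.kk hQne hdeg P.hr P.hr' P.hNth P.hK4
  set ν1 : ℝ := P.r ^ k / 2 with hν1
  set ν2 : ℝ := P.r ^ (k + 1) / 2 with hν2
  have hν1pos : 0 < ν1 := by rw [hν1]; have := pow_pos P.hr k; linarith
  have hν2pos : 0 < ν2 := by rw [hν2]; have := pow_pos P.hr (k + 1); linarith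
  have hν21 : ν2 = P.r * ν1 := by rw [hν1, hν2, pow_succ]; ring
  have hν2le : ν2 ≤ ν1 := by rw [hν21]; nlinarith [P.hr']
  have hν2r : ν2 ≤ P.r / 2 := by
    rw [hν2, pow_succ]
    have h1 : P.r ^ k ≤ 1 := pow_le_one₀ P.hr.le P.hr'
    nlinarith [P.hr]
  have hnumin : P.numin ≤ ν1 := by
    unfold Par.numin
    rw [hν1]
    have := pow_le_pow_of_le_one P.hr.le P.hr' hkN.le
    linarith
  -- Lemma A
  have hAA := hA P V X C hC p hp s hs hflow (C.pc x) Q hQM hQst ν1 hnumin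
  -- rates
  have hpm1 : P.pm ≤ 1 := P.hpm1
  have hrt : ∀ i, 0 ≤ rt P.R p i ∧ rt P.R p i ≤ 1 := fun i =>
    ⟨hp.nonneg _ _, (hp.le _ _).trans hpm1⟩
  set Wc : Finset X := univ.filter (fun h => C.pc h = C.pc x ∧ ν1 ≤ phi C.G Q (C.pv h)) with hWc
  set Wm : Finset X := univ.filter (fun h => C.pc h = C.pc x ∧ ν2 ≤ phi C.G Q (C.pv h) ∧
    phi C.G Q (C.pv h) < ν1) with hWm
  set Wp : Finset X := univ.filter (fun h => C.pc h = C.pc x ∧ phi C.G Q (C.pv h) < ν2) with hWp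
  obtain ⟨hk1, hk2, hk3⟩ := hk P V X C hC p hp s hs hflow (C.pc x) Q hQne ν1 ν2 hν2pos hν2le
    Wc Wm Wp hWc hWm hWp
  have hk2' := hk2 x
  have hk3' := hk3 P.kk hksum
  -- notation
  set fc : V → Finset X := fun v => Wc.filter (fun h => C.G.Adj v (C.pv h)) with hfc
  set fm : V → Finset X := fun v => Wm.filter (fun h => C.G.Adj v (C.pv h)) with hfm
  set fp : V → Finset X := fun v => Wp.filter (fun h => C.G.Adj v (C.pv h)) with hfp
  set g1 : V → ℝ := fun v => Gam P.pm P.R C.nb (fc v) (fp v) with hg1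
  set g2 : V → ℝ := fun v => Gam P.pm P.R C.nb (C.col x) (fp v) with hg2
  set g3 : V → ℝ := fun v => ∑ h ∈ fm v, ∑ t ∈ range s, pact C.nb P.R p t h with hg3
  set q : V → ℝ := fun v => av C.nb P.R p s (fp v) with hq
  set f : V → ℝ := fun v => av C.nb P.R p s (fc v) with hf
  have hAA' : P.β1 * Q.card ≤ ∑ v ∈ Q, f v := hAA
  have hs1 : ∑ v ∈ Q, g1 v ≤ 2 * P.Θ * Real.exp (2 * P.Θ) * (ν2 / ν1) * Q.card := hk1
  have hs2 : ∑ v ∈ Q, g2 v ≤ 2 * P.Θ * Real.exp (2 * P.Θ) * ν2 * Q.card := hk2'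
  have hs3 : ∑ v ∈ Q, g3 v ≤ 2 * P.kk / P.ζ * Q.card := hk3'
  have hdec := hdc X C.nb (nb_symm C) P.R p P.pm hp.nonneg hp.le hpm1 s hs
  have hg1n : ∀ v, 0 ≤ g1 v := fun v => (abs_nonneg _).trans (hdec (fc v) (fp v))
  have hg2n : ∀ v, 0 ≤ g2 v := fun v => (abs_nonneg _).trans (hdec (C.col x) (fp v))
  have hg3n : ∀ v, 0 ≤ g3 v := fun v =>
    Finset.sum_nonneg fun h _ => Finset.sum_nonneg fun t _ => Pr_nonneg _ hrt _
  have hf1 : ∀ v, f v ≤ 1 := fun v => Pr_le_one _ hrt _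
  have hβ1 : 0 < P.β1 := by
    rw [P.hβ1]
    have := mul_pos P.hκ P.hβ2
    linarith
  -- a good vertex exists
  have hex : ∃ v ∈ Q, P.β1 / 2 ≤ f v ∧ g1 v ≤ P.β1 * P.δ / 8 ∧ g3 v ≤ P.β1 * P.δ / 8 ∧
      g2 v ≤ P.δ ^ 2 := by
    by_contra hno
    push Not at hno
    have h1 : 0 < P.β1 * P.δ / 8 := by have := mul_pos hβ1 P.hδ; linarith
    have h2 : 0 < P.δ ^ 2 := pow_pos P.hδ 2
    have hpt : ∀ v ∈ Q, f v ≤ P.β1 / 2 + (g1 v / (P.β1 * P.δ / 8) + g3 v / (P.β1 * P.δ / 8) +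
        g2 v / P.δ ^ 2) := by
      intro v hv
      have e1 : 0 ≤ g1 v / (P.β1 * P.δ / 8) := div_nonneg (hg1n v) h1.le
      have e2 : 0 ≤ g3 v / (P.β1 * P.δ / 8) := div_nonneg (hg3n v) h1.le
      have e3 : 0 ≤ g2 v / P.δ ^ 2 := div_nonneg (hg2n v) h2.le
      by_cases c0 : P.β1 / 2 ≤ f v
      · by_cases c1 : g1 v ≤ P.β1 * P.δ / 8
        · by_cases c2 : g3 v ≤ P.β1 * P.δ / 8
          · have c3 := hno v hv c0 c1 c2
            have : 1 ≤ g2 v / P.δ ^ 2 := by rw [le_div_iff₀ h2]; linarith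
            linarith [hf1 v]
          · have : 1 ≤ g3 v / (P.β1 * P.δ / 8) := by rw [le_div_iff₀ h1]; linarith
            linarith [hf1 v]
        · have : 1 ≤ g1 v / (P.β1 * P.δ / 8) := by rw [le_div_iff₀ h1]; linarith
          linarith [hf1 v]
      · linarith
    have hsum := Finset.sum_le_sum hpt
    rw [Finset.sum_add_distrib, Finset.sum_add_distrib, Finset.sum_add_distrib,
      ← Finset.sum_div, ← Finset.sum_div, ← Finset.sum_div, ← Finset.sum_div, Finset.sum_const,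
      nsmul_eq_mul] at hsum
    have b1 : (∑ v ∈ Q, g1 v) / (P.β1 * P.δ / 8) ≤ P.β1 / 8 * Q.card := by
      rw [div_le_iff₀ h1]
      have hr : ν2 / ν1 = P.r := by rw [hν21]; field_simp
      rw [hr] at hs1
      have := mul_le_mul_of_nonneg_right P.hK1 hQpos.le
      nlinarith [this, hs1]
    have b3 : (∑ v ∈ Q, g3 v) / (P.β1 * P.δ / 8) ≤ P.β1 / 8 * Q.card := by
      rw [div_le_iff₀ h1]
      have e1 : 2 * P.kk / P.ζ ≤ P.β1 ^ 2 * P.δ / 64 := by
        rw [div_le_iff₀ P.hζ]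
        have := P.hK3
        nlinarith [this]
      have := mul_le_mul_of_nonneg_right e1 hQpos.le
      nlinarith [this, hs3]
    have b2 : (∑ v ∈ Q, g2 v) / P.δ ^ 2 ≤ P.β1 / 8 * Q.card := by
      rw [div_le_iff₀ h2]
      have hΘ0 : 0 ≤ 2 * P.Θ * Real.exp (2 * P.Θ) := by
        have := P.hΘ
        positivity
      have e1 : 2 * P.Θ * Real.exp (2 * P.Θ) * ν2 ≤ P.β1 * P.δ ^ 2 / 8 := by
        have e2 := mul_le_mul_of_nonneg_left hν2r hΘ0
        have e3 := P.hK2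
        nlinarith [e2, e3]
      have := mul_le_mul_of_nonneg_right e1 hQpos.le
      nlinarith [this, hs2]
    have hpos := mul_pos hβ1 hQpos
    linarith [hsum, b1, b2, b3, hAA', hpos]
  obtain ⟨v, hvQ, hfv, hg1v, hg3v, hg2v⟩ := hex
  obtain ⟨y, hyY, hyv⟩ := Finset.mem_image.1 (hQY hvQ)
  obtain ⟨hyc, hyadj, hbad⟩ := hYm y hyY
  -- the decomposition of `col y`
  have hcol : C.col y = fc v ∪ fp v ∪ fm v := by
    ext h
    simp only [Cov.col, hfc, hfp, hfm, hWc, hWm, hWp, Finset.mem_filter, Finset.mem_univ, true_and,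
      Finset.mem_union, hyc, hyv]
    constructor
    · rintro ⟨h1, h2⟩
      rcases lt_or_ge (phi C.G Q (C.pv h)) ν2 with h3 | h3
      · exact Or.inl (Or.inr ⟨⟨h1, h3⟩, h2⟩)
      · rcases lt_or_ge (phi C.G Q (C.pv h)) ν1 with h4 | h4
        · exact Or.inr ⟨⟨h1, h3, h4⟩, h2⟩
        · exact Or.inl (Or.inl ⟨⟨h1, h4⟩, h2⟩)
    · rintro ((⟨⟨h1, _⟩, h2⟩ | ⟨⟨h1, _⟩, h2⟩) | ⟨⟨h1, _, _⟩, h2⟩)
      · exact ⟨h1, h2⟩
      · exact ⟨h1, h2⟩
      · exact ⟨h1, h2⟩
  have hcy : C.cc P.R p s y = av C.nb P.R p s (fc v ∪ fp v ∪ fm v) := by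
    unfold Cov.cc; rw [hcol]
  have h1 := av_union_ge C.nb P.R p hrt s (fc v ∪ fp v) (fm v)
  rw [← hcy] at h1
  have h1' : av C.nb P.R p s (fc v ∪ fp v) - g3 v ≤ C.cc P.R p s y := h1
  have h2 := (abs_le.1 (hdec (fc v) (fp v))).1
  have h2' : -(g1 v) ≤ av C.nb P.R p s (fc v ∪ fp v) - f v * q v := h2
  have hqy : C.cc P.R p s y ≤ q v := by
    rw [hcy]
    apply av_anti C.nb P.R p hrt
    intro h hh
    exact Finset.mem_union_left _ (Finset.mem_union_right _ hh)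
  have h3 : av C.nb P.R p s (C.col x ∪ C.col y) ≤ av C.nb P.R p s (C.col x ∪ fp v) := by
    apply av_anti C.nb P.R p hrt
    rw [hcol]
    apply Finset.union_subset_union_right
    intro h hh
    exact Finset.mem_union_left _ (Finset.mem_union_right _ hh)
  have h4 := (abs_le.1 (hdec (C.col x) (fp v))).2
  have h4' : av C.nb P.R p s (C.col x ∪ fp v) - C.cc P.R p s x * q v ≤ g2 v := h4
  have hδx := hδ x
  have hδy := hδ y
  have hδq : P.δ ≤ q v := hδy.trans hqy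
  have hδ0 := P.hδ
  -- (a)
  have ha : P.β1 / 4 * q v ≤ C.cc P.R p s y := by
    have e1 : P.β1 / 2 * q v ≤ f v * q v := mul_le_mul_of_nonneg_right hfv (hδ0.le.trans hδq)
    have e2 : P.β1 * P.δ ≤ P.β1 * q v := mul_le_mul_of_nonneg_left hδq hβ1.le
    nlinarith [h1', h2', hg1v, hg3v, e1, e2]
  -- (b)
  have hb : av C.nb P.R p s (C.col x ∪ C.col y) ≤ 2 * (C.cc P.R p s x * q v) := by
    have e1 : P.δ ^ 2 ≤ C.cc P.R p s x * q v := by
      rw [pow_two]
      exact mul_le_mul hδx hδq hδ0.le (hδ0.le.trans hδx)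
    linarith [h3, h4', hg2v, e1]
  have hKe : P.K * C.cc P.R p s x * C.cc P.R p s y ≥ 2 * (C.cc P.R p s x * q v) := by
    rw [P.hK]
    have e1 : 0 ≤ 8 / P.β1 * C.cc P.R p s x := by
      have := hδ0.le.trans hδx
      positivity
    have e2 := mul_le_mul_of_nonneg_left ha e1
    have e3 : 8 / P.β1 * C.cc P.R p s x * (P.β1 / 4 * q v) = 2 * (C.cc P.R p s x * q v) := by
      field_simp
      ring
    linarith [e2, e3]
  linarith [hbad, hb, hKe]

end Vu80
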