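import Pool.Agent.Lib_helper80.Vu.Stmts

/-!
# Vu's conjecture (list version): symmetric local lemma for independent coins
-/

set_option autoImplicit false

open scoped Classical
open Finset

noncomputable section

namespace Vu80

namespace LLL

variable {I : Type} [Fintype I]

theorem wt_nonneg {p : I → ℝ} (hp : ∀ i, 0 ≤ p i ∧ p i ≤ 1) (ξ : I → Bool) : 0 ≤ wt p ξ := by
  unfold wt
  apply Finset.prod_nonneg
  intro i _
  split_ifs
  · exact (hp i).1
  · linarith [(hp i).2]

theorem sum_wt (p : I → ℝ) : ∑ ξ : I → Bool, wt p ξ = 1 := by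
  unfold wt
  have h := Finset.prod_univ_sum (fun _ : I => (univ : Finset Bool))
    (fun i b => if b = true then p i else 1 - p i)
  rw [Fintype.piFinset_univ] at h
  rw [← h]
  apply Finset.prod_eq_one
  intro i _
  simp

theorem wt_mix (p : I → ℝ) (S : Set I) (ξ ξ' : I → Bool) :
    wt p (mix S ξ ξ') * wt p (mix S ξ' ξ) = wt p ξ * wt p ξ' := by
  unfold wt
  rw [← Finset.prod_mul_distrib, ← Finset.prod_mul_distrib]
  apply Finset.prod_congr rfl
  intro i _
  unfold mix
  by_cases h : i ∈ S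
  · simp only [if_pos h]
  · simp only [if_neg h]
    rw [mul_comm]

omit [Fintype I] in
theorem mix_mix (S : Set I) (ξ ξ' : I → Bool) : mix S (mix S ξ ξ') (mix S ξ' ξ) = ξ := by
  funext i
  unfold mix
  by_cases h : i ∈ S
  · simp only [if_pos h]
  · simp only [if_neg h]

/-- independence -/
theorem Ex_mul (p : I → ℝ) (S : Set I) (f g : (I → Bool) → ℝ) (hf : Dep S f) (hg : Dep Sᶜ g) :
    Ex p (fun ξ => f ξ * g ξ) = Ex p f * Ex p g := by
  have h1 : Ex p f * Ex p g = ∑ x : (I → Bool) × (I → Bool), (wt p x.1 * wt p x.2) * (f x.1 * g x.2) := by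
    unfold Ex
    rw [Finset.sum_mul_sum, Fintype.sum_prod_type]
    apply Finset.sum_congr rfl
    intro ξ _
    apply Finset.sum_congr rfl
    intro ξ' _
    ring
  have h2 : Ex p (fun ξ => f ξ * g ξ) =
      ∑ x : (I → Bool) × (I → Bool), (wt p x.1 * wt p x.2) * (f x.1 * g x.1) := by
    unfold Ex
    rw [Fintype.sum_prod_type]
    apply Finset.sum_congr rfl
    intro ξ _
    have h3 : ∑ ξ' : I → Bool, wt p ξ * wt p ξ' * (f ξ * g ξ) =
        wt p ξ * (f ξ * g ξ) * ∑ ξ' : I → Bool, wt p ξ' := by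
      rw [Finset.mul_sum]
      apply Finset.sum_congr rfl
      intro ξ' _
      ring
    simp only
    rw [h3, sum_wt, mul_one]
  rw [h1, h2]
  have hinv : Function.Involutive
      (fun x : (I → Bool) × (I → Bool) => (mix S x.1 x.2, mix S x.2 x.1)) := by
    intro x
    simp only [mix_mix, Prod.mk.eta]
  refine Fintype.sum_bijective _ hinv.bijective _ _ ?_
  intro x
  simp only
  rw [wt_mix, hf (mix S x.1 x.2) x.1 (fun i hi => by simp only [mix, if_pos hi]),
    hg (mix S x.2 x.1) x.1 (fun i hi => by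
      have hi' : i ∉ S := hi
      simp only [mix, if_neg hi'])]

theorem Ex_nonneg {p : I → ℝ} (hp : ∀ i, 0 ≤ p i ∧ p i ≤ 1) {f : (I → Bool) → ℝ}
    (hf : ∀ ξ, 0 ≤ f ξ) : 0 ≤ Ex p f :=
  Finset.sum_nonneg fun ξ _ => mul_nonneg (wt_nonneg hp ξ) (hf ξ)

theorem Ex_mono {p : I → ℝ} (hp : ∀ i, 0 ≤ p i ∧ p i ≤ 1) {f g : (I → Bool) → ℝ}
    (h : ∀ ξ, f ξ ≤ g ξ) : Ex p f ≤ Ex p g :=
  Finset.sum_le_sum fun ξ _ => mul_le_mul_of_nonneg_left (h ξ) (wt_nonneg hp ξ)

theorem Ex_add (p : I → ℝ) (f g : (I → Bool) → ℝ) : Ex p (fun ξ => f ξ + g ξ) = Ex p f + Ex p g := by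
  unfold Ex
  rw [← Finset.sum_add_distrib]
  exact Finset.sum_congr rfl fun ξ _ => by ring

theorem Ex_sum (p : I → ℝ) {J : Type} (A : Finset J) (f : J → (I → Bool) → ℝ) :
    Ex p (fun ξ => ∑ j ∈ A, f j ξ) = ∑ j ∈ A, Ex p (f j) := by
  unfold Ex
  rw [Finset.sum_comm]
  exact Finset.sum_congr rfl fun ξ _ => by rw [Finset.mul_sum]

/-- indicator of a proposition -/
def ic (P : Prop) : ℝ := if P then 1 else 0

theorem ic_true {P : Prop} (h : P) : ic P = 1 := by unfold ic; exact if_pos h

theorem ic_false {P : Prop} (h : ¬ P) : ic P = 0 := by unfold ic; exact if_neg h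

theorem ic_nonneg (P : Prop) : 0 ≤ ic P := by unfold ic; split_ifs <;> norm_num

theorem Pr_eq (p : I → ℝ) (A : (I → Bool) → Prop) : Pr p A = Ex p (fun ξ => ic (A ξ)) := rfl

theorem Pr_mono {p : I → ℝ} (hp : ∀ i, 0 ≤ p i ∧ p i ≤ 1) {A B : (I → Bool) → Prop}
    (h : ∀ ξ, A ξ → B ξ) : Pr p A ≤ Pr p B := by
  rw [Pr_eq, Pr_eq]
  apply Ex_mono hp
  intro ξ
  by_cases hA : A ξ
  · rw [ic_true hA, ic_true (h ξ hA)]
  · rw [ic_false hA]
    exact ic_nonneg _

theorem Pr_indep (p : I → ℝ) (S : Set I) (A B : (I → Bool) → Prop) (hA : Dep S A) (hB : Dep Sᶜ B) :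
    Pr p (fun ξ => A ξ ∧ B ξ) = Pr p A * Pr p B := by
  rw [Pr_eq, Pr_eq, Pr_eq]
  rw [← Ex_mul p S (fun ξ => ic (A ξ)) (fun ξ => ic (B ξ))
    (fun ξ ξ' h => by simp only [hA ξ ξ' h]) (fun ξ ξ' h => by simp only [hB ξ ξ' h])]
  congr 1
  funext ξ
  by_cases h1 : A ξ <;> by_cases h2 : B ξ <;> simp [ic, h1, h2]

end LLL

open LLL in
/-- symmetric local lemma for independent coins -/
theorem lll : S_LLL := by
  intro I _ p hp V _ B S hdep q d hq hd hBq hcard h4
  have hd' : (1 : ℝ) ≤ d := by exact_mod_cast hd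
  have hq4 : q ≤ 1 / 4 := by nlinarith
  set gd : Finset V → (I → Bool) → Prop := fun T ξ => ∀ u ∈ T, ¬ B u ξ with hgd
  have hg0 : ∀ T, 0 ≤ Pr p (gd T) := fun T => by
    rw [Pr_eq]
    exact Ex_nonneg hp fun ξ => ic_nonneg _
  -- adding one vertex
  have hins : ∀ (T : Finset V) (v : V), Pr p (gd T) = Pr p (gd (insert v T)) +
      Pr p (fun ξ => B v ξ ∧ gd T ξ) := by
    intro T v
    rw [Pr_eq, Pr_eq, Pr_eq, ← Ex_add]
    congr 1
    funext ξ
    have hiff : gd (insert v T) ξ ↔ ¬ B v ξ ∧ gd T ξ := by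
      simp only [hgd, Finset.mem_insert, forall_eq_or_imp]
    by_cases h1 : B v ξ <;> by_cases h2 : gd T ξ <;> simp [ic, hiff, h1, h2]
  -- the main claim
  have key : ∀ (n : ℕ) (T : Finset V), T.card = n → ∀ v,
      Pr p (fun ξ => B v ξ ∧ gd T ξ) ≤ 2 * q * Pr p (gd T) := by
    intro n
    induction n using Nat.strong_induction_on with
    | _ n ih =>
      intro T hT v
      set T1 := T.filter (fun u => ¬ Disjoint (S v) (S u)) with hT1
      set T2 := T.filter (fun u => Disjoint (S v) (S u)) with hT2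
      have hmono : Pr p (fun ξ => B v ξ ∧ gd T ξ) ≤ Pr p (fun ξ => B v ξ ∧ gd T2 ξ) :=
        Pr_mono hp fun ξ h => ⟨h.1, fun u hu => h.2 u (Finset.mem_filter.mp hu).1⟩
      have hind : Pr p (fun ξ => B v ξ ∧ gd T2 ξ) = Pr p (B v) * Pr p (gd T2) := by
        apply Pr_indep p (S v) _ _ (hdep v)
        intro ξ ξ' h
        apply propext
        apply forall_congr'
        intro u
        apply forall_congr'
        intro hu
        have hdis := (Finset.mem_filter.mp hu).2
        rw [hdep u ξ ξ' (fun i hi => h i (fun hiv => (Set.disjoint_left.mp hdis hiv) hi))]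
      have h2 : Pr p (fun ξ => B v ξ ∧ gd T ξ) ≤ q * Pr p (gd T2) := by
        refine hmono.trans ?_
        rw [hind]
        exact mul_le_mul_of_nonneg_right (hBq v) (hg0 T2)
      -- good T2 is at most twice good T
      have h3 : Pr p (gd T2) ≤ Pr p (gd T) + ∑ u ∈ T1, Pr p (fun ξ => B u ξ ∧ gd T2 ξ) := by
        have e1 : Pr p (gd T) + ∑ u ∈ T1, Pr p (fun ξ => B u ξ ∧ gd T2 ξ) =
            Ex p (fun ξ => ic (gd T ξ) + ∑ u ∈ T1, ic (B u ξ ∧ gd T2 ξ)) := by
          rw [Ex_add, Ex_sum]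
          rfl
        rw [e1, Pr_eq]
        apply Ex_mono hp
        intro ξ
        have hs0 : 0 ≤ ∑ u ∈ T1, ic (B u ξ ∧ gd T2 ξ) :=
          Finset.sum_nonneg fun u _ => ic_nonneg _
        by_cases hT2ξ : gd T2 ξ
        · rw [ic_true hT2ξ]
          by_cases hTξ : gd T ξ
          · rw [ic_true hTξ]
            linarith
          · rw [ic_false hTξ]
            simp only [hgd, not_forall, not_not] at hTξ
            obtain ⟨u, huT, hBu⟩ := hTξ
            have hu1 : u ∈ T1 := by
              rw [hT1, Finset.mem_filter]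
              refine ⟨huT, fun hdis => ?_⟩
              exact hT2ξ u (Finset.mem_filter.mpr ⟨huT, hdis⟩) hBu
            have h5 := Finset.single_le_sum (f := fun u => ic (B u ξ ∧ gd T2 ξ))
              (fun u _ => ic_nonneg _) hu1
            beta_reduce at h5
            rw [ic_true ⟨hBu, hT2ξ⟩] at h5
            linarith
        · rw [ic_false hT2ξ]
          have := ic_nonneg (gd T ξ)
          linarith
      have h4' : ∑ u ∈ T1, Pr p (fun ξ => B u ξ ∧ gd T2 ξ) ≤ 1 / 2 * Pr p (gd T2) := by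
        by_cases hT1e : T1 = ∅
        · rw [hT1e, Finset.sum_empty]
          have := hg0 T2
          linarith
        · have hlt : T2.card < n := by
            rw [← hT]
            apply Finset.card_lt_card
            rw [Finset.ssubset_iff_subset_ne]
            refine ⟨Finset.filter_subset _ _, fun h => hT1e ?_⟩
            rw [hT1, Finset.filter_eq_empty_iff]
            intro u hu hn
            rw [← h] at hu
            exact hn (Finset.mem_filter.mp hu).2
          have h6 : ∑ u ∈ T1, Pr p (fun ξ => B u ξ ∧ gd T2 ξ) ≤ T1.card • (2 * q * Pr p (gd T2)) :=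
            Finset.sum_le_card_nsmul _ _ _ fun u _ => ih _ hlt T2 rfl u
          have h7 : (T1.card : ℝ) ≤ d := by
            have h8 : T1.card ≤ (univ.filter (fun u => ¬ Disjoint (S v) (S u))).card := by
              apply Finset.card_le_card
              intro u hu
              rw [hT1, Finset.mem_filter] at hu
              exact Finset.mem_filter.mpr ⟨Finset.mem_univ _, hu.2⟩
            exact_mod_cast h8.trans (hcard v)
          rw [nsmul_eq_mul] at h6
          refine h6.trans ?_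
          have h9 : (T1.card : ℝ) * (2 * q) ≤ 1 / 2 := by
            have : (T1.card : ℝ) * (2 * q) ≤ d * (2 * q) :=
              mul_le_mul_of_nonneg_right h7 (by linarith)
            linarith
          calc (T1.card : ℝ) * (2 * q * Pr p (gd T2)) = ((T1.card : ℝ) * (2 * q)) * Pr p (gd T2) := by
                ring
            _ ≤ 1 / 2 * Pr p (gd T2) := mul_le_mul_of_nonneg_right h9 (hg0 T2)
      have h10 : Pr p (gd T2) ≤ 2 * Pr p (gd T) := by linarith
      refine h2.trans ?_
      calc q * Pr p (gd T2) ≤ q * (2 * Pr p (gd T)) := mul_le_mul_of_nonneg_left h10 hq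
        _ = 2 * q * Pr p (gd T) := by ring
  -- positivity
  have hpos : ∀ T : Finset V, 0 < Pr p (gd T) := by
    intro T
    induction T using Finset.induction_on with
    | empty =>
      have : Pr p (gd ∅) = 1 := by
        have h1 : ∀ ξ, ic (gd ∅ ξ) = 1 := fun ξ =>
          ic_true fun u hu => absurd hu (Finset.notMem_empty _)
        rw [Pr_eq]
        unfold Ex
        simp_rw [h1, mul_one]
        exact sum_wt p
      rw [this]
      norm_num
    | insert v T _ ih =>
      have h1 := hins T v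
      have h2 := key _ T rfl v
      nlinarith
  by_contra hcon
  push Not at hcon
  have h0 : Pr p (gd univ) = 0 := by
    rw [Pr_eq]
    unfold Ex
    apply Finset.sum_eq_zero
    intro ξ _
    obtain ⟨v, hv⟩ := hcon ξ
    have : ¬ gd univ ξ := fun h => h v (Finset.mem_univ _) hv
    beta_reduce
    rw [ic_false this, mul_zero]
  have := hpos univ
  rw [h0] at this
  exact lt_irrefl _ this

end Vu80
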