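import Pool.Agent.Lib_helper80.Vu.Stmts

/-!
# Vu's conjecture: locality of the bad events (module LOC)
-/

set_option autoImplicit false
set_option linter.unusedSectionVars false

open scoped Classical
open Finset

noncomputable section

namespace Vu80

namespace Loc

variable {V X : Type} [Fintype V] [Fintype X] (C : Cov V X)

theorem mem_N {v u : V} : u ∈ C.N v ↔ C.G.Adj v u := by
  simp [Cov.N]

theorem mem_fib {v : V} {y : X} : y ∈ C.fib v ↔ C.pv y = v := by
  simp [Cov.fib]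

theorem mem_col {h y : X} : y ∈ C.col h ↔ (C.pc y = C.pc h ∧ C.G.Adj (C.pv h) (C.pv y)) := by
  simp [Cov.col]

theorem mem_ball_succ {v u : V} {k : ℕ} :
    u ∈ C.ball v (k + 1) ↔ u ∈ C.ball v k ∨ ∃ w ∈ C.ball v k, C.G.Adj w u := by
  simp [Cov.ball, mem_N]

theorem ball_self (v : V) (k : ℕ) : v ∈ C.ball v k := by
  induction k with
  | zero => simp [Cov.ball]
  | succ k ih => exact (mem_ball_succ C).2 (Or.inl ih)

theorem ball_le_succ (v : V) (k : ℕ) : C.ball v k ⊆ C.ball v (k + 1) := by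
  intro u hu
  exact (mem_ball_succ C).2 (Or.inl hu)

theorem ball_mono {v : V} {j k : ℕ} (h : j ≤ k) : C.ball v j ⊆ C.ball v k := by
  induction h with
  | refl => exact fun _ h => h
  | step _ ih => exact fun u hu => ball_le_succ C v _ (ih hu)

/-- balls compose -/
theorem ball_trans {v u w : V} {j k : ℕ} (hu : u ∈ C.ball v j) (hw : w ∈ C.ball u k) :
    w ∈ C.ball v (j + k) := by
  induction k generalizing w with
  | zero =>
    have : w = u := by simpa [Cov.ball] using hw
    simpa [this] using hu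
  | succ k ih =>
    rcases (mem_ball_succ C).1 hw with h | ⟨z, hz, hzw⟩
    · exact ball_le_succ C v _ (ih h)
    · exact (mem_ball_succ C).2 (Or.inr ⟨z, ih hz, hzw⟩)

theorem adj_ball {v u : V} (h : C.G.Adj v u) : u ∈ C.ball v 1 :=
  (mem_ball_succ C).2 (Or.inr ⟨v, ball_self C v 0, h⟩)

theorem ball_symm {v u : V} {k : ℕ} (hu : u ∈ C.ball v k) : v ∈ C.ball u k := by
  induction k generalizing u with
  | zero =>
    have : u = v := by simpa [Cov.ball] using hu
    simp [this, Cov.ball]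
  | succ k ih =>
    rcases (mem_ball_succ C).1 hu with h | ⟨z, hz, hzu⟩
    · exact ball_le_succ C u _ (ih h)
    · have h1 : z ∈ C.ball u 1 := adj_ball C hzu.symm
      have := ball_trans C h1 (ih hz)
      rwa [Nat.add_comm] at this

theorem ball_card {Δ : ℕ} (hd : ∀ v, (C.N v).card ≤ Δ) (v : V) (k : ℕ) :
    (C.ball v k).card ≤ (Δ + 1) ^ k := by
  induction k with
  | zero => simp [Cov.ball]
  | succ k ih =>
    have h1 : (C.ball v (k + 1)).card ≤ (C.ball v k).card + ((C.ball v k).biUnion C.N).card :=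
      card_union_le _ _
    have h2 : ((C.ball v k).biUnion C.N).card ≤ (C.ball v k).card * Δ :=
      card_biUnion_le_card_mul _ _ _ (fun w _ => hd w)
    have h3 : (C.ball v k).card * (Δ + 1) = (C.ball v k).card * Δ + (C.ball v k).card := by ring
    calc (C.ball v (k + 1)).card ≤ (C.ball v k).card * (Δ + 1) := by omega
      _ ≤ (Δ + 1) ^ k * (Δ + 1) := Nat.mul_le_mul_right _ ih
      _ = (Δ + 1) ^ (k + 1) := (pow_succ _ _).symm

/-- a closed neighbour of `h` sits over the closed neighbourhood of the vertex of `h` -/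
theorem nb_ball {h y : X} (hy : y ∈ C.nb h) : C.pv y ∈ C.ball (C.pv h) 1 := by
  rcases mem_union.1 hy with h1 | h1
  · rw [(mem_fib C).1 h1]; exact ball_self C _ 1
  · exact adj_ball C ((mem_col C).1 h1).2

variable {R : ℕ}

/-- whether `h` is blocked before round `t` depends only on the coins over `ball (pv h) t` -/
theorem blk_congr {ξ ξ' : Coins R X} (t : ℕ) (h : X)
    (hag : ∀ i : Fin R × X, C.pv i.2 ∈ C.ball (C.pv h) t → ξ i = ξ' i) :
    blk C.nb ξ t h ↔ blk C.nb ξ' t h := by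
  induction t generalizing h with
  | zero => exact Iff.rfl
  | succ t ih =>
    have h0 : blk C.nb ξ t h ↔ blk C.nb ξ' t h :=
      ih h (fun i hi => hag i (ball_le_succ C _ _ hi))
    have h1 : ∀ y ∈ C.nb h, (on ξ t y ↔ on ξ' t y) ∧ (blk C.nb ξ t y ↔ blk C.nb ξ' t y) := by
      intro y hy
      have hyb := nb_ball C hy
      constructor
      · have he : ∀ ht : t < R, ξ (⟨t, ht⟩, y) = ξ' (⟨t, ht⟩, y) := by
          intro ht
          exact hag (⟨t, ht⟩, y) (ball_mono C (by omega) hyb)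
        constructor
        · rintro ⟨ht, hx⟩; exact ⟨ht, by rw [← he ht]; exact hx⟩
        · rintro ⟨ht, hx⟩; exact ⟨ht, by rw [he ht]; exact hx⟩
      · refine ih y (fun i hi => hag i ?_)
        have := ball_trans C hyb hi
        rwa [Nat.add_comm] at this
    constructor
    · rintro (hb | ⟨y, hy, ho, hb⟩)
      · exact Or.inl (h0.1 hb)
      · exact Or.inr ⟨y, hy, (h1 y hy).1.1 ho, fun hb' => hb ((h1 y hy).2.2 hb')⟩
    · rintro (hb | ⟨y, hy, ho, hb⟩)
      · exact Or.inl (h0.2 hb)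
      · exact Or.inr ⟨y, hy, (h1 y hy).1.2 ho, fun hb' => hb ((h1 y hy).2.1 hb')⟩

theorem on_congr {ξ ξ' : Coins R X} (t : ℕ) (h : X)
    (hag : ∀ i : Fin R × X, C.pv i.2 = C.pv h → ξ i = ξ' i) : on ξ t h ↔ on ξ' t h := by
  constructor
  · rintro ⟨ht, hx⟩; exact ⟨ht, by rw [← hag (⟨t, ht⟩, h) rfl]; exact hx⟩
  · rintro ⟨ht, hx⟩; exact ⟨ht, by rw [hag (⟨t, ht⟩, h) rfl]; exact hx⟩

theorem act_congr {ξ ξ' : Coins R X} (t : ℕ) (h : X)
    (hag : ∀ i : Fin R × X, C.pv i.2 ∈ C.ball (C.pv h) t → ξ i = ξ' i) :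
    act C.nb ξ t h ↔ act C.nb ξ' t h := by
  have h1 := blk_congr C t h hag
  have h2 : on ξ t h ↔ on ξ' t h :=
    on_congr C t h (fun i hi => hag i (by rw [hi]; exact ball_self C _ t))
  unfold act
  rw [h1, h2]

theorem acted_congr {ξ ξ' : Coins R X} (h : X)
    (hag : ∀ i : Fin R × X, C.pv i.2 ∈ C.ball (C.pv h) R → ξ i = ξ' i) :
    acted C.nb ξ h ↔ acted C.nb ξ' h := by
  unfold acted
  constructor
  · rintro ⟨t, ht, ha⟩
    exact ⟨t, ht, (act_congr C t h (fun i hi => hag i (ball_mono C ht.le hi))).1 ha⟩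
  · rintro ⟨t, ht, ha⟩
    exact ⟨t, ht, (act_congr C t h (fun i hi => hag i (ball_mono C ht.le hi))).2 ha⟩

/-- same, seen from a vertex `v` with `pv h` at distance at most `2` -/
theorem acted_congr' {ξ ξ' : Coins R X} {v : V} (h : X) (hv : C.pv h ∈ C.ball v 2)
    (hag : ∀ i : Fin R × X, C.pv i.2 ∈ C.ball v (R + 2) → ξ i = ξ' i) :
    acted C.nb ξ h ↔ acted C.nb ξ' h := by
  refine acted_congr C h (fun i hi => hag i ?_)
  have := ball_trans C hv hi
  rwa [Nat.add_comm] at this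

theorem on_congr' {ξ ξ' : Coins R X} {v : V} (t : ℕ) (h : X) (hv : C.pv h ∈ C.ball v 2)
    (hag : ∀ i : Fin R × X, C.pv i.2 ∈ C.ball v (R + 2) → ξ i = ξ' i) :
    on ξ t h ↔ on ξ' t h := by
  refine on_congr C t h (fun i hi => hag i ?_)
  rw [hi]
  exact ball_mono C (by omega) hv

theorem N_ball2 {v u : V} (hu : u ∈ C.N v) : u ∈ C.ball v 2 :=
  ball_mono C (by omega) (adj_ball C ((mem_N C).1 hu))

theorem F1_dep (v : V) :
    Dep {i : Fin R × X | C.pv i.2 ∈ C.ball v (R + 2)} (fun ξ => C.F1 (R := R) ξ v) := by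
  intro ξ ξ' hag
  have hag' : ∀ i : Fin R × X, C.pv i.2 ∈ C.ball v (R + 2) → ξ i = ξ' i := fun i hi => hag i hi
  show C.F1 ξ v = C.F1 ξ' v
  unfold Cov.F1
  congr 1
  refine filter_congr (fun u hu => ?_)
  refine forall_congr' (fun h => forall_congr' (fun hh => ?_))
  have hp : C.pv h = u := (mem_fib C).1 hh
  rw [acted_congr' C h (v := v) (by rw [hp]; exact N_ball2 C hu) hag']

theorem F2_dep (v : V) :
    Dep {i : Fin R × X | C.pv i.2 ∈ C.ball v (R + 2)} (fun ξ => C.F2 (R := R) ξ v) := by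
  intro ξ ξ' hag
  have hag' : ∀ i : Fin R × X, C.pv i.2 ∈ C.ball v (R + 2) → ξ i = ξ' i := fun i hi => hag i hi
  show C.F2 ξ v = C.F2 ξ' v
  unfold Cov.F2
  congr 1
  refine filter_congr (fun u hu => ?_)
  refine exists_congr (fun t => exists_congr (fun h => and_congr_right (fun hh =>
    exists_congr (fun y => and_congr_right (fun hy => and_congr_right (fun _ => ?_))))))
  have hp : C.pv h = u := (mem_fib C).1 hh
  have hq : C.pv y = u := (mem_fib C).1 hy
  rw [on_congr' C t h (v := v) (by rw [hp]; exact N_ball2 C hu) hag',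
    on_congr' C t y (v := v) (by rw [hq]; exact N_ball2 C hu) hag']

theorem F3_dep (v : V) :
    Dep {i : Fin R × X | C.pv i.2 ∈ C.ball v (R + 2)} (fun ξ => C.F3 (R := R) ξ v) := by
  intro ξ ξ' hag
  have hag' : ∀ i : Fin R × X, C.pv i.2 ∈ C.ball v (R + 2) → ξ i = ξ' i := fun i hi => hag i hi
  show C.F3 ξ v = C.F3 ξ' v
  unfold Cov.F3
  congr 1
  refine filter_congr (fun u hu => ?_)
  refine exists_congr (fun t => exists_congr (fun h => and_congr_right (fun hh =>
    exists_congr (fun y => and_congr_right (fun hy => ?_)))))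
  have hp : C.pv h = u := (mem_fib C).1 hh
  have hq : C.G.Adj (C.pv h) (C.pv y) := ((mem_col C).1 hy).2
  have hy2 : C.pv y ∈ C.ball v 2 :=
    ball_trans C (j := 1) (k := 1) (adj_ball C ((mem_N C).1 hu)) (by rw [← hp]; exact adj_ball C hq)
  rw [on_congr' C t h (v := v) (by rw [hp]; exact N_ball2 C hu) hag',
    on_congr' C t y (v := v) hy2 hag']

theorem F4_dep (v : V) :
    Dep {i : Fin R × X | C.pv i.2 ∈ C.ball v (R + 2)} (fun ξ => C.F4 (R := R) ξ v) := by
  intro ξ ξ' hag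
  have hag' : ∀ i : Fin R × X, C.pv i.2 ∈ C.ball v (R + 2) → ξ i = ξ' i := fun i hi => hag i hi
  show C.F4 ξ v = C.F4 ξ' v
  unfold Cov.F4
  congr 1
  refine filter_congr (fun h hh => ?_)
  refine exists_congr (fun y => and_congr_right (fun hy => ?_))
  have hp : C.pv h = v := (mem_fib C).1 hh
  have hq : C.G.Adj (C.pv h) (C.pv y) := ((mem_col C).1 hy).2
  have hy2 : C.pv y ∈ C.ball v 2 :=
    ball_mono C (j := 1) (by omega) (by rw [← hp]; exact adj_ball C hq)
  exact acted_congr' C y hy2 hag'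

theorem meet_card {Δ : ℕ} (hd : ∀ v, (C.N v).card ≤ Δ) (v : V) :
    (univ.filter (fun u => ¬ Disjoint {i : Fin R × X | C.pv i.2 ∈ C.ball v (R + 2)}
      {i : Fin R × X | C.pv i.2 ∈ C.ball u (R + 2)})).card ≤ (Δ + 1) ^ (2 * R + 4) := by
  refine le_trans (card_le_card ?_) (ball_card C hd v (2 * R + 4))
  intro u hu
  rw [mem_filter] at hu
  obtain ⟨i, hi1, hi2⟩ := Set.not_disjoint_iff.1 hu.2
  have h1 : C.pv i.2 ∈ C.ball v (R + 2) := hi1
  have h2 : u ∈ C.ball (C.pv i.2) (R + 2) := ball_symm C hi2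
  have h3 := ball_trans C h1 h2
  have h4 : R + 2 + (R + 2) = 2 * R + 4 := by ring
  rwa [h4] at h3

end Loc

/-- locality of the bad events -/
theorem loc : S_LOC := by
  intro V X _ _ C R Δ hd
  exact ⟨fun v => Loc.F1_dep C v, fun v => Loc.F2_dep C v, fun v => Loc.F3_dep C v,
    fun v => Loc.F4_dep C v, fun v => Loc.meet_card C hd v⟩

end Vu80
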