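import Pool.Agent.Lib_helper80.Vu.Stmts

/-!
# Lemma A (average survival inside a stable set) from its parts
(module VU_A; architect: helper80; Lean: helper27)
-/

set_option autoImplicit false

open scoped Classical
open Finset

noncomputable section

namespace Vu80

namespace LemA

variable {I : Type} [Fintype I]

lemma wt_nonneg {p : I → ℝ} (hp : ∀ i, 0 ≤ p i ∧ p i ≤ 1) (ξ : I → Bool) : 0 ≤ wt p ξ := by
  unfold wt
  refine Finset.prod_nonneg fun i _ => ?_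
  split_ifs
  · exact (hp i).1
  · linarith [(hp i).2]

lemma sum_wt (p : I → ℝ) : ∑ ξ : I → Bool, wt p ξ = 1 := by
  have h := Finset.prod_univ_sum (fun _ : I => (Finset.univ : Finset Bool))
    (fun i b => if b = true then p i else 1 - p i)
  rw [Fintype.piFinset_univ] at h
  unfold wt
  rw [← h]
  refine Finset.prod_eq_one fun i _ => ?_
  simp

/-- If `f ≥ β` outside four bad events then `E f ≥ β (1 - sum of the probabilities)`. -/
lemma combine {p : I → ℝ} (hp : ∀ i, 0 ≤ p i ∧ p i ≤ 1) (A₁ A₂ A₃ A₄ : (I → Bool) → Prop)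
    {c₁ c₂ c₃ c₄ : ℝ} (h₁ : Pr p A₁ ≤ c₁) (h₂ : Pr p A₂ ≤ c₂) (h₃ : Pr p A₃ ≤ c₃)
    (h₄ : Pr p A₄ ≤ c₄) (f : (I → Bool) → ℝ) {β : ℝ} (hβ : 0 ≤ β) (hf : ∀ ξ, 0 ≤ f ξ)
    (key : ∀ ξ, ¬ A₁ ξ → ¬ A₂ ξ → ¬ A₃ ξ → ¬ A₄ ξ → β ≤ f ξ) :
    β * (1 - c₁ - c₂ - c₃ - c₄) ≤ Ex p f := by
  have hpt : ∀ ξ, β * (1 - (if A₁ ξ then 1 else 0) - (if A₂ ξ then 1 else 0) -
      (if A₃ ξ then 1 else 0) - (if A₄ ξ then 1 else 0)) ≤ f ξ := by
    intro ξ
    have i : ∀ A : Prop, (0 : ℝ) ≤ if A then 1 else 0 := fun A => by split_ifs <;> norm_num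
    have hneg : ∀ x : ℝ, x ≤ 0 → β * x ≤ f ξ := fun x hx =>
      (mul_nonpos_of_nonneg_of_nonpos hβ hx).trans (hf ξ)
    by_cases b₁ : A₁ ξ
    · refine hneg _ ?_
      rw [if_pos b₁]
      linarith [i (A₂ ξ), i (A₃ ξ), i (A₄ ξ)]
    by_cases b₂ : A₂ ξ
    · refine hneg _ ?_
      rw [if_pos b₂]
      linarith [i (A₁ ξ), i (A₃ ξ), i (A₄ ξ)]
    by_cases b₃ : A₃ ξ
    · refine hneg _ ?_
      rw [if_pos b₃]
      linarith [i (A₁ ξ), i (A₂ ξ), i (A₄ ξ)]
    by_cases b₄ : A₄ ξ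
    · refine hneg _ ?_
      rw [if_pos b₄]
      linarith [i (A₁ ξ), i (A₂ ξ), i (A₃ ξ)]
    rw [if_neg b₁, if_neg b₂, if_neg b₃, if_neg b₄, sub_zero, sub_zero, sub_zero, sub_zero,
      mul_one]
    exact key ξ b₁ b₂ b₃ b₄
  have hmono := Finset.sum_le_sum fun (ξ : I → Bool) (_ : ξ ∈ univ) =>
    mul_le_mul_of_nonneg_left (hpt ξ) (wt_nonneg hp ξ)
  refine le_trans ?_ hmono
  have hs1 := sum_wt p
  have hexp : ∑ ξ, wt p ξ * (β * (1 - (if A₁ ξ then 1 else 0) - (if A₂ ξ then 1 else 0) -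
      (if A₃ ξ then 1 else 0) - (if A₄ ξ then 1 else 0))) =
      β * (1 - Pr p A₁ - Pr p A₂ - Pr p A₃ - Pr p A₄) := by
    unfold Pr Ex
    rw [← hs1, ← Finset.sum_sub_distrib, ← Finset.sum_sub_distrib, ← Finset.sum_sub_distrib,
      ← Finset.sum_sub_distrib, Finset.mul_sum]
    refine Finset.sum_congr rfl fun ξ _ => ?_
    rw [hs1]
    ring
  rw [hexp]
  exact mul_le_mul_of_nonneg_left (by linarith) hβ

/-- equality of filters with arbitrary decidability instances -/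
lemma filter_eq_of {α : Type} (s : Finset α) (p q : α → Prop) (i₁ : DecidablePred p)
    (i₂ : DecidablePred q) (h : ∀ x ∈ s, (p x ↔ q x)) :
    @Finset.filter α p i₁ s = @Finset.filter α q i₂ s := Finset.filter_congr h

lemma ut_eq {V X : Type} [Fintype V] [Fintype X] (C : Cov V X) {R : ℕ} (Q : Finset V)
    (W : Finset X) (ξ : Coins R X) (s : ℕ) :
    Ut C Q W ξ s = Q.filter (fun v => avd C.nb ξ s (W.filter (fun h => C.G.Adj v (C.pv h)))) := by
  unfold Ut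
  refine Finset.filter_congr fun u _ => ?_
  unfold avd
  constructor
  · intro h t ht x hx hact
    rw [Finset.mem_filter] at hx
    exact h t ht x hx.1 hact hx.2.symm
  · intro h t ht x hx hact hadj
    exact h t ht x (Finset.mem_filter.2 ⟨hx, hadj.symm⟩) hact

lemma sum_av {V X : Type} [Fintype V] [Fintype X] (C : Cov V X) (R : ℕ) (p : ℕ → X → ℝ) (s : ℕ)
    (Q : Finset V) (W : Finset X) :
    ∑ v ∈ Q, av C.nb R p s (W.filter (fun h => C.G.Adj v (C.pv h))) =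
      Ex (rt R p) (fun ξ : Coins R X => ((Ut C Q W ξ s).card : ℝ)) := by
  unfold av Pr Ex
  rw [Finset.sum_comm]
  refine Finset.sum_congr rfl fun ξ _ => ?_
  rw [← Finset.mul_sum]
  beta_reduce
  rw [ut_eq, Finset.card_filter]
  push_cast
  rfl

end LemA

open LemA in
theorem lemA (h1 : S_A1) (h2 : S_A2) (h3 : S_A3) (h4 : S_A4) (hd : S_ADET) : S_A := by
  intro P V X _ _ C hC p hp s hs hF a Q hQ hst ν hν
  have hQne : Q.Nonempty := by
    rw [← Finset.card_pos]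
    exact lt_of_lt_of_le P.hM0 hQ
  have hκ := P.hκ
  have hβ2 := P.hβ2
  have hζ := P.hζ
  have hq0 : 0 ≤ P.β2 * (Q.card : ℝ) := by positivity
  have hp01 : ∀ i, 0 ≤ rt P.R p i ∧ rt P.R p i ≤ 1 := fun i =>
    ⟨hp.nonneg _ _, (hp.le _ _).trans P.hpm1⟩
  have hc := combine hp01 _ _ _ _ (h1 P V X C hC p hp s hs hF a Q hQ ν)
    (h2 P V X C hC p hp s hs hF a Q hQ ν) (h3 P V X C hC p hp s hs a Q hQ hst ν hν)
    (h4 P V X C hC p hp s hs a Q hQ ν hν)
    (fun ξ => ((Ut C Q (com C a Q ν) ξ s).card : ℝ)) hq0 (fun ξ => Nat.cast_nonneg _) ?_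
  · rw [sum_av, P.hβ1]
    refine le_trans (le_of_eq ?_) hc
    ring
  · intro ξ b1 b2 b3 b4
    refine hd V X C.G C.pv Q (fun t => (com C a Q ν).filter (fun h => act C.nb ξ t h))
      (fun t => Ut C Q (com C a Q ν) ξ t) s P.η P.β2 (8 / (P.κ * P.ζ)) hQne P.hη P.hη' P.hβ2
      (by positivity) P.hA5 ?_ ?_ ?_ ?_ ?_
    · intro t
      unfold Ut
      refine filter_eq_of _ _ _ _ _ fun u _ => ?_
      constructor
      · intro h t' ht' x hx
        rw [Finset.mem_filter] at hx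
        exact h t' ht' x hx.1 hx.2
      · intro h t' ht' x hx hact
        exact h t' ht' x (Finset.mem_filter.2 ⟨hx, hact⟩)
    · intro t ht
      rw [Finset.card_le_one]
      intro x hx y hy
      rw [Finset.mem_filter] at hx hy
      by_contra hne
      exact b4 ⟨t, ht, x, hx.1, y, hy.1, hne, hx.2.1, hy.2.1⟩
    · intro t ht x hx
      rw [Finset.mem_filter] at hx
      by_contra hne
      exact b1 ⟨t, ht, x, hx.1, (not_le.1 hne).le, hx.2⟩
    · exact (not_le.1 b2).le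
    · exact not_lt.1 b3

end Vu80
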