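import Pool.Agent.Lib_helper80.Vu.Stmts
import Pool.Agent.Vu.Prob

/-!
# Vu's conjecture: the exponential moment inequality `S_MGF`
-/

set_option autoImplicit false

open scoped Classical
open Finset

noncomputable section

namespace Pool.Agent.Vu

/-! ### `e^x ≤ 1 + x + x^2/2 e^|x|` -/

lemma exp_le_quad_neg {x : ℝ} (hx : x ≤ 0) : Real.exp x ≤ 1 + x + x ^ 2 / 2 := by
  have hanti : AntitoneOn (fun y : ℝ => 1 + y + y ^ 2 / 2 - Real.exp y) (Set.Iic 0) := by
    refine antitoneOn_of_deriv_nonpos (convex_Iic 0) ?_ ?_ ?_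
    · fun_prop
    · fun_prop
    · intro y _
      have hd : HasDerivAt (fun y : ℝ => 1 + y + y ^ 2 / 2 - Real.exp y) (1 + y - Real.exp y) y := by
        have h1 := ((((hasDerivAt_const y (1:ℝ)).add (hasDerivAt_id y)).add
          (((hasDerivAt_id y).pow 2).div_const 2)).sub (Real.hasDerivAt_exp y))
        refine (h1.congr_deriv ?_)
        simp
      rw [hd.deriv]
      linarith [Real.add_one_le_exp y]
  have h := hanti (a := x) (b := 0) hx (Set.mem_Iic.2 le_rfl) hx
  simp at h
  linarith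

lemma exp_le_quad_pos {x : ℝ} (hx : 0 ≤ x) : Real.exp x ≤ 1 + x + x ^ 2 / 2 * Real.exp x := by
  have hmono : MonotoneOn (fun y : ℝ => (1 + y) * Real.exp (-y) + y ^ 2 / 2) (Set.Ici 0) := by
    refine monotoneOn_of_deriv_nonneg (convex_Ici 0) ?_ ?_ ?_
    · fun_prop
    · fun_prop
    · intro y hy
      rw [interior_Ici] at hy
      have hy' : 0 < y := hy
      have hd : HasDerivAt (fun y : ℝ => (1 + y) * Real.exp (-y) + y ^ 2 / 2)
          (y * (1 - Real.exp (-y))) y := by
        have h0 : HasDerivAt (fun y : ℝ => Real.exp (-y)) (-Real.exp (-y)) y := by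
          have := (Real.hasDerivAt_exp (-y)).comp y (hasDerivAt_neg y)
          refine this.congr_deriv ?_
          ring
        have h1 := ((((hasDerivAt_const y (1:ℝ)).add (hasDerivAt_id y)).mul h0).add
          (((hasDerivAt_id y).pow 2).div_const 2))
        refine (h1.congr_deriv ?_)
        simp
        ring
      rw [hd.deriv]
      have : Real.exp (-y) ≤ 1 := Real.exp_le_one_iff.2 (by linarith)
      exact mul_nonneg hy'.le (by linarith)
  have h := hmono (a := 0) (b := x) (Set.mem_Ici.2 le_rfl) hx hx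
  simp at h
  have h2 := mul_le_mul_of_nonneg_right h (Real.exp_pos x).le
  have h3 : Real.exp (-x) * Real.exp x = 1 := by rw [← Real.exp_add]; simp
  nlinarith

lemma exp_le_quad (x : ℝ) : Real.exp x ≤ 1 + x + x ^ 2 / 2 * Real.exp |x| := by
  rcases le_total 0 x with h | h
  · rw [abs_of_nonneg h]
    exact exp_le_quad_pos h
  · refine (exp_le_quad_neg h).trans ?_
    have h1 : 1 ≤ Real.exp |x| := Real.one_le_exp (abs_nonneg x)
    nlinarith [sq_nonneg x]

/-- one coordinate -/
lemma one_coord {p : ℝ} (hp0 : 0 ≤ p) (hp1 : p ≤ 1) {f1 f0 c θ m : ℝ} (hc : |f1 - f0| ≤ c)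
    (hθ : 0 ≤ θ) :
    p * Real.exp (θ * (f1 - m)) + (1 - p) * Real.exp (θ * (f0 - m)) ≤
      Real.exp (p * (θ ^ 2 * c ^ 2 / 2 * Real.exp (θ * c))) *
        Real.exp (θ * (p * f1 + (1 - p) * f0 - m)) := by
  have hc0 : 0 ≤ c := (abs_nonneg _).trans hc
  set d := f1 - f0 with hd
  set μ := θ * (p * f1 + (1 - p) * f0 - m) with hμ
  have e1 : θ * (f1 - m) = μ + θ * ((1 - p) * d) := by rw [hμ, hd]; ring
  have e0 : θ * (f0 - m) = μ + θ * (-(p * d)) := by rw [hμ, hd]; ring
  rw [e1, e0, Real.exp_add, Real.exp_add]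
  have hq1 := exp_le_quad (θ * ((1 - p) * d))
  have hq0 := exp_le_quad (θ * (-(p * d)))
  have hab1 : |θ * ((1 - p) * d)| ≤ θ * c := by
    rw [abs_mul, abs_mul, abs_of_nonneg hθ, abs_of_nonneg (by linarith : 0 ≤ 1 - p)]
    refine mul_le_mul_of_nonneg_left ?_ hθ
    have := abs_nonneg d
    nlinarith
  have hab0 : |θ * (-(p * d))| ≤ θ * c := by
    rw [abs_mul, abs_neg, abs_mul, abs_of_nonneg hθ, abs_of_nonneg hp0]
    refine mul_le_mul_of_nonneg_left ?_ hθ
    have := abs_nonneg d
    nlinarith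
  have hE1 : Real.exp |θ * ((1 - p) * d)| ≤ Real.exp (θ * c) := Real.exp_le_exp.2 hab1
  have hE0 : Real.exp |θ * (-(p * d))| ≤ Real.exp (θ * c) := Real.exp_le_exp.2 hab0
  set E := Real.exp (θ * c) with hEdef
  have hEpos : 0 < E := Real.exp_pos _
  have hb1 : Real.exp (θ * ((1 - p) * d)) ≤ 1 + θ * ((1 - p) * d) + (θ * ((1 - p) * d)) ^ 2 / 2 * E :=
    hq1.trans (by have := sq_nonneg (θ * ((1 - p) * d)); nlinarith)
  have hb0 : Real.exp (θ * (-(p * d))) ≤ 1 + θ * (-(p * d)) + (θ * (-(p * d))) ^ 2 / 2 * E :=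
    hq0.trans (by have := sq_nonneg (θ * (-(p * d))); nlinarith)
  have hd2 : d ^ 2 ≤ c ^ 2 := by
    rw [← sq_abs d]
    exact pow_le_pow_left₀ (abs_nonneg _) hc 2
  have hsum : p * Real.exp (θ * ((1 - p) * d)) + (1 - p) * Real.exp (θ * (-(p * d))) ≤
      Real.exp (p * (θ ^ 2 * c ^ 2 / 2 * E)) := by
    have h1 : p * Real.exp (θ * ((1 - p) * d)) + (1 - p) * Real.exp (θ * (-(p * d))) ≤
        p * (1 + θ * ((1 - p) * d) + (θ * ((1 - p) * d)) ^ 2 / 2 * E) +
        (1 - p) * (1 + θ * (-(p * d)) + (θ * (-(p * d))) ^ 2 / 2 * E) :=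
      add_le_add (mul_le_mul_of_nonneg_left hb1 hp0)
        (mul_le_mul_of_nonneg_left hb0 (by linarith))
    have h2 : p * (1 + θ * ((1 - p) * d) + (θ * ((1 - p) * d)) ^ 2 / 2 * E) +
        (1 - p) * (1 + θ * (-(p * d)) + (θ * (-(p * d))) ^ 2 / 2 * E) =
        1 + p * (1 - p) * (θ ^ 2 * d ^ 2 / 2 * E) := by ring
    have h3 : p * (1 - p) * (θ ^ 2 * d ^ 2 / 2 * E) ≤ p * (θ ^ 2 * c ^ 2 / 2 * E) := by
      have h4 : θ ^ 2 * d ^ 2 / 2 * E ≤ θ ^ 2 * c ^ 2 / 2 * E := by
        refine mul_le_mul_of_nonneg_right ?_ hEpos.le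
        have := sq_nonneg θ
        nlinarith
      have h5 : 0 ≤ θ ^ 2 * d ^ 2 / 2 * E := by positivity
      have h6 : p * (1 - p) ≤ p := by nlinarith
      calc p * (1 - p) * (θ ^ 2 * d ^ 2 / 2 * E) ≤ p * (θ ^ 2 * d ^ 2 / 2 * E) :=
            mul_le_mul_of_nonneg_right h6 h5
        _ ≤ p * (θ ^ 2 * c ^ 2 / 2 * E) := mul_le_mul_of_nonneg_left h4 hp0
    calc _ ≤ 1 + p * (1 - p) * (θ ^ 2 * d ^ 2 / 2 * E) := h1.trans h2.le
      _ ≤ p * (θ ^ 2 * c ^ 2 / 2 * E) + 1 := by linarith
      _ ≤ Real.exp (p * (θ ^ 2 * c ^ 2 / 2 * E)) := Real.add_one_le_exp _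
  have hμpos := Real.exp_pos μ
  nlinarith [mul_le_mul_of_nonneg_right hsum hμpos.le]

/-! ### tower property -/

variable {I : Type*} [Fintype I]

lemma Av_Av (p : I → ℝ) {S A : Set I} (h : S ⊆ A) (F : (I → Bool) → ℝ) (ω : I → Bool) :
    Av p S F ω = Ex p (fun η => Av p A F (mix S ω η)) := by
  have h1 := Ex_Av p A (fun η => F (mix S ω η))
  have h2 : Av p S F ω = Ex p (fun η => F (mix S ω η)) := rfl
  rw [h2, ← h1]
  refine Ex_congr fun η => ?_
  unfold Av
  refine Ex_congr fun η' => ?_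
  refine congrArg F ?_
  funext i
  by_cases hS : i ∈ S
  · rw [mix_of_mem hS, mix_of_mem (h hS), mix_of_mem hS]
  · rw [mix_of_notMem hS]
    by_cases hA : i ∈ A
    · rw [mix_of_mem hA, mix_of_mem hA, mix_of_notMem hS]
    · rw [mix_of_notMem hA, mix_of_notMem hA]

/-- resampling one coordinate -/
lemma Ex_resample (p : I → ℝ) (i : I) (G : (I → Bool) → ℝ) :
    Ex p G = Ex p (fun ω => p i * G (Function.update ω i true) +
      (1 - p i) * G (Function.update ω i false)) := by
  rw [← Ex_Av p ({i}ᶜ : Set I) G]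
  refine Ex_congr fun ω => ?_
  rw [Av_insert p ({i}ᶜ : Set I) (i := i) (by simp) G ω]
  have h : insert i ({i}ᶜ : Set I) = Set.univ := by
    ext j
    simp only [Set.mem_insert_iff, Set.mem_compl_iff, Set.mem_singleton_iff, Set.mem_univ, iff_true]
    exact em _
  rw [h, Av_univ]

lemma mgf_step {p : I → ℝ} (hp : IsProb p) {S : Set I} {i : I} (hi : i ∉ S)
    (F : (I → Bool) → ℝ) {c θ m : ℝ} (hθ : 0 ≤ θ)
    (hc : ∀ ω, |Av p (insert i S) F (Function.update ω i true) -
      Av p (insert i S) F (Function.update ω i false)| ≤ c) :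
    Ex p (fun ω => Real.exp (θ * (Av p (insert i S) F ω - m))) ≤
      Real.exp (p i * (θ ^ 2 * c ^ 2 / 2 * Real.exp (θ * c))) *
        Ex p (fun ω => Real.exp (θ * (Av p S F ω - m))) := by
  rw [Ex_resample p i, ← Ex_mul_left]
  refine Ex_mono hp fun ω => ?_
  rw [Av_insert p S hi F ω]
  exact one_coord (hp i).1 (hp i).2 (hc ω) hθ

theorem mgf_main {p : I → ℝ} (hp : IsProb p) (τ : I → ℕ) (F : (I → Bool) → ℝ) (b : I → ℝ)
    (h : ∀ i ω, |Av p {j | τ j ≤ τ i} F (Function.update ω i true) -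
      Av p {j | τ j ≤ τ i} F (Function.update ω i false)| ≤ b i) {θ : ℝ} (hθ : 0 ≤ θ) :
    Ex p (fun ω => Real.exp (θ * (F ω - Ex p F))) ≤
      Real.exp (∑ i, p i * (θ ^ 2 * b i ^ 2 / 2 * Real.exp (θ * b i))) := by
  have key : ∀ (n : ℕ) (E : Finset I), E.card = n → (∀ i ∈ E, ∀ j, τ j < τ i → j ∈ E) →
      Ex p (fun ω => Real.exp (θ * (Av p (E : Set I) F ω - Ex p F))) ≤
        Real.exp (∑ i ∈ E, p i * (θ ^ 2 * b i ^ 2 / 2 * Real.exp (θ * b i))) := by
    intro n
    induction n with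
    | zero =>
      intro E hE _
      have hE0 : E = ∅ := Finset.card_eq_zero.1 hE
      subst hE0
      simp only [Finset.coe_empty, Finset.sum_empty, Real.exp_zero]
      refine le_of_eq ?_
      rw [← Ex_const p (1:ℝ)]
      refine Ex_congr fun ω => ?_
      rw [Av_empty]
      simp
    | succ n ih =>
      intro E hE hEτ
      have hne : E.Nonempty := by rw [← Finset.card_pos]; omega
      obtain ⟨i, hiE, hmax⟩ := Finset.exists_max_image E τ hne
      have hE' : (E.erase i).card = n := by rw [Finset.card_erase_of_mem hiE]; omega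
      have hcl : ∀ k ∈ E.erase i, ∀ j, τ j < τ k → j ∈ E.erase i := by
        intro k hk j hj
        have hk' := Finset.mem_erase.1 hk
        refine Finset.mem_erase.2 ⟨?_, hEτ k hk'.2 j hj⟩
        rintro rfl
        exact absurd (hmax k hk'.2) (not_le.2 hj)
      have hih := ih (E.erase i) hE' hcl
      have hins : insert i ((E.erase i : Finset I) : Set I) = (E : Set I) := by
        rw [← Finset.coe_insert, Finset.insert_erase hiE]
      have hsub : (E : Set I) ⊆ {j | τ j ≤ τ i} := fun j hj => hmax j hj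
      have hstep := mgf_step hp (S := ((E.erase i : Finset I) : Set I)) (i := i) (by simp) F
        (c := b i) (θ := θ) (m := Ex p F) hθ (by
          intro ω
          rw [hins, Av_Av p hsub F (Function.update ω i true),
            Av_Av p hsub F (Function.update ω i false), ← Ex_sub]
          refine (abs_Ex_le hp _).trans (Ex_le hp fun η => ?_)
          have hu : ∀ b : Bool, mix (E : Set I) (Function.update ω i b) η =
              Function.update (mix (E : Set I) ω η) i b := by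
            intro b
            funext j
            by_cases hj : j = i
            · subst hj
              rw [mix_of_mem (by exact_mod_cast hiE)]
              simp
            · rw [Function.update_of_ne hj]
              by_cases hS : j ∈ (E : Set I)
              · rw [mix_of_mem hS, mix_of_mem hS, Function.update_of_ne hj]
              · rw [mix_of_notMem hS, mix_of_notMem hS]
          rw [hu, hu]
          exact h i _)
      rw [hins] at hstep
      refine hstep.trans ?_
      rw [← Finset.add_sum_erase E _ hiE, Real.exp_add]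
      exact mul_le_mul_of_nonneg_left hih (Real.exp_pos _).le
  have h1 := key _ Finset.univ rfl (fun _ _ j _ => Finset.mem_univ j)
  rw [Finset.coe_univ, Av_univ] at h1
  exact h1

end Pool.Agent.Vu

namespace Vu80

theorem mgf : S_MGF := by
  intro I _ p hp τ F b hb h θ hθ
  have h' : ∀ i ω, |Pool.Agent.Vu.Av p {j | τ j ≤ τ i} F (Function.update ω i true) -
      Pool.Agent.Vu.Av p {j | τ j ≤ τ i} F (Function.update ω i false)| ≤ b i := by
    intro i ω
    have e : ∀ ω, Pool.Agent.Vu.Av p {j | τ j ≤ τ i} F ω = ExS p {j | τ i < τ j} F ω := by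
      intro ω
      unfold Pool.Agent.Vu.Av ExS
      refine Pool.Agent.Vu.Ex_congr fun η => ?_
      congr 1
      funext j
      by_cases hj : τ j ≤ τ i
      · rw [Pool.Agent.Vu.mix_of_mem (show j ∈ {j | τ j ≤ τ i} from hj)]
        simp [mix, not_lt.2 hj]
      · rw [Pool.Agent.Vu.mix_of_notMem (show j ∉ {j | τ j ≤ τ i} from hj)]
        simp [mix, not_le.1 hj]
    rw [e, e]
    exact h i ω
  exact Pool.Agent.Vu.mgf_main hp τ F b h' hθ

end Vu80
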