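import Pool.Agent.Lib_helper80.Vu.Stmts

/-!
# Vu's conjecture (list version): existence of the parameters (module PAR, helper64)
-/

set_option autoImplicit false

open scoped Classical
open Finset

noncomputable section

namespace Vu80

namespace ParAux

/-- a linear inequality holds eventually -/
lemma ev_lin (A B : ℝ) (hB : 0 < B) : ∃ N : ℕ, ∀ n : ℕ, N ≤ n → A ≤ B * n := by
  obtain ⟨N, hN⟩ := exists_nat_ge (A / B)
  refine ⟨N, fun n hn => ?_⟩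
  rw [div_le_iff₀ hB] at hN
  have : (N : ℝ) ≤ n := by exact_mod_cast hn
  nlinarith

/-- the exponential beats a polynomial -/
lemma ev_exp (c : ℝ) (hc : 0 < c) (k : ℕ) :
    ∃ N : ℕ, ∀ n : ℕ, N ≤ n → 16 * Real.exp (-(c * n)) * ((n : ℝ) + 1) ^ k ≤ 1 := by
  have h1 := Real.tendsto_pow_mul_exp_neg_atTop_nhds_zero k
  have h2 : Filter.Tendsto (fun n : ℕ => c * ((n : ℝ) + 1)) Filter.atTop Filter.atTop := by
    apply Filter.Tendsto.const_mul_atTop hc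
    exact Filter.tendsto_atTop_add_const_right _ _ tendsto_natCast_atTop_atTop
  have h3 := h1.comp h2
  have hpos : 0 < c ^ k / (16 * Real.exp c) := by positivity
  have h4 := (h3.eventually (gt_mem_nhds hpos))
  rw [Filter.eventually_atTop] at h4
  obtain ⟨N, hN⟩ := h4
  refine ⟨N, fun n hn => ?_⟩
  have h5 := hN n hn
  simp only [Function.comp_apply] at h5
  rw [lt_div_iff₀ (by positivity)] at h5
  have e1 : (c * ((n : ℝ) + 1)) ^ k * Real.exp (-(c * ((n : ℝ) + 1))) * (16 * Real.exp c) =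
      c ^ k * (16 * Real.exp (-(c * n)) * ((n : ℝ) + 1) ^ k) := by
    have : Real.exp (-(c * n)) = Real.exp (-(c * ((n : ℝ) + 1))) * Real.exp c := by
      rw [← Real.exp_add]
      congr 1
      ring
    rw [this, mul_pow]
    ring
  rw [e1] at h5
  have hck : 0 < c ^ k := by positivity
  nlinarith

/-- a positive number below seven positive numbers -/
lemma ex_min (a1 a2 a3 a4 a5 a6 a7 : ℝ) (h1 : 0 < a1) (h2 : 0 < a2) (h3 : 0 < a3) (h4 : 0 < a4)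
    (h5 : 0 < a5) (h6 : 0 < a6) (h7 : 0 < a7) :
    ∃ x : ℝ, 0 < x ∧ x ≤ a1 ∧ x ≤ a2 ∧ x ≤ a3 ∧ x ≤ a4 ∧ x ≤ a5 ∧ x ≤ a6 ∧ x ≤ a7 := by
  refine ⟨min a1 (min a2 (min a3 (min a4 (min a5 (min a6 a7))))), ?_, ?_, ?_, ?_, ?_, ?_, ?_, ?_⟩
  · simp only [lt_min_iff]
    exact ⟨h1, h2, h3, h4, h5, h6, h7⟩
  · exact min_le_left _ _
  · exact (min_le_right _ _).trans (min_le_left _ _)
  · exact (min_le_right _ _).trans ((min_le_right _ _).trans (min_le_left _ _))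
  · exact (min_le_right _ _).trans ((min_le_right _ _).trans ((min_le_right _ _).trans
      (min_le_left _ _)))
  · exact (min_le_right _ _).trans ((min_le_right _ _).trans ((min_le_right _ _).trans
      ((min_le_right _ _).trans (min_le_left _ _))))
  · exact (min_le_right _ _).trans ((min_le_right _ _).trans ((min_le_right _ _).trans
      ((min_le_right _ _).trans ((min_le_right _ _).trans (min_le_left _ _)))))
  · exact (min_le_right _ _).trans ((min_le_right _ _).trans ((min_le_right _ _).trans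
      ((min_le_right _ _).trans ((min_le_right _ _).trans (min_le_right _ _)))))

lemma a1aux {ζ ε m : ℝ} (hζ : 0 < ζ) (hζ1 : ζ ≤ 1) (hε : 0 < ε) (hε1 : ε ≤ 1)
    (hm : m ≤ ζ * ε / 32) :
    (1 + ε / 32) * (ζ + m) ≤ (1 - ε / 8) * (1 - ε / 64) ^ 2 * (ζ + ε / 2) := by
  have a1 : (1 + ε / 32) * (ζ + m) ≤ (1 + ε / 32) * (ζ + ζ * ε / 32) := by
    apply mul_le_mul_of_nonneg_left _ (by linarith)
    linarith
  have a0 : ζ * ε * ε ≤ ζ * ε * 1 := mul_le_mul_of_nonneg_left hε1 (by positivity)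
  have a2 : (1 + ε / 32) * (ζ + ζ * ε / 32) ≤ ζ + ζ * ε / 16 + ζ * ε / 1024 := by
    have : (1 + ε / 32) * (ζ + ζ * ε / 32) = ζ + ζ * ε / 16 + ζ * ε * ε / 1024 := by ring
    rw [this]; linarith
  have a3 : 1 - 5 * ε / 32 ≤ (1 - ε / 8) * (1 - ε / 64) ^ 2 := by
    have b2 : 0 ≤ ε ^ 2 := sq_nonneg ε
    have b3 : ε ^ 3 ≤ ε ^ 2 * 1 := by
      rw [pow_succ]; exact mul_le_mul_of_nonneg_left hε1 b2
    have b1 : (1 - ε / 8) * (1 - ε / 64) ^ 2 =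
        1 - 5 * ε / 32 + ε ^ 2 / 4096 + ε ^ 2 / 256 - ε ^ 3 / 32768 := by ring
    rw [b1]; linarith
  have a4 : (1 - 5 * ε / 32) * (ζ + ε / 2) ≤ (1 - ε / 8) * (1 - ε / 64) ^ 2 * (ζ + ε / 2) := by
    apply mul_le_mul_of_nonneg_right a3 (by positivity)
  have a5 : ζ * ε ≤ 1 * ε := mul_le_mul_of_nonneg_right hζ1 hε.le
  have a6 : ε * ε ≤ 1 * ε := mul_le_mul_of_nonneg_right hε1 hε.le
  have a7 : (1 - 5 * ε / 32) * (ζ + ε / 2) =
      ζ + ε / 2 - 5 / 32 * (ζ * ε) - 5 / 64 * (ε * ε) := by ring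
  rw [a7] at a4
  linarith

end ParAux

open ParAux

/-- existence of the parameters -/
theorem par (hs : S_STAB) : S_PAR := by
  intro ζ ε hζ hζ1 hε hε1
  obtain ⟨κ, hκdef⟩ : ∃ κ : ℝ, κ = ε / 8 := ⟨_, rfl⟩
  obtain ⟨γ, hγdef⟩ : ∃ γ : ℝ, γ = ε / 32 := ⟨_, rfl⟩
  obtain ⟨η, hηdef⟩ : ∃ η : ℝ, η = ε / 64 := ⟨_, rfl⟩
  have hκ : 0 < κ := by rw [hκdef]; positivity
  have hγ : 0 < γ := by rw [hγdef]; positivity
  have hη : 0 < η := by rw [hηdef]; positivity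
  have hκ' : κ ≤ 1 := by rw [hκdef]; linarith
  have hγ' : γ ≤ 1 := by rw [hγdef]; linarith
  have hη' : η ≤ 1 / 2 := by rw [hηdef]; linarith
  obtain ⟨M0, hM0a⟩ := exists_nat_ge (32 / (ζ * ε))
  have hM0pos : (0 : ℝ) < M0 := lt_of_lt_of_le (by positivity) hM0a
  have hM0 : 1 ≤ M0 := by
    have : 0 < M0 := by exact_mod_cast hM0pos
    exact this
  have hM0inv : 1 / (M0 : ℝ) ≤ ζ * ε / 32 := by
    rw [div_le_iff₀ (by positivity)] at hM0a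
    rw [div_le_div_iff₀ hM0pos (by norm_num)]
    linarith
  have hA1' : (1 + γ) * (ζ + 1 / M0) ≤ (1 - κ) * (1 - η) ^ 2 * (ζ + ε / 2) := by
    rw [hκdef, hγdef, hηdef]
    exact a1aux hζ hζ1 hε hε1 hM0inv
  obtain ⟨β2, hβ2def⟩ : ∃ β2 : ℝ, β2 = Real.exp (-(2 / η * (8 / (κ * ζ) + 1))) := ⟨_, rfl⟩
  have hβ2 : 0 < β2 := by rw [hβ2def]; exact Real.exp_pos _
  have hβ2' : β2 ≤ 1 := by
    rw [hβ2def, Real.exp_le_one_iff]
    have : 0 < 2 / η * (8 / (κ * ζ) + 1) := by positivity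
    linarith
  obtain ⟨β1, hβ1def⟩ : ∃ β1 : ℝ, β1 = κ * β2 / 2 := ⟨_, rfl⟩
  have hβ1 : 0 < β1 := by rw [hβ1def]; positivity
  obtain ⟨K, hKdef⟩ : ∃ K : ℝ, K = 8 / β1 := ⟨_, rfl⟩
  have hK : 0 < K := by rw [hKdef]; positivity
  obtain ⟨δ, hδdef⟩ : ∃ δ : ℝ, δ = Real.exp (-(4 * K / ζ)) / 2 := ⟨_, rfl⟩
  have hδ : 0 < δ := by rw [hδdef]; positivity
  have hδ' : δ ≤ 1 := by
    have : Real.exp (-(4 * K / ζ)) ≤ 1 := by
      rw [Real.exp_le_one_iff]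
      have : 0 < 4 * K / ζ := by positivity
      linarith
    rw [hδdef]; linarith
  obtain ⟨κ1, hκ1def⟩ : ∃ κ1 : ℝ, κ1 = δ * ζ / 16 := ⟨_, rfl⟩
  have hκ1 : 0 < κ1 := by rw [hκ1def]; positivity
  have hκ1' : κ1 ≤ 1 := by
    have : δ * ζ ≤ 1 * 1 := mul_le_mul hδ' hζ1 hζ.le (by norm_num)
    rw [hκ1def]; linarith
  obtain ⟨L, hLdef⟩ : ∃ L : ℝ, L = Real.log (2 / κ1) := ⟨_, rfl⟩
  have hL : 0 < L := by
    rw [hLdef]
    apply Real.log_pos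
    rw [lt_div_iff₀ hκ1]
    linarith
  have hexpL : Real.exp (-L) = κ1 / 2 := by
    rw [hLdef, Real.exp_neg, Real.exp_log (by positivity), inv_div]
  obtain ⟨T1, hT1def⟩ : ∃ T1 : ℝ, T1 = 2 * L + 1 := ⟨_, rfl⟩
  have hT1 : 1 ≤ T1 := by rw [hT1def]; linarith
  have hT10 : 0 < T1 := by linarith
  obtain ⟨Θ, hΘdef⟩ : ∃ Θ : ℝ, Θ = T1 / δ * (1 / ζ + 1) := ⟨_, rfl⟩
  have hΘ : 1 ≤ Θ := by
    have a1 : 1 ≤ T1 / δ := by rw [le_div_iff₀ hδ]; linarith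
    have a2 : 1 ≤ 1 / ζ + 1 := by
      have : 0 < 1 / ζ := by positivity
      linarith
    rw [hΘdef]
    exact one_le_mul_of_one_le_of_one_le a1 a2
  have hΘ0 : 0 < Θ := by linarith
  obtain ⟨e2, he2def⟩ : ∃ e2 : ℝ, e2 = Real.exp (2 * Θ) := ⟨_, rfl⟩
  have he2 : 0 < e2 := by rw [he2def]; exact Real.exp_pos _
  obtain ⟨r, hr, hr1, hrK1, hrK2, -, -, -, -⟩ := ex_min 1 (β1 ^ 2 * δ / 64 / (2 * Θ * e2))
    (β1 * δ ^ 2 / 8 / (Θ * e2)) 1 1 1 1 one_pos (by positivity) (by positivity) one_pos one_pos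
    one_pos one_pos
  obtain ⟨kk, hkkdef⟩ : ∃ kk : ℝ, kk = ζ * β1 ^ 2 * δ / 128 := ⟨_, rfl⟩
  have hkk : 0 < kk := by rw [hkkdef]; positivity
  obtain ⟨Nth, hNth⟩ := exists_nat_ge (1 / kk)
  have hNthpos : (0 : ℝ) < Nth := lt_of_lt_of_le (by positivity) hNth
  have hNth1 : 1 ≤ Nth := by
    have : 0 < Nth := by exact_mod_cast hNthpos
    exact this
  have hK4 : 1 ≤ kk * Nth := by
    rw [div_le_iff₀ hkk] at hNth
    linarith
  obtain ⟨nm, hnmdef⟩ : ∃ nm : ℝ, nm = r ^ Nth / 2 := ⟨_, rfl⟩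
  have hnm : 0 < nm := by rw [hnmdef]; positivity
  obtain ⟨eps2, heps2def⟩ : ∃ eps2 : ℝ, eps2 = nm * (η * κ / (16 * Θ)) ^ 2 := ⟨_, rfl⟩
  have heps2 : 0 < eps2 := by rw [heps2def]; positivity
  obtain ⟨M, hM⟩ := hs β2 eps2 hβ2 hβ2' heps2 M0 hM0
  obtain ⟨κ3, hκ3def⟩ : ∃ κ3 : ℝ, κ3 = δ * ζ / 16 := ⟨_, rfl⟩
  have hκ3 : 0 < κ3 := by rw [hκ3def]; positivity
  obtain ⟨e4, he4def⟩ : ∃ e4 : ℝ, e4 = Real.exp 4 := ⟨_, rfl⟩
  have he4 : 0 < e4 := by rw [he4def]; exact Real.exp_pos _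
  obtain ⟨ε0, hε0, hε01, hR1, hR2, hA4a, hC1a, hδζ, hC2a⟩ := ex_min 1 (γ * δ ^ 2 / 2)
    (ζ / (8 * K)) (κ * nm ^ 2 / 8 * (δ * ζ) / Θ) (κ3 / 4 * δ ^ 2 / T1) (δ * ζ)
    (κ3 / 2 * (δ ^ 2 * ζ) / (T1 * e4)) one_pos (by positivity) (by positivity) (by positivity)
    (by positivity) (by positivity) (by positivity)
  obtain ⟨R, hRdef⟩ : ∃ R : ℕ, R = ⌈2 / ε0 * L⌉₊ := ⟨_, rfl⟩
  have hRge : 2 / ε0 * L ≤ R := by rw [hRdef]; exact Nat.le_ceil _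
  have hRlt : (R : ℝ) < 2 / ε0 * L + 1 := by
    rw [hRdef]; exact Nat.ceil_lt_add_one (by positivity)
  have hRpos : (0 : ℝ) < R := lt_of_lt_of_le (by positivity) hRge
  have hR : 1 ≤ R := by
    have : 0 < R := by exact_mod_cast hRpos
    exact this
  have hRε : (R : ℝ) * ε0 ≤ T1 := by
    have a1 : (R : ℝ) * ε0 ≤ (2 / ε0 * L + 1) * ε0 := mul_le_mul_of_nonneg_right hRlt.le hε0.le
    have a2 : (2 / ε0 * L + 1) * ε0 = 2 * L + ε0 := by field_simp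
    rw [hT1def]; linarith
  have hR7 : Real.exp (-(ε0 / 2 * R)) ≤ κ1 / 2 := by
    rw [← hexpL, Real.exp_le_exp]
    have a1 : ε0 / 2 * (2 / ε0 * L) ≤ ε0 / 2 * R := mul_le_mul_of_nonneg_left hRge (by positivity)
    have a2 : ε0 / 2 * (2 / ε0 * L) = L := by field_simp
    linarith
  obtain ⟨eΘ, heΘdef⟩ : ∃ eΘ : ℝ, eΘ = Real.exp (Real.exp Θ) := ⟨_, rfl⟩
  have heΘ : 0 < eΘ := by rw [heΘdef]; exact Real.exp_pos _
  obtain ⟨θ, hθ, hθ1, hθ2, -, -, -, -, -⟩ := ex_min 1 (κ3 / (Θ * e2 * eΘ)) 1 1 1 1 1 one_pos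
    (by positivity) one_pos one_pos one_pos one_pos one_pos
  obtain ⟨c1, hc1def⟩ : ∃ c1 : ℝ, c1 = θ * κ3 / 2 := ⟨_, rfl⟩
  have hc1 : 0 < c1 := by rw [hc1def]; positivity
  have hC3 : θ ^ 2 / 2 * Real.exp (θ * Real.exp Θ) * (Θ * Real.exp (2 * Θ)) + c1 ≤ θ * κ3 := by
    have a1 : Real.exp (θ * Real.exp Θ) ≤ eΘ := by
      rw [heΘdef, Real.exp_le_exp]
      exact mul_le_of_le_one_left (Real.exp_pos Θ).le hθ1
    have a2 : θ * (Θ * e2 * eΘ) ≤ κ3 := by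
      rwa [le_div_iff₀ (by positivity)] at hθ2
    have a3 : θ ^ 2 / 2 * Real.exp (θ * Real.exp Θ) * (Θ * Real.exp (2 * Θ)) ≤
        θ ^ 2 / 2 * eΘ * (Θ * e2) := by
      rw [← he2def]
      gcongr
    have a4 : θ ^ 2 / 2 * eΘ * (Θ * e2) = θ / 2 * (θ * (Θ * e2 * eΘ)) := by ring
    have a5 : θ / 2 * (θ * (Θ * e2 * eΘ)) ≤ θ / 2 * κ3 :=
      mul_le_mul_of_nonneg_left a2 (by positivity)
    rw [hc1def]
    linarith
  have hC4 : c1 ≤ κ3 / 2 := by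
    rw [hc1def]
    have : θ * κ3 ≤ 1 * κ3 := mul_le_mul_of_nonneg_right hθ1 hκ3.le
    linarith
  obtain ⟨Ca, hCadef⟩ : ∃ Ca : ℝ, Ca = 2 * Θ * (4 * Θ + 1) * Real.exp (2 * Θ) := ⟨_, rfl⟩
  have hCa : 0 < Ca := by rw [hCadef]; positivity
  -- large `Δ`
  obtain ⟨N1, hN1⟩ := ev_lin (ε0 / δ) ζ hζ
  obtain ⟨N2, hN2⟩ := ev_lin (3 * (R * ε0) * Ca) (γ / 2 * δ) (by positivity)
  obtain ⟨N3, hN3⟩ := ev_lin (2 * Ca) (min 1 (κ1 / 2) * δ)
    (mul_pos (lt_min one_pos (by positivity)) hδ)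
  obtain ⟨N4, hN4⟩ := ev_lin (R * (ε0 / δ) * (Ca + M)) (δ * ζ) (by positivity)
  obtain ⟨N5, hN5⟩ := ev_exp c1 hc1 (2 * R + 4)
  refine ⟨max 1 (max N1 (max N2 (max N3 (max N4 N5)))), ?_⟩
  intro Δ hΔ ℓ hℓ
  simp only [max_le_iff] at hΔ
  obtain ⟨hΔ1, hΔN1, hΔN2, hΔN3, hΔN4, hΔN5⟩ := hΔ
  have hΔ0 : (0 : ℝ) < Δ := by exact_mod_cast hΔ1
  have hζℓ : ζ * Δ ≤ ℓ := by
    have h1 := hℓ
    rw [add_mul] at h1
    have h2 : 0 ≤ ε / 2 * Δ := by positivity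
    linarith
  have hℓ0 : (0 : ℝ) < ℓ := lt_of_lt_of_le (by positivity) hζℓ
  have hℓ1 : 1 ≤ ℓ := by
    have : 0 < ℓ := by exact_mod_cast hℓ0
    exact this
  have hpm : ε0 / (ℓ * δ) * ℓ = ε0 / δ := by field_simp
  have hΔℓ : (Δ : ℝ) / ℓ ≤ 1 / ζ := by
    rw [div_le_div_iff₀ hℓ0 hζ]
    linarith
  have hpmΔ : ε0 / (ℓ * δ) * Δ ≤ ε0 / (δ * ζ) := by
    have a1 : ε0 / (ℓ * δ) * Δ = ε0 / δ * (Δ / ℓ) := by field_simp
    have a2 : ε0 / (δ * ζ) = ε0 / δ * (1 / ζ) := by field_simp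
    rw [a1, a2]
    exact mul_le_mul_of_nonneg_left hΔℓ (by positivity)
  have hpm0 : 0 < ε0 / (ℓ * δ) := by positivity
  have hpmΔ0 : 0 ≤ ε0 / (ℓ * δ) * Δ := by positivity
  refine ⟨{ Δ := Δ, ℓ := ℓ, R := R, M0 := M0, M := M, Nth := Nth, ζ := ζ, κ := κ, γ := γ, η := η,
            β2 := β2, β1 := β1, K := K, δ := δ, κ1 := κ1, κ3 := κ3, Θ := Θ, kk := kk, r := r,
            eps2 := eps2, ε0 := ε0, θ := θ, c1 := c1,
            hΔ := hΔ1, hℓ := hℓ1, hR := hR, hM0 := hM0, hNth := hNth1, hζ := hζ, hζ1 := hζ1,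
            hκ := hκ, hκ' := hκ', hγ := hγ, hγ' := hγ', hη := hη, hη' := hη', hβ2 := hβ2,
            hβ2' := hβ2', hβ1 := hβ1def, hK := hKdef, hδ := hδ, hδ' := hδ', hκ1 := hκ1, hκ3 := hκ3,
            hΘ := hΘ, hkk := hkk, hr := hr, hr' := hr1, heps2 := heps2, hε0 := hε0, hε0' := hε01,
            hθ := hθ, hc1 := hc1, hζℓ := hζℓ, hpm1 := ?_, hpmΘ := ?_, hA1 := ?_, hA2 := ?_,
            hA3 := ?_, hA4 := ?_, hA5 := le_of_eq hβ2def, hstab := hM, hK1 := ?_, hK2 := ?_,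
            hK3 := le_of_eq hkkdef, hK4 := hK4, hR1 := hR1, hR2 := hR2, hR3 := ?_, hR4 := ?_,
            hR5 := ?_, hR6 := ?_, hR7 := hR7, hC1 := ?_, hC2 := ?_, hC3 := hC3, hC4 := hC4,
            hC5 := hN5 Δ hΔN5, hC6 := ?_ }, rfl, rfl, rfl⟩
  · -- hpm1
    have h1 := hN1 Δ hΔN1
    have h2 : ε0 / δ ≤ ℓ := h1.trans hζℓ
    rw [div_le_iff₀ (by positivity), one_mul]
    rwa [div_le_iff₀ hδ] at h2
  · -- hpmΘ
    have a1 : ε0 / (ℓ * δ) * R * (Δ + ℓ) = R * ε0 / δ * (Δ / ℓ + 1) := by field_simp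
    rw [a1, hΘdef]
    have a2 : R * ε0 / δ ≤ T1 / δ := div_le_div_of_nonneg_right hRε hδ.le
    have a3 : (Δ : ℝ) / ℓ + 1 ≤ 1 / ζ + 1 := by linarith
    exact mul_le_mul a2 a3 (by positivity) (by positivity)
  · -- hA1
    have h1 := mul_le_mul_of_nonneg_right hA1' hΔ0.le
    have h0 : 0 ≤ (1 - κ) * (1 - η) ^ 2 := mul_nonneg (by linarith) (sq_nonneg _)
    have h2 := mul_le_mul_of_nonneg_left hℓ h0
    calc (1 + γ) * (ζ + 1 / M0) * Δ ≤ (1 - κ) * (1 - η) ^ 2 * (ζ + ε / 2) * Δ := h1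
      _ = (1 - κ) * (1 - η) ^ 2 * ((ζ + ε / 2) * Δ) := by ring
      _ ≤ (1 - κ) * (1 - η) ^ 2 * ℓ := h2
  · -- hA2
    have h1 : (Δ : ℝ) ≤ ℓ / ζ := by
      rw [le_div_iff₀ hζ]; linarith
    have h2 : 2 / ζ * ℓ = 2 * (ℓ / ζ) := by ring
    rw [h2]
    have h3 : (1 + γ) * Δ ≤ 2 * Δ := mul_le_mul_of_nonneg_right (by linarith) hΔ0.le
    linarith
  · -- hA3
    rw [heps2def, hnmdef]
  · -- hA4
    have h1 : Θ * (ε0 / (ℓ * δ)) * Δ ≤ Θ * (ε0 / (δ * ζ)) := by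
      rw [mul_assoc]
      exact mul_le_mul_of_nonneg_left hpmΔ hΘ0.le
    refine h1.trans ?_
    rw [← hnmdef]
    rw [le_div_iff₀ hΘ0] at hA4a
    rw [mul_div_assoc', div_le_iff₀ (by positivity)]
    linarith
  · -- hK1
    rw [← he2def]
    rw [le_div_iff₀ (by positivity)] at hrK1
    linarith
  · -- hK2
    rw [← he2def]
    rw [le_div_iff₀ (by positivity)] at hrK2
    linarith
  · -- hR3
    rw [← hCadef]
    have h1 := hN2 Δ hΔN2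
    linarith
  · -- hR4
    rw [← hCadef]
    have h1 := hN3 Δ hΔN3
    rw [← mul_assoc]
    exact h1
  · -- hR5
    rw [← hCadef]
    have h1 := hN4 Δ hΔN4
    have h2 : R * (ε0 / (ℓ * δ)) * (Ca + M) = R * (ε0 / δ) * (Ca + M) / ℓ := by field_simp
    rw [h2, div_le_iff₀ hℓ0]
    refine h1.trans ?_
    rw [mul_assoc]
    exact mul_le_mul_of_nonneg_left hζℓ hδ.le
  · -- hR6
    rw [hδdef]
    linarith
  · -- hC1
    have h1 : (ℓ : ℝ) * (ε0 / (ℓ * δ)) = ε0 / δ := by rw [mul_comm]; exact hpm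
    rw [h1]
    rw [le_div_iff₀ hT10] at hC1a
    have h2 : (R : ℝ) * (ε0 / δ) ^ 2 = R * ε0 * ε0 / δ ^ 2 := by field_simp
    rw [h2, div_le_iff₀ (by positivity)]
    have h3 : R * ε0 * ε0 ≤ T1 * ε0 := mul_le_mul_of_nonneg_right hRε hε0.le
    linarith
  · -- hC2
    rw [hpm]
    have h1 : ε0 / (δ * ζ) ≤ 1 := by
      rw [div_le_one (by positivity)]; exact hδζ
    have h2 : Real.exp (2 + 2 * (ε0 / (ℓ * δ) * Δ)) ≤ e4 := by
      rw [he4def, Real.exp_le_exp]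
      linarith
    calc R * (ε0 / δ) * (ε0 / (ℓ * δ) * Δ) * Real.exp (2 + 2 * (ε0 / (ℓ * δ) * Δ))
        ≤ R * (ε0 / δ) * (ε0 / (δ * ζ)) * e4 := by gcongr
      _ = R * ε0 * ε0 * e4 / (δ ^ 2 * ζ) := by field_simp
      _ ≤ κ3 / 2 := by
        rw [div_le_iff₀ (by positivity)]
        rw [le_div_iff₀ (by positivity)] at hC2a
        have h3 : R * ε0 * (ε0 * e4) ≤ T1 * (ε0 * e4) :=
          mul_le_mul_of_nonneg_right hRε (by positivity)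
        have h4 : (R : ℝ) * ε0 * ε0 * e4 = R * ε0 * (ε0 * e4) := by ring
        have h5 : ε0 * (T1 * e4) = T1 * (ε0 * e4) := by ring
        rw [h4]
        rw [h5] at hC2a
        exact h3.trans hC2a
  · -- hC6
    have h1 : κ1 + 4 * κ3 ≤ δ * ζ := by
      rw [hκ1def, hκ3def]
      have : 0 < δ * ζ := by positivity
      linarith
    calc (κ1 + 4 * κ3) * Δ ≤ δ * ζ * Δ := mul_le_mul_of_nonneg_right h1 hΔ0.le
      _ = δ * (ζ * Δ) := by ring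
      _ ≤ δ * ℓ := mul_le_mul_of_nonneg_left hζℓ hδ.le

end Vu80
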