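import Pool.Agent.Lib_helper80.Vu.Stmts

/-!
# Vu's conjecture (list version): existence of self consistent rates
-/

set_option autoImplicit false

open scoped Classical
open Finset

noncomputable section

namespace Vu80

namespace RatesAux

section Prob

variable {I : Type} [Fintype I]

/-- the expectation of a function depending only on `S` depends only on the rates on `S` -/
lemma Ex_congr_of_dep {p p' : I → ℝ} {S : Set I} (hp : ∀ i ∈ S, p i = p' i)
    {f : (I → Bool) → ℝ} (hf : Dep S f) : Ex p f = Ex p' f := by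
  have main : ∀ p : I → ℝ, Ex p f = ∑ a : ({i // i ∈ S} → Bool),
      (∏ i, (if a i = true then p i else 1 - p i)) *
        f (fun i => if h : i ∈ S then a ⟨i, h⟩ else false) := by
    intro p
    unfold Ex wt
    rw [← Equiv.sum_comp (Equiv.piEquivPiSubtypeProd (fun i => i ∈ S) (fun _ : I => Bool)).symm]
    rw [Fintype.sum_prod_type]
    refine Finset.sum_congr rfl fun a _ => ?_
    have h1 : ∀ b : ({i // ¬ i ∈ S} → Bool),
        (∏ i, (if (Equiv.piEquivPiSubtypeProd (fun i => i ∈ S) (fun _ : I => Bool)).symm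
          (a, b) i = true then p i else 1 - p i)) *
          f ((Equiv.piEquivPiSubtypeProd (fun i => i ∈ S) (fun _ : I => Bool)).symm (a, b)) =
        ((∏ i, (if a i = true then p i else 1 - p i)) *
          f (fun i => if h : i ∈ S then a ⟨i, h⟩ else false)) *
        ∏ i : {i // ¬ i ∈ S}, (if b i = true then p i else 1 - p i) := by
      intro b
      rw [← Fintype.prod_subtype_mul_prod_subtype (fun i => i ∈ S)]
      have e1 : f ((Equiv.piEquivPiSubtypeProd (fun i => i ∈ S) (fun _ : I => Bool)).symm (a, b)) =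
          f (fun i => if h : i ∈ S then a ⟨i, h⟩ else false) := by
        refine hf _ _ fun i hi => ?_
        simp [Equiv.piEquivPiSubtypeProd, hi]
      have e2 : ∀ i : {i // i ∈ S},
          (if (Equiv.piEquivPiSubtypeProd (fun i => i ∈ S) (fun _ : I => Bool)).symm
            (a, b) (i : I) = true then p i else 1 - p i) = (if a i = true then p i else 1 - p i) := by
        intro i
        simp [Equiv.piEquivPiSubtypeProd, i.2]
      have e3 : ∀ i : {i // ¬ i ∈ S},
          (if (Equiv.piEquivPiSubtypeProd (fun i => i ∈ S) (fun _ : I => Bool)).symm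
            (a, b) (i : I) = true then p i else 1 - p i) = (if b i = true then p i else 1 - p i) := by
        intro i
        simp [Equiv.piEquivPiSubtypeProd, i.2]
      rw [e1, Finset.prod_congr rfl fun i _ => e2 i, Finset.prod_congr rfl fun i _ => e3 i]
      ring
    rw [Finset.sum_congr rfl fun b _ => h1 b, ← Finset.mul_sum]
    have h2 : ∑ b : ({i // ¬ i ∈ S} → Bool), ∏ i : {i // ¬ i ∈ S},
        (if b i = true then p i else 1 - p i) = 1 := by
      have h3 := Finset.prod_univ_sum (fun _ : {i // ¬ i ∈ S} => (univ : Finset Bool))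
        (fun (i : {i // ¬ i ∈ S}) (c : Bool) => if c = true then p i else 1 - p i)
      rw [Fintype.piFinset_univ] at h3
      rw [← h3]
      exact Finset.prod_eq_one fun i _ => by simp
    rw [h2, mul_one]
  rw [main p, main p']
  refine Finset.sum_congr rfl fun a _ => ?_
  congr 1
  refine Finset.prod_congr rfl fun i _ => ?_
  rw [hp i i.2]

lemma Pr_congr_of_dep {p p' : I → ℝ} {S : Set I} (hp : ∀ i ∈ S, p i = p' i)
    {A : (I → Bool) → Prop} (hA : Dep S A) : Pr p A = Pr p' A := by
  unfold Pr
  refine Ex_congr_of_dep hp fun ξ ξ' h => ?_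
  have := hA ξ ξ' h
  simp only [this]

lemma wt_nonneg {p : I → ℝ} (hp : ∀ i, 0 ≤ p i ∧ p i ≤ 1) (ξ : I → Bool) : 0 ≤ wt p ξ := by
  unfold wt
  refine Finset.prod_nonneg fun i _ => ?_
  split_ifs
  · exact (hp i).1
  · linarith [(hp i).2]

lemma Pr_nonneg {p : I → ℝ} (hp : ∀ i, 0 ≤ p i ∧ p i ≤ 1) (A : (I → Bool) → Prop) :
    0 ≤ Pr p A := by
  unfold Pr Ex
  refine Finset.sum_nonneg fun ξ _ => mul_nonneg (wt_nonneg hp ξ) ?_
  beta_reduce
  split_ifs <;> norm_num

end Prob

section Proc

variable {R : ℕ} {X : Type}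

lemma on_congr {ξ ξ' : Coins R X} {s : ℕ} (h : ∀ i : Fin R × X, (i.1 : ℕ) < s → ξ i = ξ' i)
    {t : ℕ} (ht : t < s) (x : X) : on ξ t x ↔ on ξ' t x := by
  unfold on
  constructor
  · rintro ⟨h1, h2⟩
    exact ⟨h1, by rw [← h (⟨t, h1⟩, x) ht]; exact h2⟩
  · rintro ⟨h1, h2⟩
    exact ⟨h1, by rw [h (⟨t, h1⟩, x) ht]; exact h2⟩

lemma blk_congr (nb : X → Finset X) {ξ ξ' : Coins R X} {s : ℕ}
    (h : ∀ i : Fin R × X, (i.1 : ℕ) < s → ξ i = ξ' i) :
    ∀ t ≤ s, ∀ x, blk nb ξ t x ↔ blk nb ξ' t x := by
  intro t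
  induction t with
  | zero => intro _ x; simp [blk]
  | succ t ih =>
    intro ht x
    have h1 := ih (by omega)
    unfold blk
    rw [h1 x]
    have h2 : ∀ y, (on ξ t y ∧ ¬ blk nb ξ t y) ↔ (on ξ' t y ∧ ¬ blk nb ξ' t y) := by
      intro y
      rw [on_congr h (by omega) y, h1 y]
    simp only [h2]

lemma act_congr (nb : X → Finset X) {ξ ξ' : Coins R X} {s : ℕ}
    (h : ∀ i : Fin R × X, (i.1 : ℕ) < s → ξ i = ξ' i) {t : ℕ} (ht : t < s) (x : X) :
    act nb ξ t x ↔ act nb ξ' t x := by
  unfold act
  rw [on_congr h ht x, blk_congr nb h t ht.le x]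

lemma avd_dep (nb : X → Finset X) (s : ℕ) (A : Finset X) :
    Dep {i : Fin R × X | (i.1 : ℕ) < s} (fun ξ : Coins R X => avd nb ξ s A) := by
  intro ξ ξ' h
  have h' : ∀ i : Fin R × X, (i.1 : ℕ) < s → ξ i = ξ' i := fun i hi => h i hi
  simp only [eq_iff_iff]
  unfold avd
  constructor
  · intro h1 t ht x hx
    rw [← act_congr nb h' ht x]
    exact h1 t ht x hx
  · intro h1 t ht x hx
    rw [act_congr nb h' ht x]
    exact h1 t ht x hx

variable [Fintype X]

lemma av_congr (nb : X → Finset X) {p p' : ℕ → X → ℝ} {s : ℕ} (hp : ∀ t < s, p t = p' t)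
    (A : Finset X) : av nb R p s A = av nb R p' s A := by
  unfold av
  refine Pr_congr_of_dep (S := {i : Fin R × X | (i.1 : ℕ) < s}) (fun i hi => ?_)
    (avd_dep nb s A)
  unfold rt
  rw [hp _ hi]

end Proc

end RatesAux

open RatesAux

theorem rates : S_RATES := by
  intro P V X _ _ C
  have hℓ : (0 : ℝ) < P.ℓ := by
    have := P.hℓ
    exact_mod_cast this
  have hpm : 0 < P.pm := by
    unfold Par.pm
    exact div_pos P.hε0 (mul_pos hℓ P.hδ)
  have hpm1 : P.pm ≤ 1 := P.hpm1
  have key : ∀ k : ℕ, ∃ p : ℕ → X → ℝ, (∀ t h, 0 ≤ p t h) ∧ (∀ t h, p t h ≤ P.pm) ∧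
      (∀ t < k, ∀ h, p t h * C.cc P.R p t h ≤ P.ε0 / P.ℓ) ∧
      (∀ t < k, ∀ h, P.δ ≤ C.cc P.R p t h → p t h * C.cc P.R p t h = P.ε0 / P.ℓ) := by
    intro k
    induction k with
    | zero =>
      refine ⟨fun _ _ => 0, fun _ _ => le_rfl, fun _ _ => hpm.le, ?_, ?_⟩
      · intro t ht
        exact absurd ht (Nat.not_lt_zero t)
      · intro t ht
        exact absurd ht (Nat.not_lt_zero t)
    | succ k ih =>
      obtain ⟨p, h0, h1, h2, h3⟩ := ih
      set p' : ℕ → X → ℝ := fun t h =>
        if t = k then min P.pm (P.ε0 / (P.ℓ * C.cc P.R p k h)) else p t h with hp'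
      have hagree : ∀ t ≤ k, ∀ h, C.cc P.R p' t h = C.cc P.R p t h := by
        intro t ht h
        unfold Cov.cc
        refine av_congr C.nb (fun t' ht' => ?_) _
        funext x
        simp only [hp']
        rw [if_neg (by omega)]
      have hcc : ∀ h, 0 ≤ C.cc P.R p k h := by
        intro h
        unfold Cov.cc av
        refine Pr_nonneg (fun i => ?_) _
        exact ⟨h0 _ _, (h1 _ _).trans hpm1⟩
      have hk : ∀ h, p' k h = min P.pm (P.ε0 / (P.ℓ * C.cc P.R p k h)) := by
        intro h
        simp [hp']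
      have hne : ∀ t, t ≠ k → ∀ h, p' t h = p t h := by
        intro t ht h
        simp [hp', ht]
      refine ⟨p', ?_, ?_, ?_, ?_⟩
      · intro t h
        rcases eq_or_ne t k with rfl | ht
        · rw [hk h]
          exact le_min hpm.le (div_nonneg P.hε0.le (mul_nonneg hℓ.le (hcc h)))
        · rw [hne t ht]
          exact h0 t h
      · intro t h
        rcases eq_or_ne t k with rfl | ht
        · rw [hk h]
          exact min_le_left _ _
        · rw [hne t ht]
          exact h1 t h
      · intro t ht h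
        rcases eq_or_ne t k with rfl | htk
        · rw [hagree t le_rfl, hk h]
          rcases (hcc h).eq_or_lt with hc | hc
          · rw [← hc, mul_zero]
            exact div_nonneg P.hε0.le hℓ.le
          · calc min P.pm (P.ε0 / (P.ℓ * C.cc P.R p t h)) * C.cc P.R p t h ≤
                  (P.ε0 / (P.ℓ * C.cc P.R p t h)) * C.cc P.R p t h :=
                  mul_le_mul_of_nonneg_right (min_le_right _ _) hc.le
              _ = P.ε0 / P.ℓ := by
                  field_simp
        · rw [hagree t (by omega), hne t htk]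
          exact h2 t (by omega) h
      · intro t ht h hδ
        rcases eq_or_ne t k with rfl | htk
        · rw [hagree t le_rfl] at hδ ⊢
          rw [hk h]
          have hc : 0 < C.cc P.R p t h := P.hδ.trans_le hδ
          have h4 : P.ε0 / (P.ℓ * C.cc P.R p t h) ≤ P.pm := by
            unfold Par.pm
            exact div_le_div_of_nonneg_left P.hε0.le (mul_pos hℓ P.hδ)
              (mul_le_mul_of_nonneg_left hδ hℓ.le)
          rw [min_eq_right h4]
          field_simp
        · rw [hagree t (by omega)] at hδ ⊢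
          rw [hne t htk]
          exact h3 t (by omega) h hδ
  obtain ⟨p, h0, h1, h2, h3⟩ := key P.R
  exact ⟨p, h0, h1, h2, h3⟩

end Vu80
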