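import Pool.Agent.Lib_helper80.Vu.Stmts

/-!
# The recursions (section 6 of the paper)
-/

set_option autoImplicit false
set_option linter.unusedSectionVars false

open scoped Classical
open Finset

noncomputable section

namespace Vu80

/-! ### round 0 -/

theorem REC_sum_wt {I : Type} [Fintype I] (p : I → ℝ) : ∑ ξ : I → Bool, wt p ξ = 1 := by
  unfold wt
  have h := Finset.prod_univ_sum (fun _ : I => (Finset.univ : Finset Bool))
    (fun (i : I) (b : Bool) => if b = true then p i else 1 - p i)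
  rw [Fintype.piFinset_univ] at h
  rw [← h]
  refine Finset.prod_eq_one fun i _ => ?_
  rw [Fintype.sum_bool]
  simp

theorem REC_av_zero {X : Type} [Fintype X] (nb : X → Finset X) (R : ℕ) (p : ℕ → X → ℝ)
    (A : Finset X) : av nb R p 0 A = 1 := by
  unfold av Pr Ex
  have h : ∀ ξ : Coins R X, avd nb ξ 0 A := fun ξ t ht => absurd ht (Nat.not_lt_zero t)
  simp only [h, if_true, mul_one]
  exact REC_sum_wt _

/-! ### numerical facts -/

section num

variable (P : Par)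

/-- the contraction factor -/
def REC_q : ℝ := 1 - P.ε0 + P.ε0 ^ 2 / (2 * P.δ ^ 2)

/-- the error in the bound of `un` -/
def REC_e2 : ℝ := 2 * P.Ca / (P.δ * P.Δ)

/-- the error in the recursion for `cc` -/
def REC_e1 : ℝ := P.pm * (P.Ca + P.M)

/-- the bound of `un` -/
def REC_ub (t : ℕ) : ℝ := REC_q P ^ t + REC_e2 P

/-- the loss of `cc` in one round -/
def REC_x (t : ℕ) : ℝ := P.K / P.ζ * P.ε0 * REC_ub P t

theorem REC_Δpos : (0 : ℝ) < P.Δ := by exact_mod_cast P.hΔ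

theorem REC_ℓpos : (0 : ℝ) < P.ℓ := by exact_mod_cast P.hℓ

theorem REC_Ca_nonneg : 0 ≤ P.Ca := by
  unfold Par.Ca
  have := P.hΘ
  have := Real.exp_pos (2 * P.Θ)
  positivity

theorem REC_pm_nonneg : 0 ≤ P.pm := by
  unfold Par.pm
  have h1 := P.hε0
  have h2 := P.hδ
  have h3 := REC_ℓpos P
  positivity

theorem REC_e1_nonneg : 0 ≤ REC_e1 P := by
  unfold REC_e1
  have h1 := REC_Ca_nonneg P
  have h2 := REC_pm_nonneg P
  positivity

theorem REC_e2_nonneg : 0 ≤ REC_e2 P := by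
  unfold REC_e2
  have h1 := REC_Ca_nonneg P
  have h2 := P.hδ
  have h3 := REC_Δpos P
  positivity

theorem REC_sq_le : P.ε0 ^ 2 / (2 * P.δ ^ 2) ≤ P.ε0 * P.γ / 4 := by
  have h1 := P.hR1
  have h2 := P.hδ
  have h3 := P.hε0
  rw [div_le_iff₀ (by positivity)]
  have h4 := mul_le_mul_of_nonneg_left h1 h3.le
  nlinarith

theorem REC_q_nonneg : 0 ≤ REC_q P := by
  unfold REC_q
  have h1 := P.hε0'
  have h2 := P.hδ
  have : 0 ≤ P.ε0 ^ 2 / (2 * P.δ ^ 2) := by positivity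
  linarith

theorem REC_q_le : REC_q P ≤ 1 - P.ε0 * (1 - P.γ / 4) := by
  unfold REC_q
  have := REC_sq_le P
  linarith

theorem REC_q_le' : REC_q P ≤ 1 - P.ε0 / 2 := by
  have h1 := REC_q_le P
  have h2 := P.hε0
  have h3 := P.hγ'
  nlinarith

theorem REC_ub_nonneg (t : ℕ) : 0 ≤ REC_ub P t := by
  unfold REC_ub
  have h1 := REC_q_nonneg P
  have h2 := REC_e2_nonneg P
  positivity

theorem REC_K_pos : 0 < P.K := by
  have h1 : 0 < P.β1 := by
    rw [P.hβ1]
    have := P.hκ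
    have := P.hβ2
    positivity
  rw [P.hK]
  positivity

theorem REC_e2_le_one : REC_e2 P ≤ 1 := by
  unfold REC_e2
  have h1 := P.hR4
  have h2 := P.hδ
  have h3 := REC_Δpos P
  rw [div_le_iff₀ (by positivity)]
  have h4 : min 1 (P.κ1 / 2) * (P.δ * P.Δ) ≤ 1 * (P.δ * P.Δ) :=
    mul_le_mul_of_nonneg_right (min_le_left _ _) (by positivity)
  have h5 : P.Ca = 2 * P.Θ * (4 * P.Θ + 1) * Real.exp (2 * P.Θ) := rfl
  rw [h5]
  linarith

theorem REC_e2_le_kap : REC_e2 P ≤ P.κ1 / 2 := by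
  unfold REC_e2
  have h1 := P.hR4
  have h2 := P.hδ
  have h3 := REC_Δpos P
  rw [div_le_iff₀ (by positivity)]
  have h4 : min 1 (P.κ1 / 2) * (P.δ * P.Δ) ≤ P.κ1 / 2 * (P.δ * P.Δ) :=
    mul_le_mul_of_nonneg_right (min_le_right _ _) (by positivity)
  have h5 : P.Ca = 2 * P.Θ * (4 * P.Θ + 1) * Real.exp (2 * P.Θ) := rfl
  rw [h5]
  linarith

theorem REC_hR3 : 3 * (P.R * P.ε0) * P.Ca ≤ P.γ / 2 * (P.δ * P.Δ) := P.hR3

/-- `ε0 Σ q^t ≤ 1 + γ/2` -/
theorem REC_geom (s : ℕ) : P.ε0 * ∑ t ∈ range s, REC_q P ^ t ≤ 1 + P.γ / 2 := by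
  have h0 := REC_q_nonneg P
  have h1 : (1 - REC_q P) * ∑ t ∈ range s, REC_q P ^ t = 1 - REC_q P ^ s := mul_neg_geom_sum _ _
  have h2 : 0 ≤ REC_q P ^ s := pow_nonneg h0 s
  have h3 : 0 ≤ ∑ t ∈ range s, REC_q P ^ t := Finset.sum_nonneg fun t _ => pow_nonneg h0 t
  have h4 := REC_q_le P
  set S := ∑ t ∈ range s, REC_q P ^ t
  have h5 : P.ε0 * (1 - P.γ / 4) * S ≤ 1 := by
    have : P.ε0 * (1 - P.γ / 4) * S ≤ (1 - REC_q P) * S :=
      mul_le_mul_of_nonneg_right (by linarith) h3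
    linarith
  have h6 := P.hγ
  have h7 := P.hγ'
  by_contra hc
  push Not at hc
  have h8 : (1 + P.γ / 2) * (1 - P.γ / 4) < (P.ε0 * S) * (1 - P.γ / 4) :=
    mul_lt_mul_of_pos_right hc (by linarith)
  nlinarith

/-- sum of the bounds -/
theorem REC_sum_ub (s : ℕ) (hs : s ≤ P.R) :
    P.ε0 * ∑ t ∈ range s, REC_ub P t ≤ 1 + P.γ / 2 + P.ε0 * (P.R * REC_e2 P) := by
  unfold REC_ub
  rw [Finset.sum_add_distrib, Finset.sum_const, card_range, nsmul_eq_mul, mul_add]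
  have h1 := REC_geom P s
  have h2 : (s : ℝ) * REC_e2 P ≤ P.R * REC_e2 P :=
    mul_le_mul_of_nonneg_right (by exact_mod_cast hs) (REC_e2_nonneg P)
  have h3 := mul_le_mul_of_nonneg_left h2 P.hε0.le
  linarith

theorem REC_Re2 : P.ε0 * (P.R * REC_e2 P) ≤ P.γ / 3 := by
  have h1 := REC_hR3 P
  have h2 := P.hδ
  have h3 := REC_Δpos P
  have h4 : P.ε0 * (P.R * REC_e2 P) = (3 * (P.R * P.ε0) * P.Ca) / (P.δ * P.Δ) * (2 / 3) := by
    unfold REC_e2
    ring
  rw [h4]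
  have h5 : (3 * (P.R * P.ε0) * P.Ca) / (P.δ * P.Δ) ≤ P.γ / 2 := by
    rw [div_le_iff₀ (by positivity)]
    exact h1
  linarith

theorem REC_x_nonneg (t : ℕ) : 0 ≤ REC_x P t := by
  unfold REC_x
  have h1 := REC_K_pos P
  have h2 := P.hζ
  have h3 := P.hε0
  have h4 := REC_ub_nonneg P t
  positivity

theorem REC_ub_le (t : ℕ) : REC_ub P t ≤ 2 := by
  unfold REC_ub
  have h1 := REC_q_nonneg P
  have h2 := REC_q_le' P
  have h3 := P.hε0
  have h4 : REC_q P ^ t ≤ 1 := pow_le_one₀ h1 (by linarith)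
  have h5 := REC_e2_le_one P
  linarith

theorem REC_x_le (t : ℕ) : REC_x P t ≤ 1 / 4 := by
  unfold REC_x
  have h1 := REC_K_pos P
  have h2 := P.hζ
  have h3 := P.hR2
  have h4 := REC_ub_le P t
  have h5 := REC_ub_nonneg P t
  have h6 : P.K / P.ζ * P.ε0 ≤ 1 / 8 := by
    have : P.K / P.ζ * P.ε0 ≤ P.K / P.ζ * (P.ζ / (8 * P.K)) :=
      mul_le_mul_of_nonneg_left h3 (by positivity)
    refine this.trans_eq ?_
    field_simp
  calc P.K / P.ζ * P.ε0 * REC_ub P t ≤ 1 / 8 * REC_ub P t := mul_le_mul_of_nonneg_right h6 h5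
    _ ≤ 1 / 8 * 2 := mul_le_mul_of_nonneg_left h4 (by norm_num)
    _ = 1 / 4 := by norm_num

theorem REC_exp {x : ℝ} (h0 : 0 ≤ x) (h1 : x ≤ 1 / 4) : Real.exp (-(2 * x)) ≤ 1 - x := by
  have h2 : Real.exp (-(2 * x)) = (Real.exp (2 * x))⁻¹ := Real.exp_neg _
  have h3 : 2 * x + 1 ≤ Real.exp (2 * x) := Real.add_one_le_exp _
  rw [h2, inv_le_comm₀ (Real.exp_pos _) (by linarith)]
  refine le_trans ?_ h3
  rw [inv_le_comm₀ (by linarith) (by linarith), inv_le_iff_one_le_mul₀ (by linarith)]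
  nlinarith

/-- lower bound for `cc` -/
def REC_lb (t : ℕ) : ℝ := Real.exp (-(2 * ∑ i ∈ range t, REC_x P i)) - t * REC_e1 P

theorem REC_sum_x (s : ℕ) (hs : s ≤ P.R) : ∑ i ∈ range s, REC_x P i ≤ 2 * P.K / P.ζ := by
  have h1 := REC_sum_ub P s hs
  have h2 := REC_Re2 P
  have h3 := P.hγ'
  have h4 : P.ε0 * ∑ t ∈ range s, REC_ub P t ≤ 2 := by linarith
  have h5 : ∑ i ∈ range s, REC_x P i = P.K / P.ζ * (P.ε0 * ∑ t ∈ range s, REC_ub P t) := by
    unfold REC_x
    rw [← Finset.mul_sum]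
    ring
  have h6 := REC_K_pos P
  have h7 := P.hζ
  rw [h5]
  calc P.K / P.ζ * (P.ε0 * ∑ t ∈ range s, REC_ub P t) ≤ P.K / P.ζ * 2 :=
        mul_le_mul_of_nonneg_left h4 (by positivity)
    _ = 2 * P.K / P.ζ := by ring

theorem REC_lb_ge (s : ℕ) (hs : s ≤ P.R) : P.δ ≤ REC_lb P s := by
  unfold REC_lb
  have h1 := REC_sum_x P s hs
  have h2 : Real.exp (-(4 * P.K / P.ζ)) ≤ Real.exp (-(2 * ∑ i ∈ range s, REC_x P i)) := by
    apply Real.exp_le_exp.2
    have : 4 * P.K / P.ζ = 2 * (2 * P.K / P.ζ) := by ring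
    rw [this]
    linarith
  have h3 := P.hR6
  have h4 : (s : ℝ) * REC_e1 P ≤ P.R * REC_e1 P :=
    mul_le_mul_of_nonneg_right (by exact_mod_cast hs) (REC_e1_nonneg P)
  have h5 : P.R * REC_e1 P ≤ P.δ := by
    have h6 := P.hR5
    have h7 : P.R * REC_e1 P = P.R * (P.ε0 / (P.ℓ * P.δ)) *
        ((2 * P.Θ * (4 * P.Θ + 1) * Real.exp (2 * P.Θ)) + P.M) := by
      unfold REC_e1 Par.pm Par.Ca
      ring
    rw [h7]
    exact h6
  linarith

theorem REC_lb_step (t : ℕ) {c c' : ℝ} (hc : REC_lb P t ≤ c)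
    (hs : c * (1 - REC_x P t) - REC_e1 P ≤ c') : REC_lb P (t + 1) ≤ c' := by
  refine le_trans ?_ hs
  have h0 := REC_x_nonneg P t
  have h1 := REC_x_le P t
  have h2 := REC_exp h0 h1
  have h3 : REC_lb P t * (1 - REC_x P t) ≤ c * (1 - REC_x P t) :=
    mul_le_mul_of_nonneg_right hc (by linarith)
  have he : Real.exp (-(2 * ∑ i ∈ range (t + 1), REC_x P i)) =
      Real.exp (-(2 * ∑ i ∈ range t, REC_x P i)) * Real.exp (-(2 * REC_x P t)) := by
    rw [← Real.exp_add, Finset.sum_range_succ]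
    congr 1
    ring
  have h4 : Real.exp (-(2 * ∑ i ∈ range t, REC_x P i)) * Real.exp (-(2 * REC_x P t)) ≤
      Real.exp (-(2 * ∑ i ∈ range t, REC_x P i)) * (1 - REC_x P t) :=
    mul_le_mul_of_nonneg_left h2 (Real.exp_pos _).le
  have h5 : 0 ≤ (t : ℝ) * REC_e1 P := mul_nonneg (Nat.cast_nonneg _) (REC_e1_nonneg P)
  have h6 : (t : ℝ) * REC_e1 P * (1 - REC_x P t) ≤ t * REC_e1 P := by
    have := mul_le_mul_of_nonneg_left (show 1 - REC_x P t ≤ 1 by linarith) h5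
    linarith
  unfold REC_lb at h3 ⊢
  rw [he]
  push_cast
  nlinarith

end num

/-! ### the joint induction -/

theorem recr (hp : S_PACT) (hu : S_USTEP) (hc : S_CSTEP) (hk : S_KEY) : S_REC := by
  intro P V X _ _ C hC p hr
  have hΔ := REC_Δpos P
  have hℓ := REC_ℓpos P
  have hδ := P.hδ
  have hε := P.hε0
  have hCa := REC_Ca_nonneg P
  -- flow
  have hflow : ∀ s ≤ P.R, (∀ t < s, ∀ v, C.un P.R p t v ≤ REC_ub P t) → Flow P C p s := by
    intro s hs hun h
    have h1 : ∑ t ∈ range s, pact C.nb P.R p t h ≤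
        ∑ t ∈ range s, (P.ε0 / P.ℓ * REC_ub P t + P.pm * (P.Ca / P.Δ)) := by
      refine Finset.sum_le_sum fun t ht => ?_
      have ht' := Finset.mem_range.1 ht
      refine (hp P V X C hC p hr t (lt_of_lt_of_le ht' hs) h).trans ?_
      have := mul_le_mul_of_nonneg_left (hun t ht' (C.pv h)) (show 0 ≤ P.ε0 / P.ℓ by positivity)
      linarith
    refine h1.trans ?_
    rw [Finset.sum_add_distrib, ← Finset.mul_sum, Finset.sum_const, card_range, nsmul_eq_mul]
    have h2 := REC_sum_ub P s hs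
    have h3 : (s : ℝ) * (P.pm * (P.Ca / P.Δ)) ≤ P.R * (P.pm * (P.Ca / P.Δ)) :=
      mul_le_mul_of_nonneg_right (by exact_mod_cast hs)
        (mul_nonneg (REC_pm_nonneg P) (by positivity))
    have h4 : P.ε0 / P.ℓ * ∑ t ∈ range s, REC_ub P t =
        (P.ε0 * ∑ t ∈ range s, REC_ub P t) / P.ℓ := by ring
    have h5 : P.R * (P.pm * (P.Ca / P.Δ)) = (P.R * P.ε0 * P.Ca / (P.δ * P.Δ)) / P.ℓ := by
      unfold Par.pm
      field_simp
    have h6 : P.ε0 * (P.R * REC_e2 P) + P.R * P.ε0 * P.Ca / (P.δ * P.Δ) ≤ P.γ / 2 := by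
      have h7 : P.ε0 * (P.R * REC_e2 P) + P.R * P.ε0 * P.Ca / (P.δ * P.Δ) =
          (3 * (P.R * P.ε0) * P.Ca) / (P.δ * P.Δ) := by
        unfold REC_e2
        ring
      rw [h7, div_le_iff₀ (by positivity)]
      exact REC_hR3 P
    rw [h4]
    have h8 : (P.ε0 * ∑ t ∈ range s, REC_ub P t) / P.ℓ + (P.R * P.ε0 * P.Ca / (P.δ * P.Δ)) / P.ℓ ≤
        (1 + P.γ) / P.ℓ := by
      rw [← add_div]
      exact div_le_div_of_nonneg_right (by linarith) hℓ.le
    linarith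
  have main : ∀ s ≤ P.R, (∀ t ≤ s, ∀ v, C.un P.R p t v ≤ REC_ub P t) ∧
      (∀ t ≤ s, ∀ h, REC_lb P t ≤ C.cc P.R p t h) := by
    intro s
    induction s with
    | zero =>
      intro _
      refine ⟨fun t ht v => ?_, fun t ht h => ?_⟩
      · obtain rfl : t = 0 := by omega
        unfold Cov.un REC_ub
        rw [REC_av_zero, pow_zero]
        linarith [REC_e2_nonneg P]
      · obtain rfl : t = 0 := by omega
        unfold Cov.cc REC_lb
        rw [REC_av_zero]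
        simp
    | succ s ih =>
      intro hs
      obtain ⟨ih1, ih2⟩ := ih (by omega)
      have hcδ : ∀ h, P.δ ≤ C.cc P.R p s h := fun h =>
        (REC_lb_ge P s (by omega)).trans (ih2 s le_rfl h)
      have hfl := hflow s (by omega) (fun t ht => ih1 t ht.le)
      have hkey := hk P V X C hC p hr s (by omega) hfl hcδ
      refine ⟨fun t ht v => ?_, fun t ht h => ?_⟩
      · rcases Nat.lt_or_ge t (s + 1) with h1 | h1
        · exact ih1 t (by omega) v
        · obtain rfl : t = s + 1 := by omega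
          refine (hu P V X C hC p hr s (by omega) hcδ v).trans ?_
          have h2 : REC_q P * C.un P.R p s v ≤ REC_q P * REC_ub P s :=
            mul_le_mul_of_nonneg_left (ih1 s le_rfl v) (REC_q_nonneg P)
          have h3 : REC_q P * REC_e2 P ≤ REC_e2 P - P.ε0 / P.δ * (P.Ca / P.Δ) := by
            have h4 := mul_le_mul_of_nonneg_right (REC_q_le' P) (REC_e2_nonneg P)
            have h5 : P.ε0 / 2 * REC_e2 P = P.ε0 / P.δ * (P.Ca / P.Δ) := by
              unfold REC_e2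
              field_simp
            linarith
          have h6 : REC_q P * REC_ub P s = REC_q P ^ (s + 1) + REC_q P * REC_e2 P := by
            unfold REC_ub
            ring
          have h7 : REC_ub P (s + 1) = REC_q P ^ (s + 1) + REC_e2 P := rfl
          have h8 : (1 - P.ε0 + P.ε0 ^ 2 / (2 * P.δ ^ 2)) * C.un P.R p s v =
              REC_q P * C.un P.R p s v := rfl
          rw [h8, h7]
          linarith
      · rcases Nat.lt_or_ge t (s + 1) with h1 | h1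
        · exact ih2 t (by omega) h
        · obtain rfl : t = s + 1 := by omega
          exact REC_lb_step P s (ih2 s le_rfl h)
            (hc P V X C hC p hr s (by omega) (REC_ub P s) (ih1 s le_rfl) h (hkey h))
  obtain ⟨m1, m2⟩ := main P.R le_rfl
  refine ⟨fun h => (REC_lb_ge P P.R le_rfl).trans (m2 P.R le_rfl h), fun v => ?_⟩
  refine (m1 P.R le_rfl v).trans ?_
  unfold REC_ub
  have h1 := REC_e2_le_kap P
  have h2 : REC_q P ^ P.R ≤ P.κ1 / 2 := by
    have h3 : REC_q P ≤ Real.exp (-(P.ε0 / 2)) := by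
      have := Real.add_one_le_exp (-(P.ε0 / 2))
      linarith [REC_q_le' P]
    have h4 : REC_q P ^ P.R ≤ Real.exp (-(P.ε0 / 2)) ^ P.R :=
      pow_le_pow_left₀ (REC_q_nonneg P) h3 _
    refine h4.trans ?_
    rw [← Real.exp_nat_mul]
    have h5 : (P.R : ℝ) * -(P.ε0 / 2) = -(P.ε0 / 2 * P.R) := by ring
    rw [h5]
    exact P.hR7
  linarith

end Vu80
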