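import Pool.Agent.Lib_helper80.Vu.Stmts

/-!
# Vu's conjecture (list version): stable sets (module STAB, helper64)
-/

set_option autoImplicit false

open scoped Classical
open Finset

noncomputable section

namespace Vu80

namespace Stab

variable {V : Type} [Fintype V] {G : SimpleGraph V}

/-- the energy -/
def En (G : SimpleGraph V) (P : Finset V) : ℝ := ∑ z, phi G P z ^ 2

lemma phi_nonneg (P : Finset V) (z : V) : 0 ≤ phi G P z := by
  unfold phi; positivity

lemma phi_le_one (P : Finset V) (z : V) : phi G P z ≤ 1 := by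
  unfold phi
  apply div_le_one_of_le₀ _ (Nat.cast_nonneg _)
  exact_mod_cast card_filter_le _ _

lemma card_mul_phi {P : Finset V} (hP : P.Nonempty) (z : V) :
    (P.card : ℝ) * phi G P z = ((P.filter (fun u => G.Adj z u)).card : ℝ) := by
  unfold phi
  have h : (P.card : ℝ) ≠ 0 := by
    exact_mod_cast hP.card_pos.ne'
  field_simp

lemma sum_phi_le {P : Finset V} (hP : P.Nonempty) {Δ : ℕ}
    (hΔ : ∀ v, (univ.filter (fun u => G.Adj v u)).card ≤ Δ) : ∑ z, phi G P z ≤ Δ := by
  have h : (0 : ℝ) < P.card := by exact_mod_cast hP.card_pos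
  have h1 : (P.card : ℝ) * ∑ z, phi G P z ≤ P.card * Δ := by
    rw [mul_sum, sum_congr rfl fun z _ => card_mul_phi hP z]
    have h2 : ∑ z, (P.filter (fun u => G.Adj z u)).card =
        ∑ u ∈ P, (univ.filter (fun z => G.Adj u z)).card := by
      have h3 : ∀ z, (P.filter (fun u => G.Adj z u)).card =
          ∑ u ∈ P, if G.Adj z u then 1 else 0 := fun z => by rw [card_filter]
      have h4 : ∀ u, (univ.filter (fun z => G.Adj u z)).card =
          ∑ z, if G.Adj z u then 1 else 0 := fun u => by
        rw [card_filter]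
        exact sum_congr rfl fun z _ => by simp only [G.adj_comm]
      rw [sum_congr rfl fun z _ => h3 z, sum_comm, sum_congr rfl fun u _ => h4 u]
    have h5 : ∑ z, (P.filter (fun u => G.Adj z u)).card ≤ P.card * Δ := by
      rw [h2]
      calc ∑ u ∈ P, (univ.filter (fun z => G.Adj u z)).card ≤ ∑ _u ∈ P, Δ :=
            sum_le_sum fun u _ => hΔ u
        _ = P.card * Δ := by rw [sum_const, smul_eq_mul]
    exact_mod_cast h5
  exact le_of_mul_le_mul_left h1 h

lemma En_le {P : Finset V} (hP : P.Nonempty) {Δ : ℕ}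
    (hΔ : ∀ v, (univ.filter (fun u => G.Adj v u)).card ≤ Δ) : En G P ≤ Δ := by
  refine le_trans (sum_le_sum fun z _ => ?_) (sum_phi_le (G := G) hP hΔ)
  have h1 := phi_nonneg (G := G) P z
  have h2 := phi_le_one (G := G) P z
  nlinarith

/-- one step of the energy increment -/
lemma step {β e : ℝ} (hβ : 0 < β) (he : 0 < e) {Δ : ℕ} (hΔ1 : 1 ≤ Δ)
    (hΔ : ∀ v, (univ.filter (fun u => G.Adj v u)).card ≤ Δ) {P : Finset V} (hP : P.Nonempty)
    (hns : ¬ Stable G P β (e * Δ)) :
    ∃ P' ⊆ P, P'.Nonempty ∧ min β (e / 2) * P.card ≤ P'.card ∧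
      En G P + β * e * Δ ≤ En G P' := by
  unfold Stable at hns
  push_neg at hns
  obtain ⟨U, hUP, hU, hUc, hgt⟩ := hns
  have hΔ0 : (0 : ℝ) < Δ := by exact_mod_cast hΔ1
  set W := P \ U with hW
  have hWP : W ⊆ P := sdiff_subset
  have hWn : W.Nonempty := by
    rw [nonempty_iff_ne_empty]
    intro h0
    have h1 : P ⊆ U := by rw [← sdiff_eq_empty_iff_subset]; exact h0
    have h2 : U = P := Subset.antisymm hUP h1
    rw [h2] at hgt
    simp only [sub_self] at hgt
    have : (0 : ℝ) < e * Δ := by positivity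
    simp at hgt
    linarith
  have hcard : (P.card : ℝ) = U.card + W.card := by
    have := card_sdiff_add_card_eq_card hUP
    rw [← hW] at this
    rw [← this]
    push_cast
    ring
  have hu : (0 : ℝ) < U.card := by exact_mod_cast hU.card_pos
  have hw : (0 : ℝ) < W.card := by exact_mod_cast hWn.card_pos
  have hp : (0 : ℝ) < P.card := by exact_mod_cast hP.card_pos
  have hphi : ∀ z, (P.card : ℝ) * phi G P z = U.card * phi G U z + W.card * phi G W z := by
    intro z
    rw [card_mul_phi hP, card_mul_phi hU, card_mul_phi hWn]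
    have h1 : P.filter (fun u => G.Adj z u) =
        U.filter (fun u => G.Adj z u) ∪ W.filter (fun u => G.Adj z u) := by
      rw [← filter_union, hW, union_sdiff_of_subset hUP]
    have h2 : Disjoint (U.filter (fun u => G.Adj z u)) (W.filter (fun u => G.Adj z u)) :=
      disjoint_filter_filter disjoint_sdiff
    rw [h1, card_union_of_disjoint h2]
    push_cast
    ring
  set D : ℝ := ∑ z, (phi G U z - phi G W z) ^ 2 with hD
  set p : ℝ := (P.card : ℝ)
  set u : ℝ := (U.card : ℝ)
  set w : ℝ := (W.card : ℝ)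
  have h1 : p ^ 2 * ∑ z, (phi G U z - phi G P z) ^ 2 = w ^ 2 * D := by
    rw [hD, mul_sum, mul_sum]
    refine sum_congr rfl fun z _ => ?_
    have h := hphi z
    have h' : p * (phi G U z - phi G P z) = w * (phi G U z - phi G W z) := by
      rw [mul_sub, h, hcard]; ring
    calc p ^ 2 * (phi G U z - phi G P z) ^ 2 = (p * (phi G U z - phi G P z)) ^ 2 := by ring
      _ = w ^ 2 * (phi G U z - phi G W z) ^ 2 := by rw [h']; ring
  have h2 : p * (u * En G U + w * En G W) = p ^ 2 * En G P + u * w * D := by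
    unfold En
    rw [hD]
    simp only [mul_sum, ← sum_add_distrib]
    refine sum_congr rfl fun z _ => ?_
    have h := hphi z
    calc p * (u * phi G U z ^ 2 + w * phi G W z ^ 2)
        = (u * phi G U z + w * phi G W z) ^ 2 + u * w * (phi G U z - phi G W z) ^ 2 := by
          rw [hcard]; ring
      _ = p ^ 2 * phi G P z ^ 2 + u * w * (phi G U z - phi G W z) ^ 2 := by
          rw [← h]; ring
  have h3 : D ≤ 2 * Δ := by
    have h4 : D ≤ En G U + En G W := by
      unfold En
      rw [hD, ← sum_add_distrib]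
      refine sum_le_sum fun z _ => ?_
      have a := phi_nonneg (G := G) U z
      have b := phi_nonneg (G := G) W z
      nlinarith
    have h5 := En_le (G := G) hU hΔ
    have h6 := En_le (G := G) hWn hΔ
    linarith
  have h4 : p ^ 2 * (e * Δ) < w ^ 2 * D := by
    rw [← h1]
    exact mul_lt_mul_of_pos_left hgt (by positivity)
  have hwp : w ≤ p := by linarith
  have h5 : e / 2 * p ≤ w := by
    have a1 : p ^ 2 * (e * Δ) < w * p * (2 * Δ) := by
      calc p ^ 2 * (e * Δ) < w ^ 2 * D := h4
        _ ≤ w ^ 2 * (2 * Δ) := by gcongr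
        _ ≤ w * p * (2 * Δ) := by
          have : w ^ 2 ≤ w * p := by nlinarith
          gcongr
    have a2 : (p * Δ) * (p * e) < (p * Δ) * (2 * w) := by nlinarith
    have a3 := lt_of_mul_lt_mul_left a2 (by positivity)
    linarith
  have h6 : β * p ^ 2 * e * Δ ≤ u * w * D := by
    have hD0 : 0 ≤ D := sum_nonneg fun z _ => sq_nonneg _
    have a1 : u * (p ^ 2 * (e * Δ)) ≤ u * w * D * p := by
      calc u * (p ^ 2 * (e * Δ)) ≤ u * (w ^ 2 * D) := by
            exact mul_le_mul_of_nonneg_left h4.le hu.le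
        _ = u * w * D * w := by ring
        _ ≤ u * w * D * p := by gcongr
    have a2 : β * p * (p ^ 2 * (e * Δ)) ≤ u * (p ^ 2 * (e * Δ)) := by gcongr
    have a3 : p * (β * p ^ 2 * e * Δ) ≤ p * (u * w * D) := by nlinarith
    exact le_of_mul_le_mul_left a3 hp
  by_cases hcase : En G P + β * e * Δ ≤ En G U
  · refine ⟨U, hUP, hU, ?_, hcase⟩
    refine le_trans ?_ hUc
    exact mul_le_mul_of_nonneg_right (min_le_left _ _) hp.le
  · refine ⟨W, hWP, hWn, ?_, ?_⟩
    · refine le_trans ?_ h5
      exact mul_le_mul_of_nonneg_right (min_le_right _ _) hp.le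
    · by_contra hcase2
      push_neg at hcase hcase2
      have a1 : u * En G U < u * (En G P + β * e * Δ) := mul_lt_mul_of_pos_left hcase hu
      have a2 : w * En G W < w * (En G P + β * e * Δ) := mul_lt_mul_of_pos_left hcase2 hw
      have a3 : p * (u * En G U + w * En G W) < p * (p * (En G P + β * e * Δ)) := by
        apply mul_lt_mul_of_pos_left _ hp
        calc u * En G U + w * En G W < u * (En G P + β * e * Δ) + w * (En G P + β * e * Δ) :=
              add_lt_add a1 a2
          _ = p * (En G P + β * e * Δ) := by rw [hcard]; ring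
      rw [h2] at a3
      nlinarith

end Stab

open Stab in
theorem stab : S_STAB := by
  intro β e hβ hβ1 he M0 hM0
  set ρ : ℝ := min β (e / 2) with hρ
  have hρ0 : 0 < ρ := lt_min hβ (by positivity)
  have hρ1 : ρ ≤ 1 := (min_le_left _ _).trans hβ1
  obtain ⟨K, hK⟩ := exists_nat_gt (1 / (β * e))
  have hK' : 1 < K * (β * e) := by
    rwa [div_lt_iff₀ (by positivity)] at hK
  refine ⟨⌈(M0 : ℝ) * (ρ⁻¹) ^ K⌉₊, ?_⟩
  intro V _ G Δ hΔ1 hΔ Q hQ
  have hΔ0 : (0 : ℝ) < Δ := by exact_mod_cast hΔ1
  have hM0' : (1 : ℝ) ≤ M0 := by exact_mod_cast hM0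
  have hinv : 1 ≤ ρ⁻¹ := by
    rw [one_le_inv₀ hρ0]; exact hρ1
  have main : ∀ k : ℕ, k ≤ K → ∀ P ⊆ Q, (M0 : ℝ) * (ρ⁻¹) ^ k ≤ P.card →
      ((K : ℝ) - k) * (β * e) * Δ ≤ En G P → ∃ P' ⊆ Q, M0 ≤ P'.card ∧ Stable G P' β (e * Δ) := by
    intro k
    induction k with
    | zero =>
      intro _ P hPQ hPc hPe
      exfalso
      rw [pow_zero, mul_one] at hPc
      have hP : P.Nonempty := by
        rw [← card_pos]
        have : (0 : ℝ) < P.card := by linarith
        exact_mod_cast this
      have h1 := En_le (G := G) hP hΔ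
      simp only [Nat.cast_zero, sub_zero] at hPe
      have : (1 : ℝ) * Δ < K * (β * e) * Δ := mul_lt_mul_of_pos_right hK' hΔ0
      linarith
    | succ k ih =>
      intro hk P hPQ hPc hPe
      have hpow : (1 : ℝ) ≤ (ρ⁻¹) ^ (k + 1) := one_le_pow₀ hinv
      have hPM : (M0 : ℝ) ≤ P.card := by
        refine le_trans ?_ hPc
        nlinarith
      have hP : P.Nonempty := by
        rw [← card_pos]
        have : (0 : ℝ) < P.card := by linarith
        exact_mod_cast this
      by_cases hs : Stable G P β (e * Δ)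
      · exact ⟨P, hPQ, by exact_mod_cast hPM, hs⟩
      · obtain ⟨P', hP'P, hP'n, hP'c, hP'e⟩ := step hβ he hΔ1 hΔ hP hs
        refine ih (by omega) P' (hP'P.trans hPQ) ?_ ?_
        · refine le_trans ?_ hP'c
          rw [← hρ]
          calc (M0 : ℝ) * (ρ⁻¹) ^ k = ρ * (M0 * (ρ⁻¹) ^ (k + 1)) := by
                rw [pow_succ]; field_simp
            _ ≤ ρ * P.card := mul_le_mul_of_nonneg_left hPc hρ0.le
        · push_cast at hPe ⊢
          nlinarith
  refine main K le_rfl Q (Subset.refl _) ((Nat.le_ceil _).trans (by exact_mod_cast hQ)) ?_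
  rw [sub_self, zero_mul, zero_mul]
  exact sum_nonneg fun z _ => sq_nonneg _

end Vu80
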