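import Pool.Agent.Lib_helper80.Vu.Stmts

/-!
# Vu's conjecture (list version): module STEP  (6.1), (6.2), (6.4)
-/

set_option autoImplicit false

open scoped Classical
open Finset

noncomputable section

namespace Vu80

namespace Step

/-! ### Facts on finite product spaces -/

section prob

variable {I : Type} [Fintype I]

theorem wt_nonneg (p : I → ℝ) (hp : ∀ i, 0 ≤ p i ∧ p i ≤ 1) (ξ : I → Bool) : 0 ≤ wt p ξ := by
  unfold wt
  apply Finset.prod_nonneg
  intro i _
  split_ifs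
  · exact (hp i).1
  · linarith [(hp i).2]

theorem Ex_mono (p : I → ℝ) (hp : ∀ i, 0 ≤ p i ∧ p i ≤ 1) {f g : (I → Bool) → ℝ}
    (h : ∀ ξ, f ξ ≤ g ξ) : Ex p f ≤ Ex p g :=
  Finset.sum_le_sum (fun ξ _ => mul_le_mul_of_nonneg_left (h ξ) (wt_nonneg p hp ξ))

theorem Ex_add (p : I → ℝ) (f g : (I → Bool) → ℝ) :
    Ex p (fun ξ => f ξ + g ξ) = Ex p f + Ex p g := by
  unfold Ex
  rw [← Finset.sum_add_distrib]
  exact Finset.sum_congr rfl (fun ξ _ => by ring)

theorem Ex_sub (p : I → ℝ) (f g : (I → Bool) → ℝ) :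
    Ex p (fun ξ => f ξ - g ξ) = Ex p f - Ex p g := by
  unfold Ex
  rw [← Finset.sum_sub_distrib]
  exact Finset.sum_congr rfl (fun ξ _ => by ring)

theorem Ex_mul (p : I → ℝ) (c : ℝ) (f : (I → Bool) → ℝ) :
    Ex p (fun ξ => c * f ξ) = c * Ex p f := by
  unfold Ex
  rw [Finset.mul_sum]
  exact Finset.sum_congr rfl (fun ξ _ => by ring)

theorem Ex_sum (p : I → ℝ) {J : Type} (s : Finset J) (f : J → (I → Bool) → ℝ) :
    Ex p (fun ξ => ∑ j ∈ s, f j ξ) = ∑ j ∈ s, Ex p (f j) := by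
  unfold Ex
  rw [Finset.sum_comm]
  exact Finset.sum_congr rfl (fun ξ _ => by rw [Finset.mul_sum])

theorem Ex_one (p : I → ℝ) : Ex p (fun _ => 1) = 1 := by
  have h := Finset.prod_univ_sum (fun _ : I => (Finset.univ : Finset Bool))
    (fun i b => if b = true then p i else 1 - p i)
  rw [Fintype.piFinset_univ] at h
  unfold Ex wt
  simp only [mul_one]
  rw [← h]
  apply Finset.prod_eq_one
  intro i _
  simp

theorem Ex_coin (p : I → ℝ) (i : I) (f : (I → Bool) → ℝ)
    (hf : ∀ ξ b, f (Function.update ξ i b) = f ξ) :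
    Ex p (fun ξ => (if ξ i = true then 1 else 0) * f ξ) = p i * Ex p f := by
  rw [← sub_eq_zero, ← Ex_mul, ← Ex_sub]
  unfold Ex
  apply Finset.sum_involution (fun ξ _ => Function.update ξ i (!ξ i))
  · intro ξ _
    have h1 : wt p ξ = (if ξ i = true then p i else 1 - p i) *
        ∏ j ∈ univ.erase i, (if ξ j = true then p j else 1 - p j) :=
      (Finset.mul_prod_erase univ (fun j => if ξ j = true then p j else 1 - p j) (mem_univ i)).symm
    have h2 : wt p (Function.update ξ i (!ξ i)) = (if (!ξ i) = true then p i else 1 - p i) *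
        ∏ j ∈ univ.erase i, (if ξ j = true then p j else 1 - p j) := by
      unfold wt
      rw [← Finset.mul_prod_erase univ _ (mem_univ i)]
      congr 1
      · rw [Function.update_self]
      · apply Finset.prod_congr rfl
        intro j hj
        rw [Function.update_of_ne (Finset.ne_of_mem_erase hj)]
    rw [h1, h2]
    beta_reduce
    rw [hf, Function.update_self]
    cases ξ i <;> simp <;> ring
  · intro ξ _ _ h
    have := congrFun h i
    rw [Function.update_self] at this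
    cases hx : ξ i <;> rw [hx] at this <;> simp at this
  · intro ξ _
    funext j
    by_cases hj : j = i
    · subst hj
      rw [Function.update_self, Function.update_self, Bool.not_not]
    · rw [Function.update_of_ne hj, Function.update_of_ne hj]
  · intro ξ _
    exact mem_univ _

theorem Pr_mono (p : I → ℝ) (hp : ∀ i, 0 ≤ p i ∧ p i ≤ 1) {A B : (I → Bool) → Prop}
    (h : ∀ ξ, A ξ → B ξ) : Pr p A ≤ Pr p B := by
  apply Ex_mono p hp
  intro ξ
  by_cases hA : A ξ
  · rw [if_pos hA, if_pos (h ξ hA)]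
  · rw [if_neg hA]
    split_ifs <;> norm_num

theorem Pr_nonneg (p : I → ℝ) (hp : ∀ i, 0 ≤ p i ∧ p i ≤ 1) (A : (I → Bool) → Prop) :
    0 ≤ Pr p A := by
  have h := Ex_mono p hp (f := fun _ => 0) (g := fun ξ => if A ξ then 1 else 0)
    (fun ξ => by split_ifs <;> norm_num)
  have h0 : Ex p (fun _ => 0) = 0 := by
    unfold Ex
    simp
  rw [h0] at h
  exact h

theorem Pr_le_one (p : I → ℝ) (hp : ∀ i, 0 ≤ p i ∧ p i ≤ 1) (A : (I → Bool) → Prop) :
    Pr p A ≤ 1 := by
  have h := Ex_mono p hp (g := fun _ => 1) (f := fun ξ => if A ξ then 1 else 0)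
    (fun ξ => by split_ifs <;> norm_num)
  rw [Ex_one] at h
  exact h

theorem Pr_coin (p : I → ℝ) (i : I) (A : (I → Bool) → Prop)
    (hA : ∀ ξ b, A (Function.update ξ i b) ↔ A ξ) :
    Pr p (fun ξ => ξ i = true ∧ A ξ) = p i * Pr p A := by
  have h := Ex_coin p i (fun ξ => if A ξ then (1 : ℝ) else 0) (fun ξ b => by
    by_cases h : A ξ
    · rw [if_pos h, if_pos ((hA ξ b).2 h)]
    · rw [if_neg h, if_neg (fun h' => h ((hA ξ b).1 h'))])
  unfold Pr
  rw [← h]
  congr 1
  funext ξ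
  by_cases h1 : ξ i = true <;> by_cases h2 : A ξ <;> simp [h1, h2]

end prob

/-- indicator of a proposition -/
def ib (A : Prop) : ℝ := if A then 1 else 0

theorem ib_pos {A : Prop} (h : A) : ib A = 1 := if_pos h

theorem ib_neg {A : Prop} (h : ¬ A) : ib A = 0 := if_neg h

theorem ib_nonneg (A : Prop) : 0 ≤ ib A := by
  unfold ib
  split_ifs <;> norm_num

theorem Pr_eq {I : Type} [Fintype I] (p : I → ℝ) (A : (I → Bool) → Prop) :
    Pr p A = Ex p (fun ξ => ib (A ξ)) := rfl

/-! ### Facts on the process -/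

section proc

variable {R : ℕ} {X : Type} (nb : X → Finset X)

theorem avd_succ (ξ : Coins R X) (t : ℕ) (A : Finset X) :
    avd nb ξ (t + 1) A ↔ avd nb ξ t A ∧ ∀ h ∈ A, ¬ act nb ξ t h := by
  constructor
  · intro h
    exact ⟨fun s hs => h s (by omega), h t (by omega)⟩
  · rintro ⟨h1, h2⟩ s hs
    rcases Nat.lt_succ_iff_lt_or_eq.1 hs with h | h
    · exact h1 s h
    · subst h
      exact h2

theorem blk_iff (ξ : Coins R X) (t : ℕ) (h : X) : ¬ blk nb ξ t h ↔ avd nb ξ t (nb h) := by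
  induction t generalizing h with
  | zero =>
    constructor
    · intro _ s hs
      omega
    · intro _ hb
      exact hb
  | succ t ih =>
    rw [avd_succ, ← ih]
    unfold act
    constructor
    · intro hb
      refine ⟨fun h' => hb (Or.inl h'), fun y hy h' => hb (Or.inr ⟨y, hy, h'⟩)⟩
    · rintro ⟨h1, h2⟩ (h' | ⟨y, hy, h'⟩)
      · exact h1 h'
      · exact h2 y hy h'

theorem avd_union (ξ : Coins R X) (t : ℕ) (A B : Finset X) :
    avd nb ξ t (A ∪ B) ↔ avd nb ξ t A ∧ avd nb ξ t B := by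
  constructor
  · intro h
    exact ⟨fun s hs y hy => h s hs y (Finset.mem_union_left _ hy),
      fun s hs y hy => h s hs y (Finset.mem_union_right _ hy)⟩
  · rintro ⟨h1, h2⟩ s hs y hy
    rcases Finset.mem_union.1 hy with h | h
    · exact h1 s hs y h
    · exact h2 s hs y h

theorem avd_subset {ξ : Coins R X} {t : ℕ} {A B : Finset X} (hAB : A ⊆ B)
    (h : avd nb ξ t B) : avd nb ξ t A :=
  fun s hs y hy => h s hs y (hAB hy)

theorem blk_congr {ξ ξ' : Coins R X} (t : ℕ) (h : ∀ s < t, ∀ y, on ξ s y ↔ on ξ' s y) (x : X) :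
    blk nb ξ t x ↔ blk nb ξ' t x := by
  induction t generalizing x with
  | zero => exact Iff.rfl
  | succ t ih =>
    have ih' := ih (fun s hs => h s (by omega))
    unfold blk
    constructor
    · rintro (h' | ⟨y, hy, h1, h2⟩)
      · exact Or.inl ((ih' x).1 h')
      · exact Or.inr ⟨y, hy, (h t (by omega) y).1 h1, fun h3 => h2 ((ih' y).2 h3)⟩
    · rintro (h' | ⟨y, hy, h1, h2⟩)
      · exact Or.inl ((ih' x).2 h')
      · exact Or.inr ⟨y, hy, (h t (by omega) y).2 h1, fun h3 => h2 ((ih' y).1 h3)⟩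

theorem avd_congr {ξ ξ' : Coins R X} (t : ℕ) (h : ∀ s < t, ∀ y, on ξ s y ↔ on ξ' s y)
    (A : Finset X) : avd nb ξ t A ↔ avd nb ξ' t A := by
  unfold avd act
  constructor
  · intro h1 s hs y hy h2
    exact h1 s hs y hy ⟨(h s hs y).2 h2.1, fun h3 => h2.2
      ((blk_congr nb s (fun s' hs' => h s' (by omega)) y).1 h3)⟩
  · intro h1 s hs y hy h2
    exact h1 s hs y hy ⟨(h s hs y).1 h2.1, fun h3 => h2.2
      ((blk_congr nb s (fun s' hs' => h s' (by omega)) y).2 h3)⟩

theorem on_iff {ξ : Coins R X} {t : ℕ} (ht : t < R) (h : X) :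
    on ξ t h ↔ ξ (⟨t, ht⟩, h) = true :=
  ⟨fun ⟨_, h⟩ => h, fun h => ⟨ht, h⟩⟩

theorem avd_update (ξ : Coins R X) {t : ℕ} (ht : t < R) (h : X) (b : Bool) (A : Finset X) :
    avd nb (Function.update ξ (⟨t, ht⟩, h) b) t A ↔ avd nb ξ t A := by
  apply avd_congr
  intro s hs y
  rw [on_iff (by omega : s < R), on_iff (by omega : s < R), Function.update_of_ne]
  intro he
  have h1 := congrArg (fun z : Fin R × X => (z.1 : ℕ)) he
  simp at h1
  omega

theorem on_update (ξ : Coins R X) {t : ℕ} (ht : t < R) {h y : X} (hy : h ≠ y) (b : Bool) :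
    on (Function.update ξ (⟨t, ht⟩, h) b) t y ↔ on ξ t y := by
  rw [on_iff ht, on_iff ht, Function.update_of_ne]
  intro he
  exact hy (congrArg Prod.snd he).symm

/-- The same for any decision procedure. -/
theorem avd_update' (inst : DecidableEq (Fin R × X)) (ξ : Coins R X) {t : ℕ} (ht : t < R) (h : X)
    (b : Bool) (A : Finset X) :
    avd nb (@Function.update (Fin R × X) (fun _ => Bool) inst ξ (⟨t, ht⟩, h) b) t A ↔
      avd nb ξ t A := by
  apply avd_congr
  intro s hs y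
  rw [on_iff (by omega : s < R), on_iff (by omega : s < R), Function.update_of_ne]
  intro he
  have h1 := congrArg (fun z : Fin R × X => (z.1 : ℕ)) he
  simp at h1
  omega

/-- The same for any decision procedure. -/
theorem on_update' (inst : DecidableEq (Fin R × X)) (ξ : Coins R X) {t : ℕ} (ht : t < R) {h y : X}
    (hy : h ≠ y) (b : Bool) :
    on (@Function.update (Fin R × X) (fun _ => Bool) inst ξ (⟨t, ht⟩, h) b) t y ↔ on ξ t y := by
  rw [on_iff ht, on_iff ht, Function.update_of_ne]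
  intro he
  exact hy (congrArg Prod.snd he).symm

theorem act_avd_iff (ξ : Coins R X) (t : ℕ) (h : X) (B : Finset X) :
    act nb ξ t h ∧ avd nb ξ t B ↔ on ξ t h ∧ avd nb ξ t (nb h ∪ B) := by
  unfold act
  rw [blk_iff, avd_union, and_assoc]

variable [Fintype X]

theorem Pr_on (p : ℕ → X → ℝ) {t : ℕ} (ht : t < R) (h : X) (A : Finset X) :
    Pr (rt R p) (fun ξ : Coins R X => on ξ t h ∧ avd nb ξ t A) = p t h * av nb R p t A := by
  have h1 := Pr_coin (rt R p) (⟨t, ht⟩, h) (fun ξ : Coins R X => avd nb ξ t A)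
    (fun ξ b => avd_update' nb _ ξ ht h b A)
  unfold av
  rw [← (show rt R p (⟨t, ht⟩, h) = p t h from rfl), ← h1]
  congr 1
  funext ξ
  rw [on_iff ht]

theorem Pr_on2 (p : ℕ → X → ℝ) {t : ℕ} (ht : t < R) {h y : X} (hy : h ≠ y) (A : Finset X) :
    Pr (rt R p) (fun ξ : Coins R X => on ξ t h ∧ on ξ t y ∧ avd nb ξ t A) =
      p t h * (p t y * av nb R p t A) := by
  have h1 := Pr_coin (rt R p) (⟨t, ht⟩, h) (fun ξ : Coins R X => on ξ t y ∧ avd nb ξ t A)
    (fun ξ b => and_congr (on_update' _ ξ ht hy b) (avd_update' nb _ ξ ht h b A))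
  rw [Pr_on nb p ht y A] at h1
  rw [← (show rt R p (⟨t, ht⟩, h) = p t h from rfl), ← h1]
  congr 1
  funext ξ
  rw [on_iff ht h]

theorem Pr_act_avd (p : ℕ → X → ℝ) {t : ℕ} (ht : t < R) (h : X) (B : Finset X) :
    Pr (rt R p) (fun ξ : Coins R X => act nb ξ t h ∧ avd nb ξ t B) =
      p t h * av nb R p t (nb h ∪ B) := by
  rw [← Pr_on nb p ht h]
  congr 1
  funext ξ
  rw [act_avd_iff]

theorem pact_eq (p : ℕ → X → ℝ) {t : ℕ} (ht : t < R) (h : X) :
    pact nb R p t h = p t h * av nb R p t (nb h) := by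
  rw [← Pr_on nb p ht h]
  unfold pact
  congr 1
  funext ξ
  unfold act
  rw [blk_iff]

end proc

/-! ### Facts on covers -/

section cov

variable {V X : Type} [Fintype V] [Fintype X] (C : Cov V X)

theorem card_col_le {Δ : ℕ} (hdeg : ∀ v, (C.N v).card ≤ Δ) (h : X) : (C.col h).card ≤ Δ := by
  refine le_trans ?_ (hdeg (C.pv h))
  apply Finset.card_le_card_of_injOn C.pv
  · intro y hy
    have hy' : C.pc y = C.pc h ∧ C.G.Adj (C.pv h) (C.pv y) := by simpa [Cov.col] using hy
    simpa [Cov.N] using hy'.2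
  · intro y hy z hz hyz
    have hy' : C.pc y = C.pc h ∧ C.G.Adj (C.pv h) (C.pv y) := by simpa [Cov.col] using hy
    have hz' : C.pc z = C.pc h ∧ C.G.Adj (C.pv h) (C.pv z) := by simpa [Cov.col] using hz
    exact C.inj y z hyz (hy'.1.trans hz'.1.symm)

omit [Fintype V] in
theorem col_inter_fib (h : X) : C.col h ∩ C.fib (C.pv h) = ∅ := by
  ext y
  simp only [Cov.col, Cov.fib, Finset.mem_inter, Finset.mem_filter, Finset.mem_univ, true_and,
    Finset.notMem_empty, iff_false, not_and]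
  rintro ⟨_, h2⟩ h3
  rw [h3] at h2
  exact C.G.loopless.irrefl _ h2

omit [Fintype V] in
theorem card_col_inter_fib (x : X) (v : V) : (C.col x ∩ C.fib v).card ≤ 1 := by
  apply Finset.card_le_one.2
  intro y hy z hz
  simp only [Cov.col, Cov.fib, Finset.mem_inter, Finset.mem_filter, Finset.mem_univ,
    true_and] at hy hz
  exact C.inj y z (hy.2.trans hz.2.symm) (hy.1.1.trans hz.1.1.symm)

end cov

/-! ### Facts on the parameters -/

section par

variable (P : Par)

theorem l_pos : (0 : ℝ) < P.ℓ := by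
  have := P.hℓ
  exact_mod_cast this

theorem D_pos : (0 : ℝ) < P.Δ := by
  have := P.hΔ
  exact_mod_cast this

theorem pm_pos : 0 < P.pm := by
  unfold Par.pm
  exact div_pos P.hε0 (mul_pos (l_pos P) P.hδ)

theorem pm_le_one : P.pm ≤ 1 := P.hpm1

theorem Ca_nonneg : 0 ≤ P.Ca := by
  unfold Par.Ca
  have := P.hΘ
  have h2 := Real.exp_pos (2 * P.Θ)
  have h3 : 0 ≤ 2 * P.Θ * (4 * P.Θ + 1) := by nlinarith
  exact mul_nonneg h3 h2.le

omit P in
theorem rates_ok {P : Par} {V X : Type} [Fintype V] [Fintype X] {C : Cov V X} {p : ℕ → X → ℝ}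
    (hR : Rates P C p) : ∀ i : Fin P.R × X, 0 ≤ rt P.R p i ∧ rt P.R p i ≤ 1 :=
  fun i => ⟨hR.nonneg _ _, (hR.le _ _).trans (pm_le_one P)⟩

end par

end Step

open Step

/-- (6.1) -/
theorem pactb (hd : S_DCF) : S_PACT := by
  intro P V X _ _ C hC p hp t ht h
  have hok := rates_ok hp
  rw [pact_eq C.nb p ht h]
  have hcard : (C.col h).card ≤ 2 * P.Δ := by
    have := card_col_le C hC.deg h
    omega
  have h1 := hd P V X C hC p hp t ht.le (C.pv h) (C.col h) hcard (by
    rw [col_inter_fib, Finset.card_empty]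
    omega)
  have h2 : av C.nb P.R p t (C.nb h) ≤ C.un P.R p t (C.pv h) * C.cc P.R p t h + P.Ca / P.Δ := by
    have := (abs_le.1 h1).2
    unfold Cov.un Cov.cc Cov.nb
    unfold Cov.nb at this
    linarith
  have h3 := hp.nonneg t h
  have h4 := hp.le t h
  have h5 := hp.mul_le t ht h
  have hun : 0 ≤ C.un P.R p t (C.pv h) := Pr_nonneg _ hok _
  have hCa : 0 ≤ P.Ca / P.Δ := div_nonneg (Ca_nonneg P) (D_pos P).le
  calc p t h * av C.nb P.R p t (C.nb h)
      ≤ p t h * (C.un P.R p t (C.pv h) * C.cc P.R p t h + P.Ca / P.Δ) :=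
        mul_le_mul_of_nonneg_left h2 h3
    _ = (p t h * C.cc P.R p t h) * C.un P.R p t (C.pv h) + p t h * (P.Ca / P.Δ) := by ring
    _ ≤ P.ε0 / P.ℓ * C.un P.R p t (C.pv h) + P.pm * (P.Ca / P.Δ) :=
        add_le_add (mul_le_mul_of_nonneg_right h5 hun) (mul_le_mul_of_nonneg_right h4 hCa)

/-- Bonferroni -/
theorem Step.bonf {X : Type} (F : Finset X) (A : X → Prop) :
    ib (∀ h ∈ F, ¬ A h) ≤ 1 - ∑ h ∈ F, ib (A h) +
      1 / 2 * ∑ h ∈ F, ∑ y ∈ F.erase h, ib (A h ∧ A y) := by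
  have e1 : ∑ h ∈ F, ib (A h) = ((F.filter A).card : ℝ) := by
    unfold ib
    rw [Finset.sum_boole]
  have e2 : ∑ h ∈ F, ∑ y ∈ F.erase h, ib (A h ∧ A y) =
      ((F.filter A).card : ℝ) * ((F.filter A).card - 1) := by
    have e3 : ∀ h ∈ F, ∑ y ∈ F.erase h, ib (A h ∧ A y) =
        if A h then ((F.filter A).card : ℝ) - 1 else 0 := by
      intro h hh
      by_cases hA : A h
      · rw [if_pos hA]
        have e4 := Finset.add_sum_erase F (fun y => ib (A y)) hh
        rw [e1] at e4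
        have e5 : ∑ y ∈ F.erase h, ib (A h ∧ A y) = ∑ y ∈ F.erase h, ib (A y) := by
          apply Finset.sum_congr rfl
          intro y _
          by_cases hy : A y
          · rw [ib_pos hy, ib_pos ⟨hA, hy⟩]
          · rw [ib_neg hy, ib_neg (fun h' => hy h'.2)]
        rw [e5]
        have e6 : ib (A h) = 1 := ib_pos hA
        linarith
      · rw [if_neg hA]
        apply Finset.sum_eq_zero
        intro y _
        exact ib_neg (fun h' => hA h'.1)
    rw [Finset.sum_congr rfl e3, ← Finset.sum_filter, Finset.sum_const, nsmul_eq_mul]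
  rw [e1, e2]
  set n : ℕ := (F.filter A).card with hn
  by_cases h0 : ∀ h ∈ F, ¬ A h
  · have h1 : n = 0 := by
      rw [hn, Finset.card_eq_zero, Finset.filter_eq_empty_iff]
      intro h hh
      exact h0 h hh
    rw [ib_pos h0, h1]
    norm_num
  · rw [ib_neg h0]
    have h1 : (1 : ℝ) ≤ n := by
      have : 0 < n := by
        rw [hn, Finset.card_pos]
        push Not at h0
        obtain ⟨h, hh, hA⟩ := h0
        exact ⟨h, Finset.mem_filter.2 ⟨hh, hA⟩⟩
      exact_mod_cast this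
    by_cases h2 : n = 1
    · rw [h2]
      norm_num
    · have h3 : (2 : ℝ) ≤ n := by
        have h4 : (1 : ℕ) ≤ n := by exact_mod_cast h1
        have : 2 ≤ n := by omega
        exact_mod_cast this
      nlinarith [mul_nonneg (by linarith : (0 : ℝ) ≤ (n : ℝ) - 1) (by linarith : (0 : ℝ) ≤ (n : ℝ) - 2)]

/-- (6.2) -/
theorem ustep (hd : S_DCF) : S_USTEP := by
  intro P V X _ _ C hC p hp t ht hcc v
  have hok := rates_ok hp
  set F := C.fib v with hF
  -- pointwise inequality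
  have hpt : ∀ ξ : Coins P.R X, ib (avd C.nb ξ (t + 1) F) ≤
      ib (avd C.nb ξ t F) - ∑ h ∈ F, ib (act C.nb ξ t h) +
      1 / 2 * ∑ h ∈ F, ∑ y ∈ F.erase h, ib (act C.nb ξ t h ∧ act C.nb ξ t y) := by
    intro ξ
    by_cases h1 : avd C.nb ξ t F
    · rw [ib_pos h1]
      refine le_trans (le_of_eq ?_) (bonf F (fun h => act C.nb ξ t h))
      by_cases h2 : ∀ h ∈ F, ¬ act C.nb ξ t h
      · rw [ib_pos h2, ib_pos ((avd_succ C.nb ξ t F).2 ⟨h1, h2⟩)]
      · rw [ib_neg h2, ib_neg (fun h3 => h2 ((avd_succ C.nb ξ t F).1 h3).2)]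
    · have h2 : ∀ h ∈ F, ¬ act C.nb ξ t h := by
        intro h hh ha
        apply h1
        have h3 := (blk_iff C.nb ξ t h).1 ha.2
        refine avd_subset C.nb ?_ h3
        intro y hy
        unfold Cov.nb
        have h4 : C.pv h = v := by simpa [hF, Cov.fib] using hh
        rw [h4]
        exact Finset.mem_union_left _ hy
      rw [ib_neg h1, ib_neg (fun h3 => h1 ((avd_succ C.nb ξ t F).1 h3).1)]
      have h5 : ∑ h ∈ F, ib (act C.nb ξ t h) = 0 :=
        Finset.sum_eq_zero (fun h hh => ib_neg (h2 h hh))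
      rw [h5]
      have h6 : 0 ≤ ∑ h ∈ F, ∑ y ∈ F.erase h, ib (act C.nb ξ t h ∧ act C.nb ξ t y) :=
        Finset.sum_nonneg (fun h _ => Finset.sum_nonneg (fun y _ => ib_nonneg _))
      linarith
  have h1 := Ex_mono (rt P.R p) hok hpt
  rw [Ex_add, Ex_sub, Ex_sum, Ex_mul, Ex_sum] at h1
  simp only [Ex_sum] at h1
  have h2 : C.un P.R p (t + 1) v ≤ C.un P.R p t v - ∑ h ∈ F, pact C.nb P.R p t h +
      1 / 2 * ∑ h ∈ F, ∑ y ∈ F.erase h,
        Pr (rt P.R p) (fun ξ : Coins P.R X => act C.nb ξ t h ∧ act C.nb ξ t y) := h1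
  -- the first order term
  have hl := l_pos P
  have hD := D_pos P
  have hCa : 0 ≤ P.Ca / P.Δ := div_nonneg (Ca_nonneg P) hD.le
  have hun : 0 ≤ C.un P.R p t v := Pr_nonneg _ hok _
  have hFc : (F.card : ℝ) = P.ℓ := by rw [hF, hC.fib v]
  have h3 : P.ε0 * C.un P.R p t v - P.ε0 / P.δ * (P.Ca / P.Δ) ≤ ∑ h ∈ F, pact C.nb P.R p t h := by
    have h4 : ∀ h ∈ F, P.ε0 / P.ℓ * C.un P.R p t v - P.pm * (P.Ca / P.Δ) ≤ pact C.nb P.R p t h := by
      intro h hh
      have hv : C.pv h = v := by simpa [hF, Cov.fib] using hh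
      have hcard : (C.col h).card ≤ 2 * P.Δ := by
        have := card_col_le C hC.deg h
        omega
      have h5 := hd P V X C hC p hp t ht.le (C.pv h) (C.col h) hcard (by
        rw [col_inter_fib, Finset.card_empty]
        omega)
      have h6 : C.un P.R p t v * C.cc P.R p t h - P.Ca / P.Δ ≤ av C.nb P.R p t (C.nb h) := by
        have := (abs_le.1 h5).1
        rw [← hv]
        unfold Cov.un Cov.cc Cov.nb
        unfold Cov.nb at this
        linarith
      rw [pact_eq C.nb p ht h]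
      have h7 := hp.mul_eq t ht h (hcc h)
      have h8 := hp.nonneg t h
      have h9 := hp.le t h
      calc P.ε0 / P.ℓ * C.un P.R p t v - P.pm * (P.Ca / P.Δ)
          = (p t h * C.cc P.R p t h) * C.un P.R p t v - P.pm * (P.Ca / P.Δ) := by rw [h7]
        _ ≤ (p t h * C.cc P.R p t h) * C.un P.R p t v - p t h * (P.Ca / P.Δ) := by
            have := mul_le_mul_of_nonneg_right h9 hCa
            linarith
        _ = p t h * (C.un P.R p t v * C.cc P.R p t h - P.Ca / P.Δ) := by ring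
        _ ≤ p t h * av C.nb P.R p t (C.nb h) := mul_le_mul_of_nonneg_left h6 h8
    have h5 := Finset.sum_le_sum h4
    rw [Finset.sum_const, nsmul_eq_mul, hFc] at h5
    refine le_trans (le_of_eq ?_) h5
    unfold Par.pm
    have := P.hδ
    field_simp
  -- the second order term
  have h4 : ∑ h ∈ F, ∑ y ∈ F.erase h,
      Pr (rt P.R p) (fun ξ : Coins P.R X => act C.nb ξ t h ∧ act C.nb ξ t y) ≤
      P.ε0 ^ 2 / P.δ ^ 2 * C.un P.R p t v := by
    have h5 : ∀ h ∈ F, ∀ y ∈ F.erase h,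
        Pr (rt P.R p) (fun ξ : Coins P.R X => act C.nb ξ t h ∧ act C.nb ξ t y) ≤
        P.pm * (P.pm * C.un P.R p t v) := by
      intro h hh y hy
      have hv : C.pv h = v := by simpa [hF, Cov.fib] using hh
      have hne : h ≠ y := (Finset.ne_of_mem_erase hy).symm
      have h6 : Pr (rt P.R p) (fun ξ : Coins P.R X => act C.nb ξ t h ∧ act C.nb ξ t y) ≤
          Pr (rt P.R p) (fun ξ : Coins P.R X => on ξ t h ∧ on ξ t y ∧ avd C.nb ξ t F) := by
        apply Pr_mono _ hok
        rintro ξ ⟨ha, hb⟩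
        refine ⟨ha.1, hb.1, ?_⟩
        have h3 := (blk_iff C.nb ξ t h).1 ha.2
        refine avd_subset C.nb ?_ h3
        intro z hz
        unfold Cov.nb
        rw [hv]
        exact Finset.mem_union_left _ hz
      rw [Pr_on2 C.nb p ht hne F] at h6
      refine h6.trans ?_
      have e1 : av C.nb P.R p t F = C.un P.R p t v := rfl
      rw [e1]
      have e2 : p t y * C.un P.R p t v ≤ P.pm * C.un P.R p t v :=
        mul_le_mul_of_nonneg_right (hp.le t y) hun
      exact mul_le_mul (hp.le t h) e2 (mul_nonneg (hp.nonneg t y) hun) (pm_pos P).le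
    have h6 : ∑ h ∈ F, ∑ y ∈ F.erase h,
        Pr (rt P.R p) (fun ξ : Coins P.R X => act C.nb ξ t h ∧ act C.nb ξ t y) ≤
        ∑ h ∈ F, (P.ℓ : ℝ) * (P.pm * (P.pm * C.un P.R p t v)) := by
      apply Finset.sum_le_sum
      intro h hh
      have h7 := Finset.sum_le_sum (h5 h hh)
      rw [Finset.sum_const, nsmul_eq_mul] at h7
      refine h7.trans ?_
      apply mul_le_mul_of_nonneg_right
      · rw [← hFc]
        exact_mod_cast Finset.card_le_card (Finset.erase_subset h F)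
      · exact mul_nonneg (pm_pos P).le (mul_nonneg (pm_pos P).le hun)
    rw [Finset.sum_const, nsmul_eq_mul, hFc] at h6
    refine h6.trans (le_of_eq ?_)
    unfold Par.pm
    have := P.hδ
    field_simp
  calc C.un P.R p (t + 1) v ≤ C.un P.R p t v - (P.ε0 * C.un P.R p t v - P.ε0 / P.δ * (P.Ca / P.Δ)) +
        1 / 2 * (P.ε0 ^ 2 / P.δ ^ 2 * C.un P.R p t v) := by linarith
    _ = _ := by
      have := P.hδ
      field_simp
      ring

/-- (6.4) -/
theorem cstep (hd : S_DCF) : S_CSTEP := by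
  intro P V X _ _ C hC p hp t ht ub hub x hbad
  have hok := rates_ok hp
  set A := C.col x with hA
  set Bad := A.filter (fun y =>
    P.K * C.cc P.R p t x * C.cc P.R p t y < av C.nb P.R p t (A ∪ C.col y)) with hBad
  have hl := l_pos P
  have hD := D_pos P
  have hpm := pm_pos P
  have hCa : 0 ≤ P.Ca / P.Δ := div_nonneg (Ca_nonneg P) hD.le
  have hub0 : 0 ≤ ub := le_trans (Pr_nonneg _ hok _) (hub (C.pv x))
  have hccx : 0 ≤ C.cc P.R p t x := Pr_nonneg _ hok _
  have hK : 0 ≤ P.K := by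
    rw [P.hK, P.hβ1]
    have := P.hκ
    have := P.hβ2
    positivity
  -- pointwise inequality
  have hpt : ∀ ξ : Coins P.R X, ib (avd C.nb ξ t A) -
      ∑ y ∈ A, ib (act C.nb ξ t y ∧ avd C.nb ξ t A) ≤ ib (avd C.nb ξ (t + 1) A) := by
    intro ξ
    have h0 : 0 ≤ ∑ y ∈ A, ib (act C.nb ξ t y ∧ avd C.nb ξ t A) :=
      Finset.sum_nonneg (fun y _ => ib_nonneg _)
    by_cases h1 : avd C.nb ξ t A
    · by_cases h2 : ∀ h ∈ A, ¬ act C.nb ξ t h
      · rw [ib_pos h1, ib_pos ((avd_succ C.nb ξ t A).2 ⟨h1, h2⟩)]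
        linarith
      · rw [ib_pos h1, ib_neg (fun h3 => h2 ((avd_succ C.nb ξ t A).1 h3).2)]
        push Not at h2
        obtain ⟨y, hy, hact⟩ := h2
        have h3 : ib (act C.nb ξ t y ∧ avd C.nb ξ t A) ≤
            ∑ y ∈ A, ib (act C.nb ξ t y ∧ avd C.nb ξ t A) :=
          Finset.single_le_sum (f := fun y => ib (act C.nb ξ t y ∧ avd C.nb ξ t A))
            (fun y _ => ib_nonneg _) hy
        have h4 : ib (act C.nb ξ t y ∧ avd C.nb ξ t A) = 1 := ib_pos ⟨hact, h1⟩
        rw [h4] at h3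
        linarith
    · rw [ib_neg h1, ib_neg (fun h3 => h1 ((avd_succ C.nb ξ t A).1 h3).1)]
      linarith
  have h1 := Ex_mono (rt P.R p) hok hpt
  rw [Ex_sub, Ex_sum] at h1
  have h2 : C.cc P.R p t x - ∑ y ∈ A,
      Pr (rt P.R p) (fun ξ : Coins P.R X => act C.nb ξ t y ∧ avd C.nb ξ t A) ≤
      C.cc P.R p (t + 1) x := h1
  -- each term
  have hterm : ∀ y ∈ A, Pr (rt P.R p) (fun ξ : Coins P.R X => act C.nb ξ t y ∧ avd C.nb ξ t A) ≤
      P.ε0 / P.ℓ * (P.K * ub * C.cc P.R p t x) + P.pm * (P.Ca / P.Δ) +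
        (if y ∈ Bad then P.pm else 0) := by
    intro y hy
    rw [Pr_act_avd C.nb p ht y A]
    have hpy := hp.nonneg t y
    have hpy' := hp.le t y
    have hmain : 0 ≤ P.ε0 / P.ℓ * (P.K * ub * C.cc P.R p t x) :=
      mul_nonneg (div_nonneg P.hε0.le hl.le) (mul_nonneg (mul_nonneg hK hub0) hccx)
    by_cases hb : y ∈ Bad
    · rw [if_pos hb]
      have h3 : av C.nb P.R p t (C.nb y ∪ A) ≤ 1 := Pr_le_one _ hok _
      have h4 : p t y * av C.nb P.R p t (C.nb y ∪ A) ≤ P.pm * 1 :=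
        mul_le_mul hpy' h3 (Pr_nonneg _ hok _) hpm.le
      have h5 : 0 ≤ P.pm * (P.Ca / P.Δ) := mul_nonneg hpm.le hCa
      linarith
    · rw [if_neg hb, add_zero]
      have h3 : av C.nb P.R p t (A ∪ C.col y) ≤ P.K * C.cc P.R p t x * C.cc P.R p t y := by
        by_contra h4
        exact hb (Finset.mem_filter.2 ⟨hy, not_le.1 h4⟩)
      have hcard : (A ∪ C.col y).card ≤ 2 * P.Δ := by
        have e1 : A.card ≤ P.Δ := card_col_le C hC.deg x
        have e2 := card_col_le C hC.deg y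
        have e3 := Finset.card_union_le A (C.col y)
        omega
      have hint : ((A ∪ C.col y) ∩ C.fib (C.pv y)).card ≤ 1 := by
        rw [Finset.union_inter_distrib_right, col_inter_fib, Finset.union_empty]
        exact card_col_inter_fib C x _
      have h4 := hd P V X C hC p hp t ht.le (C.pv y) (A ∪ C.col y) hcard hint
      have e5 : C.nb y ∪ A = C.fib (C.pv y) ∪ (A ∪ C.col y) := by
        unfold Cov.nb
        rw [Finset.union_assoc, Finset.union_comm (C.col y) A]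
      have h5 : av C.nb P.R p t (C.nb y ∪ A) ≤
          C.un P.R p t (C.pv y) * av C.nb P.R p t (A ∪ C.col y) + P.Ca / P.Δ := by
        rw [e5]
        have := (abs_le.1 h4).2
        unfold Cov.un
        linarith
      have hccy : 0 ≤ C.cc P.R p t y := Pr_nonneg _ hok _
      have h6 : C.un P.R p t (C.pv y) * av C.nb P.R p t (A ∪ C.col y) ≤
          ub * (P.K * C.cc P.R p t x * C.cc P.R p t y) :=
        mul_le_mul (hub _) h3 (Pr_nonneg _ hok _) hub0
      calc p t y * av C.nb P.R p t (C.nb y ∪ A)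
          ≤ p t y * (ub * (P.K * C.cc P.R p t x * C.cc P.R p t y) + P.Ca / P.Δ) :=
            mul_le_mul_of_nonneg_left (h5.trans (by linarith)) hpy
        _ = (p t y * C.cc P.R p t y) * (P.K * ub * C.cc P.R p t x) + p t y * (P.Ca / P.Δ) := by
            ring
        _ ≤ P.ε0 / P.ℓ * (P.K * ub * C.cc P.R p t x) + P.pm * (P.Ca / P.Δ) :=
            add_le_add (mul_le_mul_of_nonneg_right (hp.mul_le t ht y)
              (mul_nonneg (mul_nonneg hK hub0) hccx)) (mul_le_mul_of_nonneg_right hpy' hCa)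
  have h3 := Finset.sum_le_sum hterm
  rw [Finset.sum_add_distrib, Finset.sum_const, nsmul_eq_mul] at h3
  have hsum : ∑ y ∈ A, (if y ∈ Bad then P.pm else 0) ≤ P.pm * P.M := by
    rw [← Finset.sum_filter, Finset.sum_const, nsmul_eq_mul, mul_comm]
    apply mul_le_mul_of_nonneg_left _ hpm.le
    have h4 : (A.filter (fun y => y ∈ Bad)).card ≤ Bad.card :=
      Finset.card_le_card (fun y hy => (Finset.mem_filter.1 hy).2)
    have h5 : (A.filter (fun y => y ∈ Bad)).card ≤ P.M := by omega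
    exact_mod_cast h5
  have hAc : (A.card : ℝ) ≤ P.Δ := by exact_mod_cast card_col_le C hC.deg x
  have hmain2 : 0 ≤ P.ε0 / P.ℓ * (P.K * ub * C.cc P.R p t x) + P.pm * (P.Ca / P.Δ) :=
    add_nonneg (mul_nonneg (div_nonneg P.hε0.le hl.le) (mul_nonneg (mul_nonneg hK hub0) hccx))
      (mul_nonneg hpm.le hCa)
  have h4 : (A.card : ℝ) * (P.ε0 / P.ℓ * (P.K * ub * C.cc P.R p t x) + P.pm * (P.Ca / P.Δ)) ≤
      P.Δ * (P.ε0 / P.ℓ * (P.K * ub * C.cc P.R p t x) + P.pm * (P.Ca / P.Δ)) :=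
    mul_le_mul_of_nonneg_right hAc hmain2
  have h5 : P.Δ * (P.ε0 / P.ℓ * (P.K * ub * C.cc P.R p t x) + P.pm * (P.Ca / P.Δ)) =
      (P.Δ / P.ℓ) * (P.ε0 * (P.K * ub * C.cc P.R p t x)) + P.pm * P.Ca := by
    field_simp
  have h6 : (P.Δ : ℝ) / P.ℓ ≤ 1 / P.ζ := by
    rw [div_le_div_iff₀ hl P.hζ]
    have := P.hζℓ
    linarith
  have h7 : (P.Δ / P.ℓ : ℝ) * (P.ε0 * (P.K * ub * C.cc P.R p t x)) ≤
      1 / P.ζ * (P.ε0 * (P.K * ub * C.cc P.R p t x)) :=
    mul_le_mul_of_nonneg_right h6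
      (mul_nonneg P.hε0.le (mul_nonneg (mul_nonneg hK hub0) hccx))
  have h8 : C.cc P.R p t x * (1 - P.K / P.ζ * P.ε0 * ub) - P.pm * (P.Ca + P.M) =
      C.cc P.R p t x - (1 / P.ζ * (P.ε0 * (P.K * ub * C.cc P.R p t x)) + P.pm * P.Ca +
        P.pm * P.M) := by
    have := P.hζ
    field_simp
    ring
  rw [h8]
  linarith

end Vu80
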