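import Pool.Agent.Lib_helper80.Vu.Defs

/-!
# Vu's conjecture (list version): statements of the modules
-/

set_option autoImplicit false

open scoped Classical
open Finset

noncomputable section

namespace Vu80

/-! ### General facts -/

/-- Lemma S (stable sets) -/
def S_STAB : Prop :=
  ∀ β e : ℝ, 0 < β → β ≤ 1 → 0 < e → ∀ M0 : ℕ, 1 ≤ M0 → ∃ M : ℕ, HasStable β e M0 M

/-- symmetric local lemma for independent coins -/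
def S_LLL : Prop :=
  ∀ (I : Type) [Fintype I] (p : I → ℝ), (∀ i, 0 ≤ p i ∧ p i ≤ 1) →
    ∀ (V : Type) [Fintype V] (B : V → (I → Bool) → Prop) (S : V → Set I),
      (∀ v, Dep (S v) (B v)) →
      ∀ (q : ℝ) (d : ℕ), 0 ≤ q → 1 ≤ d → (∀ v, Pr p (B v) ≤ q) →
        (∀ v, (univ.filter (fun u => ¬ Disjoint (S v) (S u))).card ≤ d) → 4 * q * d ≤ 1 →
        ∃ ξ, ∀ v, ¬ B v ξ

/-- exposure of the coins in the order of the times `τ`: if, with the coins of the later rounds integrated out,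
coin `i` has influence at most `b i`, then `F` is concentrated -/
def S_MGF : Prop :=
  ∀ (I : Type) [Fintype I] (p : I → ℝ), (∀ i, 0 ≤ p i ∧ p i ≤ 1) →
    ∀ (τ : I → ℕ) (F : (I → Bool) → ℝ) (b : I → ℝ), (∀ i, 0 ≤ b i) →
      (∀ i ξ, |ExS p {j | τ i < τ j} F (Function.update ξ i true) -
        ExS p {j | τ i < τ j} F (Function.update ξ i false)| ≤ b i) →
      ∀ θ : ℝ, 0 ≤ θ →
        Ex p (fun ξ => Real.exp (θ * (F ξ - Ex p F))) ≤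
          Real.exp (∑ i, p i * (θ ^ 2 * b i ^ 2 / 2 * Real.exp (θ * b i)))

/-- bounds for the operator `Top` -/
def S_TOP : Prop :=
  ∀ (X : Type) [Fintype X] (nb : X → Finset X), (∀ x y, y ∈ nb x ↔ x ∈ nb y) →
    ∀ D : ℕ, (∀ x, (nb x).card ≤ D) → ∀ pm : ℝ, 0 ≤ pm → ∀ j : ℕ,
      -- nonnegative, monotone, linear
      (∀ w : X → ℝ, (∀ h, 0 ≤ w h) → ∀ h, 0 ≤ ((Top pm nb)^[j] w) h) ∧
      (∀ w w' : X → ℝ, (∀ h, w h ≤ w' h) → ∀ h, ((Top pm nb)^[j] w) h ≤ ((Top pm nb)^[j] w') h) ∧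
      (∀ (J : Type) (A : Finset J) (c : J → ℝ) (w : J → X → ℝ) (h : X),
        ((Top pm nb)^[j] (fun x => ∑ i ∈ A, c i * w i x)) h = ∑ i ∈ A, c i * ((Top pm nb)^[j] (w i)) h) ∧
      -- increasing in the number of iterations
      (∀ w : X → ℝ, (∀ h, 0 ≤ w h) → ∀ i ≤ j, ∀ h, ((Top pm nb)^[i] w) h ≤ ((Top pm nb)^[j] w) h) ∧
      -- self adjoint
      (∀ w w' : X → ℝ, ∑ h, ((Top pm nb)^[j] w) h * w' h = ∑ h, w h * ((Top pm nb)^[j] w') h) ∧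
      -- (1.1)
      (∀ w : X → ℝ, (∀ h, 0 ≤ w h) → ∑ h, ((Top pm nb)^[j] w) h ≤ (1 + pm * D) ^ j * ∑ h, w h) ∧
      -- (1.2)
      (∀ (w : X → ℝ) (c : ℝ), 0 ≤ c → (∀ h, w h ≤ c) → ∀ h, ((Top pm nb)^[j] w) h ≤ (1 + pm * D) ^ j * c)

/-- fibre bounds (1.3), (1.4) for the operator `Top` -/
def S_TFIB : Prop :=
  ∀ (V X : Type) [Fintype V] [Fintype X] (C : Cov V X) (D : ℕ), (∀ x, (C.nb x).card ≤ D) →
    ∀ pm : ℝ, 0 ≤ pm → ∀ j : ℕ, ∀ v : V,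
      (∀ h, C.pv h ≠ v → ((Top pm C.nb)^[j] (ind (C.fib v))) h ≤ j * pm * (1 + pm * D) ^ j) ∧
      (∀ w : X → ℝ, (∀ h, 0 ≤ w h) → ∑ h ∈ C.fib v, ((Top pm C.nb)^[j] w) h ≤
        (1 + pm * D) ^ j * (∑ h ∈ C.fib v, w h + j * pm * ∑ h, w h))

/-- Lemma DC (decoupling) -/
def S_DC : Prop :=
  ∀ (X : Type) [Fintype X] (nb : X → Finset X), (∀ x y, y ∈ nb x ↔ x ∈ nb y) →
    ∀ (R : ℕ) (p : ℕ → X → ℝ) (pm : ℝ), (∀ t h, 0 ≤ p t h) → (∀ t h, p t h ≤ pm) → pm ≤ 1 →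
      ∀ s ≤ R, ∀ A B : Finset X,
        |av nb R p s (A ∪ B) - av nb R p s A * av nb R p s B| ≤ Gam pm R nb A B

/-- existence of self consistent rates -/
def S_RATES : Prop :=
  ∀ (P : Par) (V X : Type) [Fintype V] [Fintype X] (C : Cov V X), ∃ p : ℕ → X → ℝ, Rates P C p

/-! ### Statements in the context of the proof -/

/-- Corollary 2.3 -/
def S_DCF : Prop :=
  ∀ (P : Par) (V X : Type) [Fintype V] [Fintype X] (C : Cov V X), COk P C →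
    ∀ p : ℕ → X → ℝ, Rates P C p → ∀ s ≤ P.R, ∀ (v : V) (B : Finset X),
      B.card ≤ 2 * P.Δ → (B ∩ C.fib v).card ≤ 1 →
      |av C.nb P.R p s (C.fib v ∪ B) - av C.nb P.R p s (C.fib v) * av C.nb P.R p s B| ≤ P.Ca / P.Δ

/-- deterministic part of Lemma A -/
def S_ADET : Prop :=
  ∀ (V X : Type) [Fintype V] (G : SimpleGraph V) (pv : X → V) (Q : Finset V) (Z : ℕ → Finset X)
    (U : ℕ → Finset V) (s : ℕ) (η β Λ : ℝ),
    Q.Nonempty → 0 < η → η ≤ 1 / 2 → 0 < β → 0 ≤ Λ → β ≤ Real.exp (-(2 / η * (Λ + 1))) →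
    (∀ t, U t = Q.filter (fun u => ∀ t' < t, ∀ h ∈ Z t', ¬ G.Adj (pv h) u)) →
    (∀ t < s, (Z t).card ≤ 1) →
    (∀ t < s, ∀ h ∈ Z t, phi G Q (pv h) ≤ 1 - η) →
    (∑ t ∈ range s, ∑ h ∈ Z t, phi G Q (pv h) ≤ Λ) →
    (∑ t ∈ range s, ∑ h ∈ Z t,
      (if β * Q.card ≤ (U t).card then |phi G (U t) (pv h) - phi G Q (pv h)| else 0) ≤ η / 2) →
    β * Q.card ≤ (U s).card

/-- the vertices of `Q` not adjacent to a pair of `W` that acts before round `t` -/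
def Ut {V X : Type} [Fintype V] [Fintype X] (C : Cov V X) {R : ℕ} (Q : Finset V) (W : Finset X)
    (ξ : Coins R X) (t : ℕ) : Finset V :=
  Q.filter (fun u => ∀ t' < t, ∀ h ∈ W, act C.nb ξ t' h → ¬ C.G.Adj (C.pv h) u)

/-- Lemma A (i): probability that a pair of density at least `1 - η` acts -/
def S_A1 : Prop :=
  ∀ (P : Par) (V X : Type) [Fintype V] [Fintype X] (C : Cov V X), COk P C →
    ∀ p : ℕ → X → ℝ, Rates P C p → ∀ s ≤ P.R, Flow P C p s → ∀ (a : ℕ) (Q : Finset V), P.M0 ≤ Q.card →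
      ∀ ν : ℝ,
      Pr (rt P.R p) (fun ξ => ∃ t < s, ∃ h ∈ com C a Q ν, 1 - P.η ≤ phi C.G Q (C.pv h) ∧ act C.nb ξ t h) ≤ 1 - P.κ

/-- Lemma A (ii) -/
def S_A2 : Prop :=
  ∀ (P : Par) (V X : Type) [Fintype V] [Fintype X] (C : Cov V X), COk P C →
    ∀ p : ℕ → X → ℝ, Rates P C p → ∀ s ≤ P.R, Flow P C p s → ∀ (a : ℕ) (Q : Finset V), P.M0 ≤ Q.card →
      ∀ ν : ℝ,
      Pr (rt P.R p) (fun ξ => 8 / (P.κ * P.ζ) ≤
        ∑ t ∈ range s, ∑ h ∈ (com C a Q ν).filter (fun h => act C.nb ξ t h), phi C.G Q (C.pv h)) ≤ P.κ / 4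

/-- Lemma A (iii) -/
def S_A3 : Prop :=
  ∀ (P : Par) (V X : Type) [Fintype V] [Fintype X] (C : Cov V X), COk P C →
    ∀ p : ℕ → X → ℝ, Rates P C p → ∀ s ≤ P.R, ∀ (a : ℕ) (Q : Finset V), P.M0 ≤ Q.card →
      Stable C.G Q P.β2 (P.eps2 * P.Δ) → ∀ ν : ℝ, P.numin ≤ ν →
      Pr (rt P.R p) (fun ξ => P.η / 2 <
        ∑ t ∈ range s, ∑ h ∈ (com C a Q ν).filter (fun h => act C.nb ξ t h),
          (if P.β2 * Q.card ≤ (Ut C Q (com C a Q ν) ξ t).card then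
            |phi C.G (Ut C Q (com C a Q ν) ξ t) (C.pv h) - phi C.G Q (C.pv h)| else 0)) ≤ P.κ / 8

/-- Lemma A (iv) -/
def S_A4 : Prop :=
  ∀ (P : Par) (V X : Type) [Fintype V] [Fintype X] (C : Cov V X), COk P C →
    ∀ p : ℕ → X → ℝ, Rates P C p → ∀ s ≤ P.R, ∀ (a : ℕ) (Q : Finset V), P.M0 ≤ Q.card →
      ∀ ν : ℝ, P.numin ≤ ν →
      Pr (rt P.R p) (fun ξ => ∃ t < s, ∃ h ∈ com C a Q ν, ∃ y ∈ com C a Q ν, h ≠ y ∧ on ξ t h ∧ on ξ t y) ≤ P.κ / 8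

/-- Lemma A -/
def S_A : Prop :=
  ∀ (P : Par) (V X : Type) [Fintype V] [Fintype X] (C : Cov V X), COk P C →
    ∀ p : ℕ → X → ℝ, Rates P C p → ∀ s ≤ P.R, Flow P C p s → ∀ (a : ℕ) (Q : Finset V), P.M0 ≤ Q.card →
      Stable C.G Q P.β2 (P.eps2 * P.Δ) → ∀ ν : ℝ, P.numin ≤ ν →
      P.β1 * Q.card ≤ ∑ v ∈ Q, av C.nb P.R p s ((com C a Q ν).filter (fun h => C.G.Adj v (C.pv h)))

/-- choice of the threshold in Lemma K -/
def S_THR : Prop :=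
  ∀ (V : Type) [Fintype V] (G : SimpleGraph V) (Q : Finset V) (Δ N : ℕ) (r k : ℝ), Q.Nonempty →
    (∀ v, (univ.filter (fun u => G.Adj v u)).card ≤ Δ) → 0 < r → r ≤ 1 → 1 ≤ N → 1 ≤ k * N →
    ∃ i < N, ∑ z ∈ univ.filter (fun z => r ^ (i + 1) / 2 ≤ phi G Q z ∧ phi G Q z < r ^ i / 2), phi G Q z ≤ k * Δ

/-- averages of the errors in Lemma K over `v ∈ Q`; `Wc, Wm, Wp` = common / middle / private pairs -/
def S_KAVG : Prop :=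
  ∀ (P : Par) (V X : Type) [Fintype V] [Fintype X] (C : Cov V X), COk P C →
    ∀ p : ℕ → X → ℝ, Rates P C p → ∀ s ≤ P.R, Flow P C p s → ∀ (a : ℕ) (Q : Finset V), Q.Nonempty →
      ∀ ν1 ν2 : ℝ, 0 < ν2 → ν2 ≤ ν1 →
      ∀ Wc Wm Wp : Finset X,
        Wc = univ.filter (fun h => C.pc h = a ∧ ν1 ≤ phi C.G Q (C.pv h)) →
        Wm = univ.filter (fun h => C.pc h = a ∧ ν2 ≤ phi C.G Q (C.pv h) ∧ phi C.G Q (C.pv h) < ν1) →
        Wp = univ.filter (fun h => C.pc h = a ∧ phi C.G Q (C.pv h) < ν2) →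
      -- error of decoupling the common and the private part
      (∑ v ∈ Q, Gam P.pm P.R C.nb (Wc.filter (fun h => C.G.Adj v (C.pv h)))
          (Wp.filter (fun h => C.G.Adj v (C.pv h))) ≤
        2 * P.Θ * Real.exp (2 * P.Θ) * (ν2 / ν1) * Q.card) ∧
      -- error of decoupling the private part and the neighbourhood of `x`
      (∀ x : X, ∑ v ∈ Q, Gam P.pm P.R C.nb (C.col x) (Wp.filter (fun h => C.G.Adj v (C.pv h))) ≤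
        2 * P.Θ * Real.exp (2 * P.Θ) * ν2 * Q.card) ∧
      -- the middle part
      (∀ m : ℝ, ∑ z ∈ univ.filter (fun z => ν2 ≤ phi C.G Q z ∧ phi C.G Q z < ν1), phi C.G Q z ≤ m * P.Δ →
        ∑ v ∈ Q, ∑ h ∈ Wm.filter (fun h => C.G.Adj v (C.pv h)), ∑ t ∈ range s, pact C.nb P.R p t h ≤
          2 * m / P.ζ * Q.card)

/-- Lemma K (key lemma): few bad neighbours -/
def S_KEY : Prop :=
  ∀ (P : Par) (V X : Type) [Fintype V] [Fintype X] (C : Cov V X), COk P C →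
    ∀ p : ℕ → X → ℝ, Rates P C p → ∀ s ≤ P.R, Flow P C p s → (∀ h, P.δ ≤ C.cc P.R p s h) →
      ∀ x : X, ((C.col x).filter (fun y =>
        P.K * C.cc P.R p s x * C.cc P.R p s y < av C.nb P.R p s (C.col x ∪ C.col y))).card < P.M

/-- (6.1) -/
def S_PACT : Prop :=
  ∀ (P : Par) (V X : Type) [Fintype V] [Fintype X] (C : Cov V X), COk P C →
    ∀ p : ℕ → X → ℝ, Rates P C p → ∀ t < P.R, ∀ h : X,
      pact C.nb P.R p t h ≤ P.ε0 / P.ℓ * C.un P.R p t (C.pv h) + P.pm * (P.Ca / P.Δ)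

/-- (6.2) -/
def S_USTEP : Prop :=
  ∀ (P : Par) (V X : Type) [Fintype V] [Fintype X] (C : Cov V X), COk P C →
    ∀ p : ℕ → X → ℝ, Rates P C p → ∀ t < P.R, (∀ h, P.δ ≤ C.cc P.R p t h) → ∀ v : V,
      C.un P.R p (t + 1) v ≤
        (1 - P.ε0 + P.ε0 ^ 2 / (2 * P.δ ^ 2)) * C.un P.R p t v + P.ε0 / P.δ * (P.Ca / P.Δ)

/-- (6.4) -/
def S_CSTEP : Prop :=
  ∀ (P : Par) (V X : Type) [Fintype V] [Fintype X] (C : Cov V X), COk P C →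
    ∀ p : ℕ → X → ℝ, Rates P C p → ∀ t < P.R, ∀ ub : ℝ, (∀ v, C.un P.R p t v ≤ ub) → ∀ x : X,
      ((C.col x).filter (fun y =>
        P.K * C.cc P.R p t x * C.cc P.R p t y < av C.nb P.R p t (C.col x ∪ C.col y))).card < P.M →
      C.cc P.R p t x * (1 - P.K / P.ζ * P.ε0 * ub) - P.pm * (P.Ca + P.M) ≤ C.cc P.R p (t + 1) x

/-- outcome of the recursions -/
def S_REC : Prop :=
  ∀ (P : Par) (V X : Type) [Fintype V] [Fintype X] (C : Cov V X), COk P C →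
    ∀ p : ℕ → X → ℝ, Rates P C p →
      (∀ h, P.δ ≤ C.cc P.R p P.R h) ∧ (∀ v, C.un P.R p P.R v ≤ P.κ1)

/-- influence of one coin `(s,h)`: expected number of changes of acts on `Q` with the coins of the later rounds
integrated out -/
def S_INF : Prop :=
  ∀ (X : Type) [Fintype X] (nb : X → Finset X) (R : ℕ) (p : ℕ → X → ℝ) (pm : ℝ),
    (∀ t h, 0 ≤ p t h) → (∀ t h, p t h ≤ pm) → pm ≤ 1 → ∀ (Q : Finset X) (i : Fin R × X) (ξ : Coins R X),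
      ExS (rt R p) {j | (i.1 : ℕ) < (j.1 : ℕ)} (fun η => ∑ t ∈ range R, ∑ y ∈ Q,
        (if (act nb (Function.update η i true) t y ↔ act nb (Function.update η i false) t y) then 0 else 1)) ξ ≤
      ∑ y ∈ Q, ((Top pm nb)^[R] (ind {i.2})) y

/-- Lemma C (concentration) -/
def S_CONC : Prop :=
  ∀ (P : Par) (V X : Type) [Fintype V] [Fintype X] (C : Cov V X), COk P C →
    ∀ p : ℕ → X → ℝ, Rates P C p → ∀ Q : Finset X, Q.card ≤ P.Δ * P.ℓ →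
      ∀ F : Coins P.R X → ℝ,
        (∀ ξ ξ', |F ξ - F ξ'| ≤ ∑ t ∈ range P.R, ∑ y ∈ Q,
          (if (act C.nb ξ t y ↔ act C.nb ξ' t y) then (0 : ℝ) else 1)) →
        Pr (rt P.R p) (fun ξ => Ex (rt P.R p) F + P.κ3 * P.Δ ≤ F ξ) ≤ Real.exp (-(P.c1 * P.Δ))

/-- tails of `F1` and `F4` -/
def S_TAIL14 : Prop :=
  ∀ (P : Par) (V X : Type) [Fintype V] [Fintype X] (C : Cov V X), COk P C →
    ∀ p : ℕ → X → ℝ, Rates P C p → (∀ h, P.δ ≤ C.cc P.R p P.R h) → (∀ v, C.un P.R p P.R v ≤ P.κ1) → ∀ v : V,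
      Pr (rt P.R p) (fun ξ => (P.κ1 + P.κ3) * P.Δ ≤ C.F1 ξ v) ≤ Real.exp (-(P.c1 * P.Δ)) ∧
      Pr (rt P.R p) (fun ξ => (1 - P.δ) * P.ℓ + P.κ3 * P.Δ ≤ C.F4 ξ v) ≤ Real.exp (-(P.c1 * P.Δ))

/-- tail of `F2` -/
def S_TAIL2 : Prop :=
  ∀ (P : Par) (V X : Type) [Fintype V] [Fintype X] (C : Cov V X), COk P C →
    ∀ p : ℕ → X → ℝ, Rates P C p → ∀ v : V,
      Pr (rt P.R p) (fun ξ => P.κ3 * P.Δ ≤ C.F2 ξ v) ≤ Real.exp (-(P.κ3 / 2 * P.Δ))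

/-- tail of `F3` -/
def S_TAIL3 : Prop :=
  ∀ (P : Par) (V X : Type) [Fintype V] [Fintype X] (C : Cov V X), COk P C →
    ∀ p : ℕ → X → ℝ, Rates P C p → ∀ v : V,
      Pr (rt P.R p) (fun ξ => P.κ3 * P.Δ ≤ C.F3 ξ v) ≤ Real.exp (-(P.κ3 / 2 * P.Δ))

/-- locality -/
def S_LOC : Prop :=
  ∀ (V X : Type) [Fintype V] [Fintype X] (C : Cov V X) (R Δ : ℕ), (∀ v, (C.N v).card ≤ Δ) →
    (∀ v, Dep {i : Fin R × X | C.pv i.2 ∈ C.ball v (R + 2)} (fun ξ => C.F1 (R := R) ξ v)) ∧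
    (∀ v, Dep {i : Fin R × X | C.pv i.2 ∈ C.ball v (R + 2)} (fun ξ => C.F2 (R := R) ξ v)) ∧
    (∀ v, Dep {i : Fin R × X | C.pv i.2 ∈ C.ball v (R + 2)} (fun ξ => C.F3 (R := R) ξ v)) ∧
    (∀ v, Dep {i : Fin R × X | C.pv i.2 ∈ C.ball v (R + 2)} (fun ξ => C.F4 (R := R) ξ v)) ∧
    (∀ v, (univ.filter (fun u => ¬ Disjoint {i : Fin R × X | C.pv i.2 ∈ C.ball v (R + 2)}
      {i : Fin R × X | C.pv i.2 ∈ C.ball u (R + 2)})).card ≤ (Δ + 1) ^ (2 * R + 4))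

/-- completion of the colouring -/
def S_FIN : Prop :=
  ∀ (V X : Type) [Fintype V] [Fintype X] (C : Cov V X) (R : ℕ) (ξ : Coins R X),
    (∀ v, C.F1 ξ v + C.F2 ξ v + C.F3 ξ v + C.F4 ξ v < (C.fib v).card) →
    ∃ f : V → X, (∀ v, C.pv (f v) = v) ∧ ∀ u v, C.G.Adj u v → C.pc (f u) ≠ C.pc (f v)

/-- existence of the parameters -/
def S_PAR : Prop :=
  ∀ ζ ε : ℝ, 0 < ζ → ζ ≤ 1 → 0 < ε → ε ≤ 1 → ∃ Δ₀ : ℕ, ∀ Δ : ℕ, Δ₀ ≤ Δ → ∀ ℓ : ℕ,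
    (ζ + ε / 2) * Δ ≤ ℓ → ∃ P : Par, P.ζ = ζ ∧ P.Δ = Δ ∧ P.ℓ = ℓ

end Vu80
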