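import Pool.Agent.Lib_helper80.Vu.Stmts

/-!
# Vu's conjecture: tails of `F2` and `F3` (module VU_TAIL23 of MP_aa8d53_co)
-/

set_option autoImplicit false

open scoped Classical
open Finset

noncomputable section

namespace Vu80

namespace Tail

section general

variable {I : Type} [Fintype I]

lemma ex_prod (p : I → ℝ) (g : I → Bool → ℝ) :
    Ex p (fun ξ => ∏ i, g i (ξ i)) = ∏ i, (p i * g i true + (1 - p i) * g i false) := by
  unfold Ex wt
  have h : ∀ i, p i * g i true + (1 - p i) * g i false =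
      ∑ b : Bool, (if b = true then p i else 1 - p i) * g i b := by
    intro i
    simp
  simp_rw [h]
  rw [Finset.prod_univ_sum]
  simp only [Fintype.piFinset_univ]
  refine sum_congr rfl fun ξ _ => ?_
  rw [prod_mul_distrib]

lemma wt_nn {p : I → ℝ} (hp : ∀ i, 0 ≤ p i ∧ p i ≤ 1) (ξ : I → Bool) : 0 ≤ wt p ξ := by
  unfold wt
  refine prod_nonneg fun i _ => ?_
  split_ifs
  · exact (hp i).1
  · linarith [(hp i).2]

lemma ex_mono {p : I → ℝ} (hp : ∀ i, 0 ≤ p i ∧ p i ≤ 1) {f g : (I → Bool) → ℝ}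
    (h : ∀ ξ, f ξ ≤ g ξ) : Ex p f ≤ Ex p g :=
  sum_le_sum fun ξ _ => mul_le_mul_of_nonneg_left (h ξ) (wt_nn hp ξ)

lemma ex_nn {p : I → ℝ} (hp : ∀ i, 0 ≤ p i ∧ p i ≤ 1) {f : (I → Bool) → ℝ}
    (h : ∀ ξ, 0 ≤ f ξ) : 0 ≤ Ex p f :=
  sum_nonneg fun ξ _ => mul_nonneg (wt_nn hp ξ) (h ξ)

lemma ex_one (p : I → ℝ) : Ex p (fun _ => 1) = 1 := by
  have h := ex_prod p (fun _ _ => 1)
  simpa using h

lemma ex_add (p : I → ℝ) (f g : (I → Bool) → ℝ) :
    Ex p (fun ξ => f ξ + g ξ) = Ex p f + Ex p g := by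
  unfold Ex
  rw [← sum_add_distrib]
  exact sum_congr rfl fun ξ _ => by ring

lemma ex_cmul (p : I → ℝ) (c : ℝ) (f : (I → Bool) → ℝ) :
    Ex p (fun ξ => c * f ξ) = c * Ex p f := by
  unfold Ex
  rw [mul_sum]
  exact sum_congr rfl fun ξ _ => by ring

lemma ex_sum {J : Type} (p : I → ℝ) (A : Finset J) (f : J → (I → Bool) → ℝ) :
    Ex p (fun ξ => ∑ j ∈ A, f j ξ) = ∑ j ∈ A, Ex p (f j) := by
  unfold Ex
  simp_rw [mul_sum]
  rw [sum_comm]

lemma wt_mix (p : I → ℝ) (S : Set I) (ξ ξ' : I → Bool) :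
    wt p (mix S ξ ξ') * wt p (mix S ξ' ξ) = wt p ξ * wt p ξ' := by
  unfold wt mix
  rw [← prod_mul_distrib, ← prod_mul_distrib]
  refine prod_congr rfl fun i _ => ?_
  by_cases h : i ∈ S
  · simp only [h, if_true]
  · simp only [h, if_false]
    ring

lemma ex_mul (p : I → ℝ) {S : Set I} {f g : (I → Bool) → ℝ} (hf : Dep S f) (hg : Dep Sᶜ g) :
    Ex p (fun ξ => f ξ * g ξ) = Ex p f * Ex p g := by
  have h1 : Ex p f * Ex p g = ∑ x : (I → Bool) × (I → Bool),
      wt p x.1 * wt p x.2 * (f x.1 * g x.2) := by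
    unfold Ex
    rw [Fintype.sum_prod_type, sum_mul_sum]
    exact sum_congr rfl fun ξ _ => sum_congr rfl fun ξ' _ => by ring
  have h2 : Ex p (fun ξ => f ξ * g ξ) = ∑ x : (I → Bool) × (I → Bool),
      wt p x.1 * wt p x.2 * (f x.1 * g x.1) := by
    have h3 : Ex p (fun ξ => f ξ * g ξ) = Ex p (fun ξ => f ξ * g ξ) * Ex p (fun _ => 1) := by
      rw [ex_one, mul_one]
    rw [h3]
    unfold Ex
    rw [Fintype.sum_prod_type, sum_mul_sum]
    exact sum_congr rfl fun ξ _ => sum_congr rfl fun ξ' _ => by ring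
  have hinv : Function.Involutive (fun x : (I → Bool) × (I → Bool) =>
      (mix S x.1 x.2, mix S x.2 x.1)) := by
    rintro ⟨ξ, ξ'⟩
    refine Prod.ext ?_ ?_ <;>
    · funext i
      by_cases h : i ∈ S <;> simp [mix, h]
  rw [h1, h2]
  rw [← Equiv.sum_comp hinv.toPerm]
  refine sum_congr rfl fun x _ => ?_
  simp only [Function.Involutive.coe_toPerm]
  rw [wt_mix]
  congr 2
  · refine hf _ _ fun i hi => ?_
    simp [mix, hi]
  · refine hg _ _ fun i hi => ?_
    have : i ∉ S := hi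
    simp [mix, this]

lemma ex_blocks (p : I → ℝ) {J : Type} (c : I → J) (A : Finset J) (f : J → (I → Bool) → ℝ)
    (hf : ∀ j, Dep {i | c i = j} (f j)) :
    Ex p (fun ξ => ∏ j ∈ A, f j ξ) = ∏ j ∈ A, Ex p (f j) := by
  induction A using Finset.induction_on with
  | empty => simp [ex_one]
  | insert a A ha ih =>
    rw [prod_insert ha, ← ih, ← ex_mul p (hf a) (g := fun ξ => ∏ j ∈ A, f j ξ)]
    · congr 1
      funext ξ
      rw [prod_insert ha]
    · intro ξ ξ' h
      refine prod_congr rfl fun j hj => ?_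
      refine hf j _ _ fun i hi => h i ?_
      intro h'
      have h1 : c i = j := hi
      have h2 : c i = a := h'
      exact ha (h2 ▸ h1 ▸ hj)

lemma prod_le_exp {J : Type} (A : Finset J) (x y : J → ℝ) (h0 : ∀ j ∈ A, 0 ≤ x j)
    (h : ∀ j ∈ A, x j ≤ 1 + y j) : ∏ j ∈ A, x j ≤ Real.exp (∑ j ∈ A, y j) := by
  rw [Real.exp_sum]
  refine prod_le_prod h0 fun j hj => ?_
  have := Real.add_one_le_exp (y j)
  linarith [h j hj]

lemma markov_exp {p : I → ℝ} (hp : ∀ i, 0 ≤ p i ∧ p i ≤ 1) {F : (I → Bool) → ℝ} {a b c : ℝ}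
    (h : Ex p (fun ξ => Real.exp (F ξ)) ≤ Real.exp b) (hc : b - a ≤ c) :
    Pr p (fun ξ => a ≤ F ξ) ≤ Real.exp c := by
  unfold Pr
  have h1 : Ex p (fun ξ => if a ≤ F ξ then (1 : ℝ) else 0) ≤
      Ex p (fun ξ => Real.exp (-a) * Real.exp (F ξ)) := by
    refine ex_mono hp fun ξ => ?_
    split_ifs with h2
    · rw [← Real.exp_add]
      exact Real.one_le_exp (by linarith)
    · positivity
  rw [ex_cmul] at h1
  refine h1.trans ((mul_le_mul_of_nonneg_left h (Real.exp_pos _).le).trans ?_)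
  rw [← Real.exp_add]
  exact Real.exp_le_exp.2 (by linarith)

/-- two coins on, weighted with `a ^ (number of coins on in A)` -/
lemma ex_pair {p : I → ℝ} {pm : ℝ} (hp : ∀ i, 0 ≤ p i ∧ p i ≤ pm) (hpm : pm ≤ 1) {a : ℝ}
    (ha : 1 ≤ a) (A : Finset I) {i j : I} (hij : i ≠ j) :
    Ex p (fun ξ => (∏ k ∈ A, if ξ k = true then a else 1) *
      (if ξ i = true ∧ ξ j = true then 1 else 0)) ≤ (pm * a) ^ 2 * (1 + (a - 1) * pm) ^ A.card := by
  have hpm0 : 0 ≤ pm := (hp i).1.trans (hp i).2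
  have ha0 : 0 ≤ (a - 1) * pm := mul_nonneg (by linarith) hpm0
  set g : I → Bool → ℝ := fun k b => (if k ∈ A ∧ b = true then a else 1) *
    (if (k = i ∨ k = j) ∧ b = false then 0 else 1) with hg
  have h1 : (fun ξ : I → Bool => (∏ k ∈ A, if ξ k = true then a else 1) *
      (if ξ i = true ∧ ξ j = true then (1 : ℝ) else 0)) = fun ξ => ∏ k, g k (ξ k) := by
    funext ξ
    simp only [hg]
    rw [prod_mul_distrib]
    congr 1
    · rw [← Finset.prod_filter_mul_prod_filter_not univ (fun k => k ∈ A)]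
      have e1 : ∏ k ∈ univ.filter (fun k => k ∈ A), (if k ∈ A ∧ ξ k = true then a else 1) =
          ∏ k ∈ A, if ξ k = true then a else 1 := by
        rw [Finset.filter_mem_eq_inter, univ_inter]
        refine prod_congr rfl fun k hk => ?_
        simp [hk]
      have e2 : ∏ k ∈ univ.filter (fun k => ¬ k ∈ A), (if k ∈ A ∧ ξ k = true then a else 1) = 1 := by
        refine prod_eq_one fun k hk => ?_
        have : k ∉ A := (mem_filter.1 hk).2
        simp [this]
      rw [e1, e2, mul_one]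
    · by_cases h : ξ i = true ∧ ξ j = true
      · rw [if_pos h]
        symm
        refine prod_eq_one fun k _ => ?_
        rw [if_neg]
        rintro ⟨h2 | h2, h3⟩
        · rw [h2, h.1] at h3; exact absurd h3 (by simp)
        · rw [h2, h.2] at h3; exact absurd h3 (by simp)
      · rw [if_neg h]
        symm
        by_cases hi : ξ i = true
        · have hj : ξ j = false := by
            have : ¬ ξ j = true := fun h' => h ⟨hi, h'⟩
            simpa using this
          exact prod_eq_zero (mem_univ j) (if_pos ⟨Or.inr rfl, hj⟩)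
        · have hi' : ξ i = false := by simpa using hi
          exact prod_eq_zero (mem_univ i) (if_pos ⟨Or.inl rfl, hi'⟩)
  rw [h1, ex_prod]
  have h2 : ∀ k, p k * g k true + (1 - p k) * g k false ≤
      (if k = i then pm * a else 1) * (if k = j then pm * a else 1) *
        (if k ∈ A then 1 + (a - 1) * pm else 1) := by
    intro k
    obtain ⟨hk0, hk1⟩ := hp k
    have hgt : g k true = if k ∈ A then a else 1 := by simp [hg]
    have hgf : g k false = if k = i ∨ k = j then 0 else 1 := by simp [hg]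
    rw [hgt, hgf]
    have hpa : 0 ≤ pm * a := mul_nonneg hpm0 (by linarith)
    have hka : p k * a ≤ pm * a := mul_le_mul_of_nonneg_right hk1 (by linarith)
    have hk1a : p k * 1 ≤ pm * a := mul_le_mul hk1 ha (by norm_num) hpm0
    have hAle : ∀ c : ℝ, 0 ≤ c → c ≤ c * (if k ∈ A then 1 + (a - 1) * pm else 1) := by
      intro c hc
      split_ifs
      · nlinarith [mul_nonneg hc ha0]
      · linarith
    by_cases hki : k = i
    · have hkj : k ≠ j := fun h => hij (hki.symm.trans h)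
      rw [if_pos (Or.inl hki), if_pos hki, if_neg hkj, mul_zero, add_zero, mul_one]
      refine le_trans ?_ (hAle _ hpa)
      split_ifs
      · exact hka
      · exact hk1a
    · by_cases hkj : k = j
      · rw [if_pos (Or.inr hkj), if_neg hki, if_pos hkj, mul_zero, add_zero, one_mul]
        refine le_trans ?_ (hAle _ hpa)
        split_ifs
        · exact hka
        · exact hk1a
      · have hn : ¬ (k = i ∨ k = j) := by
          rintro (h | h)
          · exact hki h
          · exact hkj h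
        rw [if_neg hn, if_neg hki, if_neg hkj, mul_one, one_mul, one_mul]
        split_ifs
        · nlinarith
        · linarith
  have h3 : ∀ k, 0 ≤ p k * g k true + (1 - p k) * g k false := by
    intro k
    obtain ⟨hk0, hk1⟩ := hp k
    have hg0 : ∀ b, 0 ≤ g k b := by
      intro b
      simp only [hg]
      refine mul_nonneg ?_ ?_ <;> split_ifs <;> linarith
    have : 0 ≤ 1 - p k := by linarith
    exact add_nonneg (mul_nonneg hk0 (hg0 _)) (mul_nonneg this (hg0 _))
  refine (prod_le_prod (fun k _ => h3 k) fun k _ => h2 k).trans_eq ?_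
  rw [prod_mul_distrib, prod_mul_distrib]
  simp only [prod_ite_eq', mem_univ, if_true]
  rw [← Finset.prod_filter, Finset.filter_mem_eq_inter, univ_inter, prod_const]
  ring

end general

section tails

variable {V X : Type} [Fintype V] [Fintype X]

lemma rt_bd {P : Par} {C : Cov V X} {p : ℕ → X → ℝ} (hr : Rates P C p) (i : Fin P.R × X) :
    0 ≤ rt P.R p i ∧ rt P.R p i ≤ P.pm := ⟨hr.nonneg _ _, hr.le _ _⟩

lemma pm_le (P : Par) : P.pm ≤ 1 := P.hpm1

lemma pm_nn (P : Par) : 0 ≤ P.pm := by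
  have h1 := P.hε0
  have h2 := P.hδ
  unfold Par.pm
  positivity

lemma rt_bd1 {P : Par} {C : Cov V X} {p : ℕ → X → ℝ} (hr : Rates P C p) (i : Fin P.R × X) :
    0 ≤ rt P.R p i ∧ rt P.R p i ≤ 1 := ⟨(rt_bd hr i).1, (rt_bd hr i).2.trans (pm_le P)⟩

lemma e_le : Real.exp 1 - 1 ≤ 2 := by
  have := Real.exp_one_lt_d9
  linarith

/-- two coins of the same round over `u` are on -/
def conf {R : ℕ} (C : Cov V X) (u : V) (ξ : Coins R X) : Prop :=
  ∃ t, ∃ h ∈ C.fib u, ∃ y ∈ C.fib u, h ≠ y ∧ on ξ t h ∧ on ξ t y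

omit [Fintype V] in
lemma conf_le {R : ℕ} (C : Cov V X) (u : V) (ξ : Coins R X) :
    (if conf C u ξ then (1 : ℝ) else 0) ≤ ∑ t : Fin R, ∑ h ∈ C.fib u, ∑ y ∈ C.fib u,
      (if h ≠ y then (if ξ (t, h) = true ∧ ξ (t, y) = true then (1 : ℝ) else 0) else 0) := by
  have h0 : ∀ (t : Fin R) (h y : X), (0 : ℝ) ≤
      (if h ≠ y then (if ξ (t, h) = true ∧ ξ (t, y) = true then (1 : ℝ) else 0) else 0) := by
    intro t h y
    split_ifs <;> norm_num
  by_cases hc : conf C u ξ
  · rw [if_pos hc]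
    obtain ⟨t, h, hh, y, hy, hne, ⟨ht, h1⟩, ⟨ht', h2⟩⟩ := hc
    calc (1 : ℝ) = (if h ≠ y then (if ξ (⟨t, ht⟩, h) = true ∧ ξ (⟨t, ht⟩, y) = true
          then (1 : ℝ) else 0) else 0) := by
          rw [if_pos hne, if_pos ⟨h1, h2⟩]
      _ ≤ ∑ y ∈ C.fib u, (if h ≠ y then (if ξ (⟨t, ht⟩, h) = true ∧ ξ (⟨t, ht⟩, y) = true
          then (1 : ℝ) else 0) else 0) :=
          single_le_sum (f := fun y => (if h ≠ y then (if ξ (⟨t, ht⟩, h) = true ∧
            ξ (⟨t, ht⟩, y) = true then (1 : ℝ) else 0) else 0)) (fun y _ => h0 _ _ y) hy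
      _ ≤ ∑ h ∈ C.fib u, ∑ y ∈ C.fib u, (if h ≠ y then (if ξ (⟨t, ht⟩, h) = true ∧
          ξ (⟨t, ht⟩, y) = true then (1 : ℝ) else 0) else 0) :=
          single_le_sum (f := fun h => ∑ y ∈ C.fib u, (if h ≠ y then (if ξ (⟨t, ht⟩, h) = true ∧
            ξ (⟨t, ht⟩, y) = true then (1 : ℝ) else 0) else 0))
            (fun h _ => sum_nonneg fun y _ => h0 _ _ _) hh
      _ ≤ _ :=
          single_le_sum (f := fun t : Fin R => ∑ h ∈ C.fib u, ∑ y ∈ C.fib u,
            (if h ≠ y then (if ξ (t, h) = true ∧ ξ (t, y) = true then (1 : ℝ) else 0) else 0))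
            (fun t _ => sum_nonneg fun h _ => sum_nonneg fun y _ => h0 _ _ _)
            (mem_univ (⟨t, ht⟩ : Fin R))
  · rw [if_neg hc]
    exact sum_nonneg fun t _ => sum_nonneg fun h _ => sum_nonneg fun y _ => h0 _ _ _

lemma conf_pr {P : Par} {C : Cov V X} (hC : COk P C) {p : ℕ → X → ℝ} (hr : Rates P C p) (u : V) :
    Ex (rt P.R p) (fun ξ => if conf C u ξ then (1 : ℝ) else 0) ≤ P.R * (P.ℓ * P.pm) ^ 2 := by
  refine (ex_mono (rt_bd1 hr) fun ξ => conf_le C u ξ).trans ?_
  rw [ex_sum]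
  have h1 : ∀ t : Fin P.R, Ex (rt P.R p) (fun ξ => ∑ h ∈ C.fib u, ∑ y ∈ C.fib u,
      (if h ≠ y then (if ξ (t, h) = true ∧ ξ (t, y) = true then (1 : ℝ) else 0) else 0)) ≤
      (P.ℓ * P.pm) ^ 2 := by
    intro t
    rw [ex_sum]
    simp_rw [ex_sum]
    have h2 : ∀ h y : X, Ex (rt P.R p) (fun ξ => (if h ≠ y then (if ξ (t, h) = true ∧
        ξ (t, y) = true then (1 : ℝ) else 0) else 0)) ≤ P.pm ^ 2 := by
      intro h y
      by_cases hne : h = y
      · simp only [hne, ne_eq, not_true_eq_false, if_false]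
        have : Ex (rt P.R p) (fun _ => (0 : ℝ)) = 0 := by simp [Ex]
        rw [this]
        positivity
      · simp only [ne_eq, hne, not_false_eq_true, if_true]
        have h3 := ex_pair (rt_bd hr) (pm_le P) (le_refl (1 : ℝ)) ∅ (i := (t, h)) (j := (t, y))
          (fun h' => hne (Prod.ext_iff.1 h').2)
        simpa using h3
    calc ∑ h ∈ C.fib u, ∑ y ∈ C.fib u, Ex (rt P.R p) (fun ξ => (if h ≠ y then (if ξ (t, h) = true ∧
        ξ (t, y) = true then (1 : ℝ) else 0) else 0)) ≤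
          ∑ h ∈ C.fib u, ∑ y ∈ C.fib u, P.pm ^ 2 :=
          sum_le_sum fun h _ => sum_le_sum fun y _ => h2 h y
      _ = (P.ℓ * P.pm) ^ 2 := by
          simp only [sum_const, hC.fib u, nsmul_eq_mul]
          ring
  calc ∑ t : Fin P.R, Ex (rt P.R p) (fun ξ => ∑ h ∈ C.fib u, ∑ y ∈ C.fib u,
      (if h ≠ y then (if ξ (t, h) = true ∧ ξ (t, y) = true then (1 : ℝ) else 0) else 0)) ≤
        ∑ t : Fin P.R, (P.ℓ * P.pm) ^ 2 := sum_le_sum fun t _ => h1 t
    _ = _ := by simp

/-- pairs of colour `a` over the neighbours of `v` -/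
def Aa (C : Cov V X) (v : V) (a : ℕ) : Finset X :=
  univ.filter (fun h => C.pc h = a ∧ C.G.Adj v (C.pv h))

/-- number of coins on in round `t` in `Aa` -/
def Tn {R : ℕ} (C : Cov V X) (v : V) (i : Fin R × ℕ) (ξ : Coins R X) : ℝ :=
  ∑ h ∈ Aa C v i.2, if ξ (i.1, h) = true then 1 else 0

/-- conflict of colour `a` in round `t` at some neighbour of `v` -/
def Jn {R : ℕ} (C : Cov V X) (v : V) (i : Fin R × ℕ) (ξ : Coins R X) : Prop :=
  ∃ h ∈ Aa C v i.2, ∃ y ∈ C.col h, ξ (i.1, h) = true ∧ ξ (i.1, y) = true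

lemma card_Aa {P : Par} {C : Cov V X} (hC : COk P C) (v : V) (a : ℕ) :
    (Aa C v a).card ≤ P.Δ := by
  refine le_trans ?_ (hC.deg v)
  refine card_le_card_of_injOn C.pv (fun h hh => ?_) fun h hh y hy hhy => ?_
  · have := (mem_filter.1 hh).2.2
    exact mem_filter.2 ⟨mem_univ _, this⟩
  · have h1 := (mem_filter.1 hh).2.1
    have h2 := (mem_filter.1 hy).2.1
    exact C.inj h y hhy (h1.trans h2.symm)

lemma card_col {P : Par} {C : Cov V X} (hC : COk P C) (x : X) :
    (C.col x).card ≤ P.Δ := by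
  refine le_trans ?_ (hC.deg (C.pv x))
  refine card_le_card_of_injOn C.pv (fun h hh => ?_) fun h hh y hy hhy => ?_
  · have := (mem_filter.1 hh).2.2
    exact mem_filter.2 ⟨mem_univ _, this⟩
  · have h1 := (mem_filter.1 hh).2.1
    have h2 := (mem_filter.1 hy).2.1
    exact C.inj h y hhy (h1.trans h2.symm)

/-- sum over all pairs over the neighbours of `v` -/
lemma sum_Aa (C : Cov V X) (v : V) (f : X → ℝ) :
    ∑ a ∈ univ.image C.pc, ∑ h ∈ Aa C v a, f h = ∑ u ∈ C.N v, ∑ h ∈ C.fib u, f h := by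
  have h1 : ∑ a ∈ univ.image C.pc, ∑ h ∈ Aa C v a, f h =
      ∑ h ∈ univ.filter (fun h => C.G.Adj v (C.pv h)), f h := by
    rw [← sum_fiberwise_of_maps_to (s := univ.filter (fun h => C.G.Adj v (C.pv h)))
      (t := univ.image C.pc) (g := C.pc) (fun h _ => mem_image_of_mem _ (mem_univ h))]
    refine sum_congr rfl fun a _ => sum_congr ?_ fun _ _ => rfl
    ext h
    simp only [Aa, mem_filter, mem_univ, true_and]
    tauto
  have h2 : ∑ u ∈ C.N v, ∑ h ∈ C.fib u, f h =
      ∑ h ∈ univ.filter (fun h => C.G.Adj v (C.pv h)), f h := by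
    rw [← sum_fiberwise_of_maps_to (s := univ.filter (fun h => C.G.Adj v (C.pv h)))
      (t := C.N v) (g := C.pv) (fun h hh => mem_filter.2 ⟨mem_univ _, (mem_filter.1 hh).2⟩)]
    refine sum_congr rfl fun u hu => sum_congr ?_ fun _ _ => rfl
    ext h
    have hu' : C.G.Adj v u := (mem_filter.1 hu).2
    simp only [Cov.fib, mem_filter, mem_univ, true_and]
    constructor
    · intro h3
      exact ⟨h3 ▸ hu', h3⟩
    · rintro ⟨_, h3⟩
      exact h3
  rw [h1, h2]

lemma F3_le {R : ℕ} (C : Cov V X) (v : V) (ξ : Coins R X) :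
    (C.F3 ξ v : ℝ) ≤ ∑ i ∈ (univ : Finset (Fin R)) ×ˢ univ.image C.pc,
      Tn C v i ξ * (if Jn C v i ξ then 1 else 0) := by
  have h1 : (C.F3 ξ v : ℝ) = ∑ u ∈ C.N v, (if (∃ t, ∃ h ∈ C.fib u, ∃ y ∈ C.col h,
      on ξ t h ∧ on ξ t y) then (1 : ℝ) else 0) := by
    unfold Cov.F3
    rw [Finset.sum_boole]
  have hnn : ∀ (t : Fin R) (h : X), (0 : ℝ) ≤ (if ξ (t, h) = true then (1 : ℝ) else 0) *
      (if Jn C v (t, C.pc h) ξ then 1 else 0) := by
    intro t h
    refine mul_nonneg ?_ ?_ <;> split_ifs <;> norm_num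
  rw [h1]
  have h2 : ∀ u ∈ C.N v, (if (∃ t, ∃ h ∈ C.fib u, ∃ y ∈ C.col h,
      on ξ t h ∧ on ξ t y) then (1 : ℝ) else 0) ≤ ∑ h ∈ C.fib u, ∑ t : Fin R,
        (if ξ (t, h) = true then (1 : ℝ) else 0) * (if Jn C v (t, C.pc h) ξ then 1 else 0) := by
    intro u hu
    have hu' : C.G.Adj v u := (mem_filter.1 hu).2
    split_ifs with hc
    · obtain ⟨t, h, hh, y, hy, ⟨ht, hh1⟩, ⟨ht', hy1⟩⟩ := hc
      have hh' : C.pv h = u := (mem_filter.1 hh).2
      have hJ : Jn C v (⟨t, ht⟩, C.pc h) ξ :=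
        ⟨h, mem_filter.2 ⟨mem_univ _, rfl, hh' ▸ hu'⟩, y, hy, hh1, hy1⟩
      calc (1 : ℝ) = (if ξ ((⟨t, ht⟩ : Fin R), h) = true then (1 : ℝ) else 0) *
            (if Jn C v (⟨t, ht⟩, C.pc h) ξ then 1 else 0) := by
            rw [if_pos hh1, if_pos hJ, mul_one]
        _ ≤ ∑ t : Fin R, (if ξ (t, h) = true then (1 : ℝ) else 0) *
            (if Jn C v (t, C.pc h) ξ then 1 else 0) :=
            single_le_sum (f := fun t : Fin R => (if ξ (t, h) = true then (1 : ℝ) else 0) *
              (if Jn C v (t, C.pc h) ξ then 1 else 0)) (fun t _ => hnn t h)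
              (mem_univ (⟨t, ht⟩ : Fin R))
        _ ≤ _ := single_le_sum (f := fun h => ∑ t : Fin R, (if ξ (t, h) = true then (1 : ℝ) else 0) *
              (if Jn C v (t, C.pc h) ξ then 1 else 0)) (fun h _ => sum_nonneg fun t _ => hnn t h) hh
    · exact sum_nonneg fun h _ => sum_nonneg fun t _ => hnn t h
  refine (sum_le_sum h2).trans_eq ?_
  rw [← sum_Aa C v, sum_product_right]
  refine sum_congr rfl fun a _ => ?_
  rw [sum_comm]
  refine sum_congr rfl fun t _ => ?_
  unfold Tn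
  rw [sum_mul]
  refine sum_congr rfl fun h hh => ?_
  have : C.pc h = a := (mem_filter.1 hh).2.1
  rw [this]

lemma block_pr {P : Par} {C : Cov V X} (hC : COk P C) {p : ℕ → X → ℝ} (hr : Rates P C p) (v : V)
    (i : Fin P.R × ℕ) :
    Ex (rt P.R p) (fun ξ => Real.exp (Tn C v i ξ * (if Jn C v i ξ then 1 else 0))) ≤
      1 + (Aa C v i.2).card * (P.Δ * (P.pm ^ 2 * Real.exp (2 + 2 * (P.pm * P.Δ)))) := by
  have hpm := pm_nn P
  set E : ℝ := P.pm ^ 2 * Real.exp (2 + 2 * (P.pm * P.Δ)) with hE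
  have hE0 : 0 ≤ E := by positivity
  -- pointwise bound
  have h1 : ∀ ξ : Coins P.R X, Real.exp (Tn C v i ξ * (if Jn C v i ξ then 1 else 0)) ≤
      1 + ∑ h ∈ Aa C v i.2, ∑ y ∈ C.col h, (∏ k ∈ Aa C v i.2,
        if ξ (i.1, k) = true then Real.exp 1 else 1) *
          (if ξ (i.1, h) = true ∧ ξ (i.1, y) = true then 1 else 0) := by
    intro ξ
    have hprod : Real.exp (Tn C v i ξ) = ∏ k ∈ Aa C v i.2,
        if ξ (i.1, k) = true then Real.exp 1 else 1 := by
      unfold Tn
      rw [Real.exp_sum]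
      refine prod_congr rfl fun k _ => ?_
      split_ifs
      · rfl
      · exact Real.exp_zero
    have hpos : 0 < ∏ k ∈ Aa C v i.2, if ξ (i.1, k) = true then Real.exp 1 else 1 := by
      rw [← hprod]
      exact Real.exp_pos _
    have hnn : ∀ h y, 0 ≤ (∏ k ∈ Aa C v i.2, if ξ (i.1, k) = true then Real.exp 1 else 1) *
        (if ξ (i.1, h) = true ∧ ξ (i.1, y) = true then (1 : ℝ) else 0) := by
      intro h y
      refine mul_nonneg hpos.le ?_
      split_ifs <;> norm_num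
    by_cases hJ : Jn C v i ξ
    · rw [if_pos hJ, mul_one, hprod]
      obtain ⟨h, hh, y, hy, h2, h3⟩ := hJ
      have h4 : (∏ k ∈ Aa C v i.2, if ξ (i.1, k) = true then Real.exp 1 else 1) ≤
          ∑ h ∈ Aa C v i.2, ∑ y ∈ C.col h, (∏ k ∈ Aa C v i.2,
            if ξ (i.1, k) = true then Real.exp 1 else 1) *
            (if ξ (i.1, h) = true ∧ ξ (i.1, y) = true then 1 else 0) := by
        calc (∏ k ∈ Aa C v i.2, if ξ (i.1, k) = true then Real.exp 1 else 1) =
            (∏ k ∈ Aa C v i.2, if ξ (i.1, k) = true then Real.exp 1 else 1) *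
              (if ξ (i.1, h) = true ∧ ξ (i.1, y) = true then (1 : ℝ) else 0) := by
              rw [if_pos ⟨h2, h3⟩, mul_one]
          _ ≤ ∑ y ∈ C.col h, (∏ k ∈ Aa C v i.2, if ξ (i.1, k) = true then Real.exp 1 else 1) *
              (if ξ (i.1, h) = true ∧ ξ (i.1, y) = true then (1 : ℝ) else 0) :=
              single_le_sum (f := fun y => (∏ k ∈ Aa C v i.2,
                if ξ (i.1, k) = true then Real.exp 1 else 1) *
                (if ξ (i.1, h) = true ∧ ξ (i.1, y) = true then (1 : ℝ) else 0))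
                (fun y _ => hnn h y) hy
          _ ≤ _ := single_le_sum (f := fun h => ∑ y ∈ C.col h, (∏ k ∈ Aa C v i.2,
                if ξ (i.1, k) = true then Real.exp 1 else 1) *
                (if ξ (i.1, h) = true ∧ ξ (i.1, y) = true then (1 : ℝ) else 0))
                (fun h _ => sum_nonneg fun y _ => hnn h y) hh
      linarith
    · rw [if_neg hJ, mul_zero, Real.exp_zero]
      have := sum_nonneg fun h (_ : h ∈ Aa C v i.2) => sum_nonneg fun y (_ : y ∈ C.col h) => hnn h y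
      linarith
  refine (ex_mono (rt_bd1 hr) h1).trans ?_
  rw [ex_add, ex_one]
  refine add_le_add le_rfl ?_
  rw [ex_sum]
  simp_rw [ex_sum]
  have h2 : ∀ h, ∀ y ∈ C.col h, Ex (rt P.R p) (fun ξ => (∏ k ∈ Aa C v i.2,
      if ξ (i.1, k) = true then Real.exp 1 else 1) *
        (if ξ (i.1, h) = true ∧ ξ (i.1, y) = true then 1 else 0)) ≤ E := by
    intro h y hy
    have hne : h ≠ y := by
      rintro rfl
      exact C.G.irrefl (mem_filter.1 hy).2.2
    have h3 := ex_pair (rt_bd hr) (pm_le P) (Real.one_le_exp (zero_le_one (α := ℝ)))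
      ((Aa C v i.2).map ⟨fun k => (i.1, k), fun k l hkl => (Prod.ext_iff.1 hkl).2⟩)
      (i := (i.1, h)) (j := (i.1, y)) (fun h' => hne (Prod.ext_iff.1 h').2)
    simp only [prod_map, card_map] at h3
    refine h3.trans ?_
    have h4 : (1 + (Real.exp 1 - 1) * P.pm) ^ (Aa C v i.2).card ≤ Real.exp (2 * (P.pm * P.Δ)) := by
      have h5 : 1 + (Real.exp 1 - 1) * P.pm ≤ Real.exp (2 * P.pm) := by
        have := Real.add_one_le_exp (2 * P.pm)
        have := mul_le_mul_of_nonneg_right e_le hpm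
        linarith
      have h6 : 1 ≤ Real.exp (2 * P.pm) := Real.one_le_exp (by positivity)
      have h7 : 0 ≤ 1 + (Real.exp 1 - 1) * P.pm := by
        have : 0 ≤ (Real.exp 1 - 1) * P.pm :=
          mul_nonneg (by linarith [Real.one_le_exp (zero_le_one (α := ℝ))]) hpm
        linarith
      calc (1 + (Real.exp 1 - 1) * P.pm) ^ (Aa C v i.2).card ≤
          Real.exp (2 * P.pm) ^ (Aa C v i.2).card := pow_le_pow_left₀ h7 h5 _
        _ ≤ Real.exp (2 * P.pm) ^ P.Δ := pow_le_pow_right₀ h6 (card_Aa hC v i.2)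
        _ = _ := by
            rw [← Real.exp_nat_mul]
            congr 1
            ring
    calc (P.pm * Real.exp 1) ^ 2 * (1 + (Real.exp 1 - 1) * P.pm) ^ (Aa C v i.2).card ≤
        (P.pm * Real.exp 1) ^ 2 * Real.exp (2 * (P.pm * P.Δ)) :=
          mul_le_mul_of_nonneg_left h4 (by positivity)
      _ = E := by
          rw [hE, Real.exp_add, mul_pow, ← Real.exp_nat_mul]
          push_cast
          rw [mul_one]
          ring
  calc ∑ h ∈ Aa C v i.2, ∑ y ∈ C.col h, Ex (rt P.R p) (fun ξ => (∏ k ∈ Aa C v i.2,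
      if ξ (i.1, k) = true then Real.exp 1 else 1) *
        (if ξ (i.1, h) = true ∧ ξ (i.1, y) = true then 1 else 0)) ≤
      ∑ h ∈ Aa C v i.2, (P.Δ * E : ℝ) := by
        refine sum_le_sum fun h _ => (sum_le_sum fun y hy => h2 h y hy).trans ?_
        rw [sum_const, nsmul_eq_mul]
        have : ((C.col h).card : ℝ) ≤ P.Δ := by exact_mod_cast card_col hC h
        exact mul_le_mul_of_nonneg_right this hE0
    _ = _ := by rw [sum_const, nsmul_eq_mul]

end tails

end Tail

open Tail in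
/-- tail of `F2` -/
theorem tail2 : S_TAIL2 := by
  intro P V X _ _ C hC p hr v
  have hF : ∀ ξ : Coins P.R X, (C.F2 ξ v : ℝ) = ∑ u ∈ C.N v, (if conf C u ξ then (1 : ℝ) else 0) := by
    intro ξ
    unfold Cov.F2
    rw [Finset.sum_boole]
    rfl
  have hκ := P.hκ3
  have h1 : Ex (rt P.R p) (fun ξ => Real.exp (C.F2 ξ v)) ≤ Real.exp (P.κ3 / 2 * P.Δ) := by
    have h2 : (fun ξ : Coins P.R X => Real.exp (C.F2 ξ v)) = fun ξ => ∏ u ∈ C.N v,
        Real.exp (if conf C u ξ then (1 : ℝ) else 0) := by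
      funext ξ
      rw [hF, Real.exp_sum]
    rw [h2]
    have hb := ex_blocks (rt P.R p) (fun i : Fin P.R × X => C.pv i.2) (C.N v)
      (fun u (ξ : Coins P.R X) => Real.exp (if conf C u ξ then (1 : ℝ) else 0)) ?_
    · rw [hb]
      refine (prod_le_exp (C.N v) _ (fun _ => 2 * (P.R * (P.ℓ * P.pm) ^ 2)) ?_ ?_).trans ?_
      · intro u _
        exact ex_nn (rt_bd1 hr) fun ξ => (Real.exp_pos _).le
      · intro u _
        have h3 : (fun ξ : Coins P.R X => Real.exp (if conf C u ξ then (1 : ℝ) else 0)) =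
            fun ξ => 1 + (Real.exp 1 - 1) * (if conf C u ξ then (1 : ℝ) else 0) := by
          funext ξ
          split_ifs
          · ring
          · simp
        rw [h3, ex_add, ex_one, ex_cmul]
        have h4 := conf_pr hC hr u
        have h5 : 0 ≤ Ex (rt P.R p) (fun ξ => if conf C u ξ then (1 : ℝ) else 0) := by
          refine ex_nn (rt_bd1 hr) fun ξ => ?_
          split_ifs <;> norm_num
        have h6 := e_le
        have h7 : (Real.exp 1 - 1) * Ex (rt P.R p) (fun ξ => if conf C u ξ then (1 : ℝ) else 0) ≤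
            2 * (P.R * (P.ℓ * P.pm) ^ 2) :=
          mul_le_mul h6 h4 h5 (by norm_num)
        linarith
      · apply Real.exp_le_exp.2
        rw [sum_const, nsmul_eq_mul]
        have h3 : ((C.N v).card : ℝ) ≤ P.Δ := by exact_mod_cast hC.deg v
        have h4 : 2 * (P.R * (P.ℓ * P.pm) ^ 2) ≤ P.κ3 / 2 := by
          have := P.hC1
          unfold Par.pm
          linarith
        have h5 : 0 ≤ 2 * (P.R * (P.ℓ * P.pm) ^ 2) := by positivity
        calc ((C.N v).card : ℝ) * (2 * (P.R * (P.ℓ * P.pm) ^ 2)) ≤ P.Δ * (P.κ3 / 2) :=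
              mul_le_mul h3 h4 h5 (Nat.cast_nonneg _)
          _ = _ := by ring
    · intro u ξ ξ' h
      have hon : ∀ (t : ℕ) (y : X), y ∈ C.fib u → (on ξ t y ↔ on ξ' t y) := by
        intro t y hy
        have hy' : C.pv y = u := (mem_filter.1 hy).2
        constructor
        · rintro ⟨ht, h1⟩
          exact ⟨ht, by rw [← h (⟨t, ht⟩, y) hy']; exact h1⟩
        · rintro ⟨ht, h1⟩
          exact ⟨ht, by rw [h (⟨t, ht⟩, y) hy']; exact h1⟩
      have : conf C u ξ ↔ conf C u ξ' := by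
        unfold conf
        constructor
        · rintro ⟨t, a, ha, b, hb, hne, h1, h2⟩
          exact ⟨t, a, ha, b, hb, hne, (hon t a ha).1 h1, (hon t b hb).1 h2⟩
        · rintro ⟨t, a, ha, b, hb, hne, h1, h2⟩
          exact ⟨t, a, ha, b, hb, hne, (hon t a ha).2 h1, (hon t b hb).2 h2⟩
      simp only [this]
  exact markov_exp (rt_bd1 hr) h1 (by linarith)

open Tail in
/-- tail of `F3` -/
theorem tail3 : S_TAIL3 := by
  intro P V X _ _ C hC p hr v
  have hpm := pm_nn P
  have hκ := P.hκ3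
  set E : ℝ := P.pm ^ 2 * Real.exp (2 + 2 * (P.pm * P.Δ)) with hE
  have hE0 : 0 ≤ E := by positivity
  set F : Coins P.R X → ℝ := fun ξ => ∑ i ∈ (univ : Finset (Fin P.R)) ×ˢ univ.image C.pc,
      Tn C v i ξ * (if Jn C v i ξ then 1 else 0) with hF
  have h1 : Ex (rt P.R p) (fun ξ => Real.exp (F ξ)) ≤ Real.exp (P.κ3 / 2 * P.Δ) := by
    have h2 : (fun ξ : Coins P.R X => Real.exp (F ξ)) = fun ξ =>
        ∏ i ∈ (univ : Finset (Fin P.R)) ×ˢ univ.image C.pc,
          Real.exp (Tn C v i ξ * (if Jn C v i ξ then 1 else 0)) := by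
      funext ξ
      rw [hF, Real.exp_sum]
    rw [h2]
    have hb := ex_blocks (rt P.R p) (fun i : Fin P.R × X => (i.1, C.pc i.2))
      ((univ : Finset (Fin P.R)) ×ˢ univ.image C.pc)
      (fun i (ξ : Coins P.R X) => Real.exp (Tn C v i ξ * (if Jn C v i ξ then 1 else 0))) ?_
    · rw [hb]
      refine (prod_le_exp _ _ (fun i : Fin P.R × ℕ => (Aa C v i.2).card * (P.Δ * E)) ?_ ?_).trans ?_
      · intro u _
        exact ex_nn (rt_bd1 hr) fun ξ => (Real.exp_pos _).le
      · intro i _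
        exact block_pr hC hr v i
      · apply Real.exp_le_exp.2
        rw [sum_product_right]
        have h3 : ∑ a ∈ univ.image C.pc, ((Aa C v a).card : ℝ) ≤ P.Δ * P.ℓ := by
          have h4 := sum_Aa C v (fun _ => (1 : ℝ))
          simp only [sum_const, nsmul_eq_mul, mul_one] at h4
          rw [h4]
          simp only [hC.fib, sum_const, nsmul_eq_mul]
          exact mul_le_mul_of_nonneg_right (by exact_mod_cast hC.deg v) (Nat.cast_nonneg _)
        have h5 : ∑ a ∈ univ.image C.pc, ∑ t : Fin P.R, ((Aa C v a).card : ℝ) * (P.Δ * E) =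
            (∑ a ∈ univ.image C.pc, ((Aa C v a).card : ℝ)) * (P.R * (P.Δ * E)) := by
          simp only [sum_const, card_univ, Fintype.card_fin, nsmul_eq_mul]
          rw [sum_mul]
          refine sum_congr rfl fun a _ => ?_
          ring
        refine (h5.trans_le (mul_le_mul_of_nonneg_right h3 (by positivity))).trans ?_
        have h6 := P.hC2
        have h7 : P.R * (P.pm * P.ℓ) * (P.pm * P.Δ) * Real.exp (2 + 2 * (P.pm * P.Δ)) ≤
            P.κ3 / 2 := h6
        calc (P.Δ * P.ℓ : ℝ) * (P.R * (P.Δ * E)) =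
            P.Δ * (P.R * (P.pm * P.ℓ) * (P.pm * P.Δ) * Real.exp (2 + 2 * (P.pm * P.Δ))) := by
              rw [hE]
              ring
          _ ≤ P.Δ * (P.κ3 / 2) := mul_le_mul_of_nonneg_left h7 (Nat.cast_nonneg _)
          _ = _ := by ring
    · intro i ξ ξ' h
      have h' : ∀ y, C.pc y = i.2 → ξ (i.1, y) = ξ' (i.1, y) := fun y hy =>
        h (i.1, y) (by show (i.1, C.pc y) = i; rw [hy])
      have hA : ∀ y ∈ Aa C v i.2, C.pc y = i.2 := fun y hy => (mem_filter.1 hy).2.1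
      have hT : Tn C v i ξ = Tn C v i ξ' := by
        unfold Tn
        refine sum_congr rfl fun y hy => ?_
        rw [h' y (hA y hy)]
      have hcol : ∀ a ∈ Aa C v i.2, ∀ b ∈ C.col a, C.pc b = i.2 := fun a ha b hb =>
        ((mem_filter.1 hb).2.1).trans (hA a ha)
      have hJ : Jn C v i ξ ↔ Jn C v i ξ' := by
        unfold Jn
        constructor
        · rintro ⟨a, ha, b, hb, h1, h2⟩
          exact ⟨a, ha, b, hb, by rw [← h' a (hA a ha)]; exact h1,
            by rw [← h' b (hcol a ha b hb)]; exact h2⟩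
        · rintro ⟨a, ha, b, hb, h1, h2⟩
          exact ⟨a, ha, b, hb, by rw [h' a (hA a ha)]; exact h1,
            by rw [h' b (hcol a ha b hb)]; exact h2⟩
      simp only [hT, hJ]
  have h2 := markov_exp (rt_bd1 hr) (a := P.κ3 * P.Δ) h1 (c := -(P.κ3 / 2 * P.Δ)) (by linarith)
  refine le_trans ?_ h2
  unfold Pr
  refine ex_mono (rt_bd1 hr) fun ξ => ?_
  have h3 := F3_le C v ξ
  split_ifs with h4 h5
  · exact le_rfl
  · exact absurd (h4.trans h3) h5
  · norm_num
  · exact le_rfl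

end Vu80
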