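import Pool.Agent.Lib_helper80.Vu.Stmts

/-!
# Fibre bounds for the operator `Top`, and Corollary 2.3
-/

set_option autoImplicit false
set_option linter.unusedSectionVars false

open scoped Classical
open Finset

noncomputable section

namespace Vu80

/-! ### Elementary facts on `Top` -/

section TopFacts

variable {X : Type} [Fintype X] (nb : X → Finset X)

lemma tf_succ (pm : ℝ) (j : ℕ) (w : X → ℝ) (h : X) :
    ((Top pm nb)^[j + 1] w) h = ((Top pm nb)^[j] w) h + pm * ∑ y ∈ nb h, ((Top pm nb)^[j] w) y := by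
  rw [Function.iterate_succ_apply']
  rfl

lemma tf_nonneg (pm : ℝ) (hpm : 0 ≤ pm) (j : ℕ) (w : X → ℝ) (hw : ∀ h, 0 ≤ w h) :
    ∀ h, 0 ≤ ((Top pm nb)^[j] w) h := by
  induction j with
  | zero => intro h; simpa using hw h
  | succ j ih =>
    intro h
    rw [tf_succ]
    exact add_nonneg (ih h) (mul_nonneg hpm (Finset.sum_nonneg (fun y _ => ih y)))

lemma tf_sup (D : ℕ) (hD : ∀ x, (nb x).card ≤ D) (pm : ℝ) (hpm : 0 ≤ pm) (j : ℕ) (w : X → ℝ) (c : ℝ)
    (hc : 0 ≤ c) (hw : ∀ h, w h ≤ c) :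
    ∀ h, ((Top pm nb)^[j] w) h ≤ (1 + pm * D) ^ j * c := by
  induction j with
  | zero => intro h; simpa using hw h
  | succ j ih =>
    intro h
    rw [tf_succ]
    have hE : 0 ≤ (1 + pm * (D : ℝ)) ^ j * c := by positivity
    have h1 : ∑ y ∈ nb h, ((Top pm nb)^[j] w) y ≤ D * ((1 + pm * D) ^ j * c) := by
      calc ∑ y ∈ nb h, ((Top pm nb)^[j] w) y ≤ ∑ _y ∈ nb h, (1 + pm * (D : ℝ)) ^ j * c :=
            Finset.sum_le_sum (fun y _ => ih y)
        _ = ((nb h).card : ℝ) * ((1 + pm * D) ^ j * c) := by rw [Finset.sum_const, nsmul_eq_mul]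
        _ ≤ D * ((1 + pm * D) ^ j * c) :=
            mul_le_mul_of_nonneg_right (by exact_mod_cast hD h) hE
    calc ((Top pm nb)^[j] w) h + pm * ∑ y ∈ nb h, ((Top pm nb)^[j] w) y
        ≤ (1 + pm * D) ^ j * c + pm * (D * ((1 + pm * D) ^ j * c)) :=
          add_le_add (ih h) (mul_le_mul_of_nonneg_left h1 hpm)
      _ = (1 + pm * D) ^ (j + 1) * c := by ring

lemma tf_adj1 (hs : ∀ x y, y ∈ nb x ↔ x ∈ nb y) (pm : ℝ) (w w' : X → ℝ) :
    ∑ h, (Top pm nb w) h * w' h = ∑ h, w h * (Top pm nb w') h := by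
  have key : ∑ h, (∑ y ∈ nb h, w y) * w' h = ∑ h, w h * ∑ y ∈ nb h, w' y := by
    have e1 : ∀ h, (∑ y ∈ nb h, w y) * w' h = ∑ y, (if y ∈ nb h then w y * w' h else 0) := by
      intro h
      rw [Finset.sum_mul, ← Finset.sum_filter]
      congr 1
      ext y; simp
    have e2 : ∀ h, w h * (∑ y ∈ nb h, w' y) = ∑ y, (if y ∈ nb h then w h * w' y else 0) := by
      intro h
      rw [Finset.mul_sum, ← Finset.sum_filter]
      congr 1
      ext y; simp
    rw [Finset.sum_congr rfl (fun h _ => e1 h), Finset.sum_congr rfl (fun h _ => e2 h),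
      Finset.sum_comm]
    refine Finset.sum_congr rfl (fun h _ => Finset.sum_congr rfl (fun y _ => ?_))
    by_cases hy : y ∈ nb h
    · rw [if_pos hy, if_pos ((hs h y).1 hy)]
    · rw [if_neg hy, if_neg (fun hh => hy ((hs h y).2 hh))]
  have l1 : ∀ h, (Top pm nb w) h * w' h = w h * w' h + pm * ((∑ y ∈ nb h, w y) * w' h) := by
    intro h; unfold Top; ring
  have l2 : ∀ h, w h * (Top pm nb w') h = w h * w' h + pm * (w h * ∑ y ∈ nb h, w' y) := by
    intro h; unfold Top; ring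
  rw [Finset.sum_congr rfl (fun h _ => l1 h), Finset.sum_congr rfl (fun h _ => l2 h),
    Finset.sum_add_distrib, Finset.sum_add_distrib, ← Finset.mul_sum, ← Finset.mul_sum, key]

lemma tf_adj (hs : ∀ x y, y ∈ nb x ↔ x ∈ nb y) (pm : ℝ) (j : ℕ) :
    ∀ w w' : X → ℝ, ∑ h, ((Top pm nb)^[j] w) h * w' h = ∑ h, w h * ((Top pm nb)^[j] w') h := by
  induction j with
  | zero => intro w w'; simp
  | succ j ih =>
    intro w w'
    rw [Function.iterate_succ_apply, ih, tf_adj1 nb hs, Function.iterate_succ_apply']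

end TopFacts

/-! ### Facts on covers -/

section CovFacts

variable {V X : Type} [Fintype V] [Fintype X] (C : Cov V X)

lemma tf_mem_fib (v : V) (y : X) : y ∈ C.fib v ↔ C.pv y = v := by
  simp [Cov.fib]

lemma tf_mem_col (h y : X) : y ∈ C.col h ↔ C.pc y = C.pc h ∧ C.G.Adj (C.pv h) (C.pv y) := by
  simp [Cov.col]

lemma tf_mem_nb (h y : X) :
    y ∈ C.nb h ↔ C.pv y = C.pv h ∨ (C.pc y = C.pc h ∧ C.G.Adj (C.pv h) (C.pv y)) := by
  simp [Cov.nb, tf_mem_fib, tf_mem_col]

lemma tf_nb_symm (x y : X) : y ∈ C.nb x ↔ x ∈ C.nb y := by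
  rw [tf_mem_nb, tf_mem_nb]
  constructor
  · rintro (h | ⟨h1, h2⟩)
    · exact Or.inl h.symm
    · exact Or.inr ⟨h1.symm, h2.symm⟩
  · rintro (h | ⟨h1, h2⟩)
    · exact Or.inl h.symm
    · exact Or.inr ⟨h1.symm, h2.symm⟩

lemma tf_one (v : V) (h : X) (hh : C.pv h ≠ v) : ((C.nb h).filter (fun y => C.pv y = v)).card ≤ 1 := by
  rw [Finset.card_le_one]
  intro a ha b hb
  rw [Finset.mem_filter, tf_mem_nb] at ha hb
  obtain ⟨ha1, ha2⟩ := ha
  obtain ⟨hb1, hb2⟩ := hb
  have hac : C.pc a = C.pc h := by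
    rcases ha1 with h1 | h1
    · exact absurd (h1.symm.trans ha2) hh
    · exact h1.1
  have hbc : C.pc b = C.pc h := by
    rcases hb1 with h1 | h1
    · exact absurd (h1.symm.trans hb2) hh
    · exact h1.1
  exact C.inj a b (ha2.trans hb2.symm) (hac.trans hbc.symm)

lemma tf_col_card (h : X) : (C.col h).card ≤ (C.N (C.pv h)).card := by
  refine Finset.card_le_card_of_injOn C.pv ?_ ?_
  · intro y hy
    have := (tf_mem_col C h y).1 hy
    simp only [Cov.N, Finset.coe_filter, Finset.mem_univ, true_and, Set.mem_ofPred_eq]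
    exact this.2
  · intro a ha b hb hab
    have h1 := (tf_mem_col C h a).1 ha
    have h2 := (tf_mem_col C h b).1 hb
    exact C.inj a b hab (h1.1.trans h2.1.symm)

end CovFacts

/-! ### (1.3) and (1.4) -/

theorem tfib : S_TFIB := by
  intro V X _ _ C D hD pm hpm j v
  have hind1 : ∀ h, ind (C.fib v) h ≤ (1 : ℝ) := by
    intro h; unfold ind; split_ifs <;> norm_num
  have hind0 : ∀ h, (0 : ℝ) ≤ ind (C.fib v) h := by
    intro h; unfold ind; split_ifs <;> norm_num
  have hE : ∀ i : ℕ, (0 : ℝ) ≤ (1 + pm * D) ^ i := fun i => by positivity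
  have hsup : ∀ i h, ((Top pm C.nb)^[i] (ind (C.fib v))) h ≤ (1 + pm * D) ^ i := by
    intro i h
    simpa using tf_sup C.nb D hD pm hpm i (ind (C.fib v)) 1 zero_le_one hind1 h
  have h13 : ∀ i : ℕ, ∀ h, C.pv h ≠ v →
      ((Top pm C.nb)^[i] (ind (C.fib v))) h ≤ i * pm * (1 + pm * D) ^ i := by
    intro i
    induction i with
    | zero =>
      intro h hh
      have : h ∉ C.fib v := fun hf => hh ((tf_mem_fib C v h).1 hf)
      simp [ind, this]
    | succ i ih =>
      intro h hh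
      rw [tf_succ]
      have hs1 : ∑ y ∈ C.nb h, ((Top pm C.nb)^[i] (ind (C.fib v))) y ≤
          (1 + pm * D) ^ i + D * (i * pm * (1 + pm * D) ^ i) := by
        rw [← Finset.sum_filter_add_sum_filter_not (C.nb h) (fun y => C.pv y = v)]
        refine add_le_add ?_ ?_
        · calc ∑ y ∈ (C.nb h).filter (fun y => C.pv y = v), ((Top pm C.nb)^[i] (ind (C.fib v))) y
              ≤ ∑ _y ∈ (C.nb h).filter (fun y => C.pv y = v), (1 + pm * (D : ℝ)) ^ i :=
                Finset.sum_le_sum (fun y _ => hsup i y)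
            _ = (((C.nb h).filter (fun y => C.pv y = v)).card : ℝ) * (1 + pm * D) ^ i := by
                rw [Finset.sum_const, nsmul_eq_mul]
            _ ≤ 1 * (1 + pm * D) ^ i :=
                mul_le_mul_of_nonneg_right (by exact_mod_cast tf_one C v h hh) (hE i)
            _ = (1 + pm * D) ^ i := one_mul _
        · have hnn : (0 : ℝ) ≤ i * pm * (1 + pm * D) ^ i := by
            have := hE i
            positivity
          calc ∑ y ∈ (C.nb h).filter (fun y => ¬ C.pv y = v), ((Top pm C.nb)^[i] (ind (C.fib v))) y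
              ≤ ∑ _y ∈ (C.nb h).filter (fun y => ¬ C.pv y = v), (i * pm * (1 + pm * (D : ℝ)) ^ i) := by
                refine Finset.sum_le_sum (fun y hy => ?_)
                rw [Finset.mem_filter] at hy
                exact ih y hy.2
            _ = (((C.nb h).filter (fun y => ¬ C.pv y = v)).card : ℝ) * (i * pm * (1 + pm * D) ^ i) := by
                rw [Finset.sum_const, nsmul_eq_mul]
            _ ≤ D * (i * pm * (1 + pm * D) ^ i) := by
                refine mul_le_mul_of_nonneg_right ?_ hnn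
                exact_mod_cast (Finset.card_filter_le _ _).trans (hD h)
      have h2 := ih h hh
      have h3 : pm * ∑ y ∈ C.nb h, ((Top pm C.nb)^[i] (ind (C.fib v))) y ≤
          pm * ((1 + pm * D) ^ i + D * (i * pm * (1 + pm * D) ^ i)) :=
        mul_le_mul_of_nonneg_left hs1 hpm
      have h4 : pm * (1 + pm * D) ^ i ≤ pm * (1 + pm * D) ^ (i + 1) := by
        refine mul_le_mul_of_nonneg_left ?_ hpm
        rw [pow_succ]
        have : (0 : ℝ) ≤ pm * D := by positivity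
        nlinarith [hE i]
      calc ((Top pm C.nb)^[i] (ind (C.fib v))) h + pm * ∑ y ∈ C.nb h, ((Top pm C.nb)^[i] (ind (C.fib v))) y
          ≤ i * pm * (1 + pm * D) ^ i + pm * ((1 + pm * D) ^ i + D * (i * pm * (1 + pm * D) ^ i)) :=
            add_le_add h2 h3
        _ = i * pm * (1 + pm * D) ^ (i + 1) + pm * (1 + pm * D) ^ i := by ring
        _ ≤ i * pm * (1 + pm * D) ^ (i + 1) + pm * (1 + pm * D) ^ (i + 1) := by linarith
        _ = ((i + 1 : ℕ) : ℝ) * pm * (1 + pm * D) ^ (i + 1) := by push_cast; ring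
  refine ⟨h13 j, ?_⟩
  intro w hw
  have e1 : ∑ h ∈ C.fib v, ((Top pm C.nb)^[j] w) h = ∑ h, ((Top pm C.nb)^[j] w) h * ind (C.fib v) h := by
    unfold ind
    simp only [mul_ite, mul_one, mul_zero]
    rw [← Finset.sum_filter]
    congr 1
    ext y; simp
  rw [e1, tf_adj C.nb (tf_nb_symm C) pm j]
  have e2 : ∀ h, w h * ((Top pm C.nb)^[j] (ind (C.fib v))) h ≤
      (1 + pm * D) ^ j * (w h * ind (C.fib v) h) + (1 + pm * D) ^ j * (j * pm * w h) := by
    intro h
    have hw0 := hw h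
    have hnn : (0 : ℝ) ≤ (1 + pm * D) ^ j * (j * pm * w h) := by
      have := hE j
      positivity
    by_cases hh : C.pv h = v
    · have : ind (C.fib v) h = (1 : ℝ) := by
        unfold ind; rw [if_pos ((tf_mem_fib C v h).2 hh)]
      rw [this, mul_one]
      have := mul_le_mul_of_nonneg_left (hsup j h) hw0
      linarith [mul_comm (w h) ((1 + pm * (D : ℝ)) ^ j)]
    · have : ind (C.fib v) h = (0 : ℝ) := by
        unfold ind; rw [if_neg (fun hf => hh ((tf_mem_fib C v h).1 hf))]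
      rw [this, mul_zero, mul_zero, zero_add]
      have := mul_le_mul_of_nonneg_left (h13 j h hh) hw0
      calc w h * ((Top pm C.nb)^[j] (ind (C.fib v))) h ≤ w h * (j * pm * (1 + pm * D) ^ j) := this
        _ = (1 + pm * D) ^ j * (j * pm * w h) := by ring
  have e3 : ∑ h ∈ C.fib v, w h = ∑ h, w h * ind (C.fib v) h := by
    unfold ind
    simp only [mul_ite, mul_one, mul_zero]
    rw [← Finset.sum_filter]
    congr 1
    ext y; simp
  calc ∑ h, w h * ((Top pm C.nb)^[j] (ind (C.fib v))) h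
      ≤ ∑ h, ((1 + pm * D) ^ j * (w h * ind (C.fib v) h) + (1 + pm * D) ^ j * (j * pm * w h)) :=
        Finset.sum_le_sum (fun h _ => e2 h)
    _ = (1 + pm * D) ^ j * (∑ h ∈ C.fib v, w h + j * pm * ∑ h, w h) := by
        rw [Finset.sum_add_distrib, ← Finset.mul_sum, ← Finset.mul_sum, ← Finset.mul_sum, e3]
        ring

/-! ### Corollary 2.3 -/

theorem dcf (_htop : S_TOP) (hdc : S_DC) (htf : S_TFIB) : S_DCF := by
  intro P V X _ _ C hC p hp s hs v B hB hBF
  have hpm0 : 0 ≤ P.pm := by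
    unfold Par.pm
    have h1 := P.hε0
    have h2 := P.hδ
    have h3 : (0 : ℝ) < P.ℓ := by exact_mod_cast P.hℓ
    positivity
  have hpm1 : P.pm ≤ 1 := P.hpm1
  have hmain := hdc X C.nb (tf_nb_symm C) P.R p P.pm hp.nonneg hp.le hpm1 s hs (C.fib v) B
  refine hmain.trans ?_
  -- the size of the neighbourhoods
  set D : ℕ := P.Δ + P.ℓ with hDdef
  have hD : ∀ x, (C.nb x).card ≤ D := by
    intro x
    calc (C.nb x).card ≤ (C.fib (C.pv x)).card + (C.col x).card := Finset.card_union_le _ _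
      _ ≤ P.ℓ + P.Δ := Nat.add_le_add (hC.fib _).le ((tf_col_card C x).trans (hC.deg _))
      _ = D := by omega
  obtain ⟨h13, h14⟩ := htf V X C D hD P.pm hpm0 P.R v
  have hΔ0 : (0 : ℝ) < P.Δ := by exact_mod_cast P.hΔ
  have hR0 : (0 : ℝ) ≤ P.R := Nat.cast_nonneg _
  have hDr : (D : ℝ) = P.Δ + P.ℓ := by rw [hDdef]; push_cast; ring
  have hΘ0 : (0 : ℝ) ≤ P.Θ := zero_le_one.trans P.hΘ
  have hRD : P.R * (P.pm * D) ≤ P.Θ := by
    have := P.hpmΘ
    rw [hDr]
    calc P.R * (P.pm * ((P.Δ : ℝ) + P.ℓ)) = P.ε0 / (P.ℓ * P.δ) * P.R * (P.Δ + P.ℓ) := by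
          unfold Par.pm; ring
      _ ≤ P.Θ := this
  have hRΔ : P.R * P.pm * P.Δ ≤ P.Θ := by
    have h1 : (P.Δ : ℝ) ≤ D := by rw [hDr]; have : (0 : ℝ) ≤ P.ℓ := Nat.cast_nonneg _; linarith
    have h2 : P.R * P.pm * P.Δ ≤ P.R * P.pm * D := mul_le_mul_of_nonneg_left h1 (mul_nonneg hR0 hpm0)
    calc P.R * P.pm * P.Δ ≤ P.R * P.pm * D := h2
      _ = P.R * (P.pm * D) := by ring
      _ ≤ P.Θ := hRD
  set E : ℝ := (1 + P.pm * D) ^ P.R with hEdef
  have hE0 : 0 ≤ E := by rw [hEdef]; positivity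
  have hEle : E ≤ Real.exp P.Θ := by
    have h1 : 1 + P.pm * D ≤ Real.exp (P.pm * D) := by
      have := Real.add_one_le_exp (P.pm * D); linarith
    have h0 : (0 : ℝ) ≤ 1 + P.pm * D := by positivity
    calc E ≤ (Real.exp (P.pm * D)) ^ P.R := pow_le_pow_left₀ h0 h1 _
      _ = Real.exp (P.R * (P.pm * D)) := by rw [← Real.exp_nat_mul]
      _ ≤ Real.exp P.Θ := Real.exp_le_exp.2 hRD
  have hindF1 : ∀ h, ind (C.fib v) h ≤ (1 : ℝ) := by
    intro h; unfold ind; split_ifs <;> norm_num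
  have hindB0 : ∀ h, (0 : ℝ) ≤ ind B h := by
    intro h; unfold ind; split_ifs <;> norm_num
  have hTB0 := tf_nonneg C.nb P.pm hpm0 P.R (ind B) hindB0
  have hTF : ∀ h, ((Top P.pm C.nb)^[P.R] (ind (C.fib v))) h ≤ E := by
    intro h
    simpa using tf_sup C.nb D hD P.pm hpm0 P.R (ind (C.fib v)) 1 zero_le_one hindF1 h
  have hsumB : ∑ h, ind B h = (B.card : ℝ) := by
    unfold ind
    rw [← Finset.sum_filter]
    simp
  -- total sum of `T^R 1_B`, by adjointness with the constant function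
  have hTtot : ∑ h, ((Top P.pm C.nb)^[P.R] (ind B)) h ≤ E * B.card := by
    have e1 : ∑ h, ((Top P.pm C.nb)^[P.R] (ind B)) h =
        ∑ h, ind B h * ((Top P.pm C.nb)^[P.R] (fun _ => (1 : ℝ))) h := by
      rw [← tf_adj C.nb (tf_nb_symm C) P.pm P.R]
      simp
    rw [e1]
    calc ∑ h, ind B h * ((Top P.pm C.nb)^[P.R] (fun _ => (1 : ℝ))) h
        ≤ ∑ h, ind B h * E := by
          refine Finset.sum_le_sum (fun h _ => mul_le_mul_of_nonneg_left ?_ (hindB0 h))
          simpa using tf_sup C.nb D hD P.pm hpm0 P.R (fun _ => (1 : ℝ)) 1 zero_le_one (fun _ => le_rfl) h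
      _ = E * B.card := by rw [← Finset.sum_mul, hsumB]; ring
  have hfibB : ∑ h ∈ C.fib v, ind B h ≤ (1 : ℝ) := by
    have : ∑ h ∈ C.fib v, ind B h = ((B ∩ C.fib v).card : ℝ) := by
      unfold ind
      rw [← Finset.sum_filter, Finset.sum_const, nsmul_eq_mul, mul_one]
      congr 2
      ext y; simp [and_comm]
    rw [this]
    exact_mod_cast hBF
  have hTfib : ∑ h ∈ C.fib v, ((Top P.pm C.nb)^[P.R] (ind B)) h ≤ E * (1 + P.R * P.pm * B.card) := by
    have := h14 (ind B) hindB0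
    rw [hsumB] at this
    refine this.trans (mul_le_mul_of_nonneg_left ?_ hE0)
    linarith
  have hBr : (B.card : ℝ) ≤ 2 * P.Δ := by exact_mod_cast hB
  -- the main estimate
  have hS : ∑ h, ((Top P.pm C.nb)^[P.R] (ind (C.fib v))) h * ((Top P.pm C.nb)^[P.R] (ind B)) h ≤
      (4 * P.Θ + 1) * Real.exp (2 * P.Θ) := by
    have h1 : ∀ h, ((Top P.pm C.nb)^[P.R] (ind (C.fib v))) h * ((Top P.pm C.nb)^[P.R] (ind B)) h ≤
        P.R * P.pm * E * ((Top P.pm C.nb)^[P.R] (ind B)) h +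
          E * (if C.pv h = v then ((Top P.pm C.nb)^[P.R] (ind B)) h else 0) := by
      intro h
      have hb := hTB0 h
      by_cases hh : C.pv h = v
      · rw [if_pos hh]
        have h2 := mul_le_mul_of_nonneg_right (hTF h) hb
        have h3 : 0 ≤ P.R * P.pm * E * ((Top P.pm C.nb)^[P.R] (ind B)) h := by positivity
        linarith
      · rw [if_neg hh, mul_zero, add_zero]
        exact mul_le_mul_of_nonneg_right (h13 h hh) hb
    have h2 : ∑ h, (if C.pv h = v then ((Top P.pm C.nb)^[P.R] (ind B)) h else 0) =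
        ∑ h ∈ C.fib v, ((Top P.pm C.nb)^[P.R] (ind B)) h := by
      rw [← Finset.sum_filter]
      rfl
    have h3 : E * E ≤ Real.exp (2 * P.Θ) := by
      calc E * E ≤ Real.exp P.Θ * Real.exp P.Θ := mul_le_mul hEle hEle hE0 (Real.exp_pos _).le
        _ = Real.exp (2 * P.Θ) := by rw [← Real.exp_add]; congr 1; ring
    have h4 : P.R * P.pm * (B.card : ℝ) ≤ 2 * P.Θ := by
      calc P.R * P.pm * (B.card : ℝ) ≤ P.R * P.pm * (2 * P.Δ) :=
            mul_le_mul_of_nonneg_left hBr (mul_nonneg hR0 hpm0)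
        _ = 2 * (P.R * P.pm * P.Δ) := by ring
        _ ≤ 2 * P.Θ := by linarith
    calc ∑ h, ((Top P.pm C.nb)^[P.R] (ind (C.fib v))) h * ((Top P.pm C.nb)^[P.R] (ind B)) h
        ≤ ∑ h, (P.R * P.pm * E * ((Top P.pm C.nb)^[P.R] (ind B)) h +
          E * (if C.pv h = v then ((Top P.pm C.nb)^[P.R] (ind B)) h else 0)) :=
          Finset.sum_le_sum (fun h _ => h1 h)
      _ = P.R * P.pm * E * (∑ h, ((Top P.pm C.nb)^[P.R] (ind B)) h) +
          E * ∑ h ∈ C.fib v, ((Top P.pm C.nb)^[P.R] (ind B)) h := by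
          rw [Finset.sum_add_distrib, ← Finset.mul_sum, ← Finset.mul_sum, h2]
      _ ≤ P.R * P.pm * E * (E * B.card) + E * (E * (1 + P.R * P.pm * B.card)) := by
          refine add_le_add (mul_le_mul_of_nonneg_left hTtot ?_) (mul_le_mul_of_nonneg_left hTfib hE0)
          positivity
      _ = (E * E) * (2 * (P.R * P.pm * B.card) + 1) := by ring
      _ ≤ (E * E) * (4 * P.Θ + 1) := by
          refine mul_le_mul_of_nonneg_left ?_ (mul_nonneg hE0 hE0)
          linarith
      _ ≤ Real.exp (2 * P.Θ) * (4 * P.Θ + 1) := by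
          refine mul_le_mul_of_nonneg_right h3 ?_
          linarith
      _ = (4 * P.Θ + 1) * Real.exp (2 * P.Θ) := by ring
  have hpref : 2 * P.pm * P.R ≤ 2 * P.Θ / P.Δ := by
    rw [le_div_iff₀ hΔ0]
    linarith
  have hSpos : 0 ≤ (4 * P.Θ + 1) * Real.exp (2 * P.Θ) := by positivity
  unfold Gam
  calc 2 * P.pm * P.R * ∑ h, ((Top P.pm C.nb)^[P.R] (ind (C.fib v))) h *
        ((Top P.pm C.nb)^[P.R] (ind B)) h
      ≤ 2 * P.pm * P.R * ((4 * P.Θ + 1) * Real.exp (2 * P.Θ)) :=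
        mul_le_mul_of_nonneg_left hS (by positivity)
    _ ≤ 2 * P.Θ / P.Δ * ((4 * P.Θ + 1) * Real.exp (2 * P.Θ)) :=
        mul_le_mul_of_nonneg_right hpref hSpos
    _ = P.Ca / P.Δ := by unfold Par.Ca; ring

end Vu80
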