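import Pool.Agent.Lib_helper80.Vu.Stmts

/-!
# The operator `Top`
-/

set_option autoImplicit false
set_option linter.unusedSectionVars false

open scoped Classical
open Finset

noncomputable section

namespace Vu80

variable {X : Type} [Fintype X] {nb : X → Finset X} {pm : ℝ}

theorem Top_nonneg (hpm : 0 ≤ pm) {w : X → ℝ} (hw : ∀ h, 0 ≤ w h) (h : X) : 0 ≤ Top pm nb w h := by
  unfold Top
  have h1 : 0 ≤ ∑ y ∈ nb h, w y := Finset.sum_nonneg fun y _ => hw y
  have h2 := hw h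
  positivity

theorem Top_mono (hpm : 0 ≤ pm) {w w' : X → ℝ} (hw : ∀ h, w h ≤ w' h) (h : X) :
    Top pm nb w h ≤ Top pm nb w' h := by
  unfold Top
  have h1 : ∑ y ∈ nb h, w y ≤ ∑ y ∈ nb h, w' y := Finset.sum_le_sum fun y _ => hw y
  have h2 := mul_le_mul_of_nonneg_left h1 hpm
  linarith [hw h]

theorem Top_le_self (hpm : 0 ≤ pm) {w : X → ℝ} (hw : ∀ h, 0 ≤ w h) (h : X) :
    w h ≤ Top pm nb w h := by
  unfold Top
  have h1 : 0 ≤ ∑ y ∈ nb h, w y := Finset.sum_nonneg fun y _ => hw y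
  have h2 := mul_nonneg hpm h1
  linarith

theorem Top_linear {J : Type} (A : Finset J) (c : J → ℝ) (w : J → X → ℝ) :
    Top pm nb (fun x => ∑ i ∈ A, c i * w i x) = fun x => ∑ i ∈ A, c i * Top pm nb (w i) x := by
  ext x
  unfold Top
  rw [Finset.sum_comm, Finset.mul_sum, ← Finset.sum_add_distrib]
  refine Finset.sum_congr rfl fun i _ => ?_
  rw [← Finset.mul_sum]
  ring

theorem Top_swap (hs : ∀ x y, y ∈ nb x ↔ x ∈ nb y) (f : X → X → ℝ) :
    ∑ h, ∑ y ∈ nb h, f h y = ∑ y, ∑ h ∈ nb y, f h y := by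
  refine Finset.sum_comm' ?_
  intro x y
  simp only [Finset.mem_univ, true_and, and_true]
  exact hs x y

theorem Top_adj (hs : ∀ x y, y ∈ nb x ↔ x ∈ nb y) (w w' : X → ℝ) :
    ∑ h, Top pm nb w h * w' h = ∑ h, w h * Top pm nb w' h := by
  unfold Top
  have h1 : ∑ h, ∑ y ∈ nb h, w y * w' h = ∑ h, ∑ y ∈ nb h, w h * w' y :=
    Top_swap hs (fun h y => w y * w' h)
  have h2 : ∀ h, (w h + pm * ∑ y ∈ nb h, w y) * w' h = w h * w' h + pm * ∑ y ∈ nb h, w y * w' h := by
    intro h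
    rw [← Finset.sum_mul]
    ring
  have h3 : ∀ h, w h * (w' h + pm * ∑ y ∈ nb h, w' y) = w h * w' h + pm * ∑ y ∈ nb h, w h * w' y := by
    intro h
    rw [← Finset.mul_sum]
    ring
  simp only [h2, h3, Finset.sum_add_distrib, ← Finset.mul_sum, h1]

theorem Top_sum_le (hs : ∀ x y, y ∈ nb x ↔ x ∈ nb y) {D : ℕ} (hD : ∀ x, (nb x).card ≤ D)
    (hpm : 0 ≤ pm) {w : X → ℝ} (hw : ∀ h, 0 ≤ w h) :
    ∑ h, Top pm nb w h ≤ (1 + pm * D) * ∑ h, w h := by
  unfold Top
  rw [Finset.sum_add_distrib, ← Finset.mul_sum, Top_swap hs (fun _ y => w y)]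
  have h1 : ∑ y, ∑ _h ∈ nb y, w y ≤ D * ∑ y, w y := by
    rw [Finset.mul_sum]
    refine Finset.sum_le_sum fun y _ => ?_
    rw [Finset.sum_const, nsmul_eq_mul]
    exact mul_le_mul_of_nonneg_right (by exact_mod_cast hD y) (hw y)
  have h2 := mul_le_mul_of_nonneg_left h1 hpm
  linarith

theorem Top_le {D : ℕ} (hD : ∀ x, (nb x).card ≤ D) (hpm : 0 ≤ pm) {w : X → ℝ} {c : ℝ}
    (hc : 0 ≤ c) (hw : ∀ h, w h ≤ c) (h : X) : Top pm nb w h ≤ (1 + pm * D) * c := by
  unfold Top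
  have h1 : ∑ y ∈ nb h, w y ≤ D * c := by
    calc ∑ y ∈ nb h, w y ≤ ∑ _y ∈ nb h, c := Finset.sum_le_sum fun y _ => hw y
      _ = (nb h).card * c := by rw [Finset.sum_const, nsmul_eq_mul]
      _ ≤ D * c := mul_le_mul_of_nonneg_right (by exact_mod_cast hD h) hc
  have h2 := mul_le_mul_of_nonneg_left h1 hpm
  linarith [hw h]

theorem Topi_nonneg (hpm : 0 ≤ pm) (j : ℕ) {w : X → ℝ} (hw : ∀ h, 0 ≤ w h) (h : X) :
    0 ≤ ((Top pm nb)^[j] w) h := by
  induction j generalizing w with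
  | zero => exact hw h
  | succ j ih =>
    rw [Function.iterate_succ_apply]
    exact ih (Top_nonneg hpm hw)

theorem Topi_mono (hpm : 0 ≤ pm) (j : ℕ) {w w' : X → ℝ} (hw : ∀ h, w h ≤ w' h) (h : X) :
    ((Top pm nb)^[j] w) h ≤ ((Top pm nb)^[j] w') h := by
  induction j generalizing w w' with
  | zero => exact hw h
  | succ j ih =>
    rw [Function.iterate_succ_apply, Function.iterate_succ_apply]
    exact ih (Top_mono hpm hw)

theorem Topi_linear (j : ℕ) {J : Type} (A : Finset J) (c : J → ℝ) (w : J → X → ℝ) (h : X) :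
    ((Top pm nb)^[j] (fun x => ∑ i ∈ A, c i * w i x)) h = ∑ i ∈ A, c i * ((Top pm nb)^[j] (w i)) h := by
  induction j generalizing w with
  | zero => rfl
  | succ j ih =>
    simp only [Function.iterate_succ_apply]
    rw [Top_linear]
    exact ih (fun i => Top pm nb (w i))

theorem Topi_incr (hpm : 0 ≤ pm) {w : X → ℝ} (hw : ∀ h, 0 ≤ w h) {i j : ℕ} (hij : i ≤ j) (h : X) :
    ((Top pm nb)^[i] w) h ≤ ((Top pm nb)^[j] w) h := by
  induction j, hij using Nat.le_induction with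
  | base => exact le_rfl
  | succ j _ ih =>
    refine ih.trans ?_
    rw [Function.iterate_succ_apply']
    exact Top_le_self hpm (Topi_nonneg hpm j hw) h

theorem Topi_adj (hs : ∀ x y, y ∈ nb x ↔ x ∈ nb y) (j : ℕ) (w w' : X → ℝ) :
    ∑ h, ((Top pm nb)^[j] w) h * w' h = ∑ h, w h * ((Top pm nb)^[j] w') h := by
  induction j generalizing w w' with
  | zero => rfl
  | succ j ih =>
    rw [Function.iterate_succ_apply, ih, Top_adj hs]
    simp only [Function.iterate_succ_apply']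

theorem Topi_sum_le (hs : ∀ x y, y ∈ nb x ↔ x ∈ nb y) {D : ℕ} (hD : ∀ x, (nb x).card ≤ D)
    (hpm : 0 ≤ pm) (j : ℕ) {w : X → ℝ} (hw : ∀ h, 0 ≤ w h) :
    ∑ h, ((Top pm nb)^[j] w) h ≤ (1 + pm * D) ^ j * ∑ h, w h := by
  induction j with
  | zero => simp
  | succ j ih =>
    simp only [Function.iterate_succ_apply']
    refine (Top_sum_le hs hD hpm (Topi_nonneg hpm j hw)).trans ?_
    have h1 : 0 ≤ 1 + pm * (D : ℝ) := by positivity
    have h2 := mul_le_mul_of_nonneg_left ih h1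
    rw [pow_succ]
    linarith

theorem Topi_le {D : ℕ} (hD : ∀ x, (nb x).card ≤ D) (hpm : 0 ≤ pm) (j : ℕ) {w : X → ℝ} {c : ℝ}
    (hc : 0 ≤ c) (hw : ∀ h, w h ≤ c) (h : X) :
    ((Top pm nb)^[j] w) h ≤ (1 + pm * D) ^ j * c := by
  induction j generalizing h with
  | zero => simpa using hw h
  | succ j ih =>
    simp only [Function.iterate_succ_apply']
    have h1 : 0 ≤ 1 + pm * (D : ℝ) := by positivity
    refine (Top_le hD hpm (mul_nonneg (pow_nonneg h1 j) hc) ih h).trans_eq ?_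
    rw [pow_succ]
    ring

theorem topb : S_TOP := by
  intro X _ nb hs D hD pm hpm j
  exact ⟨fun w hw h => Topi_nonneg hpm j hw h, fun w w' hw h => Topi_mono hpm j hw h,
    fun J A c w h => Topi_linear j A c w h, fun w hw i hi h => Topi_incr hpm hw hi h,
    fun w w' => Topi_adj hs j w w', fun w hw => Topi_sum_le hs hD hpm j hw,
    fun w c hc hw h => Topi_le hD hpm j hc hw h⟩

end Vu80
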